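import Pool.Agent.H469R2.NL.Defs

/-! NL, task ATEX: an independent pair near the model has the exact zero pattern. -/

set_option autoImplicit false
set_option linter.unusedSectionVars false

open scoped InnerProductSpace Topology ComplexOrder BoundedContinuousFunction
open Filter Pool.Agent.Helper278 Pool.Agent.Helper436.SM

namespace Pool.Agent.H469R2.NL

namespace ATEXaux

theorem small (ι : Type) [Fintype ι] (t : ι → ℝ) (ht : ∀ a, 0 < t a) (b : ℝ) (hb : 0 < b) (C : ℝ)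
    (hC : 0 ≤ C) : ∃ η : ℝ, 0 < η ∧ (∀ a, (C * η) ^ 2 < t a) ∧ (C * η) ^ 2 < b := by
  obtain ⟨μ, hμ, hμt, hμb⟩ : ∃ μ : ℝ, 0 < μ ∧ (∀ a, μ ≤ t a) ∧ μ ≤ b := by
    rcases isEmpty_or_nonempty ι with h | h
    · exact ⟨b, hb, fun a => (h.false a).elim, le_refl _⟩
    · obtain ⟨a0, ha0⟩ := Finite.exists_min t
      exact ⟨min (t a0) b, lt_min (ht a0) hb, fun a => (min_le_left _ _).trans (ha0 a),
        min_le_right _ _⟩
  have h1 : (C * (Real.sqrt μ / (C + 1))) ^ 2 < μ := by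
    have h2 : 0 < Real.sqrt μ := Real.sqrt_pos.2 hμ
    have h3 : C * (Real.sqrt μ / (C + 1)) < Real.sqrt μ := by
      rw [← mul_div_assoc, div_lt_iff₀ (by linarith)]
      nlinarith
    have h4 : 0 ≤ C * (Real.sqrt μ / (C + 1)) := by positivity
    have h5 := Real.sq_sqrt hμ.le
    nlinarith
  exact ⟨Real.sqrt μ / (C + 1), by positivity, fun a => h1.trans_le (hμt a), h1.trans_le hμb⟩

theorem _root_.Pool.Agent.Helper278.TrAlg.re_nonneg_cast {A : Type*} [Ring A] [StarRing A]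
    [Algebra ℂ A] [StarModule ℂ A] {τ : A →ₗ[ℂ] ℂ} (h : TrAlg τ) (x : A) :
    (((τ (star x * x)).re : ℝ) : ℂ) = τ (star x * x) := by
  apply Complex.ext
  · simp
  · simp [h.im_zero x]

/-- a complex idempotent is `0` or `1`; if it is at distance less than one from `0` or `1` then it
is equal to it -/
theorem idem_eq {z e : ℂ} (hz : z * z = z) (he : e = 0 ∨ e = 1) (h : ‖z - e‖ < 1) : z = e := by
  have h0 : z = 0 ∨ z = 1 := by
    have : z * (z - 1) = 0 := by rw [mul_sub, mul_one, hz, sub_self]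
    rcases mul_eq_zero.1 this with h | h
    · exact Or.inl h
    · exact Or.inr (sub_eq_zero.1 h)
  rcases h0 with h0 | h0 <;> rcases he with he | he <;> subst h0 <;> subst he
  · rfl
  · simp at h
  · simp at h
  · rfl

section

variable {ι : Type} [Fintype ι] [DecidableEq ι] {H : Type} [NormedAddCommGroup H]
  [InnerProductSpace ℂ H] [CompleteSpace H] {N : VonNeumannAlgebra H} {H' : Type}
  [NormedAddCommGroup H'] [InnerProductSpace ℂ H'] [CompleteSpace H'] {N' : VonNeumannAlgebra H'}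

/-- the model partition -/
noncomputable def rr (Φ : Elt N' ≃⋆ₐ[ℂ] ((ι × ι → ℂ) × Elt N)) (k : ι × ι → ι) (P : ι → Elt N)
    (i : ι) : Elt N' := Φ.symm (fun a => if k a = i then 1 else 0, P i)

theorem Φrr (Φ : Elt N' ≃⋆ₐ[ℂ] ((ι × ι → ℂ) × Elt N)) (k : ι × ι → ι) (P : ι → Elt N) (i : ι) :
    Φ (rr Φ k P i) = (fun a => if k a = i then 1 else 0, P i) := Φ.apply_symm_apply _

theorem rr_pvm (Φ : Elt N' ≃⋆ₐ[ℂ] ((ι × ι → ℂ) × Elt N)) (k : ι × ι → ι) (P : ι → Elt N)
    (hP : PVM 1 P) : PVM 1 (rr Φ k P) where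
  sa i := by
    apply EquivLike.injective Φ
    rw [show Φ (star (rr Φ k P i)) = star (Φ (rr Φ k P i)) from Φ.map_star' _, Φrr]
    refine Prod.ext ?_ (hP.sa i)
    funext a
    show star (if k a = i then (1 : ℂ) else 0) = if k a = i then 1 else 0
    split_ifs
    · exact star_one ℂ
    · exact star_zero ℂ
  idem i := by
    apply EquivLike.injective Φ
    rw [map_mul, Φrr]
    refine Prod.ext ?_ (hP.idem i)
    funext a
    show (if k a = i then (1 : ℂ) else 0) * (if k a = i then (1 : ℂ) else 0) =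
      if k a = i then 1 else 0
    split_ifs
    · exact mul_one 1
    · exact mul_zero 0
  orth i j hij := by
    apply EquivLike.injective Φ
    rw [map_mul, Φrr, Φrr, map_zero]
    refine Prod.ext ?_ (hP.orth i j hij)
    funext a
    show (if k a = i then (1 : ℂ) else 0) * (if k a = j then (1 : ℂ) else 0) = 0
    by_cases h : k a = i
    · rw [if_neg (fun h' => hij (h.symm.trans h')), mul_zero]
    · rw [if_neg h, zero_mul]
  sum := by
    apply EquivLike.injective Φ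
    rw [map_sum, map_one]
    simp only [Φrr]
    refine Prod.ext ?_ ?_
    · rw [Prod.fst_sum]
      funext a
      simp
    · rw [Prod.snd_sum]
      exact hP.sum

theorem sum_rr (Φ : Elt N' ≃⋆ₐ[ℂ] ((ι × ι → ℂ) × Elt N)) (k : ι × ι → ι) (P : ι → Elt N)
    (lam : ι → ℂ) : ∑ i, lam i • rr Φ k P i =
      Φ.symm (fun a => lam (k a), ∑ i, lam i • P i) := by
  apply EquivLike.injective Φ
  rw [Φ.apply_symm_apply, map_sum]
  refine Prod.ext ?_ ?_
  · rw [Prod.fst_sum]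
    funext a
    rw [Finset.sum_apply]
    simp only [map_smul, Φrr, Prod.smul_fst, Pi.smul_apply, smul_eq_mul]
    simp
  · rw [Prod.snd_sum]
    simp only [map_smul, Φrr, Prod.smul_snd]

theorem proj_pvm (Φ : Elt N' ≃⋆ₐ[ℂ] ((ι × ι → ℂ) × Elt N)) (p : ι → Elt N') (hp : PVM 1 p) :
    PVM 1 (fun i => (Φ (p i)).2) where
  sa i := by
    have h : (Φ (star (p i))).2 = (Φ (p i)).2 := by rw [hp.sa i]
    rw [show Φ (star (p i)) = star (Φ (p i)) from Φ.map_star' _] at h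
    exact h
  idem i := by
    have h := congrArg (fun x => (Φ x).2) (hp.idem i)
    simp only [map_mul] at h
    exact h
  orth i j hij := by
    have h := congrArg (fun x => (Φ x).2) (hp.orth i j hij)
    simp only [map_mul, map_zero] at h
    exact h
  sum := by
    have h := congrArg (fun x => (Φ x).2) hp.sum
    simp only [map_sum, map_one, Prod.snd_sum] at h
    exact h

/-- the 2-norm in the direct sum -/
theorem n2_sq_eq (T : TracialState N) (T' : TracialState N')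
    (Φ : Elt N' ≃⋆ₐ[ℂ] ((ι × ι → ℂ) × Elt N)) (t : ι × ι → ℝ) (w : ℝ)
    (hΦ : ∀ x, T'.τ x = ∑ a, (t a : ℂ) * (Φ x).1 a + (w : ℂ) * T.τ (Φ x).2) (x : Elt N') :
    n2 T'.τ x ^ 2 = ∑ a, t a * ‖(Φ x).1 a‖ ^ 2 + w * n2 T.τ (Φ x).2 ^ 2 := by
  rw [(trAlg T').n2_sq, (trAlg T).n2_sq, hΦ, Complex.add_re, Complex.re_sum, map_mul,
    show Φ (star x) = star (Φ x) from Φ.map_star' _]
  congr 1
  · refine Finset.sum_congr rfl fun a _ => ?_
    have e : (star (Φ x) * Φ x).1 a = (starRingEnd ℂ) ((Φ x).1 a) * (Φ x).1 a := rfl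
    rw [e, Complex.conj_mul', ← Complex.ofReal_pow, ← Complex.ofReal_mul, Complex.ofReal_re]
  · rw [Complex.re_ofReal_mul]
    rfl

end

end ATEXaux

open ATEXaux in
theorem t_ATEX (h1 : S_CS) : S_ATEX := by
  intro ι _ _ _ lam C hSpec H _ _ _ N T c s hc hcs t w hw ht htc hsum H' _ _ _ N' T' Φ hΦ δ hδ
  obtain ⟨_, _, hC, hSp⟩ := hSpec
  obtain ⟨η, hη, hηt, hηw⟩ := small (ι × ι) t ht (w * δ ^ 2) (by positivity) C hC
  refine ⟨η, hη, ?_⟩
  intro P Q hP hQ u' hu' v' hv' hind hu hv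
  have hT := trAlg T
  have hT' := trAlg T'
  have mulΦ : ∀ x y, Φ (x * y) = Φ x * Φ y := fun x y => map_mul Φ x y
  -- one partition
  have key : ∀ (k : ι × ι → ι) (R : ι → Elt N), PVM 1 R → ∀ x ∈ unitary (Elt N'),
      n2 T'.τ (x - Φ.symm (fun a => lam (k a), ∑ i, lam i • R i)) ≤ η →
      ∃ p : ι → Elt N', PVM 1 p ∧ (∀ i, p i ∈ wstar T'.τ x) ∧
        (∀ i a, (Φ (p i)).1 a = if k a = i then 1 else 0) ∧
        ∀ i, n2 T.τ ((Φ (p i)).2 - R i) ≤ δ := by
    intro k R hR x hx hxη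
    obtain ⟨p, hp, hpw, hpr⟩ := hSp H' N' T' x hx
    have hd := hpr (rr Φ k R) (rr_pvm Φ k R hR)
    rw [sum_rr] at hd
    have hd2 : ∀ i, n2 T'.τ (p i - rr Φ k R i) ^ 2 ≤ (C * η) ^ 2 := fun i =>
      pow_le_pow_left₀ (n2_nonneg _ _) ((hd i).trans (mul_le_mul_of_nonneg_left hxη hC)) 2
    have hd3 : ∀ i, Φ (p i - rr Φ k R i) =
        (fun a => (Φ (p i)).1 a - (if k a = i then 1 else 0), (Φ (p i)).2 - R i) := by
      intro i
      rw [map_sub, Φrr]
      rfl
    have hsq : ∀ i, n2 T'.τ (p i - rr Φ k R i) ^ 2 =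
        ∑ a, t a * ‖(Φ (p i)).1 a - (if k a = i then 1 else 0)‖ ^ 2 +
          w * n2 T.τ ((Φ (p i)).2 - R i) ^ 2 := by
      intro i
      rw [n2_sq_eq T T' Φ t w hΦ, hd3]
    refine ⟨p, hp, hpw, ?_, ?_⟩
    · intro i a
      have h2 : t a * ‖(Φ (p i)).1 a - (if k a = i then 1 else 0)‖ ^ 2 < t a := by
        have h3 : t a * ‖(Φ (p i)).1 a - (if k a = i then 1 else 0)‖ ^ 2 ≤
            ∑ b, t b * ‖(Φ (p i)).1 b - (if k b = i then 1 else 0)‖ ^ 2 :=
          Finset.single_le_sum (f := fun b => t b *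
            ‖(Φ (p i)).1 b - (if k b = i then 1 else 0)‖ ^ 2)
            (fun b _ => mul_nonneg (ht b).le (by positivity)) (Finset.mem_univ a)
        have h4 : 0 ≤ w * n2 T.τ ((Φ (p i)).2 - R i) ^ 2 := by positivity
        have h5 := hsq i
        have h6 := hd2 i
        have h7 := hηt a
        linarith
      have h3 : ‖(Φ (p i)).1 a - (if k a = i then 1 else 0)‖ ^ 2 < 1 := by
        have := ht a
        by_contra hcon
        push Not at hcon
        nlinarith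
      refine idem_eq ?_ ?_ ?_
      · have h4 : (Φ (p i * p i)).1 a = (Φ (p i)).1 a := by rw [hp.idem i]
        rw [mulΦ] at h4
        exact h4
      · split_ifs
        · exact Or.inr rfl
        · exact Or.inl rfl
      · by_contra hcon
        push Not at hcon
        nlinarith [norm_nonneg ((Φ (p i)).1 a - (if k a = i then 1 else 0))]
    · intro i
      have h2 : w * n2 T.τ ((Φ (p i)).2 - R i) ^ 2 ≤ w * δ ^ 2 := by
        have h3 : 0 ≤ ∑ b, t b * ‖(Φ (p i)).1 b - (if k b = i then 1 else 0)‖ ^ 2 :=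
          Finset.sum_nonneg fun b _ => mul_nonneg (ht b).le (by positivity)
        have h5 := hsq i
        have h6 := hd2 i
        linarith
      have h3 := le_of_mul_le_mul_left h2 hw
      exact (pow_le_pow_iff_left₀ (n2_nonneg _ _) hδ.le two_ne_zero).1 h3
  obtain ⟨p, hp, hpw, hpa, hpδ⟩ := key Prod.fst P hP u' hu' hu
  obtain ⟨q, hq, hqw, hqa, hqδ⟩ := key Prod.snd Q hQ v' hv' hv
  have hP' := proj_pvm Φ p hp
  have hQ' := proj_pvm Φ q hq
  refine ⟨fun i => (Φ (p i)).2, fun j => (Φ (q j)).2, hP', hQ', ?_, hpδ, hqδ⟩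
  -- traces of products
  have hpq : ∀ i j, T'.τ (p i * q j) =
      (t (i, j) : ℂ) + (w : ℂ) * T.τ ((Φ (p i)).2 * (Φ (q j)).2) := by
    intro i j
    rw [hΦ, mulΦ]
    congr 1
    have h2 : ∀ a : ι × ι, (t a : ℂ) * (Φ (p i) * Φ (q j)).1 a =
        if a = (i, j) then (t a : ℂ) else 0 := by
      intro a
      have h3 : (Φ (p i) * Φ (q j)).1 a = (Φ (p i)).1 a * (Φ (q j)).1 a := rfl
      rw [h3, hpa, hqa]
      by_cases h4 : a.1 = i
      · by_cases h5 : a.2 = j
        · rw [if_pos h4, if_pos h5, if_pos (Prod.ext h4 h5), mul_one, mul_one]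
        · rw [if_neg h5, if_neg (fun h => h5 (congrArg Prod.snd h)), mul_zero, mul_zero]
      · rw [if_neg h4, if_neg (fun h => h4 (congrArg Prod.fst h)), zero_mul, mul_zero]
    rw [Finset.sum_congr rfl fun a _ => h2 a, Finset.sum_ite_eq' Finset.univ,
      if_pos (Finset.mem_univ _)]
  have hg : ∀ i j, T.τ ((Φ (p i)).2 * (Φ (q j)).2) =
      ((n2 T.τ ((Φ (q j)).2 * (Φ (p i)).2) ^ 2 : ℝ) : ℂ) := by
    intro i j
    rw [hT.n2_sq, hT.re_nonneg_cast ((Φ (q j)).2 * (Φ (p i)).2)]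
    have e1 : star ((Φ (q j)).2 * (Φ (p i)).2) * ((Φ (q j)).2 * (Φ (p i)).2) =
        (Φ (p i)).2 * ((Φ (q j)).2 * (Φ (p i)).2) := by
      rw [star_mul]
      have : star (Φ (p i)).2 = (Φ (p i)).2 := hP'.sa i
      have h2 : star (Φ (q j)).2 = (Φ (q j)).2 := hQ'.sa j
      have h3 : (Φ (q j)).2 * (Φ (q j)).2 = (Φ (q j)).2 := hQ'.idem j
      rw [this, h2, mul_assoc, ← mul_assoc (Φ (q j)).2, h3]
    have h3 : (Φ (p i)).2 * (Φ (p i)).2 = (Φ (p i)).2 := hP'.idem i
    rw [e1, hT.comm (Φ (p i)).2 ((Φ (q j)).2 * (Φ (p i)).2), mul_assoc, h3, hT.comm]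
  have hind2 : ∀ i j, T'.τ (p i * q j) = T'.τ (p i) * T'.τ (q j) := fun i j =>
    hind (p i) (hpw i) (q j) (hqw j)
  have hreal : ∀ x : Elt N', star x = x → x * x = x → T'.τ x = ((n2 T'.τ x ^ 2 : ℝ) : ℂ) := by
    intro x hx hxx
    rw [hT'.n2_sq, hT'.re_nonneg_cast x, hx, hxx]
  have hA := fun i => hreal (p i) (hp.sa i) (hp.idem i)
  have hB := fun j => hreal (q j) (hq.sa j) (hq.idem j)
  have hAB : ∀ i j, n2 T'.τ (p i) ^ 2 * n2 T'.τ (q j) ^ 2 =
      t (i, j) + w * n2 T.τ ((Φ (q j)).2 * (Φ (p i)).2) ^ 2 := by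
    intro i j
    have h2 := hind2 i j
    rw [hpq, hg, hA, hB] at h2
    exact_mod_cast h2.symm
  have hsA : ∑ i, n2 T'.τ (p i) ^ 2 = 1 := by
    have h2 : T'.τ (∑ i, p i) = 1 := by rw [hp.sum]; exact T'.map_one
    rw [map_sum, Finset.sum_congr rfl fun i _ => hA i] at h2
    exact_mod_cast h2
  have hsB : ∑ j, n2 T'.τ (q j) ^ 2 = 1 := by
    have h2 : T'.τ (∑ j, q j) = 1 := by rw [hq.sum]; exact T'.map_one
    rw [map_sum, Finset.sum_congr rfl fun i _ => hB i] at h2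
    exact_mod_cast h2
  obtain ⟨hA1, hB1⟩ := h1 ι s (fun i => n2 T'.τ (p i) ^ 2) (fun j => n2 T'.τ (q j) ^ 2)
    (fun i => by positivity) (fun j => by positivity) hsA hsB (by
      intro i
      rw [hAB, htc, hcs]
      have : 0 ≤ w * n2 T.τ ((Φ (q (s i))).2 * (Φ (p i)).2) ^ 2 := by positivity
      linarith)
  intro i j hij
  have h2 := hAB i j
  rw [hA1, hB1, htc, hij] at h2
  have h3 : n2 T.τ ((Φ (q j)).2 * (Φ (p i)).2) ^ 2 = 0 := by
    have h4 : w * n2 T.τ ((Φ (q j)).2 * (Φ (p i)).2) ^ 2 = 0 := by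
      have : (1 / (Fintype.card ι : ℝ)) * (1 / (Fintype.card ι : ℝ)) =
        (1 / (Fintype.card ι : ℝ)) ^ 2 := by ring
      linarith
    rcases mul_eq_zero.1 h4 with h | h
    · exact absurd h hw.ne'
    · exact h
  have h4 : (Φ (q j)).2 * (Φ (p i)).2 = 0 := by
    apply hT.faithful
    rw [← hT.re_nonneg_cast, ← hT.n2_sq, h3, Complex.ofReal_zero]
  have h5 := congrArg star h4
  rw [star_mul, star_zero] at h5
  have h6 : star (Φ (p i)).2 = (Φ (p i)).2 := hP'.sa i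
  have h7 : star (Φ (q j)).2 = (Φ (q j)).2 := hQ'.sa j
  rw [h6, h7] at h5
  exact h5

end Pool.Agent.H469R2.NL
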