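import Pool.Agent.H469R2.NL.Defs
import Pool.Agent.Helper278.KLift

set_option autoImplicit false

open scoped InnerProductSpace Topology ComplexOrder BoundedContinuousFunction
open Filter Pool.Agent.Helper278 Pool.Agent.Helper436.SM

namespace Pool.Agent.H469R2.NL

theorem t_ATMOD : S_ATMOD := by
  intro H _ _ _ N T U Q _ _ _ _ π σ hπ ι _ _ lam hlam p q hp hq hpq
  classical
  have hS := sigma_trAlg hπ
  set m := Fintype.card ι with hm
  have hm0 : (m : ℂ) ≠ 0 := by
    have : 0 < m := Fintype.card_pos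
    exact_mod_cast this.ne'
  have e : ι ≃ Fin m := Fintype.equivFin ι
  -- the images are partitions of the unity
  have hpvm : ∀ r : ι → (ℕ →ᵇ Elt N), (∀ n, PVM 1 (fun i => r i n)) →
      Pool.Agent.Helper278.PVM (fun k : Fin m => π (r (e.symm k))) := by
    intro r hr
    refine ⟨fun k => ?_, fun k => ?_, fun k l hkl => ?_, ?_⟩
    · rw [← map_star]
      congr 1
      ext1 n
      exact (hr n).sa _
    · rw [← map_mul]
      congr 1
      ext1 n
      exact (hr n).idem _
    · rw [← map_mul]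
      have : r (e.symm k) * r (e.symm l) = 0 := by
        ext1 n
        exact (hr n).orth _ _ (fun h => hkl (e.symm.injective h))
      rw [this, map_zero]
    · rw [Equiv.sum_comp e.symm (fun i => π (r i)), ← map_sum]
      have : ∑ i, r i = 1 := by
        ext1 n
        rw [BoundedContinuousFunction.sum_apply]
        exact (hr n).sum
      rw [this, map_one]
  have hsum : ∀ r : ι → (ℕ →ᵇ Elt N), π (∑ i, lam i • r i) =
      ∑ k : Fin m, lam (e.symm k) • π (r (e.symm k)) := by
    intro r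
    rw [Equiv.sum_comp e.symm (fun i => lam i • π (r i)), map_sum]
    exact Finset.sum_congr rfl fun i _ => map_smul _ _ _
  have hprod : ∀ i j, σ (π (p i) * π (q j)) = (1 / (m : ℂ)) ^ 2 := by
    intro i j
    rw [← map_mul]
    have h1 := hπ.trace (p i * q j)
    have h2 := tendsto_nhds_unique h1 (hpq i j)
    rw [h2]
    push_cast
    ring
  have hone : ∀ r : ι → (ℕ →ᵇ Elt N), (∀ n, PVM 1 (fun i => r i n)) → ∑ i, π (r i) = 1 := by
    intro r hr
    rw [← Equiv.sum_comp e.symm (fun i => π (r i))]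
    exact (hpvm r hr).sum
  have hσp : ∀ i, σ (π (p i)) = 1 / m := by
    intro i
    have h1 : sigmaL hπ (π (p i)) = ∑ j, sigmaL hπ (π (p i) * π (q j)) := by
      rw [← map_sum, ← Finset.mul_sum, hone q hq, mul_one]
    have h2 : ∑ j, sigmaL hπ (π (p i) * π (q j)) = ∑ _j : ι, (1 / (m : ℂ)) ^ 2 :=
      Finset.sum_congr rfl fun j _ => hprod i j
    rw [h2, Finset.sum_const, Finset.card_univ, nsmul_eq_mul] at h1
    have h3 : σ (π (p i)) = (Fintype.card ι : ℂ) * (1 / (m : ℂ)) ^ 2 := h1
    rw [h3, ← hm]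
    field_simp
  have hσq : ∀ j, σ (π (q j)) = 1 / m := by
    intro j
    have h1 : sigmaL hπ (π (q j)) = ∑ i, sigmaL hπ (π (p i) * π (q j)) := by
      rw [← map_sum, ← Finset.sum_mul, hone p hp, one_mul]
    have h2 : ∑ i, sigmaL hπ (π (p i) * π (q j)) = ∑ _i : ι, (1 / (m : ℂ)) ^ 2 :=
      Finset.sum_congr rfl fun i _ => hprod i j
    rw [h2, Finset.sum_const, Finset.card_univ, nsmul_eq_mul] at h1
    have h3 : σ (π (q j)) = (Fintype.card ι : ℂ) * (1 / (m : ℂ)) ^ 2 := h1
    rw [h3, ← hm]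
    field_simp
  have hl : ∀ k : Fin m, star (lam (e.symm k)) * lam (e.symm k) = 1 := by
    intro k
    have h1 := hlam (e.symm k)
    have h2 : star (lam (e.symm k)) * lam (e.symm k) = ((‖lam (e.symm k)‖ ^ 2 : ℝ) : ℂ) := by
      rw [← Complex.normSq_eq_norm_sq]
      exact Complex.normSq_eq_conj_mul_self.symm
    rw [h2, h1]
    norm_num
  rw [hsum p, hsum q]
  refine ⟨unitary_of_pvm _ (hpvm p hp) _ hl, unitary_of_pvm _ (hpvm q hq) _ hl, ?_⟩
  have h5 := indepPair_of_pvm hS (fun k : Fin m => π (p (e.symm k)))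
    (fun k : Fin m => π (q (e.symm k))) (hpvm p hp) (hpvm q hq) (fun i j => by
      show σ (π (p (e.symm i)) * π (q (e.symm j))) = σ (π (p (e.symm i))) * σ (π (q (e.symm j)))
      rw [hprod, hσp, hσq]
      ring) (fun k => lam (e.symm k)) (fun k => lam (e.symm k))
  exact h5

end Pool.Agent.H469R2.NL
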