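import Pool.Agent.H469R2.NL.Defs

/-! BOC: Bochner's theorem for two commuting unitaries (Fejér kernels and compactness of the space
of measures of bounded mass on the torus). -/

set_option autoImplicit false

open scoped InnerProductSpace Topology ComplexOrder BoundedContinuousFunction
open Filter

namespace Pool.Agent.H469R2.NL

open MeasureTheory AddCircle
open scoped ComplexConjugate

/-- the character -/
private noncomputable def bocE (p : ℤ × ℤ) (z : TT) : ℂ := fourier p.1 z.1 * fourier p.2 z.2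

private theorem bocE_add (p q : ℤ × ℤ) (z : TT) : bocE (p + q) z = bocE p z * bocE q z := by
  simp only [bocE, Prod.fst_add, Prod.snd_add, fourier_add]; ring

private theorem bocE_neg (p : ℤ × ℤ) (z : TT) : bocE (-p) z = conj (bocE p z) := by
  simp only [bocE, Prod.fst_neg, Prod.snd_neg, fourier_neg, map_mul]

private theorem bocE_zero (z : TT) : bocE 0 z = 1 := by
  simp only [bocE, Prod.fst_zero, Prod.snd_zero, fourier_zero, mul_one]

private theorem bocE_cont (p : ℤ × ℤ) : Continuous (bocE p) := by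
  unfold bocE; fun_prop

private noncomputable def bocM : Measure TT :=
  (haarAddCircle (T := (1 : ℝ))).prod (haarAddCircle (T := (1 : ℝ)))

private instance : IsProbabilityMeasure bocM := by unfold bocM; infer_instance

private theorem boc_int1 (n : ℤ) : ∫ x : UnitAddCircle, fourier n x ∂haarAddCircle =
    if n = 0 then 1 else 0 := by
  split_ifs with h
  · subst h; simp
  · exact integral_eq_zero_of_add_right_eq_neg (μ := haarAddCircle)
      (fourier_add_half_inv_index h one_pos)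

private theorem boc_int (p : ℤ × ℤ) : ∫ z : TT, bocE p z ∂bocM = if p = 0 then 1 else 0 := by
  have h : ∫ z : TT, bocE p z ∂bocM = (∫ x : UnitAddCircle, fourier p.1 x ∂haarAddCircle) *
      ∫ x : UnitAddCircle, fourier p.2 x ∂haarAddCircle := by
    unfold bocM bocE
    exact integral_prod_mul (μ := haarAddCircle (T := (1:ℝ))) (ν := haarAddCircle (T := (1:ℝ)))
      (fun x : UnitAddCircle => (fourier p.1 x : ℂ)) (fun x : UnitAddCircle => (fourier p.2 x : ℂ))
  rw [h, boc_int1, boc_int1]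
  by_cases h1 : p.1 = 0 <;> by_cases h2 : p.2 = 0 <;> simp [h1, h2, Prod.ext_iff]

section
variable {K : Type} [NormedAddCommGroup K] [InnerProductSpace ℂ K] (U V : K ≃ₗᵢ[ℂ] K)

private noncomputable def bocW (p : ℤ × ℤ) : K ≃ₗᵢ[ℂ] K := U ^ p.1 * V ^ p.2

private theorem bocW_add (h : U * V = V * U) (p q : ℤ × ℤ) :
    bocW U V (p + q) = bocW U V p * bocW U V q := by
  have hc : Commute U V := h
  unfold bocW
  rw [Prod.fst_add, Prod.snd_add, zpow_add, zpow_add]
  have := (hc.zpow_zpow q.1 p.2).eq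
  calc U ^ p.1 * U ^ q.1 * (V ^ p.2 * V ^ q.2) = U ^ p.1 * (U ^ q.1 * V ^ p.2) * V ^ q.2 := by
        simp only [mul_assoc]
    _ = U ^ p.1 * (V ^ p.2 * U ^ q.1) * V ^ q.2 := by rw [this]
    _ = U ^ p.1 * V ^ p.2 * (U ^ q.1 * V ^ q.2) := by simp only [mul_assoc]

private theorem bocW_inner (h : U * V = V * U) (p q : ℤ × ℤ) (ξ : K) :
    ⟪bocW U V p ξ, bocW U V q ξ⟫_ℂ = ⟪ξ, bocW U V (q - p) ξ⟫_ℂ := by
  have h1 : bocW U V q = bocW U V p * bocW U V (q - p) := by
    rw [← bocW_add U V h]; congr 1; abel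
  rw [h1]
  exact LinearIsometryEquiv.inner_map_map (bocW U V p) ξ (bocW U V (q - p) ξ)

private noncomputable def bocF (S : Finset (ℤ × ℤ)) (ξ : K) (z : TT) : K :=
  ∑ p ∈ S, conj (bocE p z) • bocW U V p ξ

private theorem bocF_cont (S : Finset (ℤ × ℤ)) (ξ : K) : Continuous (bocF U V S ξ) := by
  unfold bocF
  refine continuous_finsetSum _ fun p _ => ?_
  exact ((Complex.continuous_conj.comp (bocE_cont p))).smul continuous_const

private theorem bocF_sq (h : U * V = V * U) (S : Finset (ℤ × ℤ)) (ξ : K) (z : TT) :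
    ((‖bocF U V S ξ z‖ ^ 2 : ℝ) : ℂ) =
      ∑ p ∈ S, ∑ q ∈ S, bocE (p - q) z * ⟪ξ, bocW U V (q - p) ξ⟫_ℂ := by
  have h1 : ((‖bocF U V S ξ z‖ ^ 2 : ℝ) : ℂ) = ⟪bocF U V S ξ z, bocF U V S ξ z⟫_ℂ := by
    rw [inner_self_eq_norm_sq_to_K]; push_cast; rfl
  rw [h1]
  unfold bocF
  rw [sum_inner]
  refine Finset.sum_congr rfl fun p _ => ?_
  rw [inner_sum]
  refine Finset.sum_congr rfl fun q _ => ?_
  have h2 : bocE (p - q) z = bocE p z * conj (bocE q z) := by
    rw [sub_eq_add_neg, bocE_add, bocE_neg]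
  rw [inner_smul_left, inner_smul_right, bocW_inner U V h, Complex.conj_conj, h2]
  ring

private theorem boc_coef (h : U * V = V * U) (S : Finset (ℤ × ℤ)) (ξ : K) (r : ℤ × ℤ) :
    ∫ z : TT, bocE r z * ((‖bocF U V S ξ z‖ ^ 2 : ℝ) : ℂ) ∂bocM =
      ((S.filter fun p => p + r ∈ S).card : ℂ) * ⟪ξ, bocW U V r ξ⟫_ℂ := by
  have h1 : ∀ z : TT, bocE r z * ((‖bocF U V S ξ z‖ ^ 2 : ℝ) : ℂ) =
      ∑ p ∈ S, ∑ q ∈ S, bocE (p + r - q) z * ⟪ξ, bocW U V (q - p) ξ⟫_ℂ := by
    intro z
    rw [bocF_sq U V h, Finset.mul_sum]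
    refine Finset.sum_congr rfl fun p _ => ?_
    rw [Finset.mul_sum]
    refine Finset.sum_congr rfl fun q _ => ?_
    rw [← mul_assoc, ← bocE_add]
    congr 2; abel
  have hint : ∀ p q : ℤ × ℤ, Integrable (fun z : TT => bocE (p + r - q) z *
      ⟪ξ, bocW U V (q - p) ξ⟫_ℂ) bocM := fun p q =>
    ((bocE_cont _).mul continuous_const).integrable_of_hasCompactSupport
      (HasCompactSupport.of_compactSpace _)
  calc ∫ z : TT, bocE r z * ((‖bocF U V S ξ z‖ ^ 2 : ℝ) : ℂ) ∂bocM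
      = ∫ z : TT, ∑ p ∈ S, ∑ q ∈ S, bocE (p + r - q) z * ⟪ξ, bocW U V (q - p) ξ⟫_ℂ ∂bocM :=
        integral_congr_ae (Eventually.of_forall h1)
    _ = ∑ p ∈ S, ∑ q ∈ S, ∫ z : TT, bocE (p + r - q) z * ⟪ξ, bocW U V (q - p) ξ⟫_ℂ ∂bocM := by
        rw [integral_finsetSum _ fun p _ => integrable_finsetSum _ fun q _ => hint p q]
        refine Finset.sum_congr rfl fun p _ => ?_
        rw [integral_finsetSum _ fun q _ => hint p q]
    _ = ∑ p ∈ S, ∑ q ∈ S, (if q = p + r then ⟪ξ, bocW U V r ξ⟫_ℂ else 0) := by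
        refine Finset.sum_congr rfl fun p _ => Finset.sum_congr rfl fun q _ => ?_
        rw [integral_mul_const, boc_int]
        by_cases hq : q = p + r
        · subst hq
          have h2 : p + r - p = r := by abel
          rw [sub_self, if_pos rfl, if_pos rfl, h2, one_mul]
        · rw [if_neg hq, if_neg (fun h0 => hq (sub_eq_zero.mp h0).symm), zero_mul]
    _ = ∑ p ∈ S, (if p + r ∈ S then ⟪ξ, bocW U V r ξ⟫_ℂ else 0) := by
        refine Finset.sum_congr rfl fun p _ => ?_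
        rw [Finset.sum_ite_eq']
    _ = ((S.filter fun p => p + r ∈ S).card : ℂ) * ⟪ξ, bocW U V r ξ⟫_ℂ := by
        rw [← Finset.sum_filter, Finset.sum_const, nsmul_eq_mul]

end

private noncomputable def bocS (N : ℕ) : Finset (ℤ × ℤ) := Finset.Ico 0 (N : ℤ) ×ˢ Finset.Ico 0 (N : ℤ)

private theorem bocS_filter (N : ℕ) (r : ℤ × ℤ) : ((bocS N).filter fun p => p + r ∈ bocS N) =
    ((Finset.Ico 0 (N : ℤ)).filter fun a => a + r.1 ∈ Finset.Ico 0 (N : ℤ)) ×ˢ
    ((Finset.Ico 0 (N : ℤ)).filter fun a => a + r.2 ∈ Finset.Ico 0 (N : ℤ)) := by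
  ext p
  simp only [bocS, Finset.mem_filter, Finset.mem_product, Prod.fst_add, Prod.snd_add]
  tauto

private theorem boc_card1 (r : ℤ) : Tendsto (fun N : ℕ =>
    (((Finset.Ico 0 (N : ℤ)).filter fun a => a + r ∈ Finset.Ico 0 (N : ℤ)).card : ℝ) / N)
    atTop (𝓝 1) := by
  have hcard : ∀ N : ℕ, (((Finset.Ico 0 (N : ℤ)).filter fun a =>
      a + r ∈ Finset.Ico 0 (N : ℤ)).card) = (min (N : ℤ) (N - r) - max 0 (-r)).toNat := by
    intro N
    have : ((Finset.Ico 0 (N : ℤ)).filter fun a => a + r ∈ Finset.Ico 0 (N : ℤ)) =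
        Finset.Ico (max 0 (-r)) (min (N : ℤ) (N - r)) := by
      ext a
      simp only [Finset.mem_filter, Finset.mem_Ico]
      omega
    rw [this, Int.card_Ico]
  have hlow : ∀ N : ℕ, (N : ℝ) - |(r : ℝ)| ≤ (((Finset.Ico 0 (N : ℤ)).filter fun a =>
      a + r ∈ Finset.Ico 0 (N : ℤ)).card : ℝ) := by
    intro N
    rw [hcard]
    have h1 : (N : ℤ) - |r| ≤ ((min (N : ℤ) (N - r) - max 0 (-r)).toNat : ℤ) := by
      rcases abs_cases r with h | h <;> omega
    exact_mod_cast h1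
  have hup : ∀ N : ℕ, (((Finset.Ico 0 (N : ℤ)).filter fun a =>
      a + r ∈ Finset.Ico 0 (N : ℤ)).card : ℝ) ≤ N := by
    intro N
    rw [hcard]
    have h1 : ((min (N : ℤ) (N - r) - max 0 (-r)).toNat : ℤ) ≤ N := by omega
    exact_mod_cast h1
  have hlim : Tendsto (fun N : ℕ => 1 - |(r : ℝ)| / N) atTop (𝓝 1) := by
    have := (tendsto_const_div_atTop_nhds_zero_nat |(r : ℝ)|).const_sub 1
    simpa using this
  refine tendsto_of_tendsto_of_tendsto_of_le_of_le' hlim tendsto_const_nhds ?_ ?_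
  · filter_upwards [eventually_gt_atTop 0] with N hN
    have hN' : (0 : ℝ) < N := by exact_mod_cast hN
    rw [show (1 : ℝ) - |(r : ℝ)| / N = (N - |(r : ℝ)|) / N by field_simp]
    exact div_le_div_of_nonneg_right (hlow N) hN'.le
  · filter_upwards [eventually_gt_atTop 0] with N hN
    have hN' : (0 : ℝ) < N := by exact_mod_cast hN
    rw [div_le_one hN']
    exact hup N

private theorem boc_card (r : ℤ × ℤ) : Tendsto (fun N : ℕ =>
    (((bocS N).filter fun p => p + r ∈ bocS N).card : ℝ) / (N : ℝ) ^ 2) atTop (𝓝 1) := by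
  have h := (boc_card1 r.1).mul (boc_card1 r.2)
  rw [mul_one] at h
  refine h.congr fun N => ?_
  rw [bocS_filter, Finset.card_product]
  push_cast
  ring

theorem t_BOC : S_BOC := by
  intro K _ _ U V h ξ
  -- densities
  let d : ℕ → TT → ℝ := fun N z => ‖bocF U V (bocS N) ξ z‖ ^ 2 / (N : ℝ) ^ 2
  have hd0 : ∀ N z, 0 ≤ d N z := fun N z => by positivity
  have hdc : ∀ N, Continuous (d N) := fun N =>
    ((bocF_cont U V (bocS N) ξ).norm.pow 2).div_const _
  have hdi : ∀ N, Integrable (d N) bocM := fun N =>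
    (hdc N).integrable_of_hasCompactSupport (HasCompactSupport.of_compactSpace _)
  -- coefficients
  have hcoef : ∀ N r, ∫ z : TT, (d N z : ℂ) * bocE r z ∂bocM =
      (((((bocS N).filter fun p => p + r ∈ bocS N).card : ℝ) / (N : ℝ) ^ 2 : ℝ) : ℂ) *
        ⟪ξ, bocW U V r ξ⟫_ℂ := by
    intro N r
    have h1 : ∀ z : TT, (d N z : ℂ) * bocE r z =
        bocE r z * ((‖bocF U V (bocS N) ξ z‖ ^ 2 : ℝ) : ℂ) * (1 / (N : ℂ) ^ 2) := by
      intro z
      simp only [d]
      push_cast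
      ring
    rw [integral_congr_ae (Eventually.of_forall h1), integral_mul_const, boc_coef U V h]
    push_cast
    ring
  let μ' : ℕ → Measure TT := fun N => bocM.withDensity fun z => ENNReal.ofReal (d N z)
  have hfin : ∀ N, IsFiniteMeasure (μ' N) := fun N =>
    isFiniteMeasure_withDensity_ofReal (hdi N).2
  have hint : ∀ N (f : TT → ℂ), ∫ z, f z ∂(μ' N) = ∫ z, (d N z : ℂ) * f z ∂bocM := by
    intro N f
    have h1 := integral_withDensity_eq_integral_toReal_smul (μ := bocM)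
      (f := fun z => ENNReal.ofReal (d N z)) ((hdc N).measurable.ennreal_ofReal)
      (Eventually.of_forall fun z => ENNReal.ofReal_lt_top) f
    rw [h1]
    refine integral_congr_ae (Eventually.of_forall fun z => ?_)
    show (ENNReal.ofReal (d N z)).toReal • f z = _
    rw [ENNReal.toReal_ofReal (hd0 N z), Complex.real_smul]
  let C : NNReal := ⟨‖ξ‖ ^ 2, by positivity⟩
  let μs : ℕ → FiniteMeasure TT := fun N => ⟨μ' N, hfin N⟩
  have hmass : ∀ N, (μs N).mass ≤ C := by
    intro N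
    have h2 := hcoef N 0
    have h3 : ∫ z : TT, (d N z : ℂ) * bocE 0 z ∂bocM = ((∫ z : TT, d N z ∂bocM : ℝ) : ℂ) := by
      rw [← integral_complex_ofReal]
      refine integral_congr_ae (Eventually.of_forall fun z => ?_)
      show (d N z : ℂ) * bocE 0 z = _
      rw [bocE_zero, mul_one]
    have h4 : bocW U V 0 ξ = ξ := by
      simp [bocW]
    rw [h3, h4, inner_self_eq_norm_sq_to_K] at h2
    have h5 : ∫ z : TT, d N z ∂bocM =
        ((((bocS N).filter fun p => p + 0 ∈ bocS N).card : ℝ) / (N : ℝ) ^ 2) * ‖ξ‖ ^ 2 := by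
      apply Complex.ofReal_injective
      rw [h2]; push_cast; rfl
    have h6 : ((((bocS N).filter fun p => p + 0 ∈ bocS N).card : ℝ) / (N : ℝ) ^ 2) ≤ 1 := by
      rcases Nat.eq_zero_or_pos N with hN | hN
      · subst hN; simp
      · have hN' : (0 : ℝ) < (N : ℝ) ^ 2 := by positivity
        rw [div_le_one hN']
        have : ((bocS N).filter fun p => p + 0 ∈ bocS N).card ≤ N ^ 2 := by
          refine (Finset.card_filter_le _ _).trans ?_
          simp [bocS, Finset.card_product, sq]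
        exact_mod_cast this
    have h7 : (μ' N) Set.univ = ENNReal.ofReal (∫ z : TT, d N z ∂bocM) := by
      rw [withDensity_apply _ MeasurableSet.univ, Measure.restrict_univ,
        ofReal_integral_eq_lintegral_ofReal (hdi N) (Eventually.of_forall (hd0 N))]
    have h8 : ((μs N).mass : ENNReal) = (μ' N) Set.univ :=
      FiniteMeasure.ennreal_mass
    rw [← ENNReal.coe_le_coe, h8, h7]
    have h9 : (C : ENNReal) = ENNReal.ofReal (‖ξ‖ ^ 2) := by
      rw [ENNReal.ofReal, ENNReal.coe_inj]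
      apply NNReal.eq
      rw [Real.coe_toNNReal _ (by positivity)]
      rfl
    rw [h9]
    apply ENNReal.ofReal_le_ofReal
    rw [h5]
    calc _ ≤ 1 * ‖ξ‖ ^ 2 := mul_le_mul_of_nonneg_right h6 (by positivity)
      _ = ‖ξ‖ ^ 2 := one_mul _
  have hcomp := isCompact_setOfPred_finiteMeasure_le_of_compactSpace TT C
  let 𝒰 : Ultrafilter ℕ := hyperfilter ℕ
  have hU : (𝒰 : Filter ℕ) ≤ atTop := by
    rw [← Nat.cofinite_eq_atTop]; exact hyperfilter_le_cofinite
  obtain ⟨μ, -, hμ⟩ := hcomp.ultrafilter_le_nhds (𝒰.map μs) (by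
    rw [le_principal_iff]
    exact Filter.mem_map.mpr (Filter.Eventually.of_forall hmass))
  have hμ' : Tendsto μs 𝒰 (𝓝 μ) := hμ
  rw [FiniteMeasure.tendsto_iff_forall_integral_rclike_tendsto ℂ] at hμ'
  refine ⟨(μ : Measure TT), inferInstance, fun m n => ?_⟩
  have h1 := hμ' (BoundedContinuousFunction.mkOfCompact ⟨bocE (m, n), bocE_cont (m, n)⟩)
  have h2 : ∀ N, ∫ z : TT, (BoundedContinuousFunction.mkOfCompact
      (⟨bocE (m, n), bocE_cont (m, n)⟩ : C(TT, ℂ))) z ∂(μs N : Measure TT) =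
      (((((bocS N).filter fun p => p + (m, n) ∈ bocS N).card : ℝ) / (N : ℝ) ^ 2 : ℝ) : ℂ) *
        ⟪ξ, bocW U V (m, n) ξ⟫_ℂ := by
    intro N
    rw [← hcoef]
    exact hint N _
  have h3 : Tendsto (fun N : ℕ =>
      (((((bocS N).filter fun p => p + (m, n) ∈ bocS N).card : ℝ) / (N : ℝ) ^ 2 : ℝ) : ℂ) *
        ⟪ξ, bocW U V (m, n) ξ⟫_ℂ) atTop (𝓝 (((1 : ℝ) : ℂ) * ⟪ξ, bocW U V (m, n) ξ⟫_ℂ)) :=
    ((Complex.continuous_ofReal.tendsto _).comp (boc_card (m, n))).mul_const _
  have h4 := tendsto_nhds_unique h1 ((h3.congr fun N => (h2 N).symm).mono_left hU)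
  have h5 : ∫ z : TT, fourier m z.1 * fourier n z.2 ∂(μ : Measure TT) =
      ∫ z : TT, (BoundedContinuousFunction.mkOfCompact
      (⟨bocE (m, n), bocE_cont (m, n)⟩ : C(TT, ℂ))) z ∂(μ : Measure TT) := rfl
  rw [h5, h4, Complex.ofReal_one, one_mul]
  rfl

end Pool.Agent.H469R2.NL
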