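import Pool.Agent.H469R2.NL.Defs
import Pool.Agent.H800R.LFA.Defs

set_option autoImplicit false

open scoped InnerProductSpace Topology ComplexOrder BoundedContinuousFunction
open Filter Pool.Agent.Helper278

namespace Pool.Agent.H469R2.NL

variable {H : Type} [NormedAddCommGroup H] [InnerProductSpace ℂ H] [CompleteSpace H]
  {N : VonNeumannAlgebra H}

/-- trace of a product of two projections is real, between 0 and 1 -/
theorem tau_pq (T : TracialState N) (p q : Elt N) (hp : star p = p) (hpp : p * p = p)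
    (hq : star q = q) (hqq : q * q = q) :
    T.τ (p * q) = (((n2 T.τ (q * p)) ^ 2 : ℝ) : ℂ) := by
  have hA := trAlg T
  rw [← hA.eq_sq, star_mul, hp, hq]
  have e : p * q * (q * p) = p * q * p := by
    rw [← mul_assoc, mul_assoc p q q, hqq]
  rw [e, hA.comm (p * q) p, ← mul_assoc, hpp]

theorem n2_le_one_of_proj (T : TracialState N) (p : Elt N) (hp : star p = p) (hpp : p * p = p) :
    n2 T.τ p ≤ 1 := by
  have hA := trAlg T
  have h1 : n2 T.τ p ^ 2 = (T.τ p).re := by rw [hA.n2_sq, hp, hpp]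
  have h2 : n2 T.τ (1 - p) ^ 2 = (T.τ (1 - p)).re := by
    rw [hA.n2_sq]
    congr 2
    rw [star_sub, star_one, hp, mul_sub, sub_mul, sub_mul, hpp]
    simp
  have h3 : (T.τ (1 - p)).re = 1 - (T.τ p).re := by
    rw [map_sub, hA.one, Complex.sub_re, Complex.one_re]
  have h4 : 0 ≤ n2 T.τ (1 - p) ^ 2 := sq_nonneg _
  have h5 := n2_nonneg T.τ p
  nlinarith

/-- `n2 (q p) ≤ 1` for projections -/
theorem n2_pq_le_one (T : TracialState N) (p q : Elt N) (hp : star p = p) (hpp : p * p = p)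
    (hq : star q = q) (hqq : q * q = q) : n2 T.τ (q * p) ≤ 1 := by
  have hA := trAlg T
  have h1 := n2_le_one_of_proj T p hp hpp
  -- n2(p)^2 = n2(q p)^2 + n2((1-q)p)^2
  have h2 : n2 T.τ p ^ 2 = n2 T.τ (q * p) ^ 2 + n2 T.τ ((1 - q) * p) ^ 2 := by
    rw [hA.n2_sq, hA.n2_sq, hA.n2_sq, ← Complex.add_re, ← map_add]
    congr 2
    rw [star_mul, star_mul, star_sub, star_one, hp, hq]
    have e1 : p * q * (q * p) = p * q * p := by
      rw [← mul_assoc, mul_assoc p q q, hqq]
    have e2 : p * (1 - q) * ((1 - q) * p) = p * p - p * q * p := by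
      rw [← mul_assoc, mul_assoc p (1 - q) (1 - q)]
      have : (1 - q) * (1 - q) = 1 - q := by
        rw [mul_sub, sub_mul, sub_mul, hqq]; simp
      rw [this, mul_sub, sub_mul]; simp
    rw [e1, e2]; abel
  have h4 : 0 ≤ n2 T.τ ((1 - q) * p) ^ 2 := sq_nonneg _
  have h5 := n2_nonneg T.τ (q * p)
  have h6 := n2_nonneg T.τ p
  nlinarith

/-- a bad pattern in the sense of project LF gives `Neg`, through `S_ATOMS` -/
theorem neg_of_badPattern (hAT : S_ATOMS) (T : TracialState N) {I J : Type} [Fintype I] [Fintype J]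
    (Zs : I → J → Prop) (p : ℕ → I → Elt N) (q : ℕ → J → Elt N) (δ : ℝ)
    (hb : Pool.Agent.H800R.LFA.BadPattern T Zs p q δ) : Neg := by
  classical
  have hA := trAlg T
  -- the numbers
  set x : ℕ → (I × J → ℝ) := fun n k => n2 T.τ (q n k.2 * p n k.1) ^ 2 with hx
  have hxmem : ∀ n, x n ∈ Set.pi Set.univ (fun _ : I × J => Set.Icc (0 : ℝ) 1) := by
    intro n k _
    have h1 := n2_pq_le_one T (p n k.1) (q n k.2) ((hb.pvm_p n).star_eq _) ((hb.pvm_p n).idem _)
      ((hb.pvm_q n).star_eq _) ((hb.pvm_q n).idem _)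
    have h2 := n2_nonneg T.τ (q n k.2 * p n k.1)
    refine ⟨sq_nonneg _, ?_⟩
    simp only [hx]
    nlinarith
  have hcpt : IsCompact (Set.pi Set.univ (fun _ : I × J => Set.Icc (0 : ℝ) 1)) :=
    isCompact_univ_pi (fun _ => isCompact_Icc)
  obtain ⟨c0, hc0, φ, hφ, hlim⟩ := hcpt.tendsto_subseq hxmem
  -- the padded partitions
  let c : I ⊕ J → I ⊕ J → ℝ := fun k l =>
    match k, l with
    | Sum.inl i, Sum.inr j => c0 (i, j)
    | _, _ => 0
  let P : ℕ → I ⊕ J → Elt N := fun n => Sum.elim (p (φ n)) (fun _ => 0)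
  let Q : ℕ → I ⊕ J → Elt N := fun n => Sum.elim (fun _ => 0) (q (φ n))
  have hPp : ∀ n, PVM 1 (P n) := by
    intro n
    refine ⟨?_, ?_, ?_, ?_⟩
    · rintro (i | j)
      · exact (hb.pvm_p (φ n)).star_eq i
      · simp [P]
    · rintro (i | j)
      · exact (hb.pvm_p (φ n)).idem i
      · simp [P]
    · rintro (i | j) (i' | j') hne
      · exact (hb.pvm_p (φ n)).orth i i' (fun h => hne (by rw [h]))
      · simp [P]
      · simp [P]
      · simp [P]
    · rw [Fintype.sum_sum_type]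
      simp [P, (hb.pvm_p (φ n)).sum]
  have hQp : ∀ n, PVM 1 (Q n) := by
    intro n
    refine ⟨?_, ?_, ?_, ?_⟩
    · rintro (i | j)
      · simp [Q]
      · exact (hb.pvm_q (φ n)).star_eq j
    · rintro (i | j)
      · simp [Q]
      · exact (hb.pvm_q (φ n)).idem j
    · rintro (i | j) (i' | j') hne
      · simp [Q]
      · simp [Q]
      · simp [Q]
      · exact (hb.pvm_q (φ n)).orth j j' (fun h => hne (by rw [h]))
    · rw [Fintype.sum_sum_type]
      simp [Q, (hb.pvm_q (φ n)).sum]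
  have hlim0 : ∀ i j, Tendsto (fun n => T.τ (p (φ n) i * q (φ n) j)) atTop
      (𝓝 ((c0 (i, j) : ℝ) : ℂ)) := by
    intro i j
    have h1 : Tendsto (fun n => x (φ n) (i, j)) atTop (𝓝 (c0 (i, j))) :=
      ((continuous_apply (i, j)).tendsto c0).comp hlim
    have h2 : Tendsto (fun n => ((x (φ n) (i, j) : ℝ) : ℂ)) atTop (𝓝 ((c0 (i, j) : ℝ) : ℂ)) :=
      (Complex.continuous_ofReal.tendsto _).comp h1
    refine h2.congr (fun n => ?_)
    rw [tau_pq T (p (φ n) i) (q (φ n) j) ((hb.pvm_p _).star_eq _) ((hb.pvm_p _).idem _)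
      ((hb.pvm_q _).star_eq _) ((hb.pvm_q _).idem _)]
  have hc : ∀ k l, Tendsto (fun n => T.τ (P n k * Q n l)) atTop (𝓝 ((c k l : ℝ) : ℂ)) := by
    rintro (i | j) (i' | j')
    · simp [P, Q, c]
    · exact hlim0 i j'
    · simp [P, Q, c]
    · simp [P, Q, c]
  have hZ : ∀ i j, Zs i j → c0 (i, j) = 0 := by
    intro i j hij
    have h1 : Tendsto (fun n => T.τ (p (φ n) i * q (φ n) j)) atTop (𝓝 0) :=
      (hb.zero i j hij).comp hφ.tendsto_atTop
    have h2 := tendsto_nhds_unique (hlim0 i j) h1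
    exact_mod_cast h2
  have hne : Nonempty (I ⊕ J) := by
    by_contra hcon
    rw [not_nonempty_iff] at hcon
    have h1 := (hPp 0).sum
    rw [Fintype.sum_empty] at h1
    have h2 := hA.one
    rw [← h1, map_zero] at h2
    exact zero_ne_one h2
  refine hAT H N T (I ⊕ J) P Q hPp hQp c hc (Equiv.refl _) ?_ ⟨δ / 2, half_pos hb.pos, 0, ?_⟩
  · rintro (i | j) <;> rfl
  · intro n _ P' Q' hP' hQ' hz hdP hdQ
    have hPr : ∀ j, P' (Sum.inr j) = 0 := by
      intro j
      have h1 : P' (Sum.inr j) * ∑ l, Q' l = 0 := by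
        rw [Finset.mul_sum]
        exact Finset.sum_eq_zero (fun l _ => hz _ _ rfl)
      rwa [hQ'.sum, mul_one] at h1
    have hQl : ∀ i, Q' (Sum.inl i) = 0 := by
      intro i
      have h1 : (∑ k, P' k) * Q' (Sum.inl i) = 0 := by
        rw [Finset.sum_mul]
        refine Finset.sum_eq_zero (fun k _ => hz _ _ ?_)
        rcases k with k | k <;> rfl
      rwa [hP'.sum, one_mul] at h1
    refine hb.bad (φ n) (fun i => P' (Sum.inl i)) (fun j => Q' (Sum.inr j)) ?_ ?_ ?_ ?_ ?_
    · refine ⟨fun i => hP'.sa _, fun i => hP'.idem _, fun i i' h => hP'.orth _ _ ?_, ?_⟩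
      · simpa using h
      · have h1 := hP'.sum
        rw [Fintype.sum_sum_type, Finset.sum_eq_zero (fun j _ => hPr j), add_zero] at h1
        exact h1
    · refine ⟨fun i => hQ'.sa _, fun i => hQ'.idem _, fun i i' h => hQ'.orth _ _ ?_, ?_⟩
      · simpa using h
      · have h1 := hQ'.sum
        rw [Fintype.sum_sum_type, Finset.sum_eq_zero (fun j _ => hQl j), zero_add] at h1
        exact h1
    · intro i j hij
      exact hz _ _ (hZ i j hij)
    · intro i
      have h1 := hdP (Sum.inl i)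
      have h2 := hb.pos
      have h3 : P n (Sum.inl i) = p (φ n) i := rfl
      rw [h3] at h1
      linarith
    · intro j
      have h1 := hdQ (Sum.inr j)
      have h2 := hb.pos
      have h3 : Q n (Sum.inr j) = q (φ n) j := rfl
      rw [h3] at h1
      linarith

end Pool.Agent.H469R2.NL
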