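import Mathlib
import Pool.Agent.Helper278.Model
import Pool.Agent.Helper436.SM.ExR

set_option autoImplicit false

open scoped InnerProductSpace Topology ComplexOrder BoundedContinuousFunction
open Filter Pool.Agent.Helper278 Pool.Agent.Helper436.SM

namespace Pool.Agent.H469R2.NL

/-- a partition of the projection `z` into projections -/
structure PVM {A : Type*} [Ring A] [StarRing A] {ι : Type*} [Fintype ι] (z : A) (P : ι → A) :
    Prop where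
  sa : ∀ i, star (P i) = P i
  idem : ∀ i, P i * P i = P i
  orth : ∀ i j, i ≠ j → P i * P j = 0
  sum : ∑ i, P i = z

/-- the goal: a tracial von Neumann algebra such that in every ultrapower there are independent
unitaries, all unitary lifts of which are dependent for almost all `n` -/
def Neg : Prop := ∃ (H : Type) (_ : NormedAddCommGroup H) (_ : InnerProductSpace ℂ H)
  (_ : CompleteSpace H) (N : VonNeumannAlgebra H) (T : TracialState N),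
  ∀ U : Ultrafilter ℕ, (∀ n, {n} ∉ U) → ∀ (Q : Type) [Ring Q] [StarRing Q] [Algebra ℂ Q]
    [StarModule ℂ Q] (π : (ℕ →ᵇ Elt N) →⋆ₐ[ℂ] Q) (σ : Q → ℂ), IsTracialUltrapower T.τ U π σ →
    ∃ u ∈ unitary Q, ∃ v ∈ unitary Q, IndepPair σ u v ∧
      ∀ a b : ℕ →ᵇ Elt N, (∀ n, a n ∈ unitary (Elt N)) → (∀ n, b n ∈ unitary (Elt N)) →
        π a = u → π b = v → {n | ¬ IndepPair T.τ (a n) (b n)} ∈ U

/-! ### Part A: atoms -/

/-- DS: the direct sum of a tracial von Neumann algebra with finitely many atoms -/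
def S_DS : Prop := ∀ (H : Type) [NormedAddCommGroup H] [InnerProductSpace ℂ H] [CompleteSpace H]
  (N : VonNeumannAlgebra H) (T : TracialState N) (A : Type) [Fintype A] [DecidableEq A]
  (t : A → ℝ) (w : ℝ), (∀ a, 0 < t a) → 0 < w → ∑ a, t a + w = 1 →
  ∃ (H' : Type) (_ : NormedAddCommGroup H') (_ : InnerProductSpace ℂ H') (_ : CompleteSpace H')
    (N' : VonNeumannAlgebra H') (T' : TracialState N')
    (Φ : Elt N' ≃⋆ₐ[ℂ] ((A → ℂ) × Elt N)),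
    ∀ x, T'.τ x = ∑ a, (t a : ℂ) * (Φ x).1 a + (w : ℂ) * T.τ (Φ x).2

/-- SPR: spectral projections of a selfadjoint element -/
def S_SPR : Prop := ∀ (H : Type) [NormedAddCommGroup H] [InnerProductSpace ℂ H] [CompleteSpace H]
  (N : VonNeumannAlgebra H) (T : TracialState N) (h : Elt N), star h = h → ∀ c : ℝ,
  ∃ e : Elt N, star e = e ∧ e * e = e ∧ (∀ y : Elt N, y * h = h * y → y * e = e * y) ∧
    e ∈ wstar T.τ h ∧
    (∀ ζ : H, (e : H →L[ℂ] H) ζ = ζ → c * ‖ζ‖ ^ 2 ≤ (⟪ζ, (h : H →L[ℂ] H) ζ⟫_ℂ).re) ∧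
    (∀ ζ : H, (e : H →L[ℂ] H) ζ = 0 → (⟪ζ, (h : H →L[ℂ] H) ζ⟫_ℂ).re ≤ c * ‖ζ‖ ^ 2)

/-- the property of the numbers `lam` in `S_SPEC` -/
def SpecProp (ι : Type) [Fintype ι] (lam : ι → ℂ) (C : ℝ) : Prop :=
  (∀ i, ‖lam i‖ = 1) ∧ Function.Injective lam ∧ 0 ≤ C ∧
  ∀ (H : Type) [NormedAddCommGroup H] [InnerProductSpace ℂ H] [CompleteSpace H]
  (N : VonNeumannAlgebra H) (T : TracialState N) (u : Elt N), u ∈ unitary (Elt N) →
  ∃ p : ι → Elt N, PVM 1 p ∧ (∀ i, p i ∈ wstar T.τ u) ∧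
    ∀ r : ι → Elt N, PVM 1 r → ∀ i, n2 T.τ (p i - r i) ≤ C * n2 T.τ (u - ∑ i, lam i • r i)

/-- SPEC: rounding a unitary to a partition inside `W*(u)` -/
def S_SPEC : Prop := ∀ (ι : Type) [Fintype ι] [Nonempty ι], ∃ (lam : ι → ℂ) (C : ℝ),
  SpecProp ι lam C

/-- CS: equality in the Cauchy-Schwarz inequality -/
def S_CS : Prop := ∀ (ι : Type) [Fintype ι] [Nonempty ι] (s : Equiv.Perm ι) (a b : ι → ℝ),
  (∀ i, 0 ≤ a i) → (∀ i, 0 ≤ b i) → ∑ i, a i = 1 → ∑ i, b i = 1 →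
  (∀ i, (1 / (Fintype.card ι : ℝ)) ^ 2 ≤ a i * b (s i)) →
  (∀ i, a i = 1 / (Fintype.card ι : ℝ)) ∧ (∀ i, b i = 1 / (Fintype.card ι : ℝ))

/-- ATEX: an independent pair near the model has the exact zero pattern -/
def S_ATEX : Prop := ∀ (ι : Type) [Fintype ι] [DecidableEq ι] [Nonempty ι] (lam : ι → ℂ) (C : ℝ),
  SpecProp ι lam C →
  ∀ (H : Type) [NormedAddCommGroup H] [InnerProductSpace ℂ H] [CompleteSpace H]
  (N : VonNeumannAlgebra H) (T : TracialState N) (c : ι → ι → ℝ) (s : Equiv.Perm ι),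
  (∀ i j, 0 ≤ c i j) → (∀ i, c i (s i) = 0) → ∀ (t : ι × ι → ℝ) (w : ℝ), 0 < w →
  (∀ a, 0 < t a) → (∀ i j, t (i, j) = (1 / (Fintype.card ι : ℝ)) ^ 2 - w * c i j) →
  ∑ a, t a + w = 1 →
  ∀ (H' : Type) [NormedAddCommGroup H'] [InnerProductSpace ℂ H'] [CompleteSpace H']
  (N' : VonNeumannAlgebra H') (T' : TracialState N')
  (Φ : Elt N' ≃⋆ₐ[ℂ] ((ι × ι → ℂ) × Elt N)),
  (∀ x, T'.τ x = ∑ a, (t a : ℂ) * (Φ x).1 a + (w : ℂ) * T.τ (Φ x).2) →
  ∀ δ : ℝ, 0 < δ → ∃ η : ℝ, 0 < η ∧ ∀ P Q : ι → Elt N, PVM 1 P → PVM 1 Q →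
  ∀ u' ∈ unitary (Elt N'), ∀ v' ∈ unitary (Elt N'), IndepPair T'.τ u' v' →
  n2 T'.τ (u' - Φ.symm (fun a => lam a.1, ∑ i, lam i • P i)) ≤ η →
  n2 T'.τ (v' - Φ.symm (fun a => lam a.2, ∑ i, lam i • Q i)) ≤ η →
  ∃ P' Q' : ι → Elt N, PVM 1 P' ∧ PVM 1 Q' ∧ (∀ i j, c i j = 0 → P' i * Q' j = 0) ∧
    (∀ i, n2 T.τ (P' i - P i) ≤ δ) ∧ (∀ i, n2 T.τ (Q' i - Q i) ≤ δ)

/-- ATMOD: independence in the ultrapower of unitaries with finite spectrum -/
def S_ATMOD : Prop := ∀ (H : Type) [NormedAddCommGroup H] [InnerProductSpace ℂ H]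
  [CompleteSpace H] (N : VonNeumannAlgebra H) (T : TracialState N) (U : Ultrafilter ℕ) (Q : Type)
  [Ring Q] [StarRing Q] [Algebra ℂ Q] [StarModule ℂ Q] (π : (ℕ →ᵇ Elt N) →⋆ₐ[ℂ] Q) (σ : Q → ℂ),
  IsTracialUltrapower T.τ U π σ →
  ∀ (ι : Type) [Fintype ι] [Nonempty ι] (lam : ι → ℂ), (∀ i, ‖lam i‖ = 1) →
  ∀ p q : ι → (ℕ →ᵇ Elt N), (∀ n, PVM 1 (fun i => p i n)) → (∀ n, PVM 1 (fun i => q i n)) →
  (∀ i j, Tendsto (fun n => T.τ (p i n * q j n)) U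
    (𝓝 (((1 / (Fintype.card ι : ℝ)) ^ 2 : ℝ) : ℂ))) →
  π (∑ i, lam i • p i) ∈ unitary Q ∧ π (∑ i, lam i • q i) ∈ unitary Q ∧
    IndepPair σ (π (∑ i, lam i • p i)) (π (∑ i, lam i • q i))

/-- ATOMS: if the exact zero pattern cannot be had near the model, then `Neg` -/
def S_ATOMS : Prop := ∀ (H : Type) [NormedAddCommGroup H] [InnerProductSpace ℂ H]
  [CompleteSpace H] (N : VonNeumannAlgebra H) (T : TracialState N) (ι : Type) [Fintype ι]
  [DecidableEq ι] [Nonempty ι] (P Q : ℕ → ι → Elt N), (∀ n, PVM 1 (P n)) → (∀ n, PVM 1 (Q n)) →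
  ∀ c : ι → ι → ℝ, (∀ i j, Tendsto (fun n => T.τ (P n i * Q n j)) atTop (𝓝 ((c i j : ℝ) : ℂ))) →
  ∀ s : Equiv.Perm ι, (∀ i, c i (s i) = 0) →
  (∃ δ : ℝ, 0 < δ ∧ ∃ n0 : ℕ, ∀ n, n0 ≤ n → ∀ P' Q' : ι → Elt N, PVM 1 P' → PVM 1 Q' →
    (∀ i j, c i j = 0 → P' i * Q' j = 0) → (∀ i, n2 T.τ (P' i - P n i) ≤ δ) →
    (∀ i, n2 T.τ (Q' i - Q n i) ≤ δ) → False) → Neg

/-! ### Part C: the cube -/

/-- the shifts: nothing or one coordinate -/
def sh {D : Type} [DecidableEq D] : Option D → (D → ZMod 2)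
  | none => 0
  | some d => Pi.single d 1

/-- SH: two different shifts are determined by their sum -/
def S_SH : Prop := ∀ (D : Type) [DecidableEq D] (i j k l : Option D), i ≠ j →
  sh i + sh j = sh k + sh l → (k = i ∧ l = j) ∨ (k = j ∧ l = i)

/-- the elements `V_j` -/
def Vs {A : Type*} [Ring A] {D : Type} [Fintype D] [DecidableEq D] (P Q : (D → ZMod 2) → A)
    (j : Option D) : A := ∑ x, P x * Q (x + sh j)

/-- C1: relations of the `V_j` -/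
def S_C1 : Prop := ∀ (A : Type) [Ring A] [StarRing A] (D : Type) [Fintype D] [DecidableEq D]
  (P Q : (D → ZMod 2) → A), PVM 1 P → PVM 1 Q → (∀ x y, (∀ j, y ≠ x + sh j) → P x * Q y = 0) →
  ∑ j, Vs P Q j = 1 ∧
  (∀ i j, i ≠ j → Vs P Q i * star (Vs P Q j) = -(Vs P Q j * star (Vs P Q i))) ∧
  (∀ i j, i ≠ j → star (Vs P Q i) * Vs P Q j = -(star (Vs P Q j) * Vs P Q i)) ∧
  (∀ x j, P x * Vs P Q j = Vs P Q j * Q (x + sh j)) ∧
  (∀ x j, P x * (Vs P Q j * star (Vs P Q j)) = Vs P Q j * star (Vs P Q j) * P x) ∧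
  (∀ x j, Q x * (star (Vs P Q j) * Vs P Q j) = star (Vs P Q j) * Vs P Q j * Q x)

/-- C2: consequences -/
def S_C2 : Prop := ∀ (A : Type) [Ring A] [StarRing A] (J : Type) [Fintype J] (V : J → A),
  ∑ j, V j = 1 → (∀ i j, i ≠ j → V i * star (V j) = -(V j * star (V i))) →
  (∀ i j, i ≠ j → star (V i) * V j = -(star (V j) * V i)) →
  (∀ i, V i * star (V i) = star (V i) * V i) ∧
  (∀ i j, V i * star (V i) * V j = V j * (V i * star (V i))) ∧
  (∀ i j, V i * star (V i) * (V j * star (V j)) = V j * star (V j) * (V i * star (V i)))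

/-- a spectral cut for a commuting family -/
structure Cut {A : Type*} [Ring A] [StarRing A] {J : Type*} (M : J → A) (z : A) (K : J → A) :
    Prop where
  zsa : star z = z
  zid : z * z = z
  zc : ∀ y, (∀ j, M j * y = y * M j) → z * y = y * z
  ksa : ∀ j, star (K j) = K j
  kc : ∀ j y, M j * y = y * M j → K j * y = y * K j
  km : ∀ j, K j * K j * M j * z = z

/-- CUT: existence of the cut, nonzero if the `M_j` are near `μ` -/
def S_CUT : Prop := ∀ (H : Type) [NormedAddCommGroup H] [InnerProductSpace ℂ H] [CompleteSpace H]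
  (N : VonNeumannAlgebra H) (T : TracialState N) (J : Type) [Fintype J] (M : J → Elt N) (μ : ℝ),
  0 < μ → (∀ j, star (M j) = M j) → (∀ i j, M i * M j = M j * M i) →
  ∃ (z : Elt N) (K : J → Elt N), Cut M z K ∧
    ((∀ j, 4 * (Fintype.card J : ℝ) * n2 T.τ (M j - ((μ : ℝ) : ℂ) • (1 : Elt N)) ^ 2 < μ ^ 2) →
      z ≠ 0)

/-- C4: fine projections commute with the cut -/
def S_C4 : Prop := ∀ (A : Type) [Ring A] [StarRing A] (D : Type) [Fintype D] [DecidableEq D]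
  (O : Type) [Fintype O] (p q : (D → ZMod 2) → O → A),
  PVM 1 (fun a : (D → ZMod 2) × O => p a.1 a.2) → PVM 1 (fun a : (D → ZMod 2) × O => q a.1 a.2) →
  ∀ P Q : (D → ZMod 2) → A, (∀ x, P x = ∑ α, p x α) → (∀ x, Q x = ∑ α, q x α) →
  (∀ x y, (∀ j, y ≠ x + sh j) → P x * Q y = 0) →
  ∀ Ed : (D → ZMod 2) → Option D → Prop,
  (∀ x j, Ed x j → ∀ α β, α ≠ β → p x α * q (x + sh j) β = 0) →
  (∀ (j : Option D) (S : Set ((D → ZMod 2) ⊕ (D → ZMod 2))),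
    (∀ x i, Ed x i → (Sum.inl x ∈ S ↔ Sum.inr (x + sh i) ∈ S)) →
    (∀ x, Ed x j → Sum.inl x ∈ S) → ∀ v, v ∈ S) →
  ∀ (z : A) (K : Option D → A), Cut (fun j => Vs P Q j * star (Vs P Q j)) z K →
  (∀ x α, z * p x α = p x α * z ∧ z * q x α = q x α * z) ∧
  (∀ x α j, K j * (p x α * z) = p x α * z * K j ∧ K j * (q x α * z) = q x α * z * K j) ∧
  (∀ x j α, Ed x j → p x α * Vs P Q j = Vs P Q j * q (x + sh j) α)

/-- C5: the partial isometries `W_j = V_j K_j z` -/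
def S_C5 : Prop := ∀ (A : Type) [Ring A] [StarRing A] (J : Type) [Fintype J] (V : J → A)
  (z : A) (K : J → A), ∑ j, V j = 1 →
  (∀ i j, i ≠ j → V i * star (V j) = -(V j * star (V i))) →
  (∀ i j, i ≠ j → star (V i) * V j = -(star (V j) * V i)) →
  Cut (fun j => V j * star (V j)) z K →
  (∀ j, V j * K j * z * star (V j * K j * z) = z) ∧
  (∀ j, star (V j * K j * z) * (V j * K j * z) = z) ∧
  (∀ i j, i ≠ j → V i * K i * z * star (V j * K j * z) =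
    -(V j * K j * z * star (V i * K i * z))) ∧
  (∀ j, z * (V j * K j * z) = V j * K j * z) ∧
  (∀ j, z * V j = V j * z) ∧ (∀ i j, K i * V j = V j * K i)

/-- the Clifford configuration: `T_d` shift the projections `P_x` -/
structure Cliff {A : Type*} [Ring A] [StarRing A] {D : Type} [Fintype D] [DecidableEq D]
    (z : A) (P : (D → ZMod 2) → A) (T : D → A) : Prop where
  zsa : star z = z
  zid : z * z = z
  pvm : PVM 1 P
  zP : ∀ x, z * P x = P x * z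
  Tst : ∀ d, star (T d) = -T d
  Tsq : ∀ d, T d * star (T d) = z
  zT : ∀ d, z * T d = T d
  Tz : ∀ d, T d * z = T d
  anti : ∀ d e, d ≠ e → T d * T e = -(T e * T d)
  PT : ∀ x d, P x * T d = T d * P (x + Pi.single d 1)

/-- C6: block elements extend to elements commuting with the Clifford configuration -/
def S_C6 : Prop := ∀ (A : Type) [Ring A] [StarRing A] (D : Type) [Fintype D] [DecidableEq D]
  (z : A) (P : (D → ZMod 2) → A) (T : D → A), Cliff z P T →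
  ∀ (x0 : D → ZMod 2) (y : A), P x0 * y = y → y * P x0 = y → z * y = y → y * z = y →
  ∃ y' : A, z * y' = y' ∧ y' * z = y' ∧ (∀ d, T d * y' = y' * T d) ∧
    (∀ x, P x * y' = y' * P x) ∧ P x0 * y' = y

/-- C7: uniqueness of the extension -/
def S_C7 : Prop := ∀ (A : Type) [Ring A] [StarRing A] (D : Type) [Fintype D] [DecidableEq D]
  (z : A) (P : (D → ZMod 2) → A) (T : D → A), Cliff z P T →
  ∀ (x0 : D → ZMod 2) (y' : A), z * y' = y' → (∀ d, T d * y' = y' * T d) →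
  (∀ x, P x * y' = y' * P x) → P x0 * y' = 0 → y' = 0

/-- the label of the row `x` -/
def lP {k : ℕ} (x : Fin k ⊕ Fin k → ZMod 2) : Fin k → ZMod 2 :=
  if ∑ d, x d = 0 then x ∘ Sum.inl else x ∘ Sum.inr

/-- the label of the column `x` -/
def lQ {k : ℕ} (x : Fin k ⊕ Fin k → ZMod 2) : Fin k → ZMod 2 :=
  if ∑ d, x d = 0 then x ∘ Sum.inr else x ∘ Sum.inl

/-- G1: every vertex is joined by label preserving edges to an edge of each direction -/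
def S_G1 : Prop := ∀ (k : ℕ) (j : Option (Fin k ⊕ Fin k))
  (S : Set ((Fin k ⊕ Fin k → ZMod 2) ⊕ (Fin k ⊕ Fin k → ZMod 2))),
  (∀ x i, lP x = lQ (x + sh i) → (Sum.inl x ∈ S ↔ Sum.inr (x + sh i) ∈ S)) →
  (∀ x, lP x = lQ (x + sh j) → Sum.inl x ∈ S) → ∀ v, v ∈ S

/-- G2: the vertices with label `a` are connected -/
def S_G2 : Prop := ∀ (k : ℕ) (a : Fin k → ZMod 2)
  (S : Set ((Fin k ⊕ Fin k → ZMod 2) ⊕ (Fin k ⊕ Fin k → ZMod 2))),
  (∀ x i, lP x = lQ (x + sh i) → (Sum.inl x ∈ S ↔ Sum.inr (x + sh i) ∈ S)) →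
  Sum.inl (Sum.elim a a) ∈ S →
  (∀ x, lP x = a → Sum.inl x ∈ S) ∧ (∀ x, lQ x = a → Sum.inr x ∈ S)

/-- the frame obtained from the cube: partial isometries `W_j` (unitaries of the corner `z`) -/
structure Frame {A : Type*} [Ring A] [StarRing A] {D : Type} [Fintype D] [DecidableEq D]
    {O : Type} [Fintype O] (z : A) (p q : (D → ZMod 2) → O → A) (W : Option D → A) : Prop where
  zsa : star z = z
  zid : z * z = z
  pvmp : PVM 1 (fun a : (D → ZMod 2) × O => p a.1 a.2)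
  pvmq : PVM 1 (fun a : (D → ZMod 2) × O => q a.1 a.2)
  zp : ∀ x α, z * p x α = p x α * z
  zq : ∀ x α, z * q x α = q x α * z
  WW : ∀ j, W j * star (W j) = z
  sW : ∀ j, star (W j) * W j = z
  anti : ∀ i j, i ≠ j → W i * star (W j) = -(W j * star (W i))
  zW : ∀ j, z * W j = W j
  Wz : ∀ j, W j * z = W j
  PW : ∀ x j, (∑ α, p x α) * W j = W j * ∑ α, q (x + sh j) α
  orthW : ∀ x α β, p x α * q x β = 0 → p x α * (W none * q x β * star (W none)) = 0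

/-- CX1: the exact zero pattern and a cut give a frame, `W_j = V_j K_j z` -/
def S_CX1 : Prop := ∀ (A : Type) [Ring A] [StarRing A] (D : Type) [Fintype D] [DecidableEq D]
  (O : Type) [Fintype O] (p q : (D → ZMod 2) → O → A),
  PVM 1 (fun a : (D → ZMod 2) × O => p a.1 a.2) → PVM 1 (fun a : (D → ZMod 2) × O => q a.1 a.2) →
  (∀ x y α β, (∀ j, y ≠ x + sh j) → p x α * q y β = 0) →
  ∀ Ed : (D → ZMod 2) → Option D → Prop,
  (∀ x j, Ed x j → ∀ α β, α ≠ β → p x α * q (x + sh j) β = 0) →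
  (∀ (j : Option D) (S : Set ((D → ZMod 2) ⊕ (D → ZMod 2))),
    (∀ x i, Ed x i → (Sum.inl x ∈ S ↔ Sum.inr (x + sh i) ∈ S)) →
    (∀ x, Ed x j → Sum.inl x ∈ S) → ∀ v, v ∈ S) →
  ∀ (z : A) (K : Option D → A),
  Cut (fun j => Vs (fun x => ∑ α, p x α) (fun x => ∑ α, q x α) j *
    star (Vs (fun x => ∑ α, p x α) (fun x => ∑ α, q x α) j)) z K →
  Frame z p q (fun j => Vs (fun x => ∑ α, p x α) (fun x => ∑ α, q x α) j * K j * z) ∧
  ∀ x j α, Ed x j → p x α * (Vs (fun x => ∑ α, p x α) (fun x => ∑ α, q x α) j * K j * z) =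
    Vs (fun x => ∑ α, p x α) (fun x => ∑ α, q x α) j * K j * z * q (x + sh j) α

/-- CXC: a frame gives a Clifford configuration -/
def S_CXC : Prop := ∀ (A : Type) [Ring A] [StarRing A] (D : Type) [Fintype D] [DecidableEq D]
  (O : Type) [Fintype O] (z : A) (p q : (D → ZMod 2) → O → A) (W : Option D → A),
  Frame z p q W → Cliff z (fun x => ∑ α, p x α) (fun d => W (some d) * star (W none))

/-- CXP: propagation along an edge -/
def S_CXP : Prop := ∀ (A : Type) [Ring A] [StarRing A] (D : Type) [Fintype D] [DecidableEq D]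
  (O : Type) [Fintype O] (z : A) (p q : (D → ZMod 2) → O → A) (W : Option D → A),
  Frame z p q W → ∀ y' : A, z * y' = y' → y' * z = y' →
  (∀ d, W (some d) * star (W none) * y' = y' * (W (some d) * star (W none))) →
  (∀ x, (∑ α, p x α) * y' = y' * ∑ α, p x α) →
  ∀ (x : D → ZMod 2) (j : Option D) (α : O), p x α * W j = W j * q (x + sh j) α →
  ((∑ β, p x β) * y' = p x α * z ↔
    (∑ β, p (x + sh j) β) * y' = W none * q (x + sh j) α * star (W none))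

/-- CX2: from the frame to the partitions -/
def S_CX2 : Prop := ∀ (A : Type) [Ring A] [StarRing A] (k : ℕ) (O : Type) [Fintype O]
  [DecidableEq O] (Z : (Fin k → ZMod 2) → O → (Fin k → ZMod 2) → O → Prop) (z : A)
  (p q : (Fin k ⊕ Fin k → ZMod 2) → O → A) (W : Option (Fin k ⊕ Fin k) → A),
  Frame z p q W → (∀ a α b β, Z a α b β → Z b β a α) →
  (∀ x α β, Z (lP x) α (lQ x) β → p x α * q x β = 0) →
  (∀ x j α, lP x = lQ (x + sh j) → p x α * W j = W j * q (x + sh j) α) →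
  ∃ E : (Fin k → ZMod 2) → O → A, (∀ a, PVM z (E a)) ∧ ∀ a α b β, Z a α b β → E a α * E b β = 0

/-- CUBEX: the exact zero pattern on the cube gives the partitions with all the relations -/
def S_CUBEX : Prop := ∀ (H : Type) [NormedAddCommGroup H] [InnerProductSpace ℂ H]
  [CompleteSpace H] (N : VonNeumannAlgebra H) (T : TracialState N) (k : ℕ) (O : Type) [Fintype O]
  [DecidableEq O] (Z : (Fin k → ZMod 2) → O → (Fin k → ZMod 2) → O → Prop)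
  (p q : (Fin k ⊕ Fin k → ZMod 2) → O → Elt N) (μ : ℝ), 0 < μ →
  PVM 1 (fun a : (Fin k ⊕ Fin k → ZMod 2) × O => p a.1 a.2) →
  PVM 1 (fun a : (Fin k ⊕ Fin k → ZMod 2) × O => q a.1 a.2) →
  (∀ a α β, α ≠ β → Z a α a β) → (∀ a α b β, Z a α b β → Z b β a α) →
  (∀ x y α β, (∀ j, y ≠ x + sh j) → p x α * q y β = 0) →
  (∀ x j α β, Z (lP x) α (lQ (x + sh j)) β → p x α * q (x + sh j) β = 0) →
  (∀ j, 4 * ((2 * k + 1 : ℕ) : ℝ) * n2 T.τ (Vs (fun x => ∑ α, p x α) (fun x => ∑ α, q x α) j *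
    star (Vs (fun x => ∑ α, p x α) (fun x => ∑ α, q x α) j) - ((μ : ℝ) : ℂ) • (1 : Elt N)) ^ 2
    < μ ^ 2) →
  ∃ (z : Elt N) (E : (Fin k → ZMod 2) → O → Elt N), z ≠ 0 ∧ star z = z ∧ z * z = z ∧
    (∀ a, PVM z (E a)) ∧ ∀ a α b β, Z a α b β → E a α * E b β = 0

/-- CUBEM: the orthogonal matrix of the cube -/
def S_CUBEM : Prop := ∀ (D : Type) [Fintype D] [DecidableEq D],
  ∃ M : Matrix (D → ZMod 2) (D → ZMod 2) ℂ, M * star M = 1 ∧ star M * M = 1 ∧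
    (∀ x j, ‖M x (x + sh j)‖ ^ 2 = 1 / (Fintype.card (Option D) : ℝ)) ∧
    ∀ x y, (∀ j, y ≠ x + sh j) → M x y = 0

/-- normalised trace of a matrix -/
noncomputable def ntr {κ : Type} [Fintype κ] (x : Matrix κ κ ℂ) : ℂ :=
  (Fintype.card κ : ℂ)⁻¹ * x.trace

/-- EMB: matrix algebras embed in the hyperfinite algebra -/
def S_EMB : Prop := ∀ (H : Type) [NormedAddCommGroup H] [InnerProductSpace ℂ H] [CompleteSpace H]
  (N : VonNeumannAlgebra H) (T : TracialState N) (W : VV → Elt N), PauliSys T.τ W →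
  ∀ (κ : Type) [Fintype κ] [DecidableEq κ] (L : ℕ), Fintype.card κ = 2 ^ L →
  ∃ ρ : Matrix κ κ ℂ →⋆ₐ[ℂ] Elt N, ∀ x, T.τ (ρ x) = ntr x

/-- TRMOD: the model on the cube -/
def S_TRMOD : Prop := ∀ (H : Type) [NormedAddCommGroup H] [InnerProductSpace ℂ H]
  [CompleteSpace H] (N : VonNeumannAlgebra H) (T : TracialState N) (W : VV → Elt N),
  PauliSys T.τ W →
  ∀ (k : ℕ) (O : Type) [Fintype O] [DecidableEq O] (κ : Type) [Fintype κ] [DecidableEq κ] (L : ℕ),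
  Fintype.card κ = 2 ^ L → ∀ E : (Fin k → ZMod 2) → O → Matrix κ κ ℂ, (∀ a, PVM 1 (E a)) →
  ∃ p q : (Fin k ⊕ Fin k → ZMod 2) → O → Elt N,
    PVM 1 (fun a : (Fin k ⊕ Fin k → ZMod 2) × O => p a.1 a.2) ∧
    PVM 1 (fun a : (Fin k ⊕ Fin k → ZMod 2) × O => q a.1 a.2) ∧
    (∀ x y α β, (∀ j, y ≠ x + sh j) → T.τ (p x α * q y β) = 0) ∧
    (∀ x j α β, T.τ (p x α * q (x + sh j) β) =
      ((1 / (((2 * k + 1 : ℕ) : ℝ) * 2 ^ (2 * k)) : ℝ) : ℂ) *
        ntr (E (lP x) α * E (lQ (x + sh j)) β)) ∧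
    (∀ j, Vs (fun x => ∑ α, p x α) (fun x => ∑ α, q x α) j *
      star (Vs (fun x => ∑ α, p x α) (fun x => ∑ α, q x α) j) =
        ((1 / ((2 * k + 1 : ℕ) : ℝ) : ℝ) : ℂ) • (1 : Elt N))

/-- CLOSE: the elements `V_j V_j*` depend continuously on the partitions -/
def S_CLOSE : Prop := ∀ (D O : Type) [Fintype D] [DecidableEq D] [Fintype O],
  ∃ C : ℝ, 0 ≤ C ∧ ∀ (H : Type) [NormedAddCommGroup H] [InnerProductSpace ℂ H] [CompleteSpace H]
  (N : VonNeumannAlgebra H) (T : TracialState N) (p q p' q' : (D → ZMod 2) → O → Elt N),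
  PVM 1 (fun a : (D → ZMod 2) × O => p a.1 a.2) → PVM 1 (fun a : (D → ZMod 2) × O => q a.1 a.2) →
  PVM 1 (fun a : (D → ZMod 2) × O => p' a.1 a.2) → PVM 1 (fun a : (D → ZMod 2) × O => q' a.1 a.2) →
  ∀ δ : ℝ, (∀ x α, n2 T.τ (p' x α - p x α) ≤ δ) → (∀ x α, n2 T.τ (q' x α - q x α) ≤ δ) →
  ∀ j, n2 T.τ (Vs (fun x => ∑ α, p' x α) (fun x => ∑ α, q' x α) j *
      star (Vs (fun x => ∑ α, p' x α) (fun x => ∑ α, q' x α) j) -
      Vs (fun x => ∑ α, p x α) (fun x => ∑ α, q x α) j *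
      star (Vs (fun x => ∑ α, p x α) (fun x => ∑ α, q x α) j)) ≤ C * δ

/-- a nonzero corner of `N` -/
structure CornerEmb {H : Type} [NormedAddCommGroup H] [InnerProductSpace ℂ H] [CompleteSpace H]
    {N : VonNeumannAlgebra H} {A : Type} [Ring A] [StarRing A] [Algebra ℂ A] (j : A → Elt N) :
    Prop where
  inj : Function.Injective j
  add : ∀ x y, j (x + y) = j x + j y
  mul : ∀ x y, j (x * y) = j x * j y
  str : ∀ x, j (star x) = star (j x)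
  smul : ∀ (c : ℂ) x, j (c • x) = c • j x
  nz : j 1 ≠ 0

/-- CORN: the corner algebra -/
def S_CORN : Prop := ∀ (H : Type) [NormedAddCommGroup H] [InnerProductSpace ℂ H] [CompleteSpace H]
  (N : VonNeumannAlgebra H) (z : Elt N), star z = z → z * z = z → z ≠ 0 →
  ∃ (A : Type) (_ : Ring A) (_ : StarRing A) (_ : Algebra ℂ A) (_ : StarModule ℂ A)
    (j : A → Elt N), CornerEmb j ∧ j 1 = z ∧ ∀ x : Elt N, z * x = x → x * z = x → ∃ a, j a = x

/-- exact partitions in a nonzero corner of `N` with prescribed orthogonality relations -/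
def ExPVM {H : Type} [NormedAddCommGroup H] [InnerProductSpace ℂ H] [CompleteSpace H]
    (N : VonNeumannAlgebra H) (I O : Type) [Fintype O] (Z : I → O → I → O → Prop) : Prop :=
  ∃ (A : Type) (_ : Ring A) (_ : StarRing A) (_ : Algebra ℂ A) (_ : StarModule ℂ A)
    (j : A → Elt N), CornerEmb j ∧ ∃ E : I → O → A, (∀ i, PVM 1 (E i)) ∧
      ∀ i α k β, Z i α k β → E i α * E k β = 0

/-- TRANSFER: if the limit orthogonality relations of partitions of matrix algebras cannot be had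
exactly, then `Neg` -/
def S_TRANSFER : Prop := ∀ (H : Type) [NormedAddCommGroup H] [InnerProductSpace ℂ H]
  [CompleteSpace H] (N : VonNeumannAlgebra H) (T : TracialState N) (W : VV → Elt N),
  PauliSys T.τ W →
  ∀ (I O : Type) [Fintype I] [Nonempty I] [Fintype O] [Nonempty O] [DecidableEq O] (κ : ℕ → Type)
  [∀ n, Fintype (κ n)] [∀ n, DecidableEq (κ n)], (∀ n, ∃ L : ℕ, Fintype.card (κ n) = 2 ^ L) →
  ∀ (E : ∀ n, I → O → Matrix (κ n) (κ n) ℂ), (∀ n i, PVM 1 (E n i)) →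
  ∀ c : I → O → I → O → ℝ, (∀ i α k β, Tendsto (fun n => ntr (E n i α * E n k β)) atTop
    (𝓝 ((c i α k β : ℝ) : ℂ))) →
  ¬ ExPVM N I O (fun i α k β => c i α k β = 0) → Neg

/-! ### Part W: words in involutions -/

/-- outcomes: three signs -/
abbrev OO : Type := Fin 3 → Bool

/-- the sign of a bit -/
def sgb (b : Bool) : ℝ := if b then -1 else 1

/-- the signs as functions of the outcome -/
def s1 (α : OO) : ℝ := sgb (α 0)
/-- second sign -/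
def s2 (α : OO) : ℝ := sgb (α 1)
/-- third sign -/
def s3 (α : OO) : ℝ := sgb (α 2)

/-- evaluation of a function of the outcome -/
noncomputable def Ev {A : Type*} [Ring A] [Algebra ℂ A] {O : Type*} [Fintype O] (E : O → A)
    (f : O → ℝ) : A := ∑ α, ((f α : ℝ) : ℂ) • E α

/-- AGEX: agreement from orthogonality -/
def S_AGEX : Prop := ∀ (A : Type) [Ring A] [StarRing A] [Algebra ℂ A] (O : Type) [Fintype O]
  (E F : O → A), PVM 1 E → PVM 1 F → ∀ f g : O → ℝ, (∀ α β, f α ≠ g β → E α * F β = 0) →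
  Ev E f = Ev F g

/-- AGMOD: orthogonality in the limit from agreement in the limit -/
def S_AGMOD : Prop := ∀ (O : Type) [Fintype O] (κ : ℕ → Type)
  [∀ n, Fintype (κ n)] [∀ n, DecidableEq (κ n)] (E F : ∀ n, O → Matrix (κ n) (κ n) ℂ),
  (∀ n, PVM 1 (E n)) → (∀ n, PVM 1 (F n)) → ∀ f g : O → ℝ,
  Tendsto (fun n => n2 ntr (Ev (E n) f - Ev (F n) g)) atTop (𝓝 0) →
  ∀ α β, f α ≠ g β → Tendsto (fun n => ntr (E n α * F n β)) atTop (𝓝 0)

/-- TRIP: the partition of three commuting selfadjoint involutions -/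
def S_TRIP : Prop := ∀ (A : Type) [Ring A] [StarRing A] [Algebra ℂ A] [StarModule ℂ A]
  (x : Fin 3 → A), (∀ r, star (x r) = x r) → (∀ r, x r * x r = 1) →
  (∀ r t, x r * x t = x t * x r) →
  ∃ E : OO → A, PVM 1 E ∧ Ev E s1 = x 0 ∧ Ev E s2 = x 1 ∧ Ev E s3 = x 2

/-- EVM: evaluation is multiplicative, unital and selfadjoint -/
def S_EVM : Prop := ∀ (A : Type) [Ring A] [StarRing A] [Algebra ℂ A] [StarModule ℂ A] (O : Type)
  [Fintype O] (E : O → A), PVM 1 E →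
  (∀ f g : O → ℝ, Ev E (f * g) = Ev E f * Ev E g) ∧ (∀ f g : O → ℝ, Ev E (f + g) = Ev E f + Ev E g) ∧
  (∀ c : ℝ, Ev E (fun _ => c) = ((c : ℝ) : ℂ) • (1 : A)) ∧ (∀ f : O → ℝ, star (Ev E f) = Ev E f)

/-- contexts: six contexts of the magic square, two contexts for each generator, two contexts for
each letter of each word -/
abbrev IW (Γ B : Type) (wd : B → List Γ) : Type :=
  Fin 6 ⊕ Γ ⊕ Γ ⊕ (Σ b : B, Fin (wd b).length) ⊕ (Σ b : B, Fin (wd b).length)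

section
variable {Γ B : Type} {wd : B → List Γ}
/-- magic square contexts: 0 = (X1,X2), 1 = (Z1,Z2), 2 = (X1,Z2), 3 = (X2,Z1),
4 = (X1X2, Z1Z2), 5 = (X1Z2, X2Z1) -/
def ms (i : Fin 6) : IW Γ B wd := Sum.inl i
/-- context `(g, X1, Z2)` -/
def cA (g : Γ) : IW Γ B wd := Sum.inr (Sum.inl g)
/-- context `(g, Z1, X2)` -/
def cB (g : Γ) : IW Γ B wd := Sum.inr (Sum.inr (Sum.inl g))
/-- context `(Z1, Q_i)` -/
def cC (b : B) (i : Fin (wd b).length) : IW Γ B wd := Sum.inr (Sum.inr (Sum.inr (Sum.inl ⟨b, i⟩)))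
/-- context `(S_g, Q_i)`, `g` the `i`-th letter -/
def cD (b : B) (i : Fin (wd b).length) : IW Γ B wd := Sum.inr (Sum.inr (Sum.inr (Sum.inr ⟨b, i⟩)))
end

/-- `(-1)^n` -/
def pm (n : ℕ) : ℝ := (-1) ^ n

/-- indicator of `a = b` -/
noncomputable def ind (a b : ℝ) : ℝ := by classical exact if a = b then 1 else 0

/-- the agreements between contexts -/
inductive Agr {Γ B : Type} (wd : B → List Γ) (ε : B → Bool) :
    IW Γ B wd → (OO → ℝ) → IW Γ B wd → (OO → ℝ) → Prop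
  | a1 : Agr wd ε (ms 0) s1 (ms 2) s1
  | a2 : Agr wd ε (ms 0) s2 (ms 3) s1
  | a3 : Agr wd ε (ms 1) s1 (ms 3) s2
  | a4 : Agr wd ε (ms 1) s2 (ms 2) s2
  | a5 : Agr wd ε (ms 0) (s1 * s2) (ms 4) s1
  | a6 : Agr wd ε (ms 1) (s1 * s2) (ms 4) s2
  | a7 : Agr wd ε (ms 2) (s1 * s2) (ms 5) s1
  | a8 : Agr wd ε (ms 3) (s1 * s2) (ms 5) s2
  | a9 : Agr wd ε (ms 5) (s1 * s2) (ms 4) (-(s1 * s2))
  | b1 (g : Γ) : Agr wd ε (cA g) s2 (ms 2) s1
  | b2 (g : Γ) : Agr wd ε (cA g) s3 (ms 2) s2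
  | b3 (g : Γ) : Agr wd ε (cB g) s2 (ms 3) s2
  | b4 (g : Γ) : Agr wd ε (cB g) s3 (ms 3) s1
  | b5 (g : Γ) : Agr wd ε (cA g) s1 (cB g) s1
  | b6 (b : B) (i : Fin (wd b).length) : Agr wd ε (cD b i) s1 (cA ((wd b).get i))
      (fun α => s2 α * (if α 2 then 1 else s1 α))
  | b7 (b : B) (i : Fin (wd b).length) : Agr wd ε (cC b i) s1 (ms 3) s2
  | b8 (b : B) (i : Fin (wd b).length) : Agr wd ε (cC b i) s2 (cD b i) s2
  | b9 (b : B) (i i' : Fin (wd b).length) (h : i'.1 = i.1 + 1) :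
      Agr wd ε (cC b i) (fun α => s2 α * ind (s1 α) (pm i'.1)) (cC b i')
        (fun α => s2 α * ind (s1 α) (pm i'.1))
  | b10 (b : B) (i : Fin (wd b).length) (h : i.1 = 0) :
      Agr wd ε (cC b i) (fun α => s2 α * ind (s1 α) 1) (ms 3) (fun α => s1 α * ind (s2 α) 1)
  | b11 (b : B) (i : Fin (wd b).length) (h : i.1 + 1 = (wd b).length) :
      Agr wd ε (cC b i) (fun α => s2 α * ind (s1 α) (pm (i.1 + 1))) (ms 3)
        (fun α => sgb (ε b) * s1 α * ind (s2 α) (pm (i.1 + 1)))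

/-- EVF: evaluation of the functions used below -/
def S_EVF : Prop := ∀ (A : Type) [Ring A] [StarRing A] [Algebra ℂ A] [StarModule ℂ A]
  (E : OO → A), PVM 1 E →
  (Ev E s1 * Ev E s1 = 1 ∧ Ev E s2 * Ev E s2 = 1 ∧ Ev E s3 * Ev E s3 = 1) ∧
  (Ev E s1 * Ev E s2 = Ev E s2 * Ev E s1 ∧ Ev E s1 * Ev E s3 = Ev E s3 * Ev E s1 ∧
    Ev E s2 * Ev E s3 = Ev E s3 * Ev E s2) ∧
  (∀ n : ℕ, Ev E (fun α => s2 α * ind (s1 α) (pm n)) =
    (2⁻¹ : ℂ) • (Ev E s2 * (1 + ((pm n : ℝ) : ℂ) • Ev E s1))) ∧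
  (∀ (n : ℕ) (e : ℝ), Ev E (fun α => e * s1 α * ind (s2 α) (pm n)) =
    (2⁻¹ : ℂ) • ((e : ℂ) • (Ev E s1 * (1 + ((pm n : ℝ) : ℂ) • Ev E s2)))) ∧
  (Ev E (fun α => s2 α * (if α 2 then 1 else s1 α)) =
    Ev E s2 * ((2⁻¹ : ℂ) • ((1 + Ev E s3) * Ev E s1 + (1 - Ev E s3))))

/-- WMOD: the model of the contexts -/
def S_WMOD : Prop := ∀ (Γ B : Type) [Fintype Γ] [Fintype B] (wd : B → List Γ) (ε : B → Bool)
  (κ : Type) [Fintype κ] [DecidableEq κ] [Nonempty κ] (g : Γ → Matrix κ κ ℂ),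
  (∀ c, star (g c) = g c ∧ g c * g c = 1) →
  ∃ E : IW Γ B wd → OO → Matrix (κ × (ZMod 2 × ZMod 2)) (κ × (ZMod 2 × ZMod 2)) ℂ,
    (∀ i, PVM 1 (E i)) ∧ ∀ i f k f', Agr wd ε i f k f' →
      n2 ntr (Ev (E i) f - Ev (E k) f') ≤
        4 * ∑ b, n2 ntr (((wd b).map g).prod - ((sgb (ε b) : ℝ) : ℂ) • (1 : Matrix κ κ ℂ))

/-- CHAIN: the algebra of one word -/
def S_CHAIN : Prop := ∀ (A : Type) [Ring A] [Algebra ℂ A] (X1 X2 Z1 Z2 : A),
  X1 * X1 = 1 → X2 * X2 = 1 → Z1 * Z1 = 1 → Z2 * Z2 = 1 → X1 * X2 = X2 * X1 → Z1 * Z2 = Z2 * Z1 →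
  X1 * Z2 = Z2 * X1 → X2 * Z1 = Z1 * X2 → X1 * Z1 = -(Z1 * X1) → X2 * Z2 = -(Z2 * X2) →
  ∀ (l : List A), l ≠ [] → (∀ g ∈ l, g * g = 1 ∧ g * X1 = X1 * g ∧ g * X2 = X2 * g ∧
    g * Z1 = Z1 * g ∧ g * Z2 = Z2 * g) →
  ∀ (Q : Fin l.length → A), (∀ i, Q i * Z1 = Z1 * Q i) →
  (∀ i, Q i * (X1 * ((2⁻¹ : ℂ) • ((1 + Z2) * l.get i + (1 - Z2)))) =
    X1 * ((2⁻¹ : ℂ) • ((1 + Z2) * l.get i + (1 - Z2))) * Q i) →
  (∀ i : Fin l.length, i.1 = 0 → Q i * (1 + Z1) = X2 * (1 + Z1)) →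
  (∀ i i' : Fin l.length, i'.1 = i.1 + 1 →
    Q i * (1 + ((pm i'.1 : ℝ) : ℂ) • Z1) = Q i' * (1 + ((pm i'.1 : ℝ) : ℂ) • Z1)) →
  ∀ ε : ℂ, (∀ i : Fin l.length, i.1 + 1 = l.length →
    Q i * (1 + ((pm (i.1 + 1) : ℝ) : ℂ) • Z1) = ε • (X2 * (1 + ((pm (i.1 + 1) : ℝ) : ℂ) • Z1))) →
  l.prod = ε • 1

/-- WEX: exact contexts give exact words -/
def S_WEX : Prop := ∀ (Γ B : Type) (wd : B → List Γ) (ε : B → Bool),
  (∀ b, wd b ≠ []) → ∀ (A : Type) [Ring A] [StarRing A] [Algebra ℂ A] [StarModule ℂ A]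
  (E : IW Γ B wd → OO → A), (∀ i, PVM 1 (E i)) →
  (∀ i f k f', Agr wd ε i f k f' → Ev (E i) f = Ev (E k) f') →
  ∃ g : Γ → A, (∀ c, star (g c) = g c ∧ g c * g c = 1) ∧
    ∀ b, ((wd b).map g).prod = ((sgb (ε b) : ℝ) : ℂ) • (1 : A)

/-- exact solutions of words in a nonzero corner of `N` -/
def ExWords {H : Type} [NormedAddCommGroup H] [InnerProductSpace ℂ H] [CompleteSpace H]
    (N : VonNeumannAlgebra H) (Γ B : Type) (wd : B → List Γ) (ε : B → Bool) : Prop :=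
  ∃ (A : Type) (_ : Ring A) (_ : StarRing A) (_ : Algebra ℂ A) (_ : StarModule ℂ A)
    (j : A → Elt N), CornerEmb j ∧ ∃ g : Γ → A, (∀ c, star (g c) = g c ∧ g c * g c = 1) ∧
      ∀ b, ((wd b).map g).prod = ((sgb (ε b) : ℝ) : ℂ) • (1 : A)

/-- WORDS: approximately solvable words without exact solution give `Neg` -/
def S_WORDS : Prop := ∀ (H : Type) [NormedAddCommGroup H] [InnerProductSpace ℂ H]
  [CompleteSpace H] (N : VonNeumannAlgebra H) (T : TracialState N) (W : VV → Elt N),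
  PauliSys T.τ W →
  ∀ (Γ B : Type) [Fintype Γ] [Fintype B] (wd : B → List Γ) (ε : B → Bool), (∀ b, wd b ≠ []) →
  ∀ (κ : ℕ → Type) [∀ n, Fintype (κ n)] [∀ n, DecidableEq (κ n)],
  (∀ n, ∃ L : ℕ, Fintype.card (κ n) = 2 ^ L) → ∀ g : ∀ n, Γ → Matrix (κ n) (κ n) ℂ,
  (∀ n c, star (g n c) = g n c ∧ g n c * g n c = 1) →
  (∀ b, Tendsto (fun n => n2 ntr (((wd b).map (g n)).prod -
    ((sgb (ε b) : ℝ) : ℂ) • (1 : Matrix (κ n) (κ n) ℂ))) atTop (𝓝 0)) →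
  ¬ ExWords N Γ B wd ε → Neg

/-! ### Part Z: the words without solution in the hyperfinite algebra

Generators: 0 = r0, 1 = r1, 2 = s, 3 = e, 4 = b, 5 = c1, 6 = c2. With U = r1 r0, V = s U s,
t = s r0 s the words say t U t U⁻¹ = 1, e U e U⁻¹ = 1, e V e V U⁻¹ = 1, b U b U⁻¹ = -1,
c1 c2 U c2 c1 U⁻² = 1. -/

/-- the words -/
def wd7 : Fin 5 → List (Fin 7)
  | 0 => [2, 0, 2, 1, 0, 2, 0, 2, 0, 1]
  | 1 => [3, 1, 0, 3, 0, 1]
  | 2 => [3, 2, 1, 0, 2, 3, 2, 1, 0, 2, 0, 1]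
  | 3 => [4, 1, 0, 4, 0, 1]
  | 4 => [5, 6, 1, 0, 6, 5, 0, 1, 0, 1]

/-- the signs -/
def ep7 : Fin 5 → Bool
  | 0 => false
  | 1 => false
  | 2 => false
  | 3 => true
  | 4 => false

/-- MODEL: approximate solutions in matrices -/
def S_MODEL : Prop := ∃ (κ : ℕ → Type) (_ : ∀ n, Fintype (κ n)) (_ : ∀ n, DecidableEq (κ n)),
  (∀ n, ∃ L : ℕ, Fintype.card (κ n) = 2 ^ L) ∧ ∃ g : ∀ n, Fin 7 → Matrix (κ n) (κ n) ℂ,
  (∀ n c, star (g n c) = g n c ∧ g n c * g n c = 1) ∧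
  (∀ b, Tendsto (fun n => n2 ntr (((wd7 b).map (g n)).prod -
    ((sgb (ep7 b) : ℝ) : ℂ) • (1 : Matrix (κ n) (κ n) ℂ))) atTop (𝓝 0))

/-- INV2: every permutation of a finite type is a product of two involutions -/
def S_INV2 : Prop := ∀ (α : Type) [Fintype α] [DecidableEq α] (f : Equiv.Perm α),
  ∃ a b : Equiv.Perm α, a * a = 1 ∧ b * b = 1 ∧ a * b = f

/-- REL: the relations of `Z² ⋊ SL_2(Z)` and the two extra ones -/
def S_REL : Prop := ∀ (A : Type) [Ring A] [StarRing A] [Algebra ℂ A] [StarModule ℂ A]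
  (g : Fin 7 → A), (∀ c, star (g c) = g c ∧ g c * g c = 1) →
  (∀ b, ((wd7 b).map g).prod = ((sgb (ep7 b) : ℝ) : ℂ) • (1 : A)) →
  ∃ U V X Y b c : A, U ∈ unitary A ∧ V ∈ unitary A ∧ X ∈ unitary A ∧ Y ∈ unitary A ∧
    b ∈ unitary A ∧ c ∈ unitary A ∧ U * V = V * U ∧ X * U = U * X ∧ X * V = star U * V * X ∧
    Y * V = V * Y ∧ Y * U = star V * U * Y ∧ b * U = -(U * b) ∧ c * U = U * U * c

/-- TR0: the moments of `U` vanish -/
def S_TR0 : Prop := ∀ (H : Type) [NormedAddCommGroup H] [InnerProductSpace ℂ H] [CompleteSpace H]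
  (N : VonNeumannAlgebra H) (T : TracialState N) (A : Type) [Ring A] [StarRing A] [Algebra ℂ A]
  [StarModule ℂ A] (j : A → Elt N), CornerEmb j → ∀ U b c : A, U ∈ unitary A → b ∈ unitary A →
  c ∈ unitary A → b * U = -(U * b) → c * U = U * U * c → ∀ k : ℕ, k ≠ 0 → T.τ (j (U ^ k)) = 0

/-- CJ: the conjugation representation -/
def S_CJ : Prop := ∀ (H : Type) [NormedAddCommGroup H] [InnerProductSpace ℂ H] [CompleteSpace H]
  (N : VonNeumannAlgebra H) (T : TracialState N),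
  ∃ (K : Type) (_ : NormedAddCommGroup K) (_ : InnerProductSpace ℂ K) (i : Elt N →ₗ[ℂ] K)
    (ad : unitary (Elt N) →* (K ≃ₗᵢ[ℂ] K)), (∀ x, ‖i x‖ = n2 T.τ x) ∧
    ∀ (u : unitary (Elt N)) (x : Elt N), ad u (i x) = i ((u : Elt N) * x * star (u : Elt N))

/-- TAIL1: the Pauli unitaries far out asymptotically commute with every element -/
def S_TAIL1 : Prop := ∀ (H : Type) [NormedAddCommGroup H] [InnerProductSpace ℂ H]
  [CompleteSpace H] (N : VonNeumannAlgebra H) (T : TracialState N) (W : VV → Elt N),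
  PauliSys T.τ W → (∀ x : Elt N, HasSum (fun v => ‖T.τ (star (W v) * x)‖ ^ 2) (n2 T.τ x ^ 2)) →
  ∀ (x : Elt N) (δ : ℝ), 0 < δ → ∃ n : ℕ, ∀ v : VV, (∀ i < n, v i = 0) →
    n2 T.τ (W v * x - x * W v) ≤ δ

/-- TAIL2: an element almost commuting with all Pauli unitaries beyond `n` is almost in the
finite dimensional algebra of the Pauli strings in `[0, n)` -/
def S_TAIL2 : Prop := ∀ (H : Type) [NormedAddCommGroup H] [InnerProductSpace ℂ H]
  [CompleteSpace H] (N : VonNeumannAlgebra H) (T : TracialState N) (W : VV → Elt N),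
  PauliSys T.τ W → (∀ x : Elt N, HasSum (fun v => ‖T.τ (star (W v) * x)‖ ^ 2) (n2 T.τ x ^ 2)) →
  ∀ n : ℕ, ∃ F : Finset VV, ∀ (x : Elt N) (δ : ℝ),
    (∀ v : VV, (∀ i < n, v i = 0) → n2 T.τ (W v * x - x * W v) ≤ δ) →
    n2 T.τ x ^ 2 ≤ ∑ w ∈ F, ‖T.τ (star (W w) * x)‖ ^ 2 + δ ^ 2

/-- BESS: Bessel's inequality -/
def S_BESS : Prop := ∀ (H : Type) [NormedAddCommGroup H] [InnerProductSpace ℂ H]
  [CompleteSpace H] (N : VonNeumannAlgebra H) (T : TracialState N) (x : ℕ → Elt N) (t : ℝ), 0 < t →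
  (∀ k, n2 T.τ (x k) ^ 2 = t) → (∀ k l, k ≠ l → T.τ (star (x k) * x l) = 0) → ∀ y : Elt N,
  Tendsto (fun k => ‖T.τ (star y * x k)‖ ^ 2) atTop (𝓝 0)

/-- the torus -/
abbrev TT : Type := UnitAddCircle × UnitAddCircle

/-- BOC: Bochner's theorem for two commuting unitaries -/
def S_BOC : Prop := ∀ (K : Type) [NormedAddCommGroup K] [InnerProductSpace ℂ K]
  (U V : K ≃ₗᵢ[ℂ] K), U * V = V * U → ∀ ξ : K, ∃ μ : MeasureTheory.Measure TT,
    MeasureTheory.IsFiniteMeasure μ ∧ ∀ m n : ℤ,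
      ∫ z : TT, fourier m z.1 * fourier n z.2 ∂μ = ⟪ξ, (U ^ m * V ^ n) ξ⟫_ℂ

/-- UNI: uniqueness of the measure -/
def S_UNI : Prop := ∀ (μ ν : MeasureTheory.Measure TT)
  [MeasureTheory.IsFiniteMeasure μ] [MeasureTheory.IsFiniteMeasure ν],
  (∀ m n : ℤ, ∫ z : TT, fourier m z.1 * fourier n z.2 ∂μ =
    ∫ z : TT, fourier m z.1 * fourier n z.2 ∂ν) → μ = ν

/-- VAR: the measures of two near vectors are near in variation -/
def S_VAR : Prop := ∀ (K : Type) [NormedAddCommGroup K] [InnerProductSpace ℂ K]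
  (U V : K ≃ₗᵢ[ℂ] K), U * V = V * U → ∀ (ξ η : K) (μ ν : MeasureTheory.Measure TT)
  [MeasureTheory.IsFiniteMeasure μ] [MeasureTheory.IsFiniteMeasure ν],
  (∀ m n : ℤ, ∫ z : TT, fourier m z.1 * fourier n z.2 ∂μ = ⟪ξ, (U ^ m * V ^ n) ξ⟫_ℂ) →
  (∀ m n : ℤ, ∫ z : TT, fourier m z.1 * fourier n z.2 ∂ν = ⟪η, (U ^ m * V ^ n) η⟫_ℂ) →
  ∀ S : Set TT, MeasurableSet S → |μ.real S - ν.real S| ≤ (‖ξ‖ + ‖η‖) * ‖ξ - η‖

/-- PP: the ping-pong estimate for a measure on the torus -/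
def S_PP : Prop := ∀ (μ : MeasureTheory.Measure TT)
  [MeasureTheory.IsFiniteMeasure μ] (η : ℝ), 0 ≤ η →
  (∀ S : Set TT, MeasurableSet S →
    |μ.real ((fun z : TT => (z.1, z.1 + z.2)) ⁻¹' S) - μ.real S| ≤ η) →
  (∀ S : Set TT, MeasurableSet S →
    |μ.real ((fun z : TT => (z.1 + z.2, z.2)) ⁻¹' S) - μ.real S| ≤ η) →
  ∫ z : TT, ‖(fourier 1 z.1 : ℂ) - 1‖ ^ 2 ∂μ ≤ η →
  ∫ z : TT, ‖(fourier 1 z.2 : ℂ) - 1‖ ^ 2 ∂μ ≤ η →
  μ.real {z : TT | z ≠ 0} ≤ 100 * η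

/-- RT: relative property (T) of `(Z² ⋊ SL_2(Z), Z²)` -/
def S_RT : Prop := ∀ (K : Type) [NormedAddCommGroup K] [InnerProductSpace ℂ K]
  (U V X Y : K ≃ₗᵢ[ℂ] K), U * V = V * U → X * U = U * X → X * V = U⁻¹ * V * X → Y * V = V * Y →
  Y * U = V⁻¹ * U * Y → ∀ (ξ : K) (δ : ℝ), ‖ξ‖ ≤ 1 → δ ≤ 1 → ‖U ξ - ξ‖ ≤ δ → ‖V ξ - ξ‖ ≤ δ →
  ‖X ξ - ξ‖ ≤ δ → ‖Y ξ - ξ‖ ≤ δ → ∀ k : ℕ, ‖(U ^ k) ξ - ξ‖ ^ 2 ≤ 1000 * δ

/-- NS1: uniformly in `k`, the powers `U^k` almost commute with the far Pauli unitaries -/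
def S_NS1 : Prop := ∀ (H : Type) [NormedAddCommGroup H] [InnerProductSpace ℂ H]
  [CompleteSpace H] (N : VonNeumannAlgebra H) (T : TracialState N) (W : VV → Elt N),
  PauliSys T.τ W → (∀ x : Elt N, HasSum (fun v => ‖T.τ (star (W v) * x)‖ ^ 2) (n2 T.τ x ^ 2)) →
  ∀ (A : Type) [Ring A] [StarRing A] [Algebra ℂ A] [StarModule ℂ A] (j : A → Elt N),
  CornerEmb j → ∀ U V X Y : A, U ∈ unitary A → V ∈ unitary A → X ∈ unitary A → Y ∈ unitary A →
  U * V = V * U → X * U = U * X → X * V = star U * V * X → Y * V = V * Y →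
  Y * U = star V * U * Y → ∀ δ : ℝ, 0 < δ → ∃ n : ℕ, ∀ v : VV, (∀ i < n, v i = 0) →
    ∀ k : ℕ, n2 T.τ (W v * j (U ^ k) - j (U ^ k) * W v) ≤ δ

/-- NOSOL: the words have no solution in a corner of the hyperfinite algebra -/
def S_NOSOL : Prop := ∀ (H : Type) [NormedAddCommGroup H] [InnerProductSpace ℂ H]
  [CompleteSpace H] (N : VonNeumannAlgebra H) (T : TracialState N) (W : VV → Elt N),
  PauliSys T.τ W → (∀ x : Elt N, HasSum (fun v => ‖T.τ (star (W v) * x)‖ ^ 2) (n2 T.τ x ^ 2)) →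
  ¬ ExWords N (Fin 7) (Fin 5) wd7 ep7

/-- MAIN -/
def S_MAIN : Prop := Neg

end Pool.Agent.H469R2.NL
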