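import Mathlib
import Pool.Agent.H469R2.NL.Defs

set_option autoImplicit false

namespace Pool.Agent.H469R2.NL

namespace C1aux

theorem aself {D : Type} (x : D → ZMod 2) : x + x = 0 := by
  funext d
  have h : ∀ a : ZMod 2, a + a = 0 := by decide
  exact h (x d)

theorem acancel {D : Type} (x y : D → ZMod 2) : x + y + y = x := by
  rw [add_assoc, aself, add_zero]

theorem sh_inj (hSH : S_SH) {D : Type} [DecidableEq D] :
    Function.Injective (sh : Option D → (D → ZMod 2)) := by
  intro i j h
  by_contra hij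
  have h2 : sh i + sh j = sh i + sh i := by rw [h]
  rcases hSH D i j i i hij h2 with h3 | h3
  · exact hij h3.2
  · exact hij h3.1

variable {A : Type} [Ring A] [StarRing A] {D : Type} [Fintype D] [DecidableEq D]

theorem PV {P Q : (D → ZMod 2) → A} (hP : PVM 1 P) (x : D → ZMod 2) (j : Option D) :
    P x * Vs P Q j = P x * Q (x + sh j) := by
  unfold Vs
  rw [Finset.mul_sum, Fintype.sum_eq_single x, ← mul_assoc, hP.idem]
  intro y hy
  rw [← mul_assoc, hP.orth x y (Ne.symm hy), zero_mul]

theorem VQ {P Q : (D → ZMod 2) → A} (hQ : PVM 1 Q) (x : D → ZMod 2) (j : Option D) :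
    Vs P Q j * Q (x + sh j) = P x * Q (x + sh j) := by
  unfold Vs
  rw [Finset.sum_mul, Fintype.sum_eq_single x, mul_assoc, hQ.idem]
  intro y hy
  rw [mul_assoc, hQ.orth (y + sh j) (x + sh j) (fun h => hy (add_right_cancel h)), mul_zero]

theorem starV {P Q : (D → ZMod 2) → A} (hP : PVM 1 P) (hQ : PVM 1 Q) (j : Option D) :
    star (Vs P Q j) = Vs Q P j := by
  unfold Vs
  rw [star_sum]
  refine Fintype.sum_equiv (Equiv.addRight (sh j)) _ _ ?_
  intro x
  simp only [Equiv.coe_addRight, star_mul, hP.sa, hQ.sa, acancel]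

theorem symm_zero {P Q : (D → ZMod 2) → A} (hP : PVM 1 P) (hQ : PVM 1 Q)
    (hz : ∀ x y, (∀ j, y ≠ x + sh j) → P x * Q y = 0) :
    ∀ x y, (∀ j, y ≠ x + sh j) → Q x * P y = 0 := by
  intro x y h
  have := hz y x (fun j hj => h j (by rw [hj, acancel]))
  have h2 := congrArg star this
  rwa [star_mul, hP.sa, hQ.sa, star_zero] at h2

theorem anti (hSH : S_SH) {P Q : (D → ZMod 2) → A} (hP : PVM 1 P) (hQ : PVM 1 Q)
    (hz : ∀ x y, (∀ j, y ≠ x + sh j) → P x * Q y = 0) (i j : Option D) (hij : i ≠ j) :
    Vs P Q i * star (Vs P Q j) = -(Vs P Q j * star (Vs P Q i)) := by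
  have hform : ∀ i j : Option D, Vs P Q i * star (Vs P Q j) =
      ∑ x, P x * Q (x + sh i) * P (x + sh i + sh j) := by
    intro i j
    rw [starV hP hQ]
    conv_lhs => rw [Vs, Finset.sum_mul]
    refine Finset.sum_congr rfl (fun x _ => ?_)
    rw [mul_assoc, PV hQ, ← mul_assoc]
  rw [hform i j, hform j i, ← Finset.sum_neg_distrib]
  refine Finset.sum_congr rfl (fun x _ => ?_)
  rw [eq_neg_iff_add_eq_zero]
  have hcomm : x + sh j + sh i = x + sh i + sh j := by
    rw [add_assoc, add_assoc, add_comm (sh j)]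
  rw [hcomm]
  have hne : x ≠ x + sh i + sh j := by
    intro h
    apply hij
    apply sh_inj hSH
    have h1 : sh i + sh j = 0 := by
      have : x + (sh i + sh j) = x + 0 := by rw [← add_assoc, ← h, add_zero]
      exact add_left_cancel this
    have h2 : sh i + sh j = sh j + sh j := by rw [h1, aself]
    exact add_right_cancel h2
  have h0 : ∑ y, P x * Q y * P (x + sh i + sh j) = 0 := by
    rw [← Finset.sum_mul, ← Finset.mul_sum, hQ.sum, mul_one]
    exact hP.orth _ _ hne
  have hne2 : x + sh i ≠ x + sh j := by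
    intro h
    exact hij (sh_inj hSH (add_left_cancel h))
  rw [Fintype.sum_eq_add (x + sh i) (x + sh j) hne2] at h0
  · exact h0
  · rintro y ⟨hy1, hy2⟩
    by_cases hk : ∃ k, y = x + sh k
    · obtain ⟨k, hk⟩ := hk
      rw [mul_assoc]
      have : Q y * P (x + sh i + sh j) = 0 := by
        apply symm_zero hP hQ hz
        intro l hl
        have e : sh i + sh j = sh k + sh l := by
          have : x + (sh i + sh j) = x + (sh k + sh l) := by
            rw [← add_assoc, hl, hk, add_assoc]
          exact add_left_cancel this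
        rcases hSH D i j k l hij e with h3 | h3
        · exact hy1 (by rw [hk, h3.1])
        · exact hy2 (by rw [hk, h3.1])
      rw [this, mul_zero]
    · push Not at hk
      rw [hz x y hk, zero_mul]

end C1aux

open C1aux in
theorem t_C1 (hSH : S_SH) : S_C1 := by
  intro A _ _ D _ _ P Q hP hQ hz
  have hPV : ∀ x j, P x * Vs P Q j = Vs P Q j * Q (x + sh j) := by
    intro x j
    rw [PV hP, VQ hQ]
  have hQV : ∀ x j, Q x * star (Vs P Q j) = star (Vs P Q j) * P (x + sh j) := by
    intro x j
    rw [starV hP hQ, PV hQ, VQ hP]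
  refine ⟨?_, anti hSH hP hQ hz, ?_, hPV, ?_, ?_⟩
  · have h1 : ∀ x, ∑ j, P x * Q (x + sh j) = P x := by
      intro x
      have h2 : ∑ y, P x * Q y = P x := by rw [← Finset.mul_sum, hQ.sum, mul_one]
      refine Eq.trans ?_ h2
      refine Finset.sum_of_injOn (fun j => x + sh j) ?_ ?_ ?_ ?_
      · intro a _ b _ hab
        exact sh_inj hSH (add_left_cancel hab)
      · intro a _; simp
      · intro y _ hy
        apply hz
        intro j hj
        apply hy
        exact ⟨j, by simp, hj.symm⟩
      · intro j _; rfl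
    unfold Vs
    rw [Finset.sum_comm]
    calc ∑ x, ∑ j, P x * Q (x + sh j) = ∑ x, P x := Finset.sum_congr rfl (fun x _ => h1 x)
      _ = 1 := hP.sum
  · intro i j hij
    have := anti hSH hQ hP (symm_zero hP hQ hz) i j hij
    rw [← starV hP hQ, ← starV hP hQ, star_star, star_star] at this
    exact this
  · intro x j
    rw [← mul_assoc, hPV, mul_assoc, hQV, acancel, mul_assoc]
  · intro x j
    rw [← mul_assoc, hQV, mul_assoc, hPV, acancel, mul_assoc]

end Pool.Agent.H469R2.NL
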