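import Mathlib
import Pool.Agent.H469R2.NL.Defs

set_option autoImplicit false

namespace Pool.Agent.H469R2.NL

theorem t_C2 : S_C2 := by
  intro A _ _ J _ V hs h1 h2
  have key : ∀ i j, V j * (star (V i) * V i) = V i * star (V i) * V j := by
    intro i j
    by_cases hij : i = j
    · subst hij
      rw [mul_assoc]
    · have e1 : V j * star (V i) = -(V i * star (V j)) := h1 j i (Ne.symm hij)
      have e2 : star (V j) * V i = -(star (V i) * V j) := h2 j i (Ne.symm hij)
      rw [← mul_assoc, e1, neg_mul, mul_assoc, e2, mul_neg, neg_neg, mul_assoc]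
  have hM : ∀ i, V i * star (V i) = star (V i) * V i := by
    intro i
    have := Finset.sum_congr (s₁ := Finset.univ) rfl (fun j (_ : j ∈ Finset.univ) => key i j)
    rw [← Finset.sum_mul, ← Finset.mul_sum, hs, one_mul, mul_one] at this
    exact this.symm
  have hc : ∀ i j, V i * star (V i) * V j = V j * (V i * star (V i)) := by
    intro i j
    rw [← key i j, hM i]
  refine ⟨hM, hc, ?_⟩
  intro i j
  have hsa : star (V i * star (V i)) = V i * star (V i) := by simp
  have hc' : V i * star (V i) * star (V j) = star (V j) * (V i * star (V i)) := by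
    have := congrArg star (hc i j)
    rw [star_mul, star_mul (V j), hsa] at this
    exact this.symm
  rw [← mul_assoc (V i * star (V i)), hc i j, mul_assoc (V j), hc' , mul_assoc]

end Pool.Agent.H469R2.NL
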