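import Pool.Agent.H469R2.NL.Defs

/-!
# C4: fine projections commute with the cut
-/

set_option autoImplicit false

namespace Pool.Agent.H469R2.NL

theorem C4 (h1 : S_C1) (h2 : S_C2) : S_C4 := by
  intro A _ _ D _ _ O _ p q hp hq P Q hP hQ hPQ Ed hEd hconn z K hcut
  classical
  have hpsa : ∀ x α, star (p x α) = p x α := fun x α => hp.sa (x, α)
  have hqsa : ∀ x α, star (q x α) = q x α := fun x α => hq.sa (x, α)
  have hporth : ∀ x α y β, (x, α) ≠ (y, β) → p x α * p y β = 0 := fun x α y β h => hp.orth (x, α) (y, β) h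
  have hqorth : ∀ x α y β, (x, α) ≠ (y, β) → q x α * q y β = 0 := fun x α y β h => hq.orth (x, α) (y, β) h
  have hpid : ∀ x α, p x α * p x α = p x α := fun x α => hp.idem (x, α)
  have hqid : ∀ x α, q x α * q x α = q x α := fun x α => hq.idem (x, α)
  -- rows and fine projections
  have hpP : ∀ x α, p x α * P x = p x α := by
    intro x α
    rw [hP, Finset.mul_sum, Finset.sum_eq_single α]
    · exact hpid x α
    · intro β _ hβ
      exact hporth x α x β (fun h => hβ (Prod.mk.inj h).2.symm)
    · intro h; exact absurd (Finset.mem_univ _) h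
  have hpP0 : ∀ x α u, u ≠ x → p x α * P u = 0 := by
    intro x α u hu
    rw [hP, Finset.mul_sum]
    exact Finset.sum_eq_zero fun β _ => hporth x α u β (fun h => hu (Prod.mk.inj h).1.symm)
  have hQq : ∀ y α, Q y * q y α = q y α := by
    intro y α
    rw [hQ, Finset.sum_mul, Finset.sum_eq_single α]
    · exact hqid y α
    · intro β _ hβ
      exact hqorth y β y α (fun h => hβ (Prod.mk.inj h).2)
    · intro h; exact absurd (Finset.mem_univ _) h
  have hQq0 : ∀ y α u, u ≠ y → Q u * q y α = 0 := by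
    intro y α u hu
    rw [hQ, Finset.sum_mul]
    exact Finset.sum_eq_zero fun β _ => hqorth u β y α (fun h => hu (Prod.mk.inj h).1)
  -- PVM of the rows
  have hPpvm : PVM 1 P := by
    refine ⟨fun x => ?_, fun x => ?_, fun x y hxy => ?_, ?_⟩
    · rw [hP, star_sum]; exact Finset.sum_congr rfl fun α _ => hpsa x α
    · conv_lhs => rw [hP x, Finset.sum_mul]
      rw [← hP x]
      conv_rhs => rw [hP x]
      exact Finset.sum_congr rfl fun α _ => hpP x α
    · rw [hP x, Finset.sum_mul]
      exact Finset.sum_eq_zero fun α _ => hpP0 x α y (Ne.symm hxy)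
    · have := hp.sum
      rw [Fintype.sum_prod_type] at this
      rw [← this]
      exact Finset.sum_congr rfl fun x _ => hP x
  have hQpvm : PVM 1 Q := by
    refine ⟨fun x => ?_, fun x => ?_, fun x y hxy => ?_, ?_⟩
    · rw [hQ, star_sum]; exact Finset.sum_congr rfl fun α _ => hqsa x α
    · conv_lhs => rw [hQ x, Finset.mul_sum]
      rw [← hQ x]
      conv_rhs => rw [hQ x]
      exact Finset.sum_congr rfl fun α _ => hQq x α
    · conv_lhs => rw [hQ y, Finset.mul_sum]
      exact Finset.sum_eq_zero fun α _ => hQq0 y α x hxy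
    · have := hq.sum
      rw [Fintype.sum_prod_type] at this
      rw [← this]
      exact Finset.sum_congr rfl fun x _ => hQ x
  obtain ⟨c1, c2, c3, c4, c5, c6⟩ := h1 A D P Q hPpvm hQpvm hPQ
  obtain ⟨d1, d2, d3⟩ := h2 A (Option D) (fun j => Vs P Q j) c1 c2 c3
  -- (a)
  have ha : ∀ x j α, Ed x j → p x α * Vs P Q j = Vs P Q j * q (x + sh j) α := by
    intro x j α he
    have e1 : p x α * Vs P Q j = p x α * Q (x + sh j) := by
      unfold Vs
      rw [Finset.mul_sum, Finset.sum_eq_single x]
      · rw [← mul_assoc, hpP]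
      · intro u _ hu
        rw [← mul_assoc, hpP0 x α u hu, zero_mul]
      · intro h; exact absurd (Finset.mem_univ _) h
    have e2 : Vs P Q j * q (x + sh j) α = P x * q (x + sh j) α := by
      unfold Vs
      rw [Finset.sum_mul, Finset.sum_eq_single x]
      · rw [mul_assoc, hQq]
      · intro u _ hu
        rw [mul_assoc, hQq0 (x + sh j) α (u + sh j) (fun h => hu (add_right_cancel h)), mul_zero]
      · intro h; exact absurd (Finset.mem_univ _) h
    rw [e1, e2, hQ, hP, Finset.mul_sum, Finset.sum_mul]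
    rw [Finset.sum_eq_single α, Finset.sum_eq_single α]
    · intro β _ hβ
      exact hEd x j he β α hβ
    · intro h; exact absurd (Finset.mem_univ _) h
    · intro β _ hβ
      exact hEd x j he α β hβ.symm
    · intro h; exact absurd (Finset.mem_univ _) h
  have ha' : ∀ x j α, Ed x j → q (x + sh j) α * star (Vs P Q j) = star (Vs P Q j) * p x α := by
    intro x j α he
    have := congrArg star (ha x j α he)
    rw [star_mul, star_mul, hpsa, hqsa] at this
    exact this.symm
  have hMsa : ∀ j, star (Vs P Q j * star (Vs P Q j)) = Vs P Q j * star (Vs P Q j) := by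
    intro j; rw [star_mul, star_star]
  -- z commutes with V
  have hzV : ∀ i, z * Vs P Q i = Vs P Q i * z := fun i => hcut.zc _ (fun j => d2 j i)
  have hzVs : ∀ i, z * star (Vs P Q i) = star (Vs P Q i) * z := by
    intro i
    have := congrArg star (hzV i)
    rw [star_mul, star_mul, hcut.zsa] at this
    exact this.symm
  have hMVs : ∀ j i, Vs P Q j * star (Vs P Q j) * star (Vs P Q i) =
      star (Vs P Q i) * (Vs P Q j * star (Vs P Q j)) := by
    intro j i
    have := congrArg star (d2 j i)
    rw [star_mul (Vs P Q j * star (Vs P Q j)) (Vs P Q i),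
      star_mul (Vs P Q i) (Vs P Q j * star (Vs P Q j)), hMsa] at this
    exact this.symm
  have hzM : ∀ j, z * (Vs P Q j * star (Vs P Q j)) = Vs P Q j * star (Vs P Q j) * z :=
    fun j => hcut.zc _ (fun i => d3 i j)
  have hKM : ∀ i j, K i * (Vs P Q j * star (Vs P Q j)) = Vs P Q j * star (Vs P Q j) * K i :=
    fun i j => hcut.kc i _ (d3 i j)
  have hKz : ∀ i, K i * z = z * K i := fun i => hcut.kc i _ (hzM i).symm
  -- removing M_i
  have hcancel : ∀ i (c : A), c * z * (Vs P Q i * star (Vs P Q i)) = 0 → c * z = 0 := by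
    intro i c hc
    have h3 := hcut.km i
    have hc1 : Commute (K i) (Vs P Q i * star (Vs P Q i)) := hKM i i
    have hc2 : Commute (K i) z := hKz i
    have e1 : K i * K i * (Vs P Q i * star (Vs P Q i)) * z =
        z * (Vs P Q i * star (Vs P Q i)) * (K i * K i) := by
      rw [mul_assoc (K i * K i), ((hc1.mul_right hc2).mul_left (hc1.mul_right hc2)).eq, ← hzM]
    calc c * z = c * (K i * K i * (Vs P Q i * star (Vs P Q i)) * z) := by rw [h3]
      _ = c * z * (Vs P Q i * star (Vs P Q i)) * (K i * K i) := by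
          rw [e1]
          simp only [mul_assoc]
      _ = 0 := by rw [hc, zero_mul]
  -- transfer along an edge
  have hstep1 : ∀ j x i α, Ed x i → (Vs P Q j * star (Vs P Q j) * p x α -
        p x α * (Vs P Q j * star (Vs P Q j))) * z = 0 →
      (Vs P Q j * star (Vs P Q j) * q (x + sh i) α -
        q (x + sh i) α * (Vs P Q j * star (Vs P Q j))) * z = 0 := by
    intro j x i α he h4
    apply hcancel i
    have e1 : (Vs P Q j * star (Vs P Q j) * q (x + sh i) α -
        q (x + sh i) α * (Vs P Q j * star (Vs P Q j))) * star (Vs P Q i) =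
        star (Vs P Q i) * (Vs P Q j * star (Vs P Q j) * p x α -
          p x α * (Vs P Q j * star (Vs P Q j))) := by
      rw [sub_mul, mul_sub]
      congr 1
      · rw [mul_assoc _ (q _ _), ha' x i α he, ← mul_assoc, hMVs, mul_assoc]
      · rw [mul_assoc (q _ _), hMVs, ← mul_assoc (q _ _), ha' x i α he, mul_assoc (star _)]
    obtain ⟨c, hc⟩ : ∃ c, c = Vs P Q j * star (Vs P Q j) * q (x + sh i) α -
        q (x + sh i) α * (Vs P Q j * star (Vs P Q j)) := ⟨_, rfl⟩
    obtain ⟨c', hc'⟩ : ∃ c', c' = Vs P Q j * star (Vs P Q j) * p x α -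
        p x α * (Vs P Q j * star (Vs P Q j)) := ⟨_, rfl⟩
    rw [← hc, ← hc'] at e1
    rw [← hc'] at h4
    rw [← hc, d1 i]
    calc c * z * (star (Vs P Q i) * Vs P Q i) = c * (z * star (Vs P Q i)) * Vs P Q i := by
          simp only [mul_assoc]
      _ = (c * star (Vs P Q i)) * z * Vs P Q i := by rw [hzVs]; simp only [mul_assoc]
      _ = star (Vs P Q i) * (c' * z) * Vs P Q i := by rw [e1]; simp only [mul_assoc]
      _ = 0 := by rw [h4, mul_zero, zero_mul]
  have hstep2 : ∀ j x i α, Ed x i → (Vs P Q j * star (Vs P Q j) * q (x + sh i) α -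
        q (x + sh i) α * (Vs P Q j * star (Vs P Q j))) * z = 0 →
      (Vs P Q j * star (Vs P Q j) * p x α -
        p x α * (Vs P Q j * star (Vs P Q j))) * z = 0 := by
    intro j x i α he h4
    apply hcancel i
    have e1 : (Vs P Q j * star (Vs P Q j) * p x α -
        p x α * (Vs P Q j * star (Vs P Q j))) * Vs P Q i =
        Vs P Q i * (Vs P Q j * star (Vs P Q j) * q (x + sh i) α -
          q (x + sh i) α * (Vs P Q j * star (Vs P Q j))) := by
      rw [sub_mul, mul_sub]
      congr 1
      · rw [mul_assoc _ (p _ _), ha x i α he, ← mul_assoc, d2, mul_assoc]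
      · rw [mul_assoc (p _ _), d2, ← mul_assoc (p _ _), ha x i α he, mul_assoc (Vs P Q i)]
    obtain ⟨c, hc⟩ : ∃ c, c = Vs P Q j * star (Vs P Q j) * q (x + sh i) α -
        q (x + sh i) α * (Vs P Q j * star (Vs P Q j)) := ⟨_, rfl⟩
    obtain ⟨c', hc'⟩ : ∃ c', c' = Vs P Q j * star (Vs P Q j) * p x α -
        p x α * (Vs P Q j * star (Vs P Q j)) := ⟨_, rfl⟩
    rw [← hc, ← hc'] at e1
    rw [← hc] at h4
    rw [← hc']
    calc c' * z * (Vs P Q i * star (Vs P Q i)) = c' * (z * Vs P Q i) * star (Vs P Q i) := by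
          simp only [mul_assoc]
      _ = (c' * Vs P Q i) * z * star (Vs P Q i) := by rw [hzV]; simp only [mul_assoc]
      _ = Vs P Q i * (c * z) * star (Vs P Q i) := by rw [e1]; simp only [mul_assoc]
      _ = 0 := by rw [h4, mul_zero, zero_mul]
  -- commutation with p, q
  have hall : ∀ j, ∀ v : (D → ZMod 2) ⊕ (D → ZMod 2), v ∈ {v : (D → ZMod 2) ⊕ (D → ZMod 2) |
      (∀ x, v = Sum.inl x → ∀ α, (Vs P Q j * star (Vs P Q j) * p x α -
        p x α * (Vs P Q j * star (Vs P Q j))) * z = 0) ∧
      (∀ y, v = Sum.inr y → ∀ α, (Vs P Q j * star (Vs P Q j) * q y α -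
        q y α * (Vs P Q j * star (Vs P Q j))) * z = 0)} := by
    intro j
    apply hconn j
    · intro x i he
      simp only [Set.mem_ofPred_eq]
      constructor
      · rintro ⟨h3, _⟩
        refine ⟨fun y hy => (Sum.inr_ne_inl hy).elim, ?_⟩
        intro y hy α
        have hy' := Sum.inr.inj hy
        subst hy'
        exact hstep1 j x i α he (h3 x rfl α)
      · rintro ⟨_, h3⟩
        refine ⟨?_, fun y hy => (Sum.inl_ne_inr hy).elim⟩
        intro y hy α
        have hy' := Sum.inl.inj hy
        subst hy'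
        exact hstep2 j x i α he (h3 _ rfl α)
    · intro x he
      simp only [Set.mem_ofPred_eq]
      refine ⟨?_, fun y hy => (Sum.inl_ne_inr hy).elim⟩
      intro y hy α
      have hy' := Sum.inl.inj hy
      subst hy'
      have e1 : p x α * (Vs P Q j * star (Vs P Q j)) = Vs P Q j * star (Vs P Q j) * p x α := by
        rw [← mul_assoc, ha x j α he, mul_assoc, ha' x j α he, ← mul_assoc]
      rw [e1, sub_self, zero_mul]
  -- general conclusion
  have hfin : ∀ e : A, star e = e → (∀ j, (Vs P Q j * star (Vs P Q j) * e -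
      e * (Vs P Q j * star (Vs P Q j))) * z = 0) →
      z * e = e * z ∧ ∀ j, K j * (e * z) = e * z * K j := by
    intro e he h3
    have h4 : ∀ j, Vs P Q j * star (Vs P Q j) * (e * z) = e * z * (Vs P Q j * star (Vs P Q j)) := by
      intro j
      have h5 := h3 j
      rw [sub_mul, sub_eq_zero] at h5
      rw [← mul_assoc, h5, mul_assoc, ← hzM, ← mul_assoc]
    have h6 := hcut.zc _ h4
    rw [mul_assoc e z z, hcut.zid] at h6
    have h7 := congrArg star h6
    rw [star_mul, star_mul, he, hcut.zsa] at h7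
    refine ⟨?_, fun j => hcut.kc j _ (h4 j)⟩
    rw [← h7, mul_assoc, h6]
  refine ⟨fun x α => ⟨?_, ?_⟩, fun x α j => ⟨?_, ?_⟩, ha⟩
  · exact (hfin _ (hpsa x α) (fun j => (hall j (Sum.inl x)).1 x rfl α)).1
  · exact (hfin _ (hqsa x α) (fun j => (hall j (Sum.inr x)).2 x rfl α)).1
  · exact (hfin _ (hpsa x α) (fun j => (hall j (Sum.inl x)).1 x rfl α)).2 j
  · exact (hfin _ (hqsa x α) (fun j => (hall j (Sum.inr x)).2 x rfl α)).2 j

end Pool.Agent.H469R2.NL
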