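import Mathlib
import Pool.Agent.H469R2.NL.Defs

set_option autoImplicit false

namespace Pool.Agent.H469R2.NL

theorem t_C5 (hC2 : S_C2) : S_C5 := by
  intro A _ _ J _ V z K hs h1 h2 hcut
  obtain ⟨hM, hc, hMM⟩ := hC2 A J V hs h1 h2
  have hzM : ∀ i, z * (V i * star (V i)) = V i * star (V i) * z := by
    intro i
    exact hcut.zc _ (fun j => (hMM j i))
  have hzV : ∀ j, z * V j = V j * z := fun j => hcut.zc _ (fun i => hc i j)
  have hKV : ∀ i j, K i * V j = V j * K i := fun i j => hcut.kc i _ (hc i j)
  have hsa : ∀ i, star (V i * star (V i)) = V i * star (V i) := by intro i; simp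
  have hc' : ∀ i j, V i * star (V i) * star (V j) = star (V j) * (V i * star (V i)) := by
    intro i j
    have := congrArg star (hc i j)
    rw [star_mul, star_mul (V j), hsa] at this
    exact this.symm
  have hzV' : ∀ j, z * star (V j) = star (V j) * z := fun j => hcut.zc _ (fun i => hc' i j)
  have hKV' : ∀ i j, K i * star (V j) = star (V j) * K i :=
    fun i j => hcut.kc i _ (hc' i j)
  have hMK : ∀ i j, V j * star (V j) * K i = K i * (V j * star (V j)) := by
    intro i j
    rw [mul_assoc, ← hKV', ← mul_assoc, ← hKV, mul_assoc]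
  have hzK : ∀ i, z * K i = K i * z := fun i => hcut.zc _ (fun j => hMK i j)
  have hzM2 : ∀ i, V i * star (V i) * z = z * (V i * star (V i)) := fun i => (hzM i).symm
  have hKK : ∀ i j, K i * K j = K j * K i := fun i j => hcut.kc i _ (hMK j i)
  have hst : ∀ j, star (V j * K j * z) = z * (K j * star (V j)) := by
    intro j
    rw [star_mul, star_mul, hcut.zsa, hcut.ksa]
  have hkm := hcut.km
  have hW : ∀ j, z * (V j * K j * z) = V j * K j * z := by
    intro j
    rw [← mul_assoc, ← mul_assoc, hzV, mul_assoc (V j), hzK, ← mul_assoc, mul_assoc _ z z,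
      hcut.zid]
  have hprod : ∀ i j, V i * K i * z * star (V j * K j * z) =
      K i * K j * (V i * star (V j)) * z := by
    intro i j
    rw [hst]
    calc V i * K i * z * (z * (K j * star (V j)))
        = V i * K i * (z * z) * (K j * star (V j)) := by noncomm_ring
      _ = V i * K i * (z * K j) * star (V j) := by rw [hcut.zid]; noncomm_ring
      _ = V i * K i * K j * (z * star (V j)) := by rw [hzK]; noncomm_ring
      _ = (V i * K i) * K j * star (V j) * z := by rw [hzV']; noncomm_ring
      _ = K i * (V i * K j) * star (V j) * z := by rw [← hKV]; noncomm_ring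
      _ = K i * K j * (V i * star (V j)) * z := by rw [← hKV]; noncomm_ring
  have hprod2 : ∀ j, star (V j * K j * z) * (V j * K j * z) =
      K j * K j * (star (V j) * V j) * z := by
    intro j
    rw [hst]
    calc z * (K j * star (V j)) * (V j * K j * z)
        = z * K j * star (V j) * (V j * K j) * z := by noncomm_ring
      _ = K j * z * star (V j) * (K j * V j) * z := by rw [hKV, hzK]
      _ = K j * (z * star (V j)) * (K j * V j) * z := by noncomm_ring
      _ = K j * (star (V j) * z) * (K j * V j) * z := by rw [hzV']
      _ = K j * star (V j) * (z * K j) * V j * z := by noncomm_ring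
      _ = K j * (star (V j) * K j) * (z * V j) * z := by rw [hzK]; noncomm_ring
      _ = K j * K j * (star (V j) * V j) * (z * z) := by rw [hzV, ← hKV']; noncomm_ring
      _ = K j * K j * (star (V j) * V j) * z := by rw [hcut.zid]
  refine ⟨?_, ?_, ?_, hW, hzV, hKV⟩
  · intro j
    rw [hprod]
    have := hkm j
    exact this
  · intro j
    rw [hprod2, ← hM]
    exact hkm j
  · intro i j hij
    rw [hprod, hprod, h1 i j hij, hKK i j]
    noncomm_ring

end Pool.Agent.H469R2.NL
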