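import Pool.Agent.H469R2.NL.C7

set_option autoImplicit false

namespace Pool.Agent.H469R2.NL

open C67

theorem t_C6 : S_C6 := by
  intro A _ _ D _ _ z P T h x0 y hy1 hy2 hy3 hy4
  have key : ∀ s : Finset D, ∃ y' : A, z * y' = y' ∧ y' * z = y' ∧
      (∀ d ∈ s, T d * y' = y' * T d) ∧ (∀ x, P x * y' = y' * P x) ∧ P x0 * y' = y ∧
      ∀ x : D → ZMod 2, (∃ d, d ∉ s ∧ x d ≠ x0 d) → P x * y' = 0 := by
    intro s
    induction s using Finset.induction_on with
    | empty =>
      have h0 : ∀ x, x ≠ x0 → P x * y = 0 := fun x hx => by
        rw [← hy1, ← mul_assoc, h.pvm.orth x x0 hx, zero_mul]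
      have h0' : ∀ x, x ≠ x0 → y * P x = 0 := fun x hx => by
        rw [← hy2, mul_assoc, h.pvm.orth x0 x (Ne.symm hx), mul_zero]
      refine ⟨y, hy3, hy4, fun d hd => absurd hd (Finset.notMem_empty d), fun x => ?_, hy1,
        fun x hx => ?_⟩
      · by_cases hx : x = x0
        · rw [hx, hy1, hy2]
        · rw [h0 x hx, h0' x hx]
      · obtain ⟨d, _, hd⟩ := hx
        exact h0 x fun e => hd (by rw [e])
    | insert d s hd ih =>
      obtain ⟨w, w1, w2, w3, w4, w5, w6⟩ := ih
      refine ⟨w - T d * w * T d, ?_, ?_, ?_, ?_, ?_, ?_⟩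
      · rw [mul_sub, w1, ← mul_assoc, ← mul_assoc, h.zT]
      · rw [sub_mul, w2, mul_assoc (T d * w), h.Tz]
      · intro e he
        rw [Finset.mem_insert] at he
        by_cases hed : e = d
        · subst hed
          rw [mul_sub, sub_mul, ← mul_assoc, ← mul_assoc, tt h, mul_assoc (T e * w), tt h, neg_mul,
            w1, mul_neg, mul_assoc (T e), w2, neg_mul]
          abel
        · have he' : e ∈ s := he.resolve_left hed
          have a1 := w3 e he'
          have a2 := h.anti e d hed
          rw [mul_sub, sub_mul, a1]
          congr 1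
          calc T e * (T d * w * T d) = (T e * T d) * w * T d := by simp only [mul_assoc]
            _ = -(T d * (T e * w) * T d) := by rw [a2]; simp only [neg_mul, mul_assoc]
            _ = -(T d * w * (T e * T d)) := by rw [a1]; simp only [mul_assoc]
            _ = T d * w * T d * T e := by rw [a2]; simp only [mul_neg, neg_neg, mul_assoc]
      · intro x
        rw [mul_sub, sub_mul, w4]
        congr 1
        calc P x * (T d * w * T d) = (P x * T d) * w * T d := by simp only [mul_assoc]
          _ = T d * (P (x + Pi.single d 1) * w) * T d := by rw [h.PT]; simp only [mul_assoc]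
          _ = T d * w * (P (x + Pi.single d 1) * T d) := by rw [w4]; simp only [mul_assoc]
          _ = T d * w * T d * P x := by rw [PT' h]; simp only [mul_assoc]
      · have e0 : P (x0 + Pi.single d 1) * w = 0 := by
          refine w6 _ ⟨d, hd, ?_⟩
          rw [Pi.add_apply, Pi.single_eq_same]
          intro e
          have : (1 : ZMod 2) = 0 := by
            have := congrArg (fun t => t - x0 d) e
            simp at this
          exact absurd this (by decide)
        rw [mul_sub, w5]
        have : P x0 * (T d * w * T d) = 0 := by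
          calc P x0 * (T d * w * T d) = (P x0 * T d) * w * T d := by simp only [mul_assoc]
            _ = T d * (P (x0 + Pi.single d 1) * w) * T d := by rw [h.PT]; simp only [mul_assoc]
            _ = 0 := by rw [e0, mul_zero, zero_mul]
        rw [this, sub_zero]
      · rintro x ⟨e, he, hx⟩
        rw [Finset.mem_insert, not_or] at he
        have b1 : P x * w = 0 := w6 x ⟨e, he.2, hx⟩
        have b2 : P (x + Pi.single d 1) * w = 0 := by
          refine w6 _ ⟨e, he.2, ?_⟩
          rw [Pi.add_apply, Pi.single_eq_of_ne he.1, add_zero]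
          exact hx
        rw [mul_sub, b1]
        have : P x * (T d * w * T d) = 0 := by
          calc P x * (T d * w * T d) = (P x * T d) * w * T d := by simp only [mul_assoc]
            _ = T d * (P (x + Pi.single d 1) * w) * T d := by rw [h.PT]; simp only [mul_assoc]
            _ = 0 := by rw [b2, mul_zero, zero_mul]
        rw [this, sub_zero]
  obtain ⟨w, w1, w2, w3, w4, w5, _⟩ := key Finset.univ
  exact ⟨w, w1, w2, fun d => w3 d (Finset.mem_univ d), w4, w5⟩

end Pool.Agent.H469R2.NL
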