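import Pool.Agent.H469R2.NL.Defs

set_option autoImplicit false

namespace Pool.Agent.H469R2.NL.C67

section

variable {A : Type*} [Ring A] [StarRing A] {D : Type} [Fintype D] [DecidableEq D]
  {z : A} {P : (D → ZMod 2) → A} {T : D → A}

theorem tt (h : Cliff z P T) (d : D) : T d * T d = -z := by
  have h1 := h.Tsq d
  rw [h.Tst d, mul_neg] at h1
  rw [← h1, neg_neg]

omit [Fintype D] in
theorem single_add (d : D) : (Pi.single d (1 : ZMod 2) : D → ZMod 2) + Pi.single d 1 = 0 := by
  rw [← Pi.single_add]
  have : (1 : ZMod 2) + 1 = 0 := by decide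
  rw [this, Pi.single_zero]

theorem PT' (h : Cliff z P T) (x : D → ZMod 2) (d : D) :
    P (x + Pi.single d 1) * T d = T d * P x := by
  rw [h.PT, add_assoc, single_add, add_zero]

/-- induction over the cube -/
theorem cube (S : (D → ZMod 2) → Prop) (x0 : D → ZMod 2) (h0 : S x0)
    (hs : ∀ x d, S x → S (x + Pi.single d 1)) : ∀ x, S x := by
  intro x
  have key : ∀ s : Finset D, S (x0 + ∑ d ∈ s, Pi.single d ((x - x0) d)) := by
    intro s
    induction s using Finset.induction_on with
    | empty => simpa using h0
    | insert d s hd ih =>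
      rw [Finset.sum_insert hd, ← add_assoc, add_right_comm]
      generalize (x - x0) d = c
      have hc : c = 0 ∨ c = 1 := by
        revert c
        decide
      rcases hc with rfl | rfl
      · rw [Pi.single_zero, add_zero]
        exact ih
      · exact hs _ d ih
  have := key Finset.univ
  rw [Finset.univ_sum_single, add_sub_cancel] at this
  exact this

end

end Pool.Agent.H469R2.NL.C67

namespace Pool.Agent.H469R2.NL

open C67

theorem t_C7 : S_C7 := by
  intro A _ _ D _ _ z P T h x0 y' hz hT hP h0
  have key : ∀ x, P x * y' = 0 := by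
    refine cube (fun x => P x * y' = 0) x0 h0 fun x d hx => ?_
    have e1 : T d * (P (x + Pi.single d 1) * y') = 0 := by
      rw [← mul_assoc, ← h.PT, mul_assoc, hT, ← mul_assoc, hx, zero_mul]
    have e2 : T d * (T d * (P (x + Pi.single d 1) * y')) = 0 := by
      rw [e1, mul_zero]
    rw [← mul_assoc, tt h, neg_mul, neg_eq_zero, ← mul_assoc, h.zP, mul_assoc, hz] at e2
    exact e2
  rw [← one_mul y', ← h.pvm.sum, Finset.sum_mul]
  exact Finset.sum_eq_zero fun x _ => key x

end Pool.Agent.H469R2.NL
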