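import Mathlib
import Pool.Agent.H469R2.NL.Defs

/-! Task CLOSE (helper265): the elements `V_j V_j*` depend continuously on the partitions. -/

set_option autoImplicit false

open scoped InnerProductSpace Topology ComplexOrder BoundedContinuousFunction
open Filter Pool.Agent.Helper278 Pool.Agent.Helper436.SM

namespace Pool.Agent.H469R2.NL

namespace CLOSE

variable {H : Type} [NormedAddCommGroup H] [InnerProductSpace ℂ H] [CompleteSpace H]
  {N : VonNeumannAlgebra H}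

theorem norm_proj (e : Elt N) (h1 : star e = e) (h2 : e * e = e) :
    ‖(e : H →L[ℂ] H)‖ ≤ 1 := by
  have h3 : star (e : H →L[ℂ] H) = e := congrArg Subtype.val h1
  have h4 : (e : H →L[ℂ] H) * e = e := congrArg Subtype.val h2
  have h5 := CStarRing.norm_star_mul_self (x := (e : H →L[ℂ] H))
  rw [h3, h4] at h5
  by_contra h6
  push Not at h6
  nlinarith

theorem coe_sum {ι : Type*} (s : Finset ι) (f : ι → Elt N) :
    ((∑ i ∈ s, f i : Elt N) : H →L[ℂ] H) = ∑ i ∈ s, (f i : H →L[ℂ] H) := by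
  classical
  induction s using Finset.induction_on with
  | empty => rfl
  | insert a s ha ih =>
    rw [Finset.sum_insert ha, Finset.sum_insert ha, ← ih]
    rfl

theorem n2_sum (T : TracialState N) {ι : Type*} (s : Finset ι) (f : ι → Elt N) :
    n2 T.τ (∑ i ∈ s, f i) ≤ ∑ i ∈ s, n2 T.τ (f i) := by
  classical
  induction s using Finset.induction_on with
  | empty =>
    rw [Finset.sum_empty, Finset.sum_empty, (trAlg T).n2_zero]
  | insert a s ha ih =>
    rw [Finset.sum_insert ha, Finset.sum_insert ha]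
    exact ((trAlg T).n2_add_le _ _).trans (by linarith)

theorem norm_P {X O : Type} [Fintype X] [Fintype O] (p : X → O → Elt N)
    (hp : PVM 1 (fun a : X × O => p a.1 a.2)) (x : X) :
    ‖((∑ α, p x α : Elt N) : H →L[ℂ] H)‖ ≤ Fintype.card O := by
  rw [coe_sum]
  refine (norm_sum_le_of_le _ (n := fun _ => (1 : ℝ)) fun α _ => ?_).trans ?_
  · exact norm_proj _ (hp.sa (x, α)) (hp.idem (x, α))
  · rw [Finset.sum_const, Finset.card_univ, nsmul_eq_mul, mul_one]

theorem n2_P (T : TracialState N) {X O : Type} [Fintype X] [Fintype O] (p p' : X → O → Elt N)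
    (δ : ℝ) (h : ∀ x α, n2 T.τ (p' x α - p x α) ≤ δ) (x : X) :
    n2 T.τ (∑ α, p' x α - ∑ α, p x α) ≤ Fintype.card O * δ := by
  rw [← Finset.sum_sub_distrib]
  refine (n2_sum T _ _).trans ((Finset.sum_le_sum fun α _ => h x α).trans ?_)
  rw [Finset.sum_const, Finset.card_univ, nsmul_eq_mul]

end CLOSE

open CLOSE in
theorem t_CLOSE : S_CLOSE := by
  intro D O _ _ _
  set o : ℝ := (Fintype.card O : ℝ) with ho
  set X : ℝ := (Fintype.card (D → ZMod 2) : ℝ) with hX
  have ho0 : 0 ≤ o := by positivity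
  have hX0 : 0 ≤ X := by positivity
  refine ⟨4 * X ^ 2 * o ^ 4, by positivity, ?_⟩
  intro H _ _ _ N T p q p' q' hp hq hp' hq' δ h1 h2 j
  have hT := trAlg T
  set P : (D → ZMod 2) → Elt N := fun x => ∑ α, p x α with hP
  set Q : (D → ZMod 2) → Elt N := fun x => ∑ α, q x α with hQ
  set P' : (D → ZMod 2) → Elt N := fun x => ∑ α, p' x α with hP'
  set Q' : (D → ZMod 2) → Elt N := fun x => ∑ α, q' x α with hQ'
  have nP : ∀ x, ‖(P x : H →L[ℂ] H)‖ ≤ o := norm_P p hp
  have nQ : ∀ x, ‖(Q x : H →L[ℂ] H)‖ ≤ o := norm_P q hq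
  have nP' : ∀ x, ‖(P' x : H →L[ℂ] H)‖ ≤ o := norm_P p' hp'
  have nQ' : ∀ x, ‖(Q' x : H →L[ℂ] H)‖ ≤ o := norm_P q' hq'
  have dP : ∀ x, n2 T.τ (P' x - P x) ≤ o * δ := n2_P T p p' δ h1
  have dQ : ∀ x, n2 T.τ (Q' x - Q x) ≤ o * δ := n2_P T q q' δ h2
  have hoδ : 0 ≤ o * δ := (n2_nonneg _ _).trans (dP 0)
  -- norms of the `V`
  have nV : ∀ (A B : (D → ZMod 2) → Elt N), (∀ x, ‖(A x : H →L[ℂ] H)‖ ≤ o) →
      (∀ x, ‖(B x : H →L[ℂ] H)‖ ≤ o) → ‖((Vs A B j : Elt N) : H →L[ℂ] H)‖ ≤ X * (o * o) := by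
    intro A B hA hB
    unfold Vs
    rw [coe_sum]
    refine (norm_sum_le_of_le _ (n := fun _ => o * o) fun x _ => ?_).trans ?_
    · have e : ((A x * B (x + sh j) : Elt N) : H →L[ℂ] H) =
        (A x : H →L[ℂ] H) * (B (x + sh j) : H →L[ℂ] H) := rfl
      rw [e]
      exact (norm_mul_le _ _).trans (mul_le_mul (hA x) (hB _) (norm_nonneg _) ho0)
    · rw [Finset.sum_const, Finset.card_univ, nsmul_eq_mul]
  have nV1 := nV P Q nP nQ
  have nV2 := nV P' Q' nP' nQ'
  set V := Vs P Q j with hV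
  set V' := Vs P' Q' j with hV'
  have dV : n2 T.τ (V' - V) ≤ X * (2 * o * (o * δ)) := by
    rw [hV, hV']
    unfold Vs
    rw [← Finset.sum_sub_distrib]
    refine (n2_sum T _ _).trans ?_
    have h3 : ∀ x ∈ (Finset.univ : Finset (D → ZMod 2)),
        n2 T.τ (P' x * Q' (x + sh j) - P x * Q (x + sh j)) ≤ 2 * o * (o * δ) := by
      intro x _
      have e : P' x * Q' (x + sh j) - P x * Q (x + sh j) =
          (P' x - P x) * Q' (x + sh j) + P x * (Q' (x + sh j) - Q (x + sh j)) := by noncomm_ring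
      rw [e]
      refine (hT.n2_add_le _ _).trans ?_
      have h4 := n2_mul_le' T (P' x - P x) (Q' (x + sh j))
      have h5 := n2_mul_le T (P x) (Q' (x + sh j) - Q (x + sh j))
      have h6 : ‖(Q' (x + sh j) : H →L[ℂ] H)‖ * n2 T.τ (P' x - P x) ≤ o * (o * δ) :=
        mul_le_mul (nQ' _) (dP x) (n2_nonneg _ _) ho0
      have h7 : ‖(P x : H →L[ℂ] H)‖ * n2 T.τ (Q' (x + sh j) - Q (x + sh j)) ≤ o * (o * δ) :=
        mul_le_mul (nP _) (dQ _) (n2_nonneg _ _) ho0
      linarith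
    refine (Finset.sum_le_sum h3).trans ?_
    rw [Finset.sum_const, Finset.card_univ, nsmul_eq_mul]
  have e : V' * star V' - V * star V = (V' - V) * star V' + V * star (V' - V) := by
    rw [star_sub]; noncomm_ring
  rw [e]
  refine (hT.n2_add_le _ _).trans ?_
  have h4 := n2_mul_le' T (V' - V) (star V')
  have h5 := n2_mul_le T V (star (V' - V))
  rw [hT.n2_star] at h5
  have h6 : ‖((star V' : Elt N) : H →L[ℂ] H)‖ = ‖(V' : H →L[ℂ] H)‖ := by
    have e2 : ((star V' : Elt N) : H →L[ℂ] H) = star (V' : H →L[ℂ] H) := rfl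
    rw [e2, norm_star]
  rw [h6] at h4
  have h7 : ‖(V' : H →L[ℂ] H)‖ * n2 T.τ (V' - V) ≤ X * (o * o) * (X * (2 * o * (o * δ))) :=
    mul_le_mul nV2 dV (n2_nonneg _ _) (by positivity)
  have h8 : ‖(V : H →L[ℂ] H)‖ * n2 T.τ (V' - V) ≤ X * (o * o) * (X * (2 * o * (o * δ))) :=
    mul_le_mul nV1 dV (n2_nonneg _ _) (by positivity)
  calc _ ≤ X * (o * o) * (X * (2 * o * (o * δ))) + X * (o * o) * (X * (2 * o * (o * δ))) := by
        linarith
    _ = 4 * X ^ 2 * o ^ 4 * δ := by ring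

end Pool.Agent.H469R2.NL
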