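import Pool.Agent.H469R2.NL.Defs

set_option autoImplicit false

open Filter

namespace Pool.Agent.H469R2.NL

theorem t_CS : S_CS := by
  intro ι _ _ s a b ha hb hsa hsb hab
  have hn : (0 : ℝ) < Fintype.card ι := by
    rw [Nat.cast_pos]; exact Fintype.card_pos
  have hq : ∀ i, 1 / (Fintype.card ι : ℝ) ≤ Real.sqrt (a i) * Real.sqrt (b (s i)) := by
    intro i
    rw [← Real.sqrt_mul (ha i)]
    apply Real.le_sqrt_of_sq_le
    exact hab i
  have hsum : (1 : ℝ) ≤ ∑ i, Real.sqrt (a i) * Real.sqrt (b (s i)) := by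
    have h1 : ∑ _i : ι, 1 / (Fintype.card ι : ℝ) = 1 := by
      rw [Finset.sum_const, Finset.card_univ, nsmul_eq_mul]
      field_simp
    rw [← h1]
    exact Finset.sum_le_sum fun i _ => hq i
  have hsb' : ∑ i, b (s i) = 1 := by rw [← hsb]; exact Equiv.sum_comp s b
  have hz : ∑ i, (Real.sqrt (a i) - Real.sqrt (b (s i))) ^ 2 ≤ 0 := by
    have e : ∑ i, (Real.sqrt (a i) - Real.sqrt (b (s i))) ^ 2
        = ∑ i, a i + ∑ i, b (s i) - 2 * ∑ i, Real.sqrt (a i) * Real.sqrt (b (s i)) := by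
      rw [Finset.mul_sum, ← Finset.sum_add_distrib, ← Finset.sum_sub_distrib]
      refine Finset.sum_congr rfl fun i _ => ?_
      have h1 := Real.sq_sqrt (ha i)
      have h2 := Real.sq_sqrt (hb (s i))
      linear_combination h1 + h2
    rw [e, hsa, hsb']
    linarith
  have hz0 : ∑ i, (Real.sqrt (a i) - Real.sqrt (b (s i))) ^ 2 = 0 :=
    le_antisymm hz (Finset.sum_nonneg fun i _ => sq_nonneg _)
  rw [Finset.sum_eq_zero_iff_of_nonneg (fun i _ => sq_nonneg _)] at hz0
  have heq : ∀ i, a i = b (s i) := by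
    intro i
    have h1 : Real.sqrt (a i) = Real.sqrt (b (s i)) := by
      have := hz0 i (Finset.mem_univ i)
      have h2 := pow_eq_zero_iff (two_ne_zero) |>.mp this
      linarith
    rw [← Real.sq_sqrt (ha i), ← Real.sq_sqrt (hb (s i)), h1]
  have hge : ∀ i, 1 / (Fintype.card ι : ℝ) ≤ a i := by
    intro i
    have h1 := hq i
    rw [← heq i, Real.mul_self_sqrt (ha i)] at h1
    exact h1
  have hall : ∀ i, a i = 1 / (Fintype.card ι : ℝ) := by
    have h1 : ∑ i, (a i - 1 / (Fintype.card ι : ℝ)) = 0 := by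
      rw [Finset.sum_sub_distrib, hsa, Finset.sum_const, Finset.card_univ, nsmul_eq_mul]
      field_simp
      ring
    rw [Finset.sum_eq_zero_iff_of_nonneg (fun i _ => by have := hge i; linarith)] at h1
    intro i
    have := h1 i (Finset.mem_univ i)
    linarith
  refine ⟨hall, fun i => ?_⟩
  have h1 := heq (s.symm i)
  rw [Equiv.apply_symm_apply] at h1
  rw [← h1]
  exact hall _

end Pool.Agent.H469R2.NL
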