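import Pool.Agent.H469R2.NL.Defs

/-!
# CUBEM: the orthogonal matrix of the cube
-/

set_option autoImplicit false
set_option linter.unusedSectionVars false

namespace Pool.Agent.H469R2.NL

open Matrix

namespace CUBEMh

/-- the sign of an element of `ZMod 2` -/
noncomputable def sg (u : ZMod 2) : ℂ := if u = 0 then 1 else -1

theorem sg_add_one (u : ZMod 2) : sg (u + 1) = -sg u := by
  fin_cases u
  · show sg (0 + 1) = -sg 0
    unfold sg
    rw [if_neg (by decide), if_pos rfl]
  · show sg (1 + 1) = -sg 1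
    unfold sg
    rw [if_pos (by decide), if_neg (by decide), neg_neg]

theorem sg_sq (u : ZMod 2) : sg u * sg u = 1 := by
  unfold sg; split_ifs <;> norm_num

theorem sg_star (u : ZMod 2) : star (sg u) = sg u := by
  unfold sg; split_ifs <;> simp

variable {D : Type} [Fintype D] [DecidableEq D]

/-- the sign of direction `d` at `x` -/
noncomputable def ep (d : D) (x : D → ZMod 2) : ℂ :=
  ∏ l, if Fintype.equivFin D l ≤ Fintype.equivFin D d then sg (x l) else 1

theorem ep_sq (d : D) (x : D → ZMod 2) : ep d x * ep d x = 1 := by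
  unfold ep
  rw [← Finset.prod_mul_distrib]
  apply Finset.prod_eq_one
  intro l _
  split_ifs
  · exact sg_sq _
  · norm_num

theorem ep_star (d : D) (x : D → ZMod 2) : star (ep d x) = ep d x := by
  unfold ep
  rw [star_prod]
  apply Finset.prod_congr rfl
  intro l _
  split_ifs
  · exact sg_star _
  · simp

theorem ep_flip (e d : D) (x : D → ZMod 2) : ep e (x + Pi.single d 1) =
    ep e x * (if Fintype.equivFin D d ≤ Fintype.equivFin D e then -1 else 1) := by
  have h : (if Fintype.equivFin D d ≤ Fintype.equivFin D e then (-1 : ℂ) else 1) =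
      ∏ l : D, if l = d then (if Fintype.equivFin D d ≤ Fintype.equivFin D e then (-1 : ℂ) else 1)
        else 1 := by
    rw [Finset.prod_ite_eq']
    simp
  rw [h]
  unfold ep
  rw [← Finset.prod_mul_distrib]
  apply Finset.prod_congr rfl
  intro l _
  by_cases hl : l = d
  · subst hl
    rw [if_pos rfl, Pi.add_apply, Pi.single_eq_same]
    split_ifs
    · rw [sg_add_one]; ring
    · ring
  · rw [if_neg hl, Pi.add_apply, Pi.single_eq_of_ne hl, add_zero, mul_one]

/-- the matrix of direction `d` -/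
noncomputable def ga (d : D) : Matrix (D → ZMod 2) (D → ZMod 2) ℂ :=
  fun x y => if y = x + Pi.single d 1 then ep d x else 0

theorem single_add_single (d : D) : (Pi.single d (1 : ZMod 2) : D → ZMod 2) + Pi.single d 1 = 0 := by
  rw [← Pi.single_add, show (1 : ZMod 2) + 1 = 0 by decide, Pi.single_zero]

theorem eq_flip (x y : D → ZMod 2) (d : D) : x = y + Pi.single d 1 ↔ y = x + Pi.single d 1 := by
  constructor
  · intro h; rw [h, add_assoc, single_add_single, add_zero]
  · intro h; rw [h, add_assoc, single_add_single, add_zero]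

theorem ga_star (d : D) : star (ga d) = -ga d := by
  funext x y
  rw [star_eq_conjTranspose, conjTranspose_apply, Matrix.neg_apply]
  unfold ga
  by_cases h : y = x + Pi.single d 1
  · rw [if_pos h, if_pos ((eq_flip x y d).2 h), h, ep_flip, if_pos le_rfl, star_mul, ep_star]
    simp
  · rw [if_neg h, if_neg (fun h' => h ((eq_flip x y d).1 h')), star_zero, neg_zero]

theorem ga_mul (d e : D) (x z : D → ZMod 2) : (ga d * ga e) x z =
    if z = x + Pi.single d 1 + Pi.single e 1 then
      ep d x * ep e x * (if Fintype.equivFin D d ≤ Fintype.equivFin D e then -1 else 1) else 0 := by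
  rw [Matrix.mul_apply, Finset.sum_eq_single (x + Pi.single d 1)]
  · unfold ga
    rw [if_pos rfl]
    by_cases h : z = x + Pi.single d 1 + Pi.single e 1
    · rw [if_pos h, if_pos h, ep_flip]; ring
    · rw [if_neg h, if_neg h, mul_zero]
  · intro y _ hy
    unfold ga
    rw [if_neg hy, zero_mul]
  · intro h; exact absurd (Finset.mem_univ _) h

theorem ga_anti (d e : D) : ga d * ga e + ga e * ga d =
    if d = e then (-2 : ℂ) • (1 : Matrix (D → ZMod 2) (D → ZMod 2) ℂ) else 0 := by
  funext x z
  rw [Matrix.add_apply, ga_mul, ga_mul]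
  by_cases hde : d = e
  · subst hde
    rw [if_pos rfl, add_assoc x, single_add_single, add_zero, if_pos le_rfl, ep_sq,
      Matrix.smul_apply, Matrix.one_apply]
    by_cases h : z = x
    · rw [if_pos h, if_pos h.symm]; norm_num
    · rw [if_neg h, if_neg (Ne.symm h)]; simp
  · rw [if_neg hde, Matrix.zero_apply]
    have h1 : x + Pi.single e 1 + Pi.single d 1 = x + Pi.single d 1 + Pi.single e 1 := by
      rw [add_right_comm]
    rw [h1]
    by_cases h : z = x + Pi.single d 1 + Pi.single e 1
    · rw [if_pos h, if_pos h]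
      have h2 : Fintype.equivFin D d ≠ Fintype.equivFin D e := fun h => hde ((Fintype.equivFin D).injective h)
      rcases lt_or_gt_of_ne h2 with h3 | h3
      · rw [if_pos h3.le, if_neg (not_le.2 h3)]; ring
      · rw [if_neg (not_le.2 h3), if_pos h3.le]; ring
    · rw [if_neg h, if_neg h, add_zero]

theorem G_sq : (∑ d : D, ga d) * (∑ d : D, ga d) =
    (-(Fintype.card D : ℂ)) • (1 : Matrix (D → ZMod 2) (D → ZMod 2) ℂ) := by
  have h1 : (∑ d : D, ga d) * (∑ d : D, ga d) = ∑ d : D, ∑ e : D, ga d * ga e := by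
    rw [Finset.sum_mul]
    exact Finset.sum_congr rfl fun d _ => Finset.mul_sum _ _ _
  have h2 : (∑ d : D, ga d) * (∑ d : D, ga d) = ∑ d : D, ∑ e : D, ga e * ga d := by
    rw [h1, Finset.sum_comm]
  have h3 : (∑ d : D, ga d) * (∑ d : D, ga d) + (∑ d : D, ga d) * (∑ d : D, ga d) =
      (-(2 * (Fintype.card D : ℂ))) • (1 : Matrix (D → ZMod 2) (D → ZMod 2) ℂ) := by
    conv_lhs =>
      congr
      · rw [h1]
      · rw [h2]
    rw [← Finset.sum_add_distrib]
    have h4 : ∀ d : D, ∑ e : D, ga d * ga e + ∑ e : D, ga e * ga d =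
        (-2 : ℂ) • (1 : Matrix (D → ZMod 2) (D → ZMod 2) ℂ) := by
      intro d
      rw [← Finset.sum_add_distrib]
      rw [Finset.sum_congr rfl (fun e _ => ga_anti d e)]
      simp
    rw [Finset.sum_congr rfl (fun d _ => h4 d), Finset.sum_const, Finset.card_univ,
      ← Nat.cast_smul_eq_nsmul ℂ, smul_smul]
    congr 1
    ring
  have h5 : (2 : ℂ) • ((∑ d : D, ga d) * (∑ d : D, ga d)) =
      (2 : ℂ) • ((-(Fintype.card D : ℂ)) • (1 : Matrix (D → ZMod 2) (D → ZMod 2) ℂ)) := by
    rw [two_smul, h3, smul_smul]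
    congr 1
    ring
  exact smul_right_injective _ (two_ne_zero' ℂ) h5

end CUBEMh

open CUBEMh in
theorem CUBEM : S_CUBEM := by
  intro D _ _
  obtain ⟨G, hG⟩ : ∃ G : Matrix (D → ZMod 2) (D → ZMod 2) ℂ, G = ∑ d : D, ga d := ⟨_, rfl⟩
  have hGsq : G * G = (-(Fintype.card D : ℂ)) • (1 : Matrix (D → ZMod 2) (D → ZMod 2) ℂ) := by
    rw [hG]; exact G_sq
  have hGstar : star G = -G := by
    rw [hG, star_sum, ← Finset.sum_neg_distrib]
    exact Finset.sum_congr rfl fun d _ => ga_star d
  obtain ⟨n, hn⟩ : ∃ n : ℝ, n = (Fintype.card D : ℝ) + 1 := ⟨_, rfl⟩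
  have hn0 : 0 < n := by rw [hn]; positivity
  obtain ⟨c, hc⟩ : ∃ c : ℝ, c = (√n)⁻¹ := ⟨_, rfl⟩
  have hc2 : c * c = n⁻¹ := by
    rw [hc, ← mul_inv, Real.mul_self_sqrt hn0.le]
  have hcc : ((c : ℂ) * (c : ℂ)) * (1 + (Fintype.card D : ℂ)) = 1 := by
    have h1 : c * c * (1 + (Fintype.card D : ℝ)) = 1 := by
      rw [hc2, show 1 + (Fintype.card D : ℝ) = n by rw [hn]; ring]
      exact inv_mul_cancel₀ hn0.ne'
    exact_mod_cast h1
  have hstar : star ((c : ℂ) • (1 + G)) = (c : ℂ) • (1 - G) := by
    rw [star_smul, star_add, star_one, hGstar]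
    simp [sub_eq_add_neg]
  have hne : ∀ (x : D → ZMod 2) (d : D), x + Pi.single d 1 ≠ x := by
    intro x d h
    have h1 := congrFun h d
    rw [Pi.add_apply, Pi.single_eq_same] at h1
    exact one_ne_zero (add_eq_left.1 h1)
  have hinj : ∀ (x : D → ZMod 2) (d e : D), x + Pi.single d 1 = x + Pi.single e 1 → d = e := by
    intro x d e h
    have h1 : (Pi.single d (1 : ZMod 2) : D → ZMod 2) = Pi.single e 1 := add_left_cancel h
    by_contra hde
    have h2 := congrFun h1 d
    rw [Pi.single_eq_same, Pi.single_eq_of_ne hde] at h2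
    exact one_ne_zero h2
  refine ⟨(c : ℂ) • (1 + G), ?_, ?_, ?_, ?_⟩
  · rw [hstar, smul_mul_smul_comm, add_mul, mul_sub, mul_sub, hGsq, one_mul, one_mul, mul_one]
    rw [show (1 : Matrix (D → ZMod 2) (D → ZMod 2) ℂ) - G + (G - (-(Fintype.card D : ℂ)) • 1) =
      (1 + (Fintype.card D : ℂ)) • (1 : Matrix (D → ZMod 2) (D → ZMod 2) ℂ) by
        rw [add_smul, one_smul, neg_smul]; abel]
    rw [smul_smul, hcc, one_smul]
  · rw [hstar, smul_mul_smul_comm, sub_mul, mul_add, mul_add, hGsq, one_mul, one_mul, mul_one]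
    rw [show (1 : Matrix (D → ZMod 2) (D → ZMod 2) ℂ) + G - (G + (-(Fintype.card D : ℂ)) • 1) =
      (1 + (Fintype.card D : ℂ)) • (1 : Matrix (D → ZMod 2) (D → ZMod 2) ℂ) by
        rw [add_smul, one_smul, neg_smul]; abel]
    rw [smul_smul, hcc, one_smul]
  · intro x j
    have hcard : (1 : ℝ) / (Fintype.card (Option D) : ℝ) = c * c := by
      rw [hc2, Fintype.card_option, hn]
      push_cast
      rw [one_div]
    rw [hcard]
    rcases j with _ | d
    · have h1 : x + sh none = x := by simp [sh]
      rw [h1, Matrix.smul_apply, Matrix.add_apply, Matrix.one_apply_eq, hG, Matrix.sum_apply]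
      have h2 : ∑ d : D, ga d x x = 0 := by
        apply Finset.sum_eq_zero
        intro d _
        unfold ga
        rw [if_neg (fun h => hne x d h.symm)]
      rw [h2, add_zero, smul_eq_mul, mul_one, Complex.norm_real, Real.norm_eq_abs, sq_abs, sq]
    · have h1 : x + sh (some d) = x + Pi.single d 1 := rfl
      rw [h1, Matrix.smul_apply, Matrix.add_apply, Matrix.one_apply_ne (Ne.symm (hne x d)), hG,
        Matrix.sum_apply]
      have h2 : ∑ e : D, ga e x (x + Pi.single d 1) = ep d x := by
        rw [Finset.sum_eq_single d]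
        · unfold ga; rw [if_pos rfl]
        · intro e _ he
          unfold ga
          rw [if_neg (fun h => he (hinj x d e h).symm)]
        · intro h; exact absurd (Finset.mem_univ _) h
      have h3 : ‖ep d x‖ ^ 2 = 1 := by
        rw [sq, ← norm_mul, ep_sq, norm_one]
      rw [h2, zero_add, smul_eq_mul, norm_mul, mul_pow, h3, mul_one, Complex.norm_real,
        Real.norm_eq_abs, sq_abs, sq]
  · intro x y hxy
    have h1 : y ≠ x := by
      have := hxy none
      rwa [show x + sh none = x by simp [sh]] at this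
    rw [Matrix.smul_apply, Matrix.add_apply, Matrix.one_apply_ne (Ne.symm h1), hG, Matrix.sum_apply,
      Finset.sum_eq_zero, add_zero, smul_zero]
    intro d _
    unfold ga
    exact if_neg (hxy (some d))

end Pool.Agent.H469R2.NL
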