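import Mathlib
import Pool.Agent.H469R2.NL.Defs
import Pool.Agent.H711R2.Tr4

set_option autoImplicit false

open scoped InnerProductSpace Topology ComplexOrder BoundedContinuousFunction
open Filter Pool.Agent.Helper278 Pool.Agent.Helper436.SM

namespace Pool.Agent.H469R2.NL

namespace CUT

open Pool.H711R2

variable {H : Type} [NormedAddCommGroup H] [InnerProductSpace ℂ H] [CompleteSpace H]

theorem commute_kp' {a g : H →L[ℂ] H} (h : a * g = g * a) (h' : star a * g = g * star a) :
    a * kp g = kp g * a := by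
  have key : ∀ b : H →L[ℂ] H, b * g = g * b → b * kp g = kp g * (b * kp g) := by
    intro b hb
    ext v
    have : g (b (kp g v)) = 0 := by
      have h2 := congrArg (fun z : H →L[ℂ] H => z (kp g v)) hb
      simp only [mul_apply_eq_comp] at h2
      rw [← h2, kp_apply_mem, map_zero]
    simpa using (kp_apply_of_ker g this).symm
  have h1 := key a h
  have h2 : kp g * a = kp g * a * kp g := by
    have := congrArg star (key (star a) h')
    simpa [star_mul, kp_star, mul_assoc] using this
  rw [h1, h2, mul_assoc]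

theorem ident1 (a : H →L[ℂ] H) (ha : IsSelfAdjoint a) (ε : ℝ) :
    a - ((ε : ℝ) : ℂ) • (1 : H →L[ℂ] H) =
      cfc (fun t : ℝ => max (t - ε) 0) a -
      cfc (fun t : ℝ => Real.sqrt (max (ε - t) 0)) a *
      cfc (fun t : ℝ => Real.sqrt (max (ε - t) 0)) a := by
  rw [← cfc_mul (fun t : ℝ => Real.sqrt (max (ε - t) 0)) (fun t : ℝ => Real.sqrt (max (ε - t) 0)) a
    (by fun_prop) (by fun_prop), ← cfc_sub (fun t : ℝ => max (t - ε) 0)
    (fun t : ℝ => Real.sqrt (max (ε - t) 0) * Real.sqrt (max (ε - t) 0)) a (by fun_prop)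
    (by fun_prop)]
  have h1 : (fun t : ℝ => max (t - ε) 0 - Real.sqrt (max (ε - t) 0) * Real.sqrt (max (ε - t) 0)) =
      fun t : ℝ => t - ε := by
    funext t
    rw [Real.mul_self_sqrt (le_max_right _ _)]
    rcases le_total t ε with h | h
    · rw [max_eq_right (by linarith), max_eq_left (by linarith)]; ring
    · rw [max_eq_left (by linarith), max_eq_right (by linarith)]; ring
  rw [h1, cfc_sub (fun t : ℝ => t) (fun _ => ε) a (by fun_prop) (by fun_prop), cfc_id' ℝ a,
    cfc_const ε a]
  congr 1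

theorem ident2 (a : H →L[ℂ] H) (ε : ℝ) :
    cfc (fun t : ℝ => Real.sqrt (max (ε - t) 0)) a * cfc (fun t : ℝ => max (t - ε) 0) a = 0 := by
  rw [← cfc_mul (fun t : ℝ => Real.sqrt (max (ε - t) 0)) (fun t : ℝ => max (t - ε) 0) a
    (by fun_prop) (by fun_prop)]
  have h1 : (fun t : ℝ => Real.sqrt (max (ε - t) 0) * max (t - ε) 0) = fun _ : ℝ => 0 := by
    funext t
    rcases le_total t ε with h | h
    · rw [max_eq_right (a := t - ε) (by linarith), mul_zero]
    · rw [max_eq_right (a := ε - t) (by linarith), Real.sqrt_zero, zero_mul]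
  rw [h1, cfc_const_zero]

theorem cont_k (ε : ℝ) (hε : 0 < ε) : Continuous (fun t : ℝ => (Real.sqrt (max t ε))⁻¹) := by
  refine Continuous.inv₀ (by fun_prop) fun t => ?_
  have : 0 < max t ε := lt_of_lt_of_le hε (le_max_right _ _)
  exact (Real.sqrt_pos.2 this).ne'

theorem ident3 (a : H →L[ℂ] H) (ha : IsSelfAdjoint a) (ε : ℝ) (hε : 0 < ε) :
    cfc (fun t : ℝ => (Real.sqrt (max t ε))⁻¹) a * cfc (fun t : ℝ => (Real.sqrt (max t ε))⁻¹) a * a
      = 1 - ((ε⁻¹ : ℝ) : ℂ) • (cfc (fun t : ℝ => Real.sqrt (max (ε - t) 0)) a *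
      cfc (fun t : ℝ => Real.sqrt (max (ε - t) 0)) a) := by
  have hk := cont_k ε hε
  have hc : Continuous (fun t : ℝ => Real.sqrt (max (ε - t) 0)) := by fun_prop
  have e1 : cfc (fun t : ℝ => (Real.sqrt (max t ε))⁻¹) a *
      cfc (fun t : ℝ => (Real.sqrt (max t ε))⁻¹) a * a =
      cfc (fun t : ℝ => (Real.sqrt (max t ε))⁻¹ * (Real.sqrt (max t ε))⁻¹ * t) a := by
    rw [cfc_mul (fun t : ℝ => (Real.sqrt (max t ε))⁻¹ * (Real.sqrt (max t ε))⁻¹) (fun t => t) a
      (hk.mul hk).continuousOn (by fun_prop), cfc_id' ℝ a,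
      cfc_mul (fun t : ℝ => (Real.sqrt (max t ε))⁻¹) (fun t : ℝ => (Real.sqrt (max t ε))⁻¹) a
      hk.continuousOn hk.continuousOn]
  have h1 : (fun t : ℝ => (Real.sqrt (max t ε))⁻¹ * (Real.sqrt (max t ε))⁻¹ * t) =
      fun t : ℝ => 1 - ε⁻¹ * (Real.sqrt (max (ε - t) 0) * Real.sqrt (max (ε - t) 0)) := by
    funext t
    rw [Real.mul_self_sqrt (le_max_right _ _), ← mul_inv, Real.mul_self_sqrt
      (hε.le.trans (le_max_right _ _))]
    rcases le_total t ε with h | h
    · rw [max_eq_right h, max_eq_left (by linarith)]; field_simp; ring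
    · have : 0 < t := lt_of_lt_of_le hε h
      rw [max_eq_left h, max_eq_right (by linarith)]; field_simp; ring
  rw [e1, h1, cfc_sub (fun _ : ℝ => (1 : ℝ))
    (fun t => ε⁻¹ * (Real.sqrt (max (ε - t) 0) * Real.sqrt (max (ε - t) 0))) a
    (by fun_prop) (by fun_prop), cfc_const_one ℝ a,
    cfc_const_mul ε⁻¹ (fun t => Real.sqrt (max (ε - t) 0) * Real.sqrt (max (ε - t) 0)) a
    (by fun_prop), cfc_mul (fun t : ℝ => Real.sqrt (max (ε - t) 0))
    (fun t : ℝ => Real.sqrt (max (ε - t) 0)) a (by fun_prop) (by fun_prop)]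
  congr 1

/-- one element -/
theorem single (N : VonNeumannAlgebra H) (T : TracialState N) (m : Elt N) (hm : star m = m)
    (μ : ℝ) (hμ : 0 < μ) : ∃ z K : Elt N, star z = z ∧ z * z = z ∧
      (∀ y, m * y = y * m → z * y = y * z) ∧ star K = K ∧ (∀ y, m * y = y * m → K * y = y * K) ∧
      K * K * m * z = z ∧
      (μ / 2) ^ 2 * (T.τ (1 - z)).re ≤ n2 T.τ (m - ((μ : ℝ) : ℂ) • (1 : Elt N)) ^ 2 := by
  have hε : 0 < μ / 2 := by positivity
  set ε := μ / 2 with hεd
  obtain ⟨a, haN⟩ := m
  have ha : IsSelfAdjoint a := congrArg Subtype.val hm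
  have haN' : a ∈ N := haN
  set c : H →L[ℂ] H := cfc (fun t : ℝ => Real.sqrt (max (ε - t) 0)) a with hc
  set g : H →L[ℂ] H := cfc (fun t : ℝ => max (t - ε) 0) a with hg
  set k : H →L[ℂ] H := cfc (fun t : ℝ => (Real.sqrt (max t ε))⁻¹) a with hk
  have hcN : c ∈ N := cfc_mem_vn haN' _
  have hgN : g ∈ N := cfc_mem_vn haN' _
  have hkN : k ∈ N := cfc_mem_vn haN' _
  have hzN : kp c ∈ N := kp_mem hcN
  have hcs : star c = c := (cfc_predicate _ _ : IsSelfAdjoint c).star_eq
  have hgs : star g = g := (cfc_predicate _ _ : IsSelfAdjoint g).star_eq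
  have hks : star k = k := (cfc_predicate _ _ : IsSelfAdjoint k).star_eq
  have f1 := ident1 a ha ε
  have f2 := ident2 a ε
  have f3 := ident3 a ha ε hε
  rw [← hc, ← hg] at f1 f2
  rw [← hc, ← hk] at f3
  have hcz : c * kp c = 0 := mul_kp c
  have hzg : kp c * g = g := by
    ext v
    have : c (g v) = 0 := by
      have := congrArg (fun z : H →L[ℂ] H => z v) f2
      simpa using this
    simpa using kp_apply_of_ker c this
  have hgz : g * kp c = g := by
    have := congrArg star hzg
    simpa [star_mul, kp_star, hgs] using this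
  have hzc : kp c * c = 0 := by
    have := congrArg star hcz
    simpa [star_mul, kp_star, hcs] using this
  let z : Elt N := ⟨kp c, hzN⟩
  let K : Elt N := ⟨k, hkN⟩
  let C : Elt N := ⟨c, hcN⟩
  let G : Elt N := ⟨g, hgN⟩
  let m : Elt N := ⟨a, haN⟩
  have hms : star m = m := Subtype.ext ha.star_eq
  have hz1 : star z = z := Subtype.ext (kp_star c)
  have hz2 : z * z = z := Subtype.ext (kp_idem c)
  have hC1 : star C = C := Subtype.ext hcs
  have hCz : C * z = 0 := Subtype.ext hcz
  have hzC : z * C = 0 := Subtype.ext hzc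
  have hGz : G * z = G := Subtype.ext hgz
  have hzG : z * G = G := Subtype.ext hzg
  have f1' : m - ((ε : ℝ) : ℂ) • (1 : Elt N) = G - C * C := Subtype.ext f1
  refine ⟨z, K, hz1, hz2, ?_, Subtype.ext hks, ?_, ?_, ?_⟩
  · intro y hy
    have h1 : a * (y : H →L[ℂ] H) = (y : H →L[ℂ] H) * a := congrArg Subtype.val hy
    have h2 : a * star (y : H →L[ℂ] H) = star (y : H →L[ℂ] H) * a := by
      have := congrArg star h1
      rw [star_mul, star_mul, ha.star_eq] at this
      exact this.symm
    have h3 : (y : H →L[ℂ] H) * c = c * (y : H →L[ℂ] H) := by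
      have : Commute a (y : H →L[ℂ] H) := h1
      exact (this.cfc_real _).symm
    have h4 : star (y : H →L[ℂ] H) * c = c * star (y : H →L[ℂ] H) := by
      have : Commute a (star (y : H →L[ℂ] H)) := h2
      exact (this.cfc_real _).symm
    exact Subtype.ext (commute_kp' h3 h4).symm
  · intro y hy
    have h1 : a * (y : H →L[ℂ] H) = (y : H →L[ℂ] H) * a := congrArg Subtype.val hy
    have : Commute a (y : H →L[ℂ] H) := h1
    exact Subtype.ext (this.cfc_real _)
  · apply Subtype.ext
    change k * k * a * kp c = kp c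
    rw [f3, sub_mul, one_mul, smul_mul_assoc, mul_assoc, hcz, mul_zero, smul_zero, sub_zero]
  · have tr := trAlg T
    set e : Elt N := 1 - z with he
    set d : Elt N := m - ((μ : ℝ) : ℂ) • (1 : Elt N) with hd
    have hμε : ((μ : ℝ) : ℂ) = (ε : ℂ) + (ε : ℂ) := by
      rw [hεd]; push_cast; ring
    have hd1 : d = G - C * C - (ε : ℂ) • 1 := by
      rw [hd, hμε, add_smul, ← sub_sub, f1']
    have hds : star d = d := by
      rw [hd, star_sub, hms, star_smul, star_one]
      simp
    have hes : star e = e := by rw [he, star_sub, star_one, hz1]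
    have hee : e * e = e := by
      rw [he, mul_sub, sub_mul, sub_mul, hz2]; simp
    have hCe : C * e = C := by rw [he, mul_sub, mul_one, hCz, sub_zero]
    have heC : e * C = C := by rw [he, sub_mul, one_mul, hzC, sub_zero]
    have hGe : G * e = 0 := by rw [he, mul_sub, mul_one, hGz, sub_self]
    have heG : e * G = 0 := by rw [he, sub_mul, one_mul, hzG, sub_self]
    have hde : d * e = -(C * C + (ε : ℂ) • e) := by
      rw [hd1, sub_mul, sub_mul, hGe, mul_assoc, hCe, smul_mul_assoc, one_mul]
      abel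
    have hed : e * d = -(C * C + (ε : ℂ) • e) := by
      rw [hd1, mul_sub, mul_sub, heG, ← mul_assoc, heC, mul_smul_comm, mul_one]
      abel
    have hzd : z * d = d * z := by
      have h1 : e * d = d * e := by rw [hed, hde]
      rw [he, sub_mul 1 z d, mul_sub d 1 z, one_mul, mul_one] at h1
      exact sub_right_injective h1
    have hdd : star d * d = star (C * C) * (C * C) + ((2 * ε : ℝ) : ℂ) • (star C * C) +
        ((ε ^ 2 : ℝ) : ℂ) • (star e * e) + star (d * z) * (d * z) := by
      rw [hds, star_mul, star_mul, hC1, hes, hee, hz1, hds]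
      have h1 : d * d = (d * e) * (d * e) + z * d * (d * z) := by
        have h2 : (d * e) * (d * e) = d * d * e := by
          rw [mul_assoc, ← mul_assoc e, hed, ← hde, mul_assoc, hee, ← mul_assoc]
        have h3 : z * d * (d * z) = d * d * z := by
          rw [hzd, mul_assoc, ← mul_assoc z, hzd, mul_assoc, hz2, ← mul_assoc]
        rw [h2, h3, ← mul_add, he]; simp
      rw [h1, hde]
      congr 1
      rw [neg_mul_neg, add_mul, mul_add, mul_add, mul_smul_comm, mul_assoc C C e, hCe,
        smul_mul_assoc, ← mul_assoc e C C, heC, smul_mul_assoc, mul_smul_comm, hee, smul_smul]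
      have h4 : ((2 * ε : ℝ) : ℂ) = (ε : ℂ) + ε := by push_cast; ring
      have h5 : ((ε ^ 2 : ℝ) : ℂ) = (ε : ℂ) * ε := by push_cast; ring
      rw [h4, h5, add_smul]
      abel
    rw [tr.n2_sq, hdd, map_add, map_add, map_add, Complex.add_re, Complex.add_re, Complex.add_re,
      map_smul, map_smul, smul_eq_mul, smul_eq_mul, Complex.re_ofReal_mul, Complex.re_ofReal_mul]
    have p1 := tr.re_nonneg (C * C)
    have p2 := tr.re_nonneg C
    have p3 := tr.re_nonneg (d * z)
    rw [hes, hee]
    nlinarith [mul_nonneg (by positivity : (0:ℝ) ≤ 2 * ε) p2]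

end CUT

open CUT in
theorem t_CUT : S_CUT := by
  classical
  intro H _ _ _ N T J _ M μ hμ hM hcomm
  have tr := trAlg T
  have h0 := fun j => single N T (M j) (hM j) μ hμ
  choose Z K hZ1 hZ2 hZ3 hK1 hK2 hKM hZt using h0
  have hpos : ∀ p : Elt N, star p = p → p * p = p → 0 ≤ (T.τ p).re := by
    intro p h1 h2
    have := tr.re_nonneg p
    rwa [h1, h2] at this
  have key : ∀ S : Finset J, ∃ z : Elt N, star z = z ∧ z * z = z ∧
      (∀ y, (∀ j, M j * y = y * M j) → z * y = y * z) ∧ (∀ j ∈ S, Z j * z = z) ∧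
      (T.τ (1 - z)).re ≤ ∑ j ∈ S, (T.τ (1 - Z j)).re := by
    intro S
    induction S using Finset.induction_on with
    | empty => exact ⟨1, star_one _, mul_one _, fun y _ => by simp, by simp, by simp⟩
    | insert i S hi ih =>
      obtain ⟨z, h1, h2, h3, h4, h5⟩ := ih
      have hc : z * Z i = Z i * z := h3 _ fun j => (hZ3 i (M j) (hcomm i j)).symm
      refine ⟨z * Z i, ?_, ?_, ?_, ?_, ?_⟩
      · rw [star_mul, h1, hZ1, hc]
      · calc z * Z i * (z * Z i) = z * (Z i * z) * Z i := by simp only [mul_assoc]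
          _ = z * z * (Z i * Z i) := by rw [← hc]; simp only [mul_assoc]
          _ = z * Z i := by rw [h2, hZ2]
      · intro y hy
        rw [mul_assoc, hZ3 i y (hy i), ← mul_assoc, h3 y hy, mul_assoc]
      · intro j hj
        rw [Finset.mem_insert] at hj
        rcases hj with rfl | hj
        · rw [← mul_assoc, ← hc, mul_assoc, hZ2]
        · rw [← mul_assoc, h4 j hj]
      · rw [Finset.sum_insert hi]
        have hp : 0 ≤ (T.τ ((1 - z) * (1 - Z i))).re := by
          have hc' : (1 - z) * (1 - Z i) = (1 - Z i) * (1 - z) := by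
            have r1 : (1 - z) * (1 - Z i) = 1 - z - Z i + z * Z i := by noncomm_ring
            have r2 : (1 - Z i) * (1 - z) = 1 - z - Z i + Z i * z := by noncomm_ring
            rw [r1, r2, hc]
          apply hpos
          · rw [star_mul, star_sub, star_sub, star_one, h1, hZ1, hc']
          · have q1 : (1 - z) * (1 - z) = 1 - z := by
              have r1 : (1 - z) * (1 - z) = 1 - z - z + z * z := by noncomm_ring
              rw [r1, h2]; abel
            have q2 : (1 - Z i) * (1 - Z i) = 1 - Z i := by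
              have r1 : (1 - Z i) * (1 - Z i) = 1 - Z i - Z i + Z i * Z i := by noncomm_ring
              rw [r1, hZ2]; abel
            calc (1 - z) * (1 - Z i) * ((1 - z) * (1 - Z i))
                = (1 - z) * ((1 - Z i) * (1 - z)) * (1 - Z i) := by simp only [mul_assoc]
              _ = (1 - z) * (1 - z) * ((1 - Z i) * (1 - Z i)) := by
                rw [← hc']; simp only [mul_assoc]
              _ = (1 - z) * (1 - Z i) := by rw [q1, q2]
        have he : (1 : Elt N) - z * Z i = (1 - z) + (1 - Z i) - (1 - z) * (1 - Z i) := by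
          noncomm_ring
        rw [he, map_sub, map_add, Complex.sub_re, Complex.add_re]
        linarith
  obtain ⟨z, h1, h2, h3, h4, h5⟩ := key Finset.univ
  refine ⟨z, K, ⟨h1, h2, h3, hK1, fun j y hy => hK2 j y hy, ?_⟩, ?_⟩
  · intro j
    have h6 := h4 j (Finset.mem_univ j)
    calc K j * K j * M j * z = K j * K j * M j * Z j * z := by
          rw [mul_assoc (K j * K j * M j), h6]
      _ = z := by rw [hKM, h6]
  · intro hn hz0
    rw [hz0, sub_zero, T.map_one, Complex.one_re] at h5
    have h7 : ∀ j, (T.τ (1 - Z j)).re ≤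
        4 * n2 T.τ (M j - ((μ : ℝ) : ℂ) • (1 : Elt N)) ^ 2 / μ ^ 2 := by
      intro j
      have := hZt j
      rw [le_div_iff₀ (by positivity)]
      nlinarith
    have h8 := h5.trans (Finset.sum_le_sum fun j _ => h7 j)
    rcases isEmpty_or_nonempty J with hJ | hJ
    · simp at h8
      linarith
    · have hc0 : (0 : ℝ) < Fintype.card J := by exact_mod_cast Fintype.card_pos
      have h9 : ∑ j : J, 4 * n2 T.τ (M j - ((μ : ℝ) : ℂ) • (1 : Elt N)) ^ 2 / μ ^ 2 <
          ∑ j : J, (1 / (Fintype.card J : ℝ)) := by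
        apply Finset.sum_lt_sum_of_nonempty Finset.univ_nonempty
        intro j _
        rw [div_lt_div_iff₀ (by positivity) hc0]
        have := hn j
        nlinarith
      rw [Finset.sum_const, Finset.card_univ, nsmul_eq_mul, mul_one_div_cancel hc0.ne'] at h9
      linarith

end Pool.Agent.H469R2.NL
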