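import Mathlib
import Pool.Agent.H469R2.NL.Defs

set_option autoImplicit false

namespace Pool.Agent.H469R2.NL

namespace CX1

/-- coarse partitions -/
theorem coarse {A : Type} [Ring A] [StarRing A] {X O : Type} [Fintype X] [DecidableEq X]
    [Fintype O] {z : A} (p : X → O → A) (h : PVM z (fun a : X × O => p a.1 a.2)) :
    PVM z (fun x => ∑ α, p x α) ∧ (∀ x α, (∑ β, p x β) * p x α = p x α) ∧
      (∀ x α, p x α * (∑ β, p x β) = p x α) ∧
      (∀ x y α, x ≠ y → p x α * (∑ β, p y β) = 0) := by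
  classical
  have horth : ∀ x y α β, (x, α) ≠ (y, β) → p x α * p y β = 0 := fun x y α β hne =>
    h.orth (x, α) (y, β) hne
  have hid : ∀ x α, p x α * p x α = p x α := fun x α => h.idem (x, α)
  have h1 : ∀ x α, (∑ β, p x β) * p x α = p x α := by
    intro x α
    rw [Finset.sum_mul, Finset.sum_eq_single α]
    · exact hid x α
    · intro β _ hβ
      exact horth _ _ _ _ (fun hh => hβ (Prod.mk.inj hh).2)
    · intro hα; exact absurd (Finset.mem_univ α) hα
  have h2 : ∀ x α, p x α * (∑ β, p x β) = p x α := by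
    intro x α
    rw [Finset.mul_sum, Finset.sum_eq_single α]
    · exact hid x α
    · intro β _ hβ
      exact horth _ _ _ _ (fun hh => hβ (Prod.mk.inj hh).2.symm)
    · intro hα; exact absurd (Finset.mem_univ α) hα
  have h3 : ∀ x y α, x ≠ y → p x α * (∑ β, p y β) = 0 := by
    intro x y α hxy
    rw [Finset.mul_sum]
    exact Finset.sum_eq_zero fun β _ => horth _ _ _ _ (fun hh => hxy (Prod.mk.inj hh).1)
  refine ⟨⟨?_, ?_, ?_, ?_⟩, h1, h2, h3⟩
  · intro x
    rw [star_sum]
    exact Finset.sum_congr rfl fun α _ => h.sa (x, α)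
  · intro x
    rw [Finset.mul_sum]
    exact Finset.sum_congr rfl fun α _ => h1 x α
  · intro x y hxy
    rw [Finset.sum_mul]
    exact Finset.sum_eq_zero fun α _ => h3 x y α hxy
  · rw [← h.sum, Fintype.sum_prod_type]

end CX1

open CX1 in
theorem t_CX1 (h1 : S_C1) (h2 : S_C2) (h4 : S_C4) (h5 : S_C5) : S_CX1 := by
  intro A _ _ D _ _ O _ p q hp hq h0 Ed hEd hcon z K hcut
  obtain ⟨hP, hPp, hpP, hpP0⟩ := coarse p hp
  obtain ⟨hQ, hQq, hqQ, hqQ0⟩ := coarse q hq
  have hz : ∀ x y, (∀ j, y ≠ x + sh j) → (∑ α, p x α) * (∑ α, q y α) = 0 := by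
    intro x y hxy
    rw [Finset.sum_mul]
    refine Finset.sum_eq_zero fun α _ => ?_
    rw [Finset.mul_sum]
    exact Finset.sum_eq_zero fun β _ => h0 x y α β hxy
  obtain ⟨hsum, ha1, ha2, hPV, hPM, hQM⟩ := h1 A D (fun x => ∑ α, p x α) (fun x => ∑ α, q x α)
    hP hQ hz
  obtain ⟨hb1, hb2, hb3⟩ := h2 A (Option D) _ hsum ha1 ha2
  obtain ⟨hc1, hc2, hc3⟩ := h4 A D O p q hp hq (fun x => ∑ α, p x α) (fun x => ∑ α, q x α)
    (fun _ => rfl) (fun _ => rfl) hz Ed hEd hcon z K hcut
  obtain ⟨hd1, hd2, hd3, hd4, hd5, hd6⟩ := h5 A (Option D) _ z K hsum ha1 ha2 hcut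
  -- z commutes with the K j
  have hzM : ∀ i, z * (Vs (fun x => ∑ α, p x α) (fun x => ∑ α, q x α) i *
      star (Vs (fun x => ∑ α, p x α) (fun x => ∑ α, q x α) i)) =
      (Vs (fun x => ∑ α, p x α) (fun x => ∑ α, q x α) i *
      star (Vs (fun x => ∑ α, p x α) (fun x => ∑ α, q x α) i)) * z := fun i =>
    hcut.zc _ fun j => hb3 j i
  have hKz : ∀ j, K j * z = z * K j := fun j => hcut.kc j z (hzM j).symm
  have hqKz : ∀ x α j, q x α * (K j * z) = K j * z * q x α := by
    intro x α j
    have e1 : K j * (q x α * z) = q x α * z * K j := (hc2 x α j).2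
    have e2 : z * q x α = q x α * z := (hc1 x α).2
    calc q x α * (K j * z) = q x α * z * K j := by rw [hKz, mul_assoc]
      _ = K j * (q x α * z) := e1.symm
      _ = K j * z * q x α := by rw [← e2, mul_assoc]
  refine ⟨⟨hcut.zsa, hcut.zid, hp, hq, fun x α => (hc1 x α).1, fun x α => (hc1 x α).2, hd1, hd2,
    hd3, hd4, ?_, ?_, ?_⟩, ?_⟩
  · intro j
    rw [mul_assoc, hcut.zid]
  · intro x j
    have e1 := hPV x j
    calc (∑ α, p x α) * (Vs (fun x => ∑ α, p x α) (fun x => ∑ α, q x α) j * K j * z)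
        = ((∑ α, p x α) * Vs (fun x => ∑ α, p x α) (fun x => ∑ α, q x α) j) * (K j * z) := by
          simp only [mul_assoc]
      _ = Vs (fun x => ∑ α, p x α) (fun x => ∑ α, q x α) j *
          ((∑ α, q (x + sh j) α) * (K j * z)) := by rw [e1, mul_assoc]
      _ = Vs (fun x => ∑ α, p x α) (fun x => ∑ α, q x α) j *
          ((K j * z) * (∑ α, q (x + sh j) α)) := by
          congr 1
          rw [Finset.sum_mul, Finset.mul_sum]
          exact Finset.sum_congr rfl fun α _ => hqKz _ _ _
      _ = _ := by simp only [mul_assoc]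
  · intro x α β hpq
    have e1 : p x α * Vs (fun x => ∑ α, p x α) (fun x => ∑ α, q x α) none =
        p x α * ∑ β, q x β := by
      rw [Vs, Finset.mul_sum, Finset.sum_eq_single x]
      · rw [← mul_assoc, hpP]
        simp [sh]
      · intro y _ hy
        rw [← mul_assoc, hpP0 x y α (Ne.symm hy), zero_mul]
      · intro hx; exact absurd (Finset.mem_univ x) hx
    calc p x α * (Vs (fun x => ∑ α, p x α) (fun x => ∑ α, q x α) none * K none * z * q x β *
          star (Vs (fun x => ∑ α, p x α) (fun x => ∑ α, q x α) none * K none * z))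
        = (p x α * Vs (fun x => ∑ α, p x α) (fun x => ∑ α, q x α) none) * (K none * z * q x β) *
          star (Vs (fun x => ∑ α, p x α) (fun x => ∑ α, q x α) none * K none * z) := by
          simp only [mul_assoc]
      _ = p x α * (∑ β, q x β) * (q x β * (K none * z)) *
          star (Vs (fun x => ∑ α, p x α) (fun x => ∑ α, q x α) none * K none * z) := by
          rw [e1, hqKz]
      _ = p x α * ((∑ β, q x β) * q x β) * (K none * z) *
          star (Vs (fun x => ∑ α, p x α) (fun x => ∑ α, q x α) none * K none * z) := by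
          simp only [mul_assoc]
      _ = 0 := by rw [hQq, hpq, zero_mul, zero_mul]
  · intro x j α hE
    calc p x α * (Vs (fun x => ∑ α, p x α) (fun x => ∑ α, q x α) j * K j * z)
        = (p x α * Vs (fun x => ∑ α, p x α) (fun x => ∑ α, q x α) j) * (K j * z) := by
          simp only [mul_assoc]
      _ = Vs (fun x => ∑ α, p x α) (fun x => ∑ α, q x α) j *
          (q (x + sh j) α * (K j * z)) := by rw [hc3 x j α hE, mul_assoc]
      _ = _ := by rw [hqKz]; simp only [mul_assoc]

end Pool.Agent.H469R2.NL
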