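import Pool.Agent.H469R2.NL.Defs

/-!
# CXP: propagation along an edge
-/

set_option autoImplicit false

namespace Pool.Agent.H469R2.NL

theorem CXP : S_CXP := by
  intro A _ _ D _ _ O _ z p q W hF y' hzy hyz hTy hPy x j α hj
  have hpsa : ∀ x α, star (p x α) = p x α := fun x α => hF.pvmp.sa (x, α)
  have hqsa : ∀ x α, star (q x α) = q x α := fun x α => hF.pvmq.sa (x, α)
  have hPsa : ∀ x, star (∑ β, p x β) = ∑ β, p x β := by
    intro x; rw [star_sum]; exact Finset.sum_congr rfl fun β _ => hpsa x β
  have hQsa : ∀ x, star (∑ β, q x β) = ∑ β, q x β := by
    intro x; rw [star_sum]; exact Finset.sum_congr rfl fun β _ => hqsa x β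
  have hzP : ∀ x, z * ∑ β, p x β = (∑ β, p x β) * z := by
    intro x; rw [Finset.mul_sum, Finset.sum_mul]
    exact Finset.sum_congr rfl fun β _ => hF.zp x β
  rcases j with _ | d
  · have hx : x + sh none = x := by simp [sh]
    rw [hx] at hj ⊢
    rw [← hj, mul_assoc, hF.WW none]
  · obtain ⟨x', hx'⟩ : ∃ x', x' = x + sh (some d) := ⟨_, rfl⟩
    rw [← hx'] at hj ⊢
    have hPW := hF.PW x (some d)
    rw [← hx'] at hPW
    have hPW0 := hF.PW x' none
    have h00 : x' + sh none = x' := by simp [sh]
    rw [h00] at hPW0
    have hs : star (W none) * ∑ β, p x' β = (∑ β, q x' β) * star (W none) := by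
      have := congrArg star hPW0
      rwa [star_mul, star_mul, hPsa, hQsa] at this
    have hPT : (∑ β, p x β) * (W (some d) * star (W none)) =
        W (some d) * star (W none) * ∑ β, p x' β := by
      rw [← mul_assoc, hPW, mul_assoc, ← hs, mul_assoc]
    have hzT : z * (W (some d) * star (W none)) = W (some d) * star (W none) := by
      rw [← mul_assoc, hF.zW]
    have hzWs : ∀ i, z * star (W i) = star (W i) := by
      intro i
      have := congrArg star (hF.Wz i)
      rwa [star_mul, hF.zsa] at this
    have hTT : W none * star (W (some d)) * (W (some d) * star (W none)) = z := by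
      rw [mul_assoc, ← mul_assoc (star (W (some d))), hF.sW, hzWs, hF.WW]
    have hTT' : W (some d) * star (W none) * (W none * star (W (some d))) = z := by
      rw [mul_assoc, ← mul_assoc (star (W none)), hF.sW, hzWs, hF.WW]
    constructor
    · intro h
      have h1 : W (some d) * star (W none) * ((∑ β, p x' β) * y') =
          p x α * (W (some d) * star (W none)) := by
        rw [← mul_assoc, ← hPT, mul_assoc, hTy d, ← mul_assoc, h, mul_assoc, hzT]
      have h2 := congrArg (fun t => W none * star (W (some d)) * t) h1
      rw [← mul_assoc, hTT, ← mul_assoc, hzP, mul_assoc, hzy] at h2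
      rw [h2]
      calc W none * star (W (some d)) * (p x α * (W (some d) * star (W none)))
          = W none * star (W (some d)) * (p x α * W (some d)) * star (W none) := by
            simp only [mul_assoc]
        _ = W none * (star (W (some d)) * W (some d)) * (q x' α * star (W none)) := by
            rw [hj]; simp only [mul_assoc]
        _ = W none * q x' α * star (W none) := by
            rw [hF.sW, hF.Wz, mul_assoc]
    · intro h
      have h1 : W (some d) * star (W none) * ((∑ β, p x' β) * y') =
          p x α * (W (some d) * star (W none)) := by
        rw [h]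
        calc W (some d) * star (W none) * (W none * q x' α * star (W none))
            = W (some d) * (star (W none) * W none) * (q x' α * star (W none)) := by
              simp only [mul_assoc]
          _ = W (some d) * q x' α * star (W none) := by
              rw [hF.sW, hF.Wz, mul_assoc]
          _ = p x α * (W (some d) * star (W none)) := by
              rw [← hj, mul_assoc]
      have h2 : (∑ β, p x β) * y' * (W (some d) * star (W none)) =
          p x α * (W (some d) * star (W none)) := by
        rw [mul_assoc, ← hTy d, ← mul_assoc, hPT, mul_assoc, h1]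
      have h3 := congrArg (fun t => t * (W none * star (W (some d)))) h2
      rw [mul_assoc, hTT', mul_assoc (p x α), hTT', mul_assoc, hyz] at h3
      exact h3

end Pool.Agent.H469R2.NL
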