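import Pool.Agent.H469R2.NL.Defs

/-! DS: the direct sum of a tracial von Neumann algebra with finitely many atoms. -/

set_option autoImplicit false
set_option linter.unusedSectionVars false
set_option linter.deprecated false

open scoped InnerProductSpace Topology ComplexOrder BoundedContinuousFunction
open Filter Pool.Agent.Helper278 Pool.Agent.Helper436.SM

namespace Pool.Agent.H469R2.NL

open scoped ComplexConjugate

section
variable (A : Type) [Fintype A] [DecidableEq A]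

/-- diagonal operators -/
private noncomputable def dsD (f : A → ℂ) : EuclideanSpace ℂ A →L[ℂ] EuclideanSpace ℂ A :=
  LinearMap.toContinuousLinearMap
    { toFun := fun v => WithLp.toLp 2 (fun a => f a * v a)
      map_add' := fun u v => by
        ext a; simp [mul_add]
      map_smul' := fun c v => by
        ext a; simp; ring }

private theorem dsD_apply (f : A → ℂ) (v : EuclideanSpace ℂ A) (a : A) :
    dsD A f v a = f a * v a := rfl

private theorem dsD_star (f : A → ℂ) : star (dsD A f) = dsD A (star f) := by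
  rw [ContinuousLinearMap.star_eq_adjoint]
  symm
  rw [ContinuousLinearMap.eq_adjoint_iff]
  intro u v
  rw [PiLp.inner_apply, PiLp.inner_apply]
  refine Finset.sum_congr rfl fun a _ => ?_
  rw [dsD_apply, dsD_apply]
  simp only [RCLike.inner_apply, Pi.star_apply, map_mul, RCLike.star_def, Complex.conj_conj]
  ring

private theorem dsD_mul (f g : A → ℂ) : dsD A f * dsD A g = dsD A (f * g) := by
  ext v a
  show f a * (g a * v a) = (f a * g a) * v a
  ring

private theorem dsD_single (f : A → ℂ) (a : A) :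
    dsD A f (EuclideanSpace.single a 1) = f a • EuclideanSpace.single a (1 : ℂ) := by
  ext b
  rw [dsD_apply]
  by_cases hb : b = a
  · subst hb; simp
  · simp [hb]

/-- an operator which commutes with the coordinate projections is diagonal -/
private theorem dsD_of_comm (X : EuclideanSpace ℂ A →L[ℂ] EuclideanSpace ℂ A)
    (h : ∀ a : A, X * dsD A (Pi.single a 1) = dsD A (Pi.single a 1) * X) :
    X = dsD A (fun a => X (EuclideanSpace.single a 1) a) := by
  have h1 : ∀ a : A, X (EuclideanSpace.single a 1) =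
      (X (EuclideanSpace.single a 1) a) • EuclideanSpace.single a (1 : ℂ) := by
    intro a
    have h2 := congrArg (fun Z : EuclideanSpace ℂ A →L[ℂ] EuclideanSpace ℂ A =>
      Z (EuclideanSpace.single a 1)) (h a)
    simp only [ContinuousLinearMap.mul_apply, dsD_single, Pi.single_eq_same, one_smul] at h2
    rw [h2]
    ext b
    rw [dsD_apply]
    by_cases hb : b = a
    · subst hb; simp [dsD_apply]
    · simp [hb]
  apply ContinuousLinearMap.coe_injective
  refine (EuclideanSpace.basisFun A ℂ).toBasis.ext fun a => ?_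
  simp only [OrthonormalBasis.coe_toBasis, EuclideanSpace.basisFun_apply,
    ContinuousLinearMap.coe_coe]
  rw [dsD_single]
  exact h1 a

end

section
variable {H : Type} [NormedAddCommGroup H] [InnerProductSpace ℂ H] [CompleteSpace H]
  {E : Type} [NormedAddCommGroup E] [InnerProductSpace ℂ E] [CompleteSpace E]

/-- block diagonal operators -/
private noncomputable def dsJ (X : E →L[ℂ] E) (Y : H →L[ℂ] H) :
    WithLp 2 (E × H) →L[ℂ] WithLp 2 (E × H) :=
  ((WithLp.prodContinuousLinearEquiv 2 ℂ E H).symm : E × H →L[ℂ] WithLp 2 (E × H)) ∘L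
    (X.prodMap Y) ∘L (WithLp.prodContinuousLinearEquiv 2 ℂ E H : WithLp 2 (E × H) →L[ℂ] E × H)

private theorem dsJ_apply (X : E →L[ℂ] E) (Y : H →L[ℂ] H) (v : WithLp 2 (E × H)) :
    dsJ X Y v = WithLp.toLp 2 (X v.fst, Y v.snd) := rfl

private theorem dsJ_mul (X X' : E →L[ℂ] E) (Y Y' : H →L[ℂ] H) :
    dsJ X Y * dsJ X' Y' = dsJ (X * X') (Y * Y') := rfl

private theorem dsJ_add (X X' : E →L[ℂ] E) (Y Y' : H →L[ℂ] H) :
    dsJ X Y + dsJ X' Y' = dsJ (X + X') (Y + Y') := rfl

private theorem dsJ_one : dsJ (1 : E →L[ℂ] E) (1 : H →L[ℂ] H) = 1 := rfl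

private theorem dsJ_zero : dsJ (0 : E →L[ℂ] E) (0 : H →L[ℂ] H) = 0 := rfl

private theorem dsJ_smul (c : ℂ) (X : E →L[ℂ] E) (Y : H →L[ℂ] H) :
    dsJ (c • X) (c • Y) = c • dsJ X Y := rfl

private theorem dsJ_star (X : E →L[ℂ] E) (Y : H →L[ℂ] H) :
    star (dsJ X Y) = dsJ (star X) (star Y) := by
  rw [ContinuousLinearMap.star_eq_adjoint]
  symm
  rw [ContinuousLinearMap.eq_adjoint_iff]
  intro u v
  rw [WithLp.prod_inner_apply, WithLp.prod_inner_apply]
  have h1 : ⟪(star X) u.fst, v.fst⟫_ℂ = ⟪u.fst, X v.fst⟫_ℂ := by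
    rw [ContinuousLinearMap.star_eq_adjoint]
    exact ContinuousLinearMap.adjoint_inner_left X _ _
  have h2 : ⟪(star Y) u.snd, v.snd⟫_ℂ = ⟪u.snd, Y v.snd⟫_ℂ := by
    rw [ContinuousLinearMap.star_eq_adjoint]
    exact ContinuousLinearMap.adjoint_inner_left Y _ _
  exact congrArg₂ (· + ·) h1 h2

private theorem dsJ_inj {X X' : E →L[ℂ] E} {Y Y' : H →L[ℂ] H} (h : dsJ X Y = dsJ X' Y') :
    X = X' ∧ Y = Y' := by
  constructor
  · ext v
    have := congrArg (fun Z : WithLp 2 (E × H) →L[ℂ] WithLp 2 (E × H) =>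
      (Z (WithLp.toLp 2 (v, 0))).fst) h
    exact this
  · ext v
    have := congrArg (fun Z : WithLp 2 (E × H) →L[ℂ] WithLp 2 (E × H) =>
      (Z (WithLp.toLp 2 (0, v))).snd) h
    exact this

/-- an operator which commutes with the projection onto the second summand is block diagonal -/
private theorem dsJ_of_comm (Z : WithLp 2 (E × H) →L[ℂ] WithLp 2 (E × H))
    (h : Z * dsJ 0 1 = dsJ 0 1 * Z) : ∃ (X : E →L[ℂ] E) (Y : H →L[ℂ] H), Z = dsJ X Y := by
  let i1 : E →L[ℂ] WithLp 2 (E × H) :=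
    ((WithLp.prodContinuousLinearEquiv 2 ℂ E H).symm : E × H →L[ℂ] WithLp 2 (E × H)) ∘L
      ContinuousLinearMap.inl ℂ E H
  let i2 : H →L[ℂ] WithLp 2 (E × H) :=
    ((WithLp.prodContinuousLinearEquiv 2 ℂ E H).symm : E × H →L[ℂ] WithLp 2 (E × H)) ∘L
      ContinuousLinearMap.inr ℂ E H
  let p1 : WithLp 2 (E × H) →L[ℂ] E := ContinuousLinearMap.fst ℂ E H ∘L
    (WithLp.prodContinuousLinearEquiv 2 ℂ E H : WithLp 2 (E × H) →L[ℂ] E × H)
  let p2 : WithLp 2 (E × H) →L[ℂ] H := ContinuousLinearMap.snd ℂ E H ∘L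
    (WithLp.prodContinuousLinearEquiv 2 ℂ E H : WithLp 2 (E × H) →L[ℂ] E × H)
  have hcom : ∀ v, Z (dsJ 0 1 v) = dsJ 0 1 (Z v) := fun v =>
    congrArg (fun W : WithLp 2 (E × H) →L[ℂ] WithLp 2 (E × H) => W v) h
  have h0 : ∀ x : E, (Z (i1 x)).snd = 0 := by
    intro x
    have h1 := hcom (i1 x)
    have h2 : dsJ (0 : E →L[ℂ] E) (1 : H →L[ℂ] H) (i1 x) = 0 := rfl
    rw [h2, map_zero] at h1
    have h3 := congrArg (fun u : WithLp 2 (E × H) => u.snd) h1
    exact h3.symm
  have h0' : ∀ y : H, (Z (i2 y)).fst = 0 := by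
    intro y
    have h1 := hcom (i2 y)
    have h2 : dsJ (0 : E →L[ℂ] E) (1 : H →L[ℂ] H) (i2 y) = i2 y := rfl
    rw [h2] at h1
    rw [h1]
    rfl
  refine ⟨p1 ∘L Z ∘L i1, p2 ∘L Z ∘L i2, ?_⟩
  refine ContinuousLinearMap.ext fun v => ?_
  have hv : v = i1 v.fst + i2 v.snd := by
    apply WithLp.ofLp_injective 2
    apply Prod.ext
    · show v.fst = v.fst + 0
      rw [add_zero]
    · show v.snd = 0 + v.snd
      rw [zero_add]
  have hZ : Z v = Z (i1 v.fst) + Z (i2 v.snd) := by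
    rw [← map_add, ← hv]
  apply WithLp.ofLp_injective 2
  apply Prod.ext
  · show (Z v).fst = (Z (i1 v.fst)).fst
    rw [hZ]
    show (Z (i1 v.fst)).fst + (Z (i2 v.snd)).fst = (Z (i1 v.fst)).fst
    rw [h0', add_zero]
  · show (Z v).snd = (Z (i2 v.snd)).snd
    rw [hZ]
    show (Z (i1 v.fst)).snd + (Z (i2 v.snd)).snd = (Z (i2 v.snd)).snd
    rw [h0, zero_add]

end

section
variable {H : Type} [NormedAddCommGroup H] [InnerProductSpace ℂ H] [CompleteSpace H]
variable (A : Type) [Fintype A] [DecidableEq A] (N : VonNeumannAlgebra H)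

private def dsS : Set (WithLp 2 (EuclideanSpace ℂ A × H) →L[ℂ] WithLp 2 (EuclideanSpace ℂ A × H)) :=
  {Z | (∃ a, Z = dsJ (dsD A (Pi.single a 1)) 0) ∨ ∃ y ∈ N.commutant, Z = dsJ 0 y}

private noncomputable def dsN : VonNeumannAlgebra (WithLp 2 (EuclideanSpace ℂ A × H)) where
  toStarSubalgebra := StarSubalgebra.centralizer ℂ (dsS A N)
  centralizer_centralizer' := by
    show Set.centralizer (Set.centralizer ((StarSubalgebra.centralizer ℂ (dsS A N) :
      StarSubalgebra ℂ (WithLp 2 (EuclideanSpace ℂ A × H) →L[ℂ] WithLp 2 (EuclideanSpace ℂ A × H))) :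
        Set (WithLp 2 (EuclideanSpace ℂ A × H) →L[ℂ] WithLp 2 (EuclideanSpace ℂ A × H)))) =
      ((StarSubalgebra.centralizer ℂ (dsS A N) :
      StarSubalgebra ℂ (WithLp 2 (EuclideanSpace ℂ A × H) →L[ℂ] WithLp 2 (EuclideanSpace ℂ A × H))) :
        Set (WithLp 2 (EuclideanSpace ℂ A × H) →L[ℂ] WithLp 2 (EuclideanSpace ℂ A × H)))
    rw [StarSubalgebra.coe_centralizer, Set.centralizer_centralizer_centralizer]

private theorem mem_dsN (Z : WithLp 2 (EuclideanSpace ℂ A × H) →L[ℂ]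
    WithLp 2 (EuclideanSpace ℂ A × H)) :
    Z ∈ (dsN A N).toStarSubalgebra ↔ ∃ (f : A → ℂ) (y : H →L[ℂ] H), y ∈ N ∧
      Z = dsJ (dsD A f) y := by
  have hmem : Z ∈ (dsN A N).toStarSubalgebra ↔
      ∀ g ∈ dsS A N, g * Z = Z * g ∧ star g * Z = Z * star g :=
    StarSubalgebra.mem_centralizer_iff (R := ℂ)
  rw [hmem]
  constructor
  · intro h
    have h1 : Z * dsJ 0 1 = dsJ 0 1 * Z :=
      (h _ (Or.inr ⟨1, one_mem _, rfl⟩)).1.symm
    obtain ⟨X, Y, rfl⟩ := dsJ_of_comm Z h1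
    have hX : ∀ a : A, X * dsD A (Pi.single a 1) = dsD A (Pi.single a 1) * X := by
      intro a
      have h2 := (h _ (Or.inl ⟨a, rfl⟩)).1
      rw [dsJ_mul, dsJ_mul] at h2
      exact (dsJ_inj h2).1.symm
    have hY : Y ∈ N := by
      rw [← VonNeumannAlgebra.commutant_commutant N, VonNeumannAlgebra.mem_commutant_iff]
      intro g hg
      have h2 := (h _ (Or.inr ⟨g, hg, rfl⟩)).1
      rw [dsJ_mul, dsJ_mul] at h2
      exact (dsJ_inj h2).2
    exact ⟨_, Y, hY, by rw [← dsD_of_comm A X hX]⟩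
  · rintro ⟨f, y, hy, rfl⟩ g hg
    have hstar : star g ∈ dsS A N := by
      rcases hg with ⟨a, rfl⟩ | ⟨y', hy', rfl⟩
      · refine Or.inl ⟨a, ?_⟩
        rw [dsJ_star, dsD_star, star_zero]
        congr 2
        rw [Pi.star_def]
        ext b
        by_cases hb : b = a
        · subst hb; simp
        · simp [hb]
      · exact Or.inr ⟨star y', star_mem hy', by rw [dsJ_star, star_zero]⟩
    have hcomm : ∀ g' ∈ dsS A N, g' * dsJ (dsD A f) y = dsJ (dsD A f) y * g' := by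
      rintro g' (⟨a, rfl⟩ | ⟨y', hy', rfl⟩)
      · rw [dsJ_mul, dsJ_mul, dsD_mul, dsD_mul, mul_comm (Pi.single a 1) f, zero_mul, mul_zero]
      · rw [dsJ_mul, dsJ_mul, zero_mul, mul_zero]
        have := VonNeumannAlgebra.mem_commutant_iff.mp hy' y hy
        rw [this]
    exact ⟨hcomm g hg, hcomm _ hstar⟩

/-- the inverse isomorphism -/
private noncomputable def dsPsi : ((A → ℂ) × Elt N) →⋆ₐ[ℂ] Elt (dsN A N) where
  toFun x := ⟨dsJ (dsD A x.1) (x.2 : H →L[ℂ] H), (mem_dsN A N _).mpr ⟨x.1, x.2, x.2.2, rfl⟩⟩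
  map_one' := by
    apply Subtype.ext
    show dsJ (dsD A 1) 1 = 1
    have : dsD A (1 : A → ℂ) = 1 := by
      ext v a
      show 1 * v a = v a
      rw [one_mul]
    rw [this]; rfl
  map_mul' x y := by
    apply Subtype.ext
    show dsJ (dsD A (x.1 * y.1)) ((x.2 : H →L[ℂ] H) * (y.2 : H →L[ℂ] H)) =
      dsJ (dsD A x.1) (x.2 : H →L[ℂ] H) * dsJ (dsD A y.1) (y.2 : H →L[ℂ] H)
    rw [dsJ_mul, dsD_mul]
  map_zero' := by
    apply Subtype.ext
    show dsJ (dsD A 0) 0 = 0
    have : dsD A (0 : A → ℂ) = 0 := by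
      ext v a
      show 0 * v a = 0
      rw [zero_mul]
    rw [this]; rfl
  map_add' x y := by
    apply Subtype.ext
    show dsJ (dsD A (x.1 + y.1)) ((x.2 : H →L[ℂ] H) + (y.2 : H →L[ℂ] H)) =
      dsJ (dsD A x.1) (x.2 : H →L[ℂ] H) + dsJ (dsD A y.1) (y.2 : H →L[ℂ] H)
    have : dsD A (x.1 + y.1) = dsD A x.1 + dsD A y.1 := by
      ext v a
      show (x.1 a + y.1 a) * v a = x.1 a * v a + y.1 a * v a
      ring
    rw [dsJ_add, this]
  commutes' c := by
    apply Subtype.ext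
    show dsJ (dsD A (algebraMap ℂ (A → ℂ) c)) ((algebraMap ℂ (Elt N) c : Elt N) : H →L[ℂ] H) = _
    have h1 : dsD A (algebraMap ℂ (A → ℂ) c) = c • (1 : EuclideanSpace ℂ A →L[ℂ] _) := by
      ext v a
      rfl
    have h2 : ((algebraMap ℂ (Elt N) c : Elt N) : H →L[ℂ] H) = c • (1 : H →L[ℂ] H) := by
      show algebraMap ℂ (H →L[ℂ] H) c = _
      rw [Algebra.algebraMap_eq_smul_one]
    rw [h1, h2, dsJ_smul, dsJ_one]
    show _ = algebraMap ℂ (WithLp 2 (EuclideanSpace ℂ A × H) →L[ℂ] _) c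
    rw [Algebra.algebraMap_eq_smul_one]
  map_star' x := by
    apply Subtype.ext
    show dsJ (dsD A (star x.1)) (star (x.2 : H →L[ℂ] H)) = star (dsJ (dsD A x.1) (x.2 : H →L[ℂ] H))
    rw [dsJ_star, dsD_star]

private theorem dsPsi_bij : Function.Bijective (dsPsi A N) := by
  constructor
  · intro x y hxy
    have h1 : dsJ (dsD A x.1) (x.2 : H →L[ℂ] H) = dsJ (dsD A y.1) (y.2 : H →L[ℂ] H) :=
      congrArg Subtype.val hxy
    obtain ⟨h2, h3⟩ := dsJ_inj h1
    apply Prod.ext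
    · ext a
      have h4 := congrArg (fun Z : EuclideanSpace ℂ A →L[ℂ] EuclideanSpace ℂ A =>
        Z (EuclideanSpace.single a 1) a) h2
      simpa [dsD_apply] using h4
    · exact Subtype.ext h3
  · rintro ⟨Z, hZ⟩
    obtain ⟨f, y, hy, rfl⟩ := (mem_dsN A N Z).mp hZ
    exact ⟨(f, ⟨y, hy⟩), rfl⟩

end

theorem t_DS : S_DS := by
  intro H _ _ _ N T A _ _ t w ht hw hsum
  let Ψ : ((A → ℂ) × Elt N) ≃⋆ₐ[ℂ] Elt (dsN A N) := StarAlgEquiv.ofBijective (dsPsi A N) (dsPsi_bij A N)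
  let Φ : Elt (dsN A N) ≃⋆ₐ[ℂ] ((A → ℂ) × Elt N) := Ψ.symm
  have hval : ∀ x : Elt (dsN A N), (x : WithLp 2 (EuclideanSpace ℂ A × H) →L[ℂ] _) =
      dsJ (dsD A (Φ x).1) ((Φ x).2 : H →L[ℂ] H) := by
    intro x
    have h1 : Ψ (Φ x) = x := Ψ.apply_symm_apply x
    exact (congrArg Subtype.val h1).symm
  let τ' : Elt (dsN A N) →ₗ[ℂ] ℂ :=
    { toFun := fun x => ∑ a, (t a : ℂ) * (Φ x).1 a + (w : ℂ) * T.τ (Φ x).2
      map_add' := fun x y => by
        simp only [map_add, Prod.fst_add, Prod.snd_add, Pi.add_apply, mul_add,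
          Finset.sum_add_distrib]
        ring
      map_smul' := fun c x => by
        simp only [map_smul, Prod.smul_fst, Prod.smul_snd, Pi.smul_apply, smul_eq_mul,
          RingHom.id_apply, mul_add, Finset.mul_sum]
        congr 1
        · exact Finset.sum_congr rfl fun a _ => by ring
        · ring }
  have hτ' : ∀ x, τ' x = ∑ a, (t a : ℂ) * (Φ x).1 a + (w : ℂ) * T.τ (Φ x).2 := fun _ => rfl
  refine ⟨WithLp 2 (EuclideanSpace ℂ A × H), inferInstance, inferInstance, inferInstance,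
    dsN A N, ⟨τ', ?_, ?_, ?_, ?_⟩, Φ, hτ'⟩
  · obtain ⟨ξ, hξ, hξτ⟩ := T.normal
    let η : EuclideanSpace ℂ A := WithLp.toLp 2 (fun a => (Real.sqrt (t a) : ℂ))
    refine ⟨fun k => WithLp.toLp 2 (if k = 0 then η else 0, (Real.sqrt w : ℂ) • ξ k), ?_, ?_⟩
    · have h1 : Summable fun k : ℕ => (if k = 0 then ‖η‖ ^ 2 else 0) + w * ‖ξ k‖ ^ 2 :=
        (hasSum_ite_eq 0 (‖η‖ ^ 2)).summable.add (hξ.mul_left w)
      refine h1.congr fun k => ?_
      rw [WithLp.prod_norm_sq_eq_of_L2]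
      show _ = ‖(if k = 0 then η else 0 : EuclideanSpace ℂ A)‖ ^ 2 + ‖(Real.sqrt w : ℂ) • ξ k‖ ^ 2
      rw [norm_smul, mul_pow, Complex.norm_real, Real.norm_of_nonneg (Real.sqrt_nonneg _),
        Real.sq_sqrt hw.le]
      congr 1
      split_ifs with hk
      · rfl
      · simp
    · intro x
      rw [hτ', hval x]
      have h1 : ∀ k : ℕ, ⟪(WithLp.toLp 2 (if k = 0 then η else 0, (Real.sqrt w : ℂ) • ξ k) :
          WithLp 2 (EuclideanSpace ℂ A × H)), dsJ (dsD A (Φ x).1) ((Φ x).2 : H →L[ℂ] H)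
            (WithLp.toLp 2 (if k = 0 then η else 0, (Real.sqrt w : ℂ) • ξ k))⟫_ℂ =
          (if k = 0 then ∑ a, (t a : ℂ) * (Φ x).1 a else 0) +
            (w : ℂ) * ⟪ξ k, ((Φ x).2 : H →L[ℂ] H) (ξ k)⟫_ℂ := by
        intro k
        rw [WithLp.prod_inner_apply, dsJ_apply]
        congr 1
        · show ⟪(if k = 0 then η else 0 : EuclideanSpace ℂ A), dsD A (Φ x).1
            (if k = 0 then η else 0 : EuclideanSpace ℂ A)⟫_ℂ = _
          split_ifs with hk
          · rw [PiLp.inner_apply]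
            refine Finset.sum_congr rfl fun a _ => ?_
            rw [dsD_apply]
            show ⟪(Real.sqrt (t a) : ℂ), (Φ x).1 a * (Real.sqrt (t a) : ℂ)⟫_ℂ = _
            rw [RCLike.inner_apply, Complex.conj_ofReal]
            have h2 : (Real.sqrt (t a) : ℂ) * (Real.sqrt (t a) : ℂ) = (t a : ℂ) := by
              rw [← Complex.ofReal_mul, Real.mul_self_sqrt (ht a).le]
            rw [← h2]; ring
          · rw [inner_zero_left]
        · show ⟪(Real.sqrt w : ℂ) • ξ k, ((Φ x).2 : H →L[ℂ] H) ((Real.sqrt w : ℂ) • ξ k)⟫_ℂ = _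
          rw [map_smul, inner_smul_left, inner_smul_right, Complex.conj_ofReal, ← mul_assoc,
            ← Complex.ofReal_mul, Real.mul_self_sqrt hw.le]
      rw [tsum_congr h1, Summable.tsum_add (hasSum_ite_eq 0 _).summable
        ((summable_inner ξ ξ hξ hξ _).mul_left _), tsum_ite_eq, tsum_mul_left, ← hξτ]
  · rw [hτ', map_one]
    show ∑ a, (t a : ℂ) * 1 + (w : ℂ) * T.τ 1 = 1
    rw [T.map_one]
    have := congrArg (fun r : ℝ => (r : ℂ)) hsum
    push_cast at this
    simpa using this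
  · intro x y
    rw [hτ', hτ', map_mul, map_mul]
    simp only [Prod.fst_mul, Prod.snd_mul, Pi.mul_apply]
    rw [T.tracial]
    congr 1
    exact Finset.sum_congr rfl fun a _ => by ring
  · intro x hx
    have hst : Φ (star x) = star (Φ x) := Φ.map_star' x
    rw [hτ', map_mul, hst] at hx
    simp only [Prod.fst_mul, Prod.snd_mul, Pi.mul_apply, Prod.fst_star, Prod.snd_star,
      Pi.star_apply] at hx
    have h1 : 0 ≤ T.τ (star (Φ x).2 * (Φ x).2) := (trAlg T).nonneg _
    have h2 : ∀ a, 0 ≤ (t a : ℂ) * (star ((Φ x).1 a) * (Φ x).1 a) := fun a =>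
      mul_nonneg (by exact_mod_cast (ht a).le) (star_mul_self_nonneg _)
    have h3 : 0 ≤ (w : ℂ) * T.τ (star (Φ x).2 * (Φ x).2) :=
      mul_nonneg (by exact_mod_cast hw.le) h1
    have h4 : 0 ≤ ∑ a, (t a : ℂ) * (star ((Φ x).1 a) * (Φ x).1 a) :=
      Finset.sum_nonneg fun a _ => h2 a
    obtain ⟨h5, h6⟩ := (add_eq_zero_iff_of_nonneg h4 h3).mp hx
    have h7 : Φ x = 0 := by
      apply Prod.ext
      · ext a
        have h8 := (Finset.sum_eq_zero_iff_of_nonneg fun a _ => h2 a).mp h5 a (Finset.mem_univ a)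
        rcases mul_eq_zero.mp h8 with h9 | h9
        · exact absurd (by exact_mod_cast h9) (ht a).ne'
        · rcases mul_eq_zero.mp h9 with h10 | h10
          · exact star_eq_zero.mp h10
          · exact h10
      · apply T.faithful
        rcases mul_eq_zero.mp h6 with h9 | h9
        · exact absurd (by exact_mod_cast h9) hw.ne'
        · exact h9
    exact (map_eq_zero_iff Φ Φ.injective).mp h7

end Pool.Agent.H469R2.NL
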