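import Pool.Agent.H469R2.NL.Defs

set_option autoImplicit false

open scoped InnerProductSpace Topology ComplexOrder BoundedContinuousFunction
open Filter Pool.Agent.Helper278 Pool.Agent.Helper436.SM

namespace Pool.Agent.H469R2.NL

/-- TR1: from partitions of matrix algebras whose limit orthogonality relations cannot be had
exactly in a corner of `N`, to two sequences of partitions of `N` whose limit zero pattern cannot be
had exactly near them -/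
def S_TR1 : Prop := ∀ (H : Type) [NormedAddCommGroup H] [InnerProductSpace ℂ H]
  [CompleteSpace H] (N : VonNeumannAlgebra H) (T : TracialState N) (W : VV → Elt N),
  PauliSys T.τ W →
  ∀ (I O : Type) [Fintype I] [Nonempty I] [Fintype O] [Nonempty O] [DecidableEq O] (κ : ℕ → Type)
  [∀ n, Fintype (κ n)] [∀ n, DecidableEq (κ n)], (∀ n, ∃ L : ℕ, Fintype.card (κ n) = 2 ^ L) →
  ∀ (E : ∀ n, I → O → Matrix (κ n) (κ n) ℂ), (∀ n i, PVM 1 (E n i)) →
  ∀ c : I → O → I → O → ℝ, (∀ i α k β, Tendsto (fun n => ntr (E n i α * E n k β)) atTop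
    (𝓝 ((c i α k β : ℝ) : ℂ))) →
  ¬ ExPVM N I O (fun i α k β => c i α k β = 0) →
  ∃ (ι : Type) (_ : Fintype ι) (_ : DecidableEq ι) (_ : Nonempty ι) (P Q : ℕ → ι → Elt N)
    (c' : ι → ι → ℝ) (s : Equiv.Perm ι) (δ : ℝ), (∀ n, PVM 1 (P n)) ∧ (∀ n, PVM 1 (Q n)) ∧
    (∀ i j, Tendsto (fun n => T.τ (P n i * Q n j)) atTop (𝓝 ((c' i j : ℝ) : ℂ))) ∧
    (∀ i, c' i (s i) = 0) ∧ 0 < δ ∧
    ∀ n, ∀ P' Q' : ι → Elt N, PVM 1 P' → PVM 1 Q' → (∀ i j, c' i j = 0 → P' i * Q' j = 0) →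
      (∀ i, n2 T.τ (P' i - P n i) ≤ δ) → (∀ i, n2 T.τ (Q' i - Q n i) ≤ δ) → False

/-- TRANSFER from TR1 and ATOMS -/
theorem transfer_of_tr1 (h1 : S_ATOMS) (h2 : S_TR1) : S_TRANSFER := by
  intro H _ _ _ N T W hW I O _ _ _ _ _ κ _ _ hκ E hE c hc hno
  obtain ⟨ι, _, _, _, P, Q, c', s, δ, hP, hQ, hl, hs, hδ, hbad⟩ :=
    h2 H N T W hW I O κ hκ E hE c hc hno
  exact h1 H N T ι P Q hP hQ c' hl s hs ⟨δ, hδ, 0, fun n _ => hbad n⟩

end Pool.Agent.H469R2.NL
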