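import Pool.Agent.H469R2.NL.Defs

/-! Matrix algebras of size `2 ^ L` embed in an algebra with a Pauli system (helper995). -/

set_option autoImplicit false

open Pool.Agent.Helper436.SM

namespace Pool.Agent.H469R2.NL

namespace EMBh

section units

variable {A κ : Type*} [Ring A] [StarRing A] [Algebra ℂ A] [StarModule ℂ A] [Fintype κ]
  [DecidableEq κ]

/-- systems of matrix units -/
structure MU (e : κ → κ → A) : Prop where
  mul : ∀ i j k l, e i j * e k l = if j = k then e i l else 0
  sta : ∀ i j, star (e i j) = e j i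
  one : ∑ i, e i i = 1

/-- the star homomorphism of a system of matrix units, as a function -/
noncomputable def rhoF (e : κ → κ → A) (x : Matrix κ κ ℂ) : A := ∑ i, ∑ j, x i j • e i j

omit [StarModule ℂ A] in
theorem rhoF_mul (e : κ → κ → A) (h : MU e) (x y : Matrix κ κ ℂ) :
    rhoF e (x * y) = rhoF e x * rhoF e y := by
  unfold rhoF
  have e1 : ∀ i j, (x i j • e i j) * (∑ k, ∑ l, y k l • e k l) =
      ∑ l, (x i j * y j l) • e i l := by
    intro i j
    rw [Finset.mul_sum, Finset.sum_eq_single j]
    · rw [Finset.mul_sum]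
      refine Finset.sum_congr rfl fun l _ => ?_
      rw [smul_mul_smul_comm, h.mul, if_pos rfl]
    · intro k _ hk
      rw [Finset.mul_sum]
      refine Finset.sum_eq_zero fun l _ => ?_
      rw [smul_mul_smul_comm, h.mul, if_neg (Ne.symm hk), smul_zero]
    · intro hi
      exact absurd (Finset.mem_univ _) hi
  rw [Finset.sum_mul]
  refine Finset.sum_congr rfl fun i _ => ?_
  rw [Finset.sum_mul]
  rw [Finset.sum_congr rfl fun j _ => e1 i j, Finset.sum_comm]
  refine Finset.sum_congr rfl fun l _ => ?_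
  rw [Matrix.mul_apply, Finset.sum_smul]

omit [StarModule ℂ A] in
theorem rhoF_one (e : κ → κ → A) (h : MU e) (r : ℂ) :
    rhoF e (r • 1) = r • 1 := by
  unfold rhoF
  rw [← h.one, Finset.smul_sum]
  refine Finset.sum_congr rfl fun i _ => ?_
  rw [Finset.sum_eq_single i]
  · rw [Matrix.smul_apply, Matrix.one_apply_eq, smul_eq_mul, mul_one]
  · intro j _ hj
    rw [Matrix.smul_apply, Matrix.one_apply_ne (Ne.symm hj), smul_zero, zero_smul]
  · intro hi
    exact absurd (Finset.mem_univ _) hi

theorem rhoF_star (e : κ → κ → A) (h : MU e) (x : Matrix κ κ ℂ) :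
    rhoF e (star x) = star (rhoF e x) := by
  unfold rhoF
  rw [star_sum, Finset.sum_comm]
  refine Finset.sum_congr rfl fun i _ => ?_
  rw [star_sum]
  refine Finset.sum_congr rfl fun j _ => ?_
  rw [star_smul, h.sta, Matrix.star_apply]

/-- the star homomorphism of a system of matrix units -/
noncomputable def rho (e : κ → κ → A) (h : MU e) : Matrix κ κ ℂ →⋆ₐ[ℂ] A where
  toFun := rhoF e
  map_one' := by
    have := rhoF_one e h 1
    rwa [one_smul, one_smul] at this
  map_mul' := rhoF_mul e h
  map_zero' := by simp [rhoF]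
  map_add' x y := by
    simp only [rhoF, Matrix.add_apply, add_smul, Finset.sum_add_distrib]
  commutes' r := by
    rw [Algebra.algebraMap_eq_smul_one, Algebra.algebraMap_eq_smul_one]
    exact rhoF_one e h r
  map_star' := rhoF_star e h

theorem rho_apply (e : κ → κ → A) (h : MU e) (x : Matrix κ κ ℂ) :
    rho e h x = ∑ i, ∑ j, x i j • e i j := rfl

end units

section strings

/-- strings supported in `[0, L)` -/
noncomputable def mk {L : ℕ} (f : Fin L → ZMod 2 × ZMod 2) : VV :=
  Finsupp.onFinset (Finset.range L) (fun i => if h : i < L then f ⟨i, h⟩ else 0) (by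
    intro i hi
    rw [Finset.mem_range]
    by_contra h
    rw [dif_neg h] at hi
    exact hi rfl)

theorem mk_apply {L : ℕ} (f : Fin L → ZMod 2 × ZMod 2) (i : Fin L) : mk f i = f i := by
  show (if h : (i : ℕ) < L then f ⟨i, h⟩ else 0) = f i
  rw [dif_pos i.2]

theorem mk_add {L : ℕ} (f g : Fin L → ZMod 2 × ZMod 2) :
    mk (fun i => f i + g i) = mk f + mk g := by
  ext1 i
  show (if h : i < L then f ⟨i, h⟩ + g ⟨i, h⟩ else 0) =
    (if h : i < L then f ⟨i, h⟩ else 0) + (if h : i < L then g ⟨i, h⟩ else 0)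
  split_ifs <;> simp

theorem mk_eq_zero {L : ℕ} (f : Fin L → ZMod 2 × ZMod 2) : mk f = 0 ↔ ∀ i, f i = 0 := by
  constructor
  · intro h i
    rw [← mk_apply f i, h]
    rfl
  · intro h
    ext1 i
    show (if h : i < L then f ⟨i, h⟩ else 0) = 0
    split_ifs with h1
    · exact h _
    · rfl

theorem bf_mk {L : ℕ} (f : Fin L → ZMod 2 × ZMod 2) (w : VV) :
    bf (mk f) w = ∑ i : Fin L, (f i).2 * (w i).1 := by
  unfold bf mk
  rw [Finsupp.onFinset_sum _ (by intro i; simp), Finset.sum_range]
  refine Finset.sum_congr rfl fun i _ => ?_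
  rw [dif_pos i.2]

/-- the pairing -/
def dt {L : ℕ} (a b : Fin L → ZMod 2) : ZMod 2 := ∑ i, a i * b i

theorem dt_comm {L : ℕ} (a b : Fin L → ZMod 2) : dt a b = dt b a := by
  unfold dt
  exact Finset.sum_congr rfl fun i _ => mul_comm _ _

theorem dt_add_left {L : ℕ} (a b c : Fin L → ZMod 2) : dt (a + b) c = dt a c + dt b c := by
  unfold dt
  rw [← Finset.sum_add_distrib]
  exact Finset.sum_congr rfl fun i _ => add_mul _ _ _

theorem dt_add_right {L : ℕ} (a b c : Fin L → ZMod 2) : dt a (b + c) = dt a b + dt a c := by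
  rw [dt_comm, dt_add_left, dt_comm b, dt_comm c]

theorem sum_sg {L : ℕ} (w : Fin L → ZMod 2) :
    ∑ a : Fin L → ZMod 2, sg (dt a w) = if w = 0 then (2 : ℂ) ^ L else 0 := by
  split_ifs with h
  · subst h
    have : ∀ a : Fin L → ZMod 2, sg (dt a 0) = 1 := by
      intro a
      have : dt a 0 = 0 := by simp [dt]
      rw [this]; simp [sg]
    simp only [this]
    rw [Finset.sum_const, Finset.card_univ]
    simp [ZMod.card]
  · obtain ⟨i, hi⟩ : ∃ i, w i ≠ 0 := by
      by_contra hc
      push Not at hc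
      exact h (funext hc)
    have hi1 : w i = 1 := by
      have : ∀ x : ZMod 2, x ≠ 0 → x = 1 := by decide
      exact this _ hi
    have h1 : ∑ a : Fin L → ZMod 2, sg (dt a w) =
        ∑ a : Fin L → ZMod 2, sg (dt (a + (Pi.single i 1 : Fin L → ZMod 2)) w) :=
      (Equiv.sum_comp (Equiv.addRight (Pi.single i 1 : Fin L → ZMod 2))
        (fun a : Fin L → ZMod 2 => sg (dt a w))).symm
    have h2 : dt (Pi.single i 1 : Fin L → ZMod 2) w = 1 := by
      unfold dt
      rw [Finset.sum_eq_single i]
      · rw [Pi.single_eq_same, one_mul, hi1]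
      · intro j _ hj
        rw [Pi.single_eq_of_ne hj, zero_mul]
      · intro hi
        exact absurd (Finset.mem_univ _) hi
    have h3 : sg 1 = -1 := by simp [sg]
    have h4 : ∀ a : Fin L → ZMod 2,
        sg (dt (a + (Pi.single i 1 : Fin L → ZMod 2)) w) = - sg (dt a w) := by
      intro a
      rw [dt_add_left, sg_add, h2, h3, mul_neg_one]
    simp only [h4] at h1
    rw [Finset.sum_neg_distrib] at h1
    exact self_eq_neg.mp h1

end strings

section pauli

variable {A : Type*} [Ring A] [StarRing A] [Algebra ℂ A] [StarModule ℂ A] {τ : A →ₗ[ℂ] ℂ}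
  {W : VV → A} {L : ℕ}

/-- the diagonal strings -/
noncomputable def zs (a : Fin L → ZMod 2) : VV := mk (fun i => (0, a i))

/-- the shift strings -/
noncomputable def xs (a : Fin L → ZMod 2) : VV := mk (fun i => (a i, 0))

theorem zs_add (a b : Fin L → ZMod 2) : zs (a + b) = zs a + zs b := by
  unfold zs
  rw [← mk_add]
  simp

theorem xs_add (a b : Fin L → ZMod 2) : xs (a + b) = xs a + xs b := by
  unfold xs
  rw [← mk_add]
  simp

theorem bf_zz (a b : Fin L → ZMod 2) : bf (zs a) (zs b) = 0 := by
  unfold zs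
  rw [bf_mk]
  refine Finset.sum_eq_zero fun i _ => ?_
  rw [mk_apply, mul_zero]

theorem bf_xs (a : Fin L → ZMod 2) (w : VV) : bf (xs a) w = 0 := by
  unfold xs
  rw [bf_mk]
  refine Finset.sum_eq_zero fun i _ => ?_
  rw [zero_mul]

theorem bf_zx (a b : Fin L → ZMod 2) : bf (zs a) (xs b) = dt a b := by
  unfold zs xs dt
  rw [bf_mk]
  refine Finset.sum_congr rfl fun i _ => ?_
  rw [mk_apply]

theorem sg_zero : sg 0 = 1 := by simp [sg]

theorem zz_mul (h : PauliSys τ W) (a b : Fin L → ZMod 2) :
    W (zs a) * W (zs b) = W (zs (a + b)) := by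
  rw [h.mul, bf_zz, sg_zero, one_smul, zs_add]

theorem xx_mul (h : PauliSys τ W) (a b : Fin L → ZMod 2) :
    W (xs a) * W (xs b) = W (xs (a + b)) := by
  rw [h.mul, bf_xs, sg_zero, one_smul, xs_add]

theorem xz_mul (h : PauliSys τ W) (a b : Fin L → ZMod 2) :
    W (xs b) * W (zs a) = sg (dt a b) • (W (zs a) * W (xs b)) := by
  rw [h.mul, h.mul, bf_xs, sg_zero, one_smul, bf_zx, smul_smul, sg_mul_self, one_smul,
    add_comm]

theorem z_star (h : PauliSys τ W) (a : Fin L → ZMod 2) : star (W (zs a)) = W (zs a) := by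
  rw [h.star, bf_zz, sg_zero, one_smul]

theorem x_star (h : PauliSys τ W) (a : Fin L → ZMod 2) : star (W (xs a)) = W (xs a) := by
  rw [h.star, bf_xs, sg_zero, one_smul]

theorem z_zero (h : PauliSys τ W) : W (zs (0 : Fin L → ZMod 2)) = 1 := by
  have : zs (0 : Fin L → ZMod 2) = 0 := by
    unfold zs
    rw [mk_eq_zero]
    intro i
    rfl
  rw [this, h.zero]

theorem x_zero (h : PauliSys τ W) : W (xs (0 : Fin L → ZMod 2)) = 1 := by
  have : xs (0 : Fin L → ZMod 2) = 0 := by
    unfold xs
    rw [mk_eq_zero]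
    intro i
    rfl
  rw [this, h.zero]

theorem zx_trace (h : PauliSys τ W) (a b : Fin L → ZMod 2) :
    τ (W (zs a) * W (xs b)) = if a = 0 ∧ b = 0 then 1 else 0 := by
  rw [h.mul, bf_zx, map_smul, h.trace]
  have : zs a + xs b = 0 ↔ a = 0 ∧ b = 0 := by
    unfold zs xs
    rw [← mk_add, mk_eq_zero]
    constructor
    · intro h
      constructor
      · funext i
        have := congrArg Prod.snd (h i)
        simpa using this
      · funext i
        have := congrArg Prod.fst (h i)
        simpa using this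
    · rintro ⟨rfl, rfl⟩ i
      simp
  simp only [this]
  by_cases hab : a = 0 ∧ b = 0
  · rw [if_pos hab, hab.1]
    have : dt (0 : Fin L → ZMod 2) b = 0 := by simp [dt]
    rw [this, sg_zero, one_smul]
  · rw [if_neg hab, smul_zero]

variable (W) in
/-- the diagonal projections -/
noncomputable def pr (u : Fin L → ZMod 2) : A :=
  ((2 : ℂ) ^ L)⁻¹ • ∑ a : Fin L → ZMod 2, sg (dt a u) • W (zs a)

theorem pr_star (h : PauliSys τ W) (u : Fin L → ZMod 2) : star (pr W u) = pr W u := by
  unfold pr
  rw [star_smul, star_sum]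
  congr 1
  · simp
  · refine Finset.sum_congr rfl fun a _ => ?_
    rw [star_smul, star_sg, z_star h]

theorem pr_mul (h : PauliSys τ W) (u v : Fin L → ZMod 2) :
    pr W u * pr W v = if u = v then pr W u else 0 := by
  have hvv : ∀ x : Fin L → ZMod 2, x + x = 0 := by
    intro x
    funext i
    have : ∀ y : ZMod 2, y + y = 0 := by decide
    exact this _
  have h2 : ((2 : ℂ) ^ L) ≠ 0 := pow_ne_zero _ two_ne_zero
  have key : (∑ a : Fin L → ZMod 2, sg (dt a u) • W (zs a)) *
      (∑ a : Fin L → ZMod 2, sg (dt a v) • W (zs a)) =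
      (if u + v = 0 then (2 : ℂ) ^ L else 0) •
        ∑ a : Fin L → ZMod 2, sg (dt a v) • W (zs a) := by
    rw [Finset.sum_mul, Finset.smul_sum]
    have e1 : ∀ a : Fin L → ZMod 2, (sg (dt a u) • W (zs a)) *
        (∑ b : Fin L → ZMod 2, sg (dt b v) • W (zs b)) =
        ∑ d : Fin L → ZMod 2, (sg (dt a (u + v))) • (sg (dt d v) • W (zs d)) := by
      intro a
      rw [Finset.mul_sum]
      rw [← Equiv.sum_comp (Equiv.addRight a)
        (fun d => (sg (dt a (u + v))) • (sg (dt d v) • W (zs d)))]
      refine Finset.sum_congr rfl fun b _ => ?_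
      have hba : (Equiv.addRight a) b = a + b := add_comm b a
      rw [hba, smul_mul_smul_comm, zz_mul h, smul_smul,
        dt_add_right, dt_add_left, sg_add, sg_add]
      congr 1
      have := sg_mul_self (dt a v)
      calc sg (dt a u) * sg (dt b v) = sg (dt a u) * (sg (dt a v) * sg (dt a v)) * sg (dt b v) := by
            rw [this, mul_one]
        _ = _ := by ring
    simp only [e1]
    rw [Finset.sum_comm]
    refine Finset.sum_congr rfl fun d _ => ?_
    rw [← Finset.sum_smul, sum_sg]
  unfold pr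
  rw [smul_mul_smul_comm, key, smul_smul]
  by_cases huv : u = v
  · subst huv
    rw [if_pos rfl, if_pos (hvv u)]
    congr 1
    field_simp
  · rw [if_neg huv, if_neg, mul_zero, zero_smul]
    intro h0
    apply huv
    have : u = u + (v + v) := by rw [hvv, add_zero]
    rw [this, ← add_assoc, h0, zero_add]

theorem pr_sum (h : PauliSys τ W) : ∑ u : Fin L → ZMod 2, pr W u = 1 := by
  unfold pr
  rw [← Finset.smul_sum, Finset.sum_comm]
  have e1 : ∀ a : Fin L → ZMod 2, ∑ u : Fin L → ZMod 2, sg (dt a u) • W (zs a) =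
      (if a = 0 then (2 : ℂ) ^ L else 0) • W (zs a) := by
    intro a
    rw [← Finset.sum_smul, ← sum_sg]
    congr 1
    exact Finset.sum_congr rfl fun u _ => by rw [dt_comm]
  simp only [e1]
  rw [Finset.sum_eq_single 0]
  · rw [if_pos rfl, z_zero h, smul_smul, inv_mul_cancel₀ (pow_ne_zero _ two_ne_zero), one_smul]
  · intro a _ ha
    rw [if_neg ha, zero_smul]
  · intro hi
    exact absurd (Finset.mem_univ _) hi

theorem x_pr (h : PauliSys τ W) (b v : Fin L → ZMod 2) :
    W (xs b) * pr W v = pr W (v + b) * W (xs b) := by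
  unfold pr
  rw [mul_smul_comm, smul_mul_assoc, Finset.mul_sum, Finset.sum_mul]
  congr 1
  refine Finset.sum_congr rfl fun a _ => ?_
  rw [mul_smul_comm, smul_mul_assoc, xz_mul h, smul_smul, dt_add_right, sg_add]

variable (W) in
/-- the matrix units -/
noncomputable def eu (u v : Fin L → ZMod 2) : A := pr W u * W (xs (u + v))

theorem eu_mul (h : PauliSys τ W) (i j k l : Fin L → ZMod 2) :
    eu W i j * eu W k l = if j = k then eu W i l else 0 := by
  have hvv : ∀ x : Fin L → ZMod 2, x + x = 0 := by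
    intro x
    funext i
    have : ∀ y : ZMod 2, y + y = 0 := by decide
    exact this _
  unfold eu
  have e1 : pr W i * W (xs (i + j)) * (pr W k * W (xs (k + l))) =
      pr W i * pr W (k + (i + j)) * (W (xs (i + j)) * W (xs (k + l))) := by
    rw [mul_assoc, ← mul_assoc (W (xs (i + j))), x_pr h]
    simp only [mul_assoc]
  rw [e1, pr_mul h, xx_mul h]
  by_cases hjk : j = k
  · subst hjk
    have e2 : j + (i + j) = i := by
      calc j + (i + j) = i + (j + j) := by abel
        _ = i := by rw [hvv, add_zero]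
    have e3 : i + j + (j + l) = i + l := by
      calc i + j + (j + l) = i + l + (j + j) := by abel
        _ = i + l := by rw [hvv, add_zero]
    rw [if_pos rfl, e2, if_pos rfl, e3]
  · rw [if_neg hjk, if_neg, zero_mul]
    intro h0
    apply hjk
    have h1 : i + i = k + j := by
      calc i + i = (k + (i + j)) + i := by rw [← h0]
        _ = k + j + (i + i) := by abel
        _ = k + j := by rw [hvv, add_zero]
    rw [hvv] at h1
    calc j = j + (k + k) := by rw [hvv, add_zero]
      _ = (k + j) + k := by abel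
      _ = k := by rw [← h1, zero_add]

theorem eu_star (h : PauliSys τ W) (i j : Fin L → ZMod 2) : star (eu W i j) = eu W j i := by
  have hvv : ∀ x : Fin L → ZMod 2, x + x = 0 := by
    intro x
    funext i
    have : ∀ y : ZMod 2, y + y = 0 := by decide
    exact this _
  unfold eu
  rw [star_mul, x_star h, pr_star h, x_pr h, add_comm j i]
  congr 2
  calc i + (i + j) = j + (i + i) := by abel
    _ = j := by rw [hvv, add_zero]

theorem eu_MU (h : PauliSys τ W) {κ : Type*} [Fintype κ] [DecidableEq κ]
    (ε : κ ≃ (Fin L → ZMod 2)) : MU (fun i j : κ => eu W (ε i) (ε j)) := by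
  have hvv : ∀ x : Fin L → ZMod 2, x + x = 0 := by
    intro x
    funext i
    have : ∀ y : ZMod 2, y + y = 0 := by decide
    exact this _
  refine ⟨?_, ?_, ?_⟩
  · intro i j k l
    rw [eu_mul h]
    simp only [EmbeddingLike.apply_eq_iff_eq]
  · intro i j
    exact eu_star h _ _
  · rw [← pr_sum h (L := L), ← Equiv.sum_comp ε]
    refine Finset.sum_congr rfl fun i _ => ?_
    unfold eu
    rw [hvv, x_zero h, mul_one]

theorem eu_trace (h : PauliSys τ W) (u v : Fin L → ZMod 2) :
    τ (eu W u v) = if u = v then ((2 : ℂ) ^ L)⁻¹ else 0 := by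
  have hvv : ∀ x : Fin L → ZMod 2, x + x = 0 := by
    intro x
    funext i
    have : ∀ y : ZMod 2, y + y = 0 := by decide
    exact this _
  unfold eu pr
  rw [smul_mul_assoc, map_smul, Finset.sum_mul, map_sum]
  have e1 : ∀ a : Fin L → ZMod 2, τ (sg (dt a u) • W (zs a) * W (xs (u + v))) =
      if a = 0 ∧ u + v = 0 then 1 else 0 := by
    intro a
    rw [smul_mul_assoc, map_smul, zx_trace h]
    by_cases ha : a = 0 ∧ u + v = 0
    · rw [if_pos ha, ha.1]
      have : dt (0 : Fin L → ZMod 2) u = 0 := by simp [dt]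
      rw [this, sg_zero, one_smul]
    · rw [if_neg ha, smul_zero]
  simp only [e1]
  by_cases huv : u = v
  · subst huv
    rw [if_pos rfl, Finset.sum_eq_single 0]
    · rw [if_pos ⟨rfl, hvv u⟩, smul_eq_mul, mul_one]
    · intro a _ ha
      rw [if_neg fun h => ha h.1]
    · intro hi
      exact absurd (Finset.mem_univ _) hi
  · have h0 : ¬ (u + v = 0) := by
      intro h0
      apply huv
      have : u = u + (v + v) := by rw [hvv, add_zero]
      rw [this, ← add_assoc, h0, zero_add]
    rw [if_neg huv]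
    have : ∀ a : Fin L → ZMod 2, (if a = 0 ∧ u + v = 0 then (1 : ℂ) else 0) = 0 := by
      intro a
      rw [if_neg fun h => h0 h.2]
    simp only [this]
    simp

end pauli

end EMBh

open EMBh in
theorem t_EMB : S_EMB := by
  intro H _ _ _ N T W hW κ _ _ L hκ
  have hcard : Fintype.card κ = Fintype.card (Fin L → ZMod 2) := by
    rw [hκ]; simp [ZMod.card]
  let ε : κ ≃ (Fin L → ZMod 2) := Fintype.equivOfCardEq hcard
  refine ⟨rho _ (eu_MU hW ε), fun x => ?_⟩
  rw [rho_apply, map_sum]
  unfold ntr
  rw [hκ, Matrix.trace, Finset.mul_sum]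
  refine Finset.sum_congr rfl fun i _ => ?_
  rw [map_sum, Finset.sum_eq_single i]
  · rw [map_smul, eu_trace hW, if_pos rfl, Matrix.diag_apply, smul_eq_mul, mul_comm]
    push_cast
    rfl
  · intro j _ hj
    rw [map_smul, eu_trace hW, if_neg, smul_zero]
    intro h
    exact hj (ε.injective h).symm
  · intro hi
    exact absurd (Finset.mem_univ _) hi

end Pool.Agent.H469R2.NL
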