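import Pool.Agent.H469R2.NL.Defs
import Pool.Agent.Helper278.DefsK
import Pool.Agent.Helper278.KLift

set_option autoImplicit false

open scoped InnerProductSpace Topology ComplexOrder BoundedContinuousFunction
open Filter Pool.Agent.Helper278

namespace Pool.Agent.H469R2.NL

theorem faithfulTrace_of_tracialState {H : Type} [NormedAddCommGroup H] [InnerProductSpace ℂ H]
    [CompleteSpace H] {N : VonNeumannAlgebra H} (T : TracialState N) : IsFaithfulTrace T.τ :=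
  ⟨T.map_one, T.tracial, T.faithful⟩

/-- the final form of the negative answer for independent pairs -/
theorem final_of_neg (h : Neg) :
    ∃ (H : Type) (_ : NormedAddCommGroup H) (_ : InnerProductSpace ℂ H) (_ : CompleteSpace H)
      (N : VonNeumannAlgebra H) (τ : Elt N → ℂ), IsNormalPositive N τ ∧ IsFaithfulTrace τ ∧
      ∀ U : Ultrafilter ℕ, (∀ n, {n} ∉ U) →
        (∃ (Q : Type) (_ : Ring Q) (_ : StarRing Q) (_ : Algebra ℂ Q) (_ : StarModule ℂ Q)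
          (π : (ℕ →ᵇ Elt N) →⋆ₐ[ℂ] Q) (σ : Q → ℂ), IsTracialUltrapower τ U π σ) ∧
        ∀ (Q : Type) [Ring Q] [StarRing Q] [Algebra ℂ Q] [StarModule ℂ Q]
          (π : (ℕ →ᵇ Elt N) →⋆ₐ[ℂ] Q) (σ : Q → ℂ), IsTracialUltrapower τ U π σ →
          ∃ u ∈ unitary Q, ∃ v ∈ unitary Q, IndepPair σ u v ∧
            ∀ a b : ℕ →ᵇ Elt N, (∀ n, a n ∈ unitary (Elt N)) → (∀ n, b n ∈ unitary (Elt N)) →
              π a = u → π b = v → {n | ¬ IndepPair τ (a n) (b n)} ∈ U := by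
  obtain ⟨H, i1, i2, i3, N, T, hN⟩ := h
  refine ⟨H, i1, i2, i3, N, T.τ, T.normal, faithfulTrace_of_tracialState T, ?_⟩
  intro U hU
  exact ⟨exists_ultrapower T U, fun Q _ _ _ _ π σ hπ => hN U hU Q π σ hπ⟩

/-- the final form of the negative answer for `3`-independent pairs -/
theorem final3_of_neg (h : Neg) :
    ∃ (H : Type) (_ : NormedAddCommGroup H) (_ : InnerProductSpace ℂ H) (_ : CompleteSpace H)
      (N : VonNeumannAlgebra H) (τ : Elt N → ℂ), IsNormalPositive N τ ∧ IsFaithfulTrace τ ∧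
      ∀ U : Ultrafilter ℕ, (∀ n, {n} ∉ U) →
        (∃ (Q : Type) (_ : Ring Q) (_ : StarRing Q) (_ : Algebra ℂ Q) (_ : StarModule ℂ Q)
          (π : (ℕ →ᵇ Elt N) →⋆ₐ[ℂ] Q) (σ : Q → ℂ), IsTracialUltrapower τ U π σ) ∧
        ∀ (Q : Type) [Ring Q] [StarRing Q] [Algebra ℂ Q] [StarModule ℂ Q]
          (π : (ℕ →ᵇ Elt N) →⋆ₐ[ℂ] Q) (σ : Q → ℂ), IsTracialUltrapower τ U π σ →
          ∃ u ∈ unitary Q, ∃ v ∈ unitary Q, (∀ j, 1 ≤ j → j ≤ 3 → KIndep σ j u v) ∧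
            ∀ a b : ℕ →ᵇ Elt N, (∀ n, a n ∈ unitary (Elt N)) → (∀ n, b n ∈ unitary (Elt N)) →
              π a = u → π b = v → {n | ¬ KIndep τ 2 (a n) (b n)} ∈ U := by
  obtain ⟨H, i1, i2, i3, N, T, hN⟩ := h
  refine ⟨H, i1, i2, i3, N, T.τ, T.normal, faithfulTrace_of_tracialState T, ?_⟩
  intro U hU
  refine ⟨exists_ultrapower T U, fun Q _ _ _ _ π σ hπ => ?_⟩
  obtain ⟨u, hu, v, hv, huv, hlift⟩ := hN U hU Q π σ hπ
  refine ⟨u, hu, v, hv, ?_, ?_⟩
  · intro j h1 h3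
    exact kindep_of_indep (sigma_trAlg hπ) (a := u) (b := v) huv j h1 h3
  · intro a b ha hb hau hbv
    refine Filter.mem_of_superset (hlift a b ha hb hau hbv) ?_
    intro n hn hk
    exact hn (indep_of_kindep (trAlg T) hk)

end Pool.Agent.H469R2.NL
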