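import Pool.Agent.H469R2.NL.G2

/-!
# G1: graph connectivity (label preserving edges of the cube)
-/

set_option autoImplicit false

namespace Pool.Agent.H469R2.NL

open G2h in
theorem G1 : S_G1 := by
  intro k j S hS hj
  have hnone : ∀ a : Fin k → ZMod 2, (Sum.inl (Sum.elim a a) ∈ S ↔ Sum.inr (Sum.elim a a) ∈ S) := by
    intro a
    have h1 := hS (Sum.elim a a) none (by
      rw [show (Sum.elim a a : Fin k ⊕ Fin k → ZMod 2) + sh none = Sum.elim a a by simp [sh]]
      rw [lP_even (self_even a), lQ_even (self_even a)])
    rw [show (Sum.elim a a : Fin k ⊕ Fin k → ZMod 2) + sh none = Sum.elim a a by simp [sh]] at h1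
    exact h1
  have key : ∀ a : Fin k → ZMod 2, Sum.inl (Sum.elim a a) ∈ S := by
    intro a
    rcases j with _ | d | d
    · apply hj
      rw [show (Sum.elim a a : Fin k ⊕ Fin k → ZMod 2) + sh none = Sum.elim a a by simp [sh]]
      rw [lP_even (self_even a), lQ_even (self_even a)]
    · have h7 : a + Pi.single d 1 + Pi.single d 1 = a := by
        rw [add_assoc, ← Pi.single_add, show (1 : ZMod 2) + 1 = 0 by decide, Pi.single_zero, add_zero]
      have h8 : ∑ e, (a + Pi.single d 1 : Fin k → ZMod 2) e + ∑ e, a e ≠ 0 := by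
        rw [sum_flip, add_right_comm, self_even, zero_add]
        exact one_ne_zero
      have h9 : lP (Sum.elim (a + Pi.single d 1) a) =
          lQ (Sum.elim (a + Pi.single d 1) a + sh (some (Sum.inl d))) := by
        rw [elim_inl, h7, lP_odd h8, lQ_even (self_even a)]
      have h10 := hj _ h9
      have h11 := (hS _ _ h9).1 h10
      rw [elim_inl, h7] at h11
      exact (hnone a).2 h11
    · apply hj
      rw [elim_inr, lP_even (self_even a), lQ_odd]
      rw [sum_flip, ← add_assoc, self_even, zero_add]
      exact one_ne_zero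
  intro v
  rcases v with x | x
  · exact (G2 k (lP x) S hS (key _)).1 x rfl
  · exact (G2 k (lQ x) S hS (key _)).2 x rfl

end Pool.Agent.H469R2.NL
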