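import Pool.Agent.H469R2.NL.Defs

/-!
# G2: graph connectivity (label preserving edges of the cube)
-/

set_option autoImplicit false

namespace Pool.Agent.H469R2.NL

namespace G2h

theorem flip_ind {k : ℕ} (P : (Fin k → ZMod 2) → Prop) (a : Fin k → ZMod 2) (h0 : P a)
    (h : ∀ b d, P b → P (b + Pi.single d 1)) : ∀ b, P b := by
  classical
  have key : ∀ T : Finset (Fin k), P (a + ∑ d ∈ T, (Pi.single d (1 : ZMod 2) : Fin k → ZMod 2)) := by
    intro T
    induction T using Finset.induction_on with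
    | empty => simpa using h0
    | insert d T hd ih =>
      have e : a + ∑ c ∈ insert d T, (Pi.single c (1 : ZMod 2) : Fin k → ZMod 2) =
          (a + ∑ c ∈ T, (Pi.single c (1 : ZMod 2) : Fin k → ZMod 2)) + Pi.single d 1 := by
        rw [Finset.sum_insert hd]
        abel
      rw [e]
      exact h _ d ih
  intro b
  have h1 := key (Finset.univ.filter fun d => b d ≠ a d)
  have h2 : a + ∑ d ∈ Finset.univ.filter (fun d => b d ≠ a d),
      (Pi.single d (1 : ZMod 2) : Fin k → ZMod 2) = b := by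
    funext e
    rw [Pi.add_apply, Finset.sum_apply]
    have h3 : ∑ c ∈ Finset.univ.filter (fun d => b d ≠ a d), (Pi.single c (1 : ZMod 2) : Fin k → ZMod 2) e
        = if b e ≠ a e then 1 else 0 := by
      rw [Finset.sum_filter]
      rw [Finset.sum_eq_single e]
      · simp
      · intro c _ hc
        split_ifs
        · exact Pi.single_eq_of_ne (Ne.symm hc) _
        · rfl
      · intro h; exact absurd (Finset.mem_univ _) h
    rw [h3]
    generalize a e = u
    generalize b e = v
    revert u v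
    decide
  rw [h2] at h1
  exact h1

theorem par_elim {k : ℕ} (a b : Fin k → ZMod 2) :
    ∑ d, (Sum.elim a b : Fin k ⊕ Fin k → ZMod 2) d = ∑ d, a d + ∑ d, b d := by
  rw [Fintype.sum_sum_type]
  simp

theorem elim_eta {k : ℕ} (x : Fin k ⊕ Fin k → ZMod 2) :
    Sum.elim (x ∘ Sum.inl) (x ∘ Sum.inr) = x := Sum.elim_comp_inl_inr x

theorem elim_inr {k : ℕ} (a b : Fin k → ZMod 2) (d : Fin k) :
    (Sum.elim a b : Fin k ⊕ Fin k → ZMod 2) + sh (some (Sum.inr d)) =
      Sum.elim a (b + Pi.single d 1) := by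
  funext e
  rcases e with e | e
  · simp [sh]
  · by_cases h : e = d
    · subst h; simp [sh]
    · simp [sh, Pi.single_eq_of_ne, h]

theorem elim_inl {k : ℕ} (a b : Fin k → ZMod 2) (d : Fin k) :
    (Sum.elim a b : Fin k ⊕ Fin k → ZMod 2) + sh (some (Sum.inl d)) =
      Sum.elim (a + Pi.single d 1) b := by
  funext e
  rcases e with e | e
  · by_cases h : e = d
    · subst h; simp [sh]
    · simp [sh, Pi.single_eq_of_ne, h]
  · simp [sh]

theorem lP_even {k : ℕ} {a b : Fin k → ZMod 2} (h : ∑ d, a d + ∑ d, b d = 0) :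
    lP (Sum.elim a b) = a := by
  unfold lP; rw [par_elim, if_pos h]; simp

theorem lP_odd {k : ℕ} {a b : Fin k → ZMod 2} (h : ∑ d, a d + ∑ d, b d ≠ 0) :
    lP (Sum.elim a b) = b := by
  unfold lP; rw [par_elim, if_neg h]; simp

theorem lQ_even {k : ℕ} {a b : Fin k → ZMod 2} (h : ∑ d, a d + ∑ d, b d = 0) :
    lQ (Sum.elim a b) = b := by
  unfold lQ; rw [par_elim, if_pos h]; simp

theorem lQ_odd {k : ℕ} {a b : Fin k → ZMod 2} (h : ∑ d, a d + ∑ d, b d ≠ 0) :
    lQ (Sum.elim a b) = a := by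
  unfold lQ; rw [par_elim, if_neg h]; simp

theorem sum_flip {k : ℕ} (b : Fin k → ZMod 2) (d : Fin k) :
    ∑ e, (b + Pi.single d 1 : Fin k → ZMod 2) e = ∑ e, b e + 1 := by
  simp only [Pi.add_apply, Finset.sum_add_distrib]
  rw [Finset.sum_pi_single']
  simp

theorem z2 (u : ZMod 2) : u ≠ 0 ↔ u + 1 = 0 := by revert u; decide

theorem z2' (u : ZMod 2) : u = 0 → u + 1 ≠ 0 := by revert u; decide

theorem self_even {k : ℕ} (a : Fin k → ZMod 2) : ∑ d, a d + ∑ d, a d = 0 := by
  generalize ∑ d, a d = u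
  revert u; decide

end G2h

open G2h in
theorem G2 : S_G2 := by
  intro k a S hS h0
  have hin : Sum.inr (Sum.elim a a) ∈ S := by
    have h1 := hS (Sum.elim a a) none (by
      rw [show (Sum.elim a a : Fin k ⊕ Fin k → ZMod 2) + sh none = Sum.elim a a by simp [sh]]
      rw [lP_even (self_even a), lQ_even (self_even a)])
    rw [show (Sum.elim a a : Fin k ⊕ Fin k → ZMod 2) + sh none = Sum.elim a a by simp [sh]] at h1
    exact h1.1 h0
  have F : ∀ b : Fin k → ZMod 2, (∑ d, a d + ∑ d, b d = 0 → Sum.inl (Sum.elim a b) ∈ S) ∧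
      (∑ d, a d + ∑ d, b d ≠ 0 → Sum.inr (Sum.elim a b) ∈ S) := by
    refine flip_ind (fun b => (∑ d, a d + ∑ d, b d = 0 → Sum.inl (Sum.elim a b) ∈ S) ∧
      (∑ d, a d + ∑ d, b d ≠ 0 → Sum.inr (Sum.elim a b) ∈ S)) a ?_ ?_
    · exact ⟨fun _ => h0, fun h => absurd (self_even a) h⟩
    · rintro b d ⟨h1, h2⟩
      show (∑ e, a e + ∑ e, (b + Pi.single d 1 : Fin k → ZMod 2) e = 0 → _) ∧ (∑ e, a e + ∑ e, (b + Pi.single d 1 : Fin k → ZMod 2) e ≠ 0 → _)
      rw [sum_flip, ← add_assoc]
      constructor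
      · intro h
        have h3 : ∑ d, a d + ∑ d, b d ≠ 0 := (z2 _).2 h
        have h4 := h2 h3
        have h5 : ∑ e, a e + ∑ e, (b + Pi.single d 1 : Fin k → ZMod 2) e = 0 := by rw [sum_flip, ← add_assoc]; exact h
        have h6 := hS (Sum.elim a (b + Pi.single d 1)) (some (Sum.inr d)) (by
          rw [elim_inr, lP_even h5, lQ_odd]
          rw [sum_flip, sum_flip, ← add_assoc, ← add_assoc, h, zero_add]
          exact one_ne_zero)
        rw [elim_inr] at h6
        have h7 : b + Pi.single d 1 + Pi.single d 1 = b := by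
          rw [add_assoc, ← Pi.single_add, show (1 : ZMod 2) + 1 = 0 by decide, Pi.single_zero, add_zero]
        rw [h7] at h6
        exact h6.2 h4
      · intro h
        have h3 : ∑ d, a d + ∑ d, b d = 0 := by
          by_contra h8
          exact h ((z2 _).1 h8)
        have h4 := h1 h3
        have h6 := hS (Sum.elim a b) (some (Sum.inr d)) (by
          rw [elim_inr, lP_even h3, lQ_odd]
          rw [sum_flip, ← add_assoc]
          exact h)
        rw [elim_inr] at h6
        exact h6.1 h4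
  have F' : ∀ c : Fin k → ZMod 2, (∑ d, c d + ∑ d, a d = 0 → Sum.inr (Sum.elim c a) ∈ S) ∧
      (∑ d, c d + ∑ d, a d ≠ 0 → Sum.inl (Sum.elim c a) ∈ S) := by
    refine flip_ind (fun c => (∑ d, c d + ∑ d, a d = 0 → Sum.inr (Sum.elim c a) ∈ S) ∧
      (∑ d, c d + ∑ d, a d ≠ 0 → Sum.inl (Sum.elim c a) ∈ S)) a ?_ ?_
    · exact ⟨fun _ => hin, fun h => absurd (self_even a) h⟩
    · rintro b d ⟨h1, h2⟩
      show (∑ e, (b + Pi.single d 1 : Fin k → ZMod 2) e + ∑ e, a e = 0 → _) ∧ (∑ e, (b + Pi.single d 1 : Fin k → ZMod 2) e + ∑ e, a e ≠ 0 → _)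
      have e1 : ∑ e, (b + Pi.single d 1 : Fin k → ZMod 2) e + ∑ e, a e = (∑ e, b e + ∑ e, a e) + 1 := by
        rw [sum_flip]; ring
      rw [e1]
      constructor
      · intro h
        have h3 : ∑ d, b d + ∑ d, a d ≠ 0 := (z2 _).2 h
        have h4 := h2 h3
        have h6 := hS (Sum.elim b a) (some (Sum.inl d)) (by
          rw [elim_inl, lP_odd h3, lQ_even]
          rw [e1]; exact h)
        rw [elim_inl] at h6
        exact h6.1 h4
      · intro h
        have h3 : ∑ d, b d + ∑ d, a d = 0 := by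
          by_contra h8
          exact h ((z2 _).1 h8)
        have h4 := h1 h3
        have h7 : b + Pi.single d 1 + Pi.single d 1 = b := by
          rw [add_assoc, ← Pi.single_add, show (1 : ZMod 2) + 1 = 0 by decide, Pi.single_zero, add_zero]
        have h6 := hS (Sum.elim (b + Pi.single d 1) a) (some (Sum.inl d)) (by
          rw [elim_inl, h7, lP_odd (by rw [e1]; exact h), lQ_even h3])
        rw [elim_inl, h7] at h6
        exact h6.2 h4
  constructor
  · intro x hx
    rw [← elim_eta x] at hx ⊢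
    generalize x ∘ Sum.inl = u at hx ⊢
    generalize x ∘ Sum.inr = v at hx ⊢
    by_cases h : ∑ d, u d + ∑ d, v d = 0
    · rw [lP_even h] at hx
      subst hx
      exact (F v).1 h
    · rw [lP_odd h] at hx
      subst hx
      exact (F' u).2 h
  · intro x hx
    rw [← elim_eta x] at hx ⊢
    generalize x ∘ Sum.inl = u at hx ⊢
    generalize x ∘ Sum.inr = v at hx ⊢
    by_cases h : ∑ d, u d + ∑ d, v d = 0
    · rw [lQ_even h] at hx
      subst hx
      exact (F' u).1 h
    · rw [lQ_odd h] at hx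
      subst hx
      exact (F v).2 h

end Pool.Agent.H469R2.NL
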