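import Pool.Agent.H469R2.NL.Defs

set_option autoImplicit false

open Filter

namespace Pool.Agent.H469R2.NL

theorem t_INV2 : S_INV2 := by
  intro α _ _ f
  classical
  -- representatives of the cycles
  set r : α → α := fun x => Quotient.out (Quotient.mk (Equiv.Perm.SameCycle.setoid f) x) with hr
  have hr1 : ∀ x, f.SameCycle (r x) x := fun x =>
    @Quotient.mk_out α (Equiv.Perm.SameCycle.setoid f) x
  have hr2 : ∀ x y, f.SameCycle x y → r x = r y := by
    intro x y h
    simp only [hr]
    congr 1
    exact Quotient.sound h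
  choose k hk using hr1
  set b : α → α := fun x => (f ^ (-(k x))) (r x) with hb
  have key : ∀ x (j : ℤ), b ((f ^ j) (r x)) = (f ^ (-j)) (r x) := by
    intro x j
    set y := (f ^ j) (r x) with hy
    have h1 : r y = r x := by
      have h2 : f.SameCycle (r x) y := ⟨j, rfl⟩
      have h3 : f.SameCycle y x := h2.symm.trans ⟨k x, hk x⟩
      exact hr2 y x h3
    have h4 : (f ^ (k y)) (r x) = (f ^ j) (r x) := by
      have := hk y
      rw [h1] at this
      exact this
    show (f ^ (-(k y))) (r y) = _
    rw [h1]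
    have h5 := congrArg (fun z => (f ^ (-(k y) - j)) z) h4
    simp only [← Equiv.Perm.mul_apply, ← zpow_add] at h5
    have e1 : -(k y) - j + k y = -j := by ring
    have e2 : -(k y) - j + j = -(k y) := by ring
    rw [e1, e2] at h5
    exact h5.symm
  have hbx : ∀ x, b x = (f ^ (-(k x))) (r x) := fun x => rfl
  have hbb : ∀ x, b (b x) = x := by
    intro x
    rw [hbx x, key x (-(k x)), neg_neg]
    exact hk x
  have haa : ∀ x, f (b (f (b x))) = x := by
    intro x
    have h1 : f (b x) = (f ^ (1 + -(k x))) (r x) := by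
      rw [hbx x, zpow_add, zpow_one, Equiv.Perm.mul_apply]
    rw [h1, key x]
    have h2 : f ((f ^ (-(1 + -(k x)))) (r x)) = (f ^ (1 + -(1 + -(k x)))) (r x) := by
      rw [zpow_add f 1, zpow_one, Equiv.Perm.mul_apply]
    rw [h2]
    have e : 1 + -(1 + -(k x)) = k x := by ring
    rw [e]
    exact hk x
  refine ⟨f * ⟨b, b, hbb, hbb⟩, ⟨b, b, hbb, hbb⟩, ?_, ?_, ?_⟩
  · ext x
    exact haa x
  · ext x
    exact hbb x
  · ext x
    show f (b (b x)) = f x
    rw [hbb]

end Pool.Agent.H469R2.NL
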