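import Pool.Agent.H469R2.NL.Defs

set_option autoImplicit false

open scoped InnerProductSpace Topology ComplexOrder BoundedContinuousFunction
open Filter Pool.Agent.Helper278 Pool.Agent.Helper436.SM

namespace Pool.Agent.H469R2.NL

theorem t_MAIN (h1 : S_WORDS) (h2 : S_MODEL) (h3 : S_NOSOL) : S_MAIN := by
  obtain ⟨H, i1, i2, i3, N, T, W, hW, hP⟩ := Pool.Agent.Helper436.SM.ExR.exists_R
  obtain ⟨κ, j1, j2, hκ, g, hg, hw⟩ := h2
  have hne : ∀ b, wd7 b ≠ [] := by
    intro b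
    fin_cases b <;> simp [wd7]
  exact h1 H N T W hW (Fin 7) (Fin 5) wd7 ep7 hne κ hκ g hg hw (h3 H N T W hW hP)

end Pool.Agent.H469R2.NL
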