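import Mathlib
import Pool.Agent.H469R2.NL.Defs

set_option autoImplicit false

open scoped InnerProductSpace Topology ComplexOrder
open Filter Pool.Agent.Helper278 Pool.Agent.Helper436.SM

namespace Pool.Agent.H469R2.NL

namespace ModelAux

variable {κ : Type} [Fintype κ] [DecidableEq κ]

/-- monomial matrix `e_j ↦ c j • e_{f j}` -/
noncomputable def Mo (f : κ → κ) (c : κ → ℂ) : Matrix κ κ ℂ :=
  Matrix.of fun i j => if i = f j then c j else 0

theorem Mo_mul (f f' : κ → κ) (c c' : κ → ℂ) :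
    Mo f c * Mo f' c' = Mo (fun j => f (f' j)) (fun j => c (f' j) * c' j) := by
  ext i j
  rw [Matrix.mul_apply]
  simp only [Mo, Matrix.of_apply]
  rw [Finset.sum_eq_single (f' j)]
  · simp only [if_true]
    split_ifs <;> simp
  · intro b _ hb
    rw [if_neg hb, mul_zero]
  · intro h
    exact absurd (Finset.mem_univ _) h

theorem Mo_star (f : κ → κ) (c : κ → ℂ) (hf : ∀ j, f (f j) = j)
    (hc : ∀ j, (starRingEnd ℂ) (c (f j)) = c j) : star (Mo f c) = Mo f c := by
  ext i j
  rw [Matrix.star_apply]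
  simp only [Mo, Matrix.of_apply]
  by_cases h : i = f j
  · subst h
    rw [hf, if_pos rfl, if_pos rfl]
    exact hc j
  · rw [if_neg h, if_neg, star_zero]
    rintro rfl
    exact h (hf i).symm

theorem Mo_one : Mo (κ := κ) (fun j => j) (fun _ => 1) = 1 := by
  ext i j
  simp only [Mo, Matrix.of_apply, Matrix.one_apply]

theorem Mo_sq (f : κ → κ) (c : κ → ℂ) (hf : ∀ j, f (f j) = j)
    (hc : ∀ j, c (f j) * c j = 1) : Mo f c * Mo f c = 1 := by
  rw [Mo_mul, ← Mo_one]
  congr 1
  · funext j; exact hf j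
  · funext j; exact hc j

/-- size of a diagonal matrix -/
theorem n2_diag [Nonempty κ] (c : κ → ℂ) (d : ℂ) (ε : ℝ) (hε : 0 ≤ ε)
    (h : ∀ j, ‖c j - d‖ ≤ ε) : n2 ntr (Mo (fun j => j) c - d • (1 : Matrix κ κ ℂ)) ≤ ε := by
  have e1 : Mo (fun j => j) c - d • (1 : Matrix κ κ ℂ) = Matrix.diagonal (fun j => c j - d) := by
    ext i j
    simp only [Mo, Matrix.of_apply, Matrix.sub_apply, Matrix.smul_apply, Matrix.one_apply,
      Matrix.diagonal_apply, smul_eq_mul]
    by_cases hij : i = j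
    · subst hij; simp
    · simp [hij]
  unfold n2
  rw [e1, Matrix.star_eq_conjTranspose, Matrix.diagonal_conjTranspose,
    Matrix.diagonal_mul_diagonal]
  unfold ntr
  rw [Matrix.trace_diagonal]
  have e2 : ((Fintype.card κ : ℂ)⁻¹ * ∑ i, star (fun j => c j - d) i * (c i - d)) =
      (((Fintype.card κ : ℝ)⁻¹ * ∑ i, ‖c i - d‖ ^ 2 : ℝ) : ℂ) := by
    push_cast
    congr 1
    refine Finset.sum_congr rfl fun i _ => ?_
    rw [Pi.star_apply, Complex.star_def, ← Complex.normSq_eq_conj_mul_self,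
      Complex.normSq_eq_norm_sq]
    push_cast
    rfl
  rw [e2, Complex.ofReal_re]
  apply Real.sqrt_le_iff.2
  refine ⟨hε, ?_⟩
  have hc : (0 : ℝ) < Fintype.card κ := by exact_mod_cast Fintype.card_pos
  rw [inv_mul_le_iff₀ hc]
  calc ∑ i, ‖c i - d‖ ^ 2 ≤ ∑ _i : κ, ε ^ 2 :=
        Finset.sum_le_sum fun i _ => pow_le_pow_left₀ (norm_nonneg _) (h i) 2
    _ = (Fintype.card κ : ℝ) * ε ^ 2 := by
        rw [Finset.sum_const, Finset.card_univ, nsmul_eq_mul]

/-- the doubling permutation -/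
def dbl (m : ℕ) [NeZero m] (x : ZMod (2 * m)) : ZMod (2 * m) :=
  if x.val < m then 2 * x else 2 * x + 1

instance (m : ℕ) [NeZero m] : NeZero (2 * m) := ⟨by have := NeZero.ne m; omega⟩

theorem dbl_val (m : ℕ) [NeZero m] (x : ZMod (2 * m)) :
    (dbl m x).val = if x.val < m then 2 * x.val else 2 * x.val + 1 - 2 * m := by
  have hx : x.val < 2 * m := ZMod.val_lt x
  have e : ((x.val : ℕ) : ZMod (2 * m)) = x := ZMod.natCast_zmod_val x
  unfold dbl
  split_ifs with h
  · have : (2 * x : ZMod (2 * m)) = ((2 * x.val : ℕ) : ZMod (2 * m)) := by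
      push_cast; rw [e]
    rw [this, ZMod.val_natCast_of_lt (by omega)]
  · have : (2 * x + 1 : ZMod (2 * m)) = ((2 * x.val + 1 - 2 * m : ℕ) : ZMod (2 * m)) := by
      rw [Nat.cast_sub (by omega)]
      rw [ZMod.natCast_self, sub_zero]
      push_cast; rw [e]
    rw [this, ZMod.val_natCast_of_lt (by omega)]

theorem dbl_inj (m : ℕ) [NeZero m] : Function.Injective (dbl m) := by
  intro x y h
  have h1 := congrArg ZMod.val h
  rw [dbl_val, dbl_val] at h1
  apply ZMod.val_injective
  have hx : x.val < 2 * m := ZMod.val_lt x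
  have hy : y.val < 2 * m := ZMod.val_lt y
  split_ifs at h1 <;> omega

/-- the doubling permutation -/
noncomputable def dblE (m : ℕ) [NeZero m] : Equiv.Perm (ZMod (2 * m)) :=
  Equiv.ofBijective (dbl m) (Finite.injective_iff_bijective.1 (dbl_inj m))

section
variable (m : ℕ) [NeZero m]

/-- the character -/
noncomputable def ch (x : ZMod (2 * m)) : ℂ := ZMod.stdAddChar x

theorem ch_add (x y : ZMod (2 * m)) : ch m (x + y) = ch m x * ch m y :=
  AddChar.map_add_eq_mul _ _ _

theorem ch_zero : ch m 0 = 1 := AddChar.map_zero_eq_one _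

theorem ch_conj (x : ZMod (2 * m)) : (starRingEnd ℂ) (ch m x) = ch m (-x) := by
  have := AddChar.map_neg_eq_conj (ZMod.stdAddChar (N := 2 * m)) x
  exact this.symm

theorem ch_half : ch m ((m : ℕ) : ZMod (2 * m)) = -1 := by
  have hm : (m : ℂ) ≠ 0 := by exact_mod_cast NeZero.ne m
  have := ZMod.stdAddChar_coe (N := 2 * m) (m : ℤ)
  unfold ch
  rw [Int.cast_natCast] at this
  rw [this]
  have : (2 * (Real.pi : ℂ) * Complex.I * ((m : ℤ) : ℂ) / ((2 * m : ℕ) : ℂ)) =
      Real.pi * Complex.I := by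
    push_cast
    field_simp
  rw [this, Complex.exp_pi_mul_I]

theorem half_add : ((m : ℕ) : ZMod (2 * m)) + ((m : ℕ) : ZMod (2 * m)) = 0 := by
  have : ((2 * m : ℕ) : ZMod (2 * m)) = 0 := ZMod.natCast_self _
  rw [← this]; push_cast; ring

/-- the generators -/
noncomputable def gn (a b : Equiv.Perm (ZMod (2 * m))) :
    Fin 7 → Matrix (ZMod (2 * m) × ZMod (2 * m)) (ZMod (2 * m) × ZMod (2 * m)) ℂ
  | 0 => Mo (fun v => (-v.1, v.2)) (fun _ => 1)
  | 1 => Mo (fun v => (-v.1, v.2)) (fun v => ch m (-v.1))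
  | 2 => Mo (fun v => (v.2, v.1)) (fun _ => 1)
  | 3 => Mo (fun v => (v.1, v.1 - v.2)) (fun _ => 1)
  | 4 => Mo (fun v => (v.1 + ((m : ℕ) : ZMod (2 * m)), v.2)) (fun _ => 1)
  | 5 => Mo (fun v => (b v.1, v.2)) (fun _ => 1)
  | 6 => Mo (fun v => (a v.1, v.2)) (fun _ => 1)

theorem gn_inv (a b : Equiv.Perm (ZMod (2 * m))) (ha : a * a = 1) (hb : b * b = 1) (c : Fin 7) :
    star (gn m a b c) = gn m a b c ∧ gn m a b c * gn m a b c = 1 := by
  have ha' : ∀ x, a (a x) = x := fun x => by
    have := congrArg (fun e : Equiv.Perm (ZMod (2 * m)) => e x) ha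
    simpa using this
  have hb' : ∀ x, b (b x) = x := fun x => by
    have := congrArg (fun e : Equiv.Perm (ZMod (2 * m)) => e x) hb
    simpa using this
  have key : ∀ (f : ZMod (2 * m) × ZMod (2 * m) → ZMod (2 * m) × ZMod (2 * m))
      (d : ZMod (2 * m) × ZMod (2 * m) → ℂ), (∀ j, f (f j) = j) →
      (∀ j, (starRingEnd ℂ) (d (f j)) = d j) → (∀ j, d (f j) * d j = 1) →
      star (Mo f d) = Mo f d ∧ Mo f d * Mo f d = 1 := fun f d h1 h2 h3 =>
    ⟨Mo_star f d h1 h2, Mo_sq f d h1 h3⟩
  fin_cases c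
  · exact key _ _ (fun j => by simp) (fun j => by simp) (fun j => by simp)
  · refine key _ _ (fun j => by simp) (fun j => ?_) (fun j => ?_)
    · rw [ch_conj]; simp
    · rw [← ch_add]; simp [ch_zero]
  · exact key _ _ (fun j => by simp) (fun j => by simp) (fun j => by simp)
  · exact key _ _ (fun j => by simp) (fun j => by simp) (fun j => by simp)
  · refine key _ _ (fun j => ?_) (fun j => by simp) (fun j => by simp)
    ext
    · show j.1 + _ + _ = j.1
      rw [add_assoc, half_add, add_zero]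
    · rfl
  · exact key _ _ (fun j => by simp [hb']) (fun j => by simp) (fun j => by simp)
  · exact key _ _ (fun j => by simp [ha']) (fun j => by simp) (fun j => by simp)

theorem Mo_congr {f f' : κ → κ} {c c' : κ → ℂ} (h1 : ∀ j, f j = f' j) (h2 : ∀ j, c j = c' j) :
    Mo f c = Mo f' c' := by
  rw [show f = f' from funext h1, show c = c' from funext h2]

theorem word0 (a b : Equiv.Perm (ZMod (2 * m))) :
    ((wd7 0).map (gn m a b)).prod = Mo (fun j => j) (fun _ => 1) := by
  simp only [wd7, List.map_cons, List.map_nil, List.prod_cons, List.prod_nil, mul_one, gn, Mo_mul]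
  apply Mo_congr
  · intro j; ext <;> simp
  · intro j
    simp only [mul_one, one_mul, neg_neg, ← ch_add]
    simp [ch_zero]

theorem word1 (a b : Equiv.Perm (ZMod (2 * m))) :
    ((wd7 1).map (gn m a b)).prod = Mo (fun j => j) (fun _ => 1) := by
  simp only [wd7, List.map_cons, List.map_nil, List.prod_cons, List.prod_nil, mul_one, gn, Mo_mul]
  apply Mo_congr
  · intro j; ext <;> simp
  · intro j
    simp only [mul_one, one_mul, neg_neg, ← ch_add]
    simp [ch_zero]

theorem word2 (a b : Equiv.Perm (ZMod (2 * m))) :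
    ((wd7 2).map (gn m a b)).prod = Mo (fun j => j) (fun _ => 1) := by
  simp only [wd7, List.map_cons, List.map_nil, List.prod_cons, List.prod_nil, mul_one, gn, Mo_mul]
  apply Mo_congr
  · intro j; ext <;> simp
  · intro j
    simp only [one_mul, neg_neg, ← ch_add]
    rw [← ch_zero m]
    congr 1
    ring

theorem word3 (a b : Equiv.Perm (ZMod (2 * m))) :
    ((wd7 3).map (gn m a b)).prod = Mo (fun j => j) (fun _ => -1) := by
  simp only [wd7, List.map_cons, List.map_nil, List.prod_cons, List.prod_nil, mul_one, gn, Mo_mul]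
  apply Mo_congr
  · intro j
    ext
    · simp only [neg_neg]
      rw [add_assoc, half_add, add_zero]
    · simp
  · intro j
    simp only [one_mul, neg_neg, ← ch_add]
    rw [← ch_half m]
    congr 1
    ring

theorem word4 (a b : Equiv.Perm (ZMod (2 * m))) (ha : a * a = 1) (hb : b * b = 1) :
    ((wd7 4).map (gn m a b)).prod =
      Mo (fun j => j) (fun j => ch m ((a * b) j.1 - 2 * j.1)) := by
  have ha' : ∀ x, a (a x) = x := fun x => by
    have := congrArg (fun e : Equiv.Perm (ZMod (2 * m)) => e x) ha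
    simpa using this
  have hb' : ∀ x, b (b x) = x := fun x => by
    have := congrArg (fun e : Equiv.Perm (ZMod (2 * m)) => e x) hb
    simpa using this
  simp only [wd7, List.map_cons, List.map_nil, List.prod_cons, List.prod_nil, mul_one, gn, Mo_mul]
  apply Mo_congr
  · intro j; ext <;> simp [ha', hb']
  · intro j
    simp only [mul_one, one_mul, neg_neg, ← ch_add, Equiv.Perm.mul_apply]
    congr 1
    ring

theorem dblE_sub (x : ZMod (2 * m)) : dblE m x - 2 * x = 0 ∨ dblE m x - 2 * x = 1 := by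
  show dbl m x - 2 * x = 0 ∨ dbl m x - 2 * x = 1
  unfold dbl
  split_ifs
  · left; ring
  · right; ring

theorem ch_one : ch m 1 = Complex.exp (2 * Real.pi * Complex.I / ((2 * m : ℕ) : ℂ)) := by
  have := ZMod.stdAddChar_coe (N := 2 * m) (1 : ℤ)
  unfold ch
  rw [Int.cast_one] at this
  rw [this]
  congr 1
  push_cast
  ring

end

end ModelAux

open ModelAux

theorem t_MODEL (h1 : S_INV2) : S_MODEL := by
  refine ⟨fun n => ZMod (2 * 2 ^ n) × ZMod (2 * 2 ^ n), fun n => inferInstance,
    fun n => inferInstance, ?_, ?_⟩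
  · intro n
    refine ⟨(n + 1) + (n + 1), ?_⟩
    rw [Fintype.card_prod, ZMod.card, pow_add, pow_succ, mul_comm 2]
  · choose a b ha hb hab using fun n : ℕ => h1 (ZMod (2 * 2 ^ n)) (dblE (2 ^ n))
    refine ⟨fun n => gn (2 ^ n) (a n) (b n), fun n c => gn_inv _ _ _ (ha n) (hb n) c, ?_⟩
    have hz : ∀ (d : ℂ) (n : ℕ), n2 ntr (Mo (fun j => j) (fun _ => d) -
        d • (1 : Matrix (ZMod (2 * 2 ^ n) × ZMod (2 * 2 ^ n)) (ZMod (2 * 2 ^ n) × ZMod (2 * 2 ^ n)) ℂ)) ≤ 0 :=
      fun d n => n2_diag _ _ _ le_rfl (fun j => by simp)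
    intro q
    fin_cases q
    · refine squeeze_zero (fun n => n2_nonneg _ _) (fun n => ?_) tendsto_const_nhds
      show n2 ntr (((wd7 0).map (gn (2 ^ n) (a n) (b n))).prod - ((sgb (ep7 0) : ℝ) : ℂ) • 1) ≤ 0
      rw [word0]
      simpa [sgb, ep7] using hz 1 n
    · refine squeeze_zero (fun n => n2_nonneg _ _) (fun n => ?_) tendsto_const_nhds
      show n2 ntr (((wd7 1).map (gn (2 ^ n) (a n) (b n))).prod - ((sgb (ep7 1) : ℝ) : ℂ) • 1) ≤ 0
      rw [word1]
      simpa [sgb, ep7] using hz 1 n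
    · refine squeeze_zero (fun n => n2_nonneg _ _) (fun n => ?_) tendsto_const_nhds
      show n2 ntr (((wd7 2).map (gn (2 ^ n) (a n) (b n))).prod - ((sgb (ep7 2) : ℝ) : ℂ) • 1) ≤ 0
      rw [word2]
      simpa [sgb, ep7] using hz 1 n
    · refine squeeze_zero (fun n => n2_nonneg _ _) (fun n => ?_) tendsto_const_nhds
      show n2 ntr (((wd7 3).map (gn (2 ^ n) (a n) (b n))).prod - ((sgb (ep7 3) : ℝ) : ℂ) • 1) ≤ 0
      rw [word3]
      have := hz (-1) n
      simpa [sgb, ep7] using this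
    · have hlim : Tendsto (fun n : ℕ => ‖ch (2 ^ n) 1 - 1‖) atTop (𝓝 0) := by
        have h2 : Tendsto (fun n : ℕ => ((2 * 2 ^ n : ℕ) : ℂ)⁻¹) atTop (𝓝 0) := by
          have : Tendsto (fun n : ℕ => (2 * 2 ^ n : ℕ)) atTop atTop := by
            refine tendsto_atTop_mono (fun n => ?_) (tendsto_id (α := ℕ))
            have := (Nat.lt_two_pow_self (n := n)).le
            simp only [id]; omega
          exact tendsto_inv₀_cobounded.comp (tendsto_natCast_atTop_cobounded.comp this)
        have h3 : Tendsto (fun n : ℕ => ch (2 ^ n) 1) atTop (𝓝 1) := by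
          have h4 : Tendsto (fun n : ℕ => Complex.exp ((2 * Real.pi * Complex.I) *
              ((2 * 2 ^ n : ℕ) : ℂ)⁻¹)) atTop (𝓝 (Complex.exp ((2 * Real.pi * Complex.I) * 0))) :=
            (Complex.continuous_exp.tendsto _).comp (h2.const_mul _)
          rw [mul_zero, Complex.exp_zero] at h4
          refine h4.congr fun n => ?_
          rw [ch_one, div_eq_mul_inv]
        have h5 := (h3.sub_const 1).norm
        simpa using h5
      refine squeeze_zero (fun n => n2_nonneg _ _) (fun n => ?_) hlim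
      show n2 ntr (((wd7 4).map (gn (2 ^ n) (a n) (b n))).prod - ((sgb (ep7 4) : ℝ) : ℂ) • 1) ≤ _
      rw [word4 _ _ _ (ha n) (hb n), hab n]
      have := n2_diag (κ := ZMod (2 * 2 ^ n) × ZMod (2 * 2 ^ n))
        (fun j => ch (2 ^ n) (dblE (2 ^ n) j.1 - 2 * j.1)) 1 (‖ch (2 ^ n) 1 - 1‖) (norm_nonneg _)
        (fun j => by
          rcases dblE_sub (2 ^ n) j.1 with h | h
          · simp only [h, ch_zero, sub_self, norm_zero]; exact norm_nonneg _
          · simp only [h]; exact le_rfl)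
      simpa [sgb, ep7] using this

end Pool.Agent.H469R2.NL
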