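import Pool.Agent.H469R2.NL.Defs

/-! NOSOL: the words have no solution in a corner of the hyperfinite algebra (assembly). -/

set_option autoImplicit false

open scoped InnerProductSpace Topology ComplexOrder BoundedContinuousFunction
open Filter Pool.Agent.Helper278 Pool.Agent.Helper436.SM

namespace Pool.Agent.H469R2.NL

theorem t_NOSOL (hREL : S_REL) (hTR0 : S_TR0) (hNS1 : S_NS1) (hTAIL2 : S_TAIL2)
    (hBESS : S_BESS) : S_NOSOL := by
  classical
  rintro H _ _ _ N T W hW hP ⟨A, _, _, _, _, j, hj, g, hg, hw⟩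
  have h := trAlg T
  obtain ⟨U, V, X, Y, b, c, hU, hV, hX, hY, hb, hc, hUV, hXU, hXV, hYV, hYU, hbU, hcU⟩ :=
    hREL A g hg hw
  set x : ℕ → Elt N := fun k => j (U ^ k) with hx
  have hUs : star U * U = 1 := (Unitary.mem_iff.1 hU).1
  have hpow : ∀ k : ℕ, star (U ^ k) * U ^ k = 1 := by
    intro k
    have := (Unitary.mem_iff.1 (pow_mem hU k)).1
    exact this
  have hj1 : star (j 1) * j 1 = j 1 := by
    rw [← hj.str, ← hj.mul, star_one, one_mul]
  have hxx : ∀ k, star (x k) * x k = j 1 := by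
    intro k
    rw [hx]
    show star (j (U ^ k)) * j (U ^ k) = j 1
    rw [← hj.str, ← hj.mul, hpow]
  have hnn : ∀ k, n2 T.τ (x k) ^ 2 = n2 T.τ (j 1) ^ 2 := by
    intro k
    rw [h.n2_sq, h.n2_sq, hxx, hj1]
  have ht : 0 < n2 T.τ (j 1) ^ 2 := by
    have h0 : n2 T.τ (j 1) ≠ 0 := by
      intro h0
      apply hj.nz
      apply T.faithful
      rw [h.eq_sq, h0]
      simp
    positivity
  have hort' : ∀ k l, k < l → T.τ (star (x k) * x l) = 0 := by
    intro k l hkl
    have h1 : star (x k) * x l = j (U ^ (l - k)) := by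
      show star (j (U ^ k)) * j (U ^ l) = j (U ^ (l - k))
      rw [← hj.str, ← hj.mul]
      congr 1
      have h2 : U ^ l = U ^ k * U ^ (l - k) := by
        rw [← pow_add]
        congr 1
        omega
      rw [h2, ← mul_assoc, hpow, one_mul]
    rw [h1]
    exact hTR0 H N T A j hj U b c hU hb hc hbU hcU (l - k) (by omega)
  have hort : ∀ k l, k ≠ l → T.τ (star (x k) * x l) = 0 := by
    intro k l hkl
    rcases lt_or_gt_of_ne hkl with h1 | h1
    · exact hort' k l h1
    · have h2 := h.conj (star (x l) * x k)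
      rw [hort' l k h1, star_zero, star_mul, star_star] at h2
      exact h2
  set t : ℝ := n2 T.τ (j 1) ^ 2 with htdef
  set δ : ℝ := Real.sqrt t / 2 with hδ
  have hδpos : 0 < δ := by
    have := Real.sqrt_pos.2 ht
    positivity
  have hδsq : δ ^ 2 = t / 4 := by
    rw [hδ, div_pow, Real.sq_sqrt ht.le]
    norm_num
  obtain ⟨n, hn⟩ := hNS1 H N T W hW hP A j hj U V X Y hU hV hX hY hUV hXU hXV hYV hYU δ hδpos
  obtain ⟨F, hF⟩ := hTAIL2 H N T W hW hP n
  have h1 : ∀ k, t ≤ ∑ w ∈ F, ‖T.τ (star (W w) * x k)‖ ^ 2 + δ ^ 2 := by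
    intro k
    have := hF (x k) δ (fun v hv => hn v hv k)
    rw [hnn] at this
    exact this
  have h2 : Tendsto (fun k => ∑ w ∈ F, ‖T.τ (star (W w) * x k)‖ ^ 2 + δ ^ 2) atTop
      (𝓝 (∑ w ∈ F, 0 + δ ^ 2)) := by
    refine Tendsto.add_const _ ?_
    exact tendsto_finsetSum _ fun w _ => hBESS H N T x t ht hnn hort (W w)
  have h3 := ge_of_tendsto' h2 h1
  rw [Finset.sum_const_zero, zero_add, hδsq] at h3
  linarith

end Pool.Agent.H469R2.NL
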