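import Pool.Agent.H469R2.NL.Defs

/-!
Ping-pong estimate for measures on the torus (PP).
-/

set_option autoImplicit false

namespace Pool.Agent.H469R2.NL

open MeasureTheory Set

namespace PPaux

/-- representative in `(-1/2, 1/2]` -/
noncomputable def r (x : UnitAddCircle) : ℝ :=
  (AddCircle.measurableEquivIoc (1 : ℝ) (-(1 / 2) : ℝ) x : ℝ)

theorem measurable_r : Measurable r :=
  measurable_subtype_coe.comp (AddCircle.measurableEquivIoc (1 : ℝ) (-(1 / 2) : ℝ)).measurable

theorem r_mem (x : UnitAddCircle) : -(1 / 2) < r x ∧ r x ≤ 1 / 2 := by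
  have h := (AddCircle.measurableEquivIoc (1 : ℝ) (-(1 / 2) : ℝ) x).2
  refine ⟨h.1, ?_⟩
  have := h.2
  unfold r
  linarith

theorem coe_r (x : UnitAddCircle) : ((r x : ℝ) : UnitAddCircle) = x :=
  (AddCircle.measurableEquivIoc (1 : ℝ) (-(1 / 2) : ℝ)).symm_apply_apply x

theorem r_coe (t : ℝ) (h1 : -(1 / 2) < t) (h2 : t ≤ 1 / 2) : r (t : UnitAddCircle) = t := by
  have h := (AddCircle.measurableEquivIoc (1 : ℝ) (-(1 / 2) : ℝ)).apply_symm_apply
    ⟨t, h1, by linarith⟩
  have h3 := congrArg Subtype.val h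
  exact h3

theorem r_add (x y : UnitAddCircle) (h1 : -(1 / 2) < r x + r y) (h2 : r x + r y ≤ 1 / 2) :
    r (x + y) = r x + r y := by
  have h : x + y = ((r x + r y : ℝ) : UnitAddCircle) := by
    rw [AddCircle.coe_add, coe_r, coe_r]
  rw [h, r_coe _ h1 h2]

theorem r_sub (x y : UnitAddCircle) (h1 : -(1 / 2) < r x - r y) (h2 : r x - r y ≤ 1 / 2) :
    r (x - y) = r x - r y := by
  have h : x - y = ((r x - r y : ℝ) : UnitAddCircle) := by
    rw [AddCircle.coe_sub, coe_r, coe_r]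
  rw [h, r_coe _ h1 h2]

theorem fourier_ge (x : UnitAddCircle) (hx : 1 / 8 ≤ |r x|) :
    1 / 4 ≤ ‖(fourier 1 x : ℂ) - 1‖ ^ 2 := by
  have hm := r_mem x
  have e : (fourier 1 x : ℂ) = Complex.exp (Complex.I * ((2 * Real.pi * r x : ℝ) : ℂ)) := by
    conv_lhs => rw [← coe_r x]
    rw [fourier_coe_apply]
    congr 1
    push_cast
    ring
  rw [e, Complex.norm_exp_I_mul_ofReal_sub_one]
  have h1 : 2 * Real.pi * r x / 2 = Real.pi * r x := by ring
  rw [h1]
  have hpi := Real.pi_pos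
  have h2 : |Real.sin (Real.pi * r x)| = Real.sin (Real.pi * |r x|) := by
    rcases le_total 0 (r x) with h | h
    · rw [abs_of_nonneg h, abs_of_nonneg]
      apply Real.sin_nonneg_of_nonneg_of_le_pi
      · positivity
      · nlinarith
    · rw [abs_of_nonpos h, mul_neg, Real.sin_neg, abs_of_nonpos]
      apply Real.sin_nonpos_of_nonpos_of_neg_pi_le
      · nlinarith
      · nlinarith
  have habs : |r x| ≤ 1 / 2 := abs_le.2 ⟨by linarith, hm.2⟩
  have h3 : 2 / Real.pi * (Real.pi * |r x|) ≤ Real.sin (Real.pi * |r x|) := by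
    apply Real.mul_le_sin
    · positivity
    · nlinarith
  have h4 : 2 / Real.pi * (Real.pi * |r x|) = 2 * |r x| := by field_simp
  rw [h4] at h3
  have h5 : ‖2 * Real.sin (Real.pi * r x)‖ = 2 * Real.sin (Real.pi * |r x|) := by
    rw [norm_mul, Real.norm_eq_abs, Real.norm_eq_abs, h2, abs_of_pos (by norm_num : (0 : ℝ) < 2)]
  rw [h5]
  nlinarith

/-- the complement of the small box has small measure -/
theorem far_le (μ : Measure TT) [IsFiniteMeasure μ] (η : ℝ) (f : TT → UnitAddCircle)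
    (hf : Continuous f) (h : ∫ z : TT, ‖(fourier 1 (f z) : ℂ) - 1‖ ^ 2 ∂μ ≤ η) :
    μ.real {z : TT | 1 / 8 ≤ |r (f z)|} ≤ 4 * η := by
  have hcont : Continuous fun z : TT => ‖(fourier 1 (f z) : ℂ) - 1‖ ^ 2 := by
    have := (fourier (T := (1 : ℝ)) 1).continuous.comp hf
    have h2 : Continuous fun z : TT => (fourier 1 (f z) : ℂ) := this
    fun_prop
  have hint : Integrable (fun z : TT => ‖(fourier 1 (f z) : ℂ) - 1‖ ^ 2) μ := by
    refine Integrable.of_bound hcont.aestronglyMeasurable 4 (Filter.Eventually.of_forall ?_)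
    intro z
    have h1 : ‖(fourier 1 (f z) : ℂ)‖ = 1 := by
      rw [fourier_apply]
      exact Circle.norm_coe _
    have h2 : ‖(fourier 1 (f z) : ℂ) - 1‖ ≤ 2 := by
      calc ‖(fourier 1 (f z) : ℂ) - 1‖ ≤ ‖(fourier 1 (f z) : ℂ)‖ + ‖(1 : ℂ)‖ := norm_sub_le _ _
        _ = 2 := by rw [h1, norm_one]; norm_num
    rw [Real.norm_of_nonneg (by positivity)]
    nlinarith [norm_nonneg ((fourier 1 (f z) : ℂ) - 1)]
  have hmk := mul_meas_ge_le_integral_of_nonneg (μ := μ)
    (f := fun z : TT => ‖(fourier 1 (f z) : ℂ) - 1‖ ^ 2)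
    (Filter.Eventually.of_forall (fun z => by positivity)) hint (1 / 4)
  have hsub : μ.real {z : TT | 1 / 8 ≤ |r (f z)|} ≤
      μ.real {z : TT | 1 / 4 ≤ ‖(fourier 1 (f z) : ℂ) - 1‖ ^ 2} :=
    measureReal_mono (fun z hz => fourier_ge _ hz)
  linarith

end PPaux

open PPaux in
theorem t_PP : S_PP := by
  intro μ _ η hη hA hB h1 h2
  have hr1 : Measurable fun z : TT => r z.1 := measurable_r.comp measurable_fst
  have hr2 : Measurable fun z : TT => r z.2 := measurable_r.comp measurable_snd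
  -- the box
  set Gc : Set TT := {z | 1 / 8 ≤ |r z.1|} ∪ {z | 1 / 8 ≤ |r z.2|} with hGc
  have hGcm : μ.real Gc ≤ 8 * η := by
    have e1 := far_le μ η (fun z => z.1) continuous_fst h1
    have e2 := far_le μ η (fun z => z.2) continuous_snd h2
    have e3 := measureReal_union_le (μ := μ) {z : TT | 1 / 8 ≤ |r z.1|} {z : TT | 1 / 8 ≤ |r z.2|}
    linarith
  have hG : ∀ z : TT, z ∉ Gc → (-(1 / 8) < r z.1 ∧ r z.1 < 1 / 8) ∧
      (-(1 / 8) < r z.2 ∧ r z.2 < 1 / 8) := by
    intro z hz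
    rw [hGc, mem_union, not_or] at hz
    obtain ⟨ha, hb⟩ := hz
    have ha' : |r z.1| < 1 / 8 := not_le.1 ha
    have hb' : |r z.2| < 1 / 8 := not_le.1 hb
    exact ⟨abs_lt.1 ha', abs_lt.1 hb'⟩
  -- the sectors
  set Q1 : Set TT := {z | (0 ≤ r z.1 ∧ 0 < r z.2) ∨ (r z.1 ≤ 0 ∧ r z.2 < 0)} with hQ1
  set Q2 : Set TT := {z | (0 < r z.1 ∧ r z.2 ≤ 0) ∨ (r z.1 < 0 ∧ 0 ≤ r z.2)} with hQ2
  set D : Set TT := {z | |r z.1| < |r z.2|} with hD
  have mD : MeasurableSet D := measurableSet_lt hr1.norm hr2.norm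
  have mQ1 : MeasurableSet Q1 :=
    ((measurableSet_le measurable_const hr1).inter (measurableSet_lt measurable_const hr2)).union
      ((measurableSet_le hr1 measurable_const).inter (measurableSet_lt hr2 measurable_const))
  have mQ2 : MeasurableSet Q2 :=
    ((measurableSet_lt measurable_const hr1).inter (measurableSet_le hr2 measurable_const)).union
      ((measurableSet_lt hr1 measurable_const).inter (measurableSet_le measurable_const hr2))
  set D' : Set TT := {z | |r z.2| < |r z.1|} with hD'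
  have mD' : MeasurableSet D' := measurableSet_lt hr2.norm hr1.norm
  -- first sector
  have b1 : μ.real (Q1 \ Gc) ≤ μ.real (Q1 ∩ D) + η := by
    have e1 := hA (Q1 ∩ D) (mQ1.inter mD)
    have e2 : μ.real (Q1 \ Gc) ≤ μ.real ((fun z : TT => (z.1, z.1 + z.2)) ⁻¹' (Q1 ∩ D)) := by
      refine measureReal_mono ?_
      rintro z ⟨hz1, hz2⟩
      obtain ⟨⟨g1, g2⟩, g3, g4⟩ := hG z hz2
      have e3 : r (z.1 + z.2) = r z.1 + r z.2 := r_add _ _ (by linarith) (by linarith)
      show (z.1, z.1 + z.2) ∈ Q1 ∩ D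
      simp only [hQ1, hD, mem_inter_iff, mem_setOf_eq] at hz1 ⊢
      rw [e3]
      rcases hz1 with ⟨h3, h4⟩ | ⟨h3, h4⟩
      · refine ⟨Or.inl ⟨h3, by linarith⟩, ?_⟩
        rw [abs_of_nonneg h3, abs_of_nonneg (by linarith)]
        linarith
      · refine ⟨Or.inr ⟨h3, by linarith⟩, ?_⟩
        rw [abs_of_nonpos h3, abs_of_nonpos (by linarith)]
        linarith
    have e4 := (abs_le.1 e1).2
    linarith
  have b2 : μ.real (Q1 \ Gc) ≤ μ.real (Q1 \ D) + η := by
    have e1 := hB (Q1 \ D) (mQ1.diff mD)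
    have e2 : μ.real (Q1 \ Gc) ≤ μ.real ((fun z : TT => (z.1 + z.2, z.2)) ⁻¹' (Q1 \ D)) := by
      refine measureReal_mono ?_
      rintro z ⟨hz1, hz2⟩
      obtain ⟨⟨g1, g2⟩, g3, g4⟩ := hG z hz2
      have e3 : r (z.1 + z.2) = r z.1 + r z.2 := r_add _ _ (by linarith) (by linarith)
      show (z.1 + z.2, z.2) ∈ Q1 \ D
      simp only [hQ1, hD, mem_diff, mem_setOf_eq, not_lt] at hz1 ⊢
      rw [e3]
      rcases hz1 with ⟨h3, h4⟩ | ⟨h3, h4⟩
      · refine ⟨Or.inl ⟨by linarith, h4⟩, ?_⟩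
        rw [abs_of_pos h4, abs_of_nonneg (by linarith)]
        linarith
      · refine ⟨Or.inr ⟨by linarith, h4⟩, ?_⟩
        rw [abs_of_neg h4, abs_of_nonpos (by linarith)]
        linarith
    have e4 := (abs_le.1 e1).2
    linarith
  have b3 : μ.real (Q1 ∩ D) + μ.real (Q1 \ D) = μ.real Q1 := measureReal_inter_add_sdiff mD
  have b4 : μ.real Q1 ≤ μ.real (Q1 \ Gc) + μ.real Gc := by
    have : Q1 ⊆ (Q1 \ Gc) ∪ Gc := by
      intro z hz
      by_cases h : z ∈ Gc
      · exact Or.inr h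
      · exact Or.inl ⟨hz, h⟩
    exact (measureReal_mono this).trans (measureReal_union_le _ _)
  -- second sector
  have c1 : μ.real (Q2 \ Gc) ≤ μ.real (Q2 \ D') + η := by
    set S : Set TT := (fun z : TT => (z.1, z.2 - z.1)) ⁻¹' (Q2 \ D') with hS
    have mS : MeasurableSet S := by
      refine (mQ2.diff mD').preimage ?_
      exact (continuous_fst.prodMk (continuous_snd.sub continuous_fst)).measurable
    have e1 := hA S mS
    have e5 : (fun z : TT => (z.1, z.1 + z.2)) ⁻¹' S = Q2 \ D' := by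
      ext z
      show ((z.1, z.1 + z.2).1, (z.1, z.1 + z.2).2 - (z.1, z.1 + z.2).1) ∈ Q2 \ D' ↔ z ∈ Q2 \ D'
      have : ((z.1, z.1 + z.2).1, (z.1, z.1 + z.2).2 - (z.1, z.1 + z.2).1) = z := by
        simp
      rw [this]
    rw [e5] at e1
    have e2 : μ.real (Q2 \ Gc) ≤ μ.real S := by
      refine measureReal_mono ?_
      rintro z ⟨hz1, hz2⟩
      obtain ⟨⟨g1, g2⟩, g3, g4⟩ := hG z hz2
      have e3 : r (z.2 - z.1) = r z.2 - r z.1 := r_sub _ _ (by linarith) (by linarith)
      show (z.1, z.2 - z.1) ∈ Q2 \ D'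
      simp only [hQ2, hD', mem_diff, mem_setOf_eq, not_lt] at hz1 ⊢
      rw [e3]
      rcases hz1 with ⟨h3, h4⟩ | ⟨h3, h4⟩
      · refine ⟨Or.inl ⟨h3, by linarith⟩, ?_⟩
        rw [abs_of_pos h3, abs_of_nonpos (by linarith)]
        linarith
      · refine ⟨Or.inr ⟨h3, by linarith⟩, ?_⟩
        rw [abs_of_neg h3, abs_of_nonneg (by linarith)]
        linarith
    have e4 := (abs_le.1 e1).1
    linarith
  have c2 : μ.real (Q2 \ Gc) ≤ μ.real (Q2 ∩ D') + η := by
    set S : Set TT := (fun z : TT => (z.1 - z.2, z.2)) ⁻¹' (Q2 ∩ D') with hS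
    have mS : MeasurableSet S := by
      refine (mQ2.inter mD').preimage ?_
      exact ((continuous_fst.sub continuous_snd).prodMk continuous_snd).measurable
    have e1 := hB S mS
    have e5 : (fun z : TT => (z.1 + z.2, z.2)) ⁻¹' S = Q2 ∩ D' := by
      ext z
      show ((z.1 + z.2, z.2).1 - (z.1 + z.2, z.2).2, (z.1 + z.2, z.2).2) ∈ Q2 ∩ D' ↔ z ∈ Q2 ∩ D'
      have : ((z.1 + z.2, z.2).1 - (z.1 + z.2, z.2).2, (z.1 + z.2, z.2).2) = z := by
        simp
      rw [this]
    rw [e5] at e1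
    have e2 : μ.real (Q2 \ Gc) ≤ μ.real S := by
      refine measureReal_mono ?_
      rintro z ⟨hz1, hz2⟩
      obtain ⟨⟨g1, g2⟩, g3, g4⟩ := hG z hz2
      have e3 : r (z.1 - z.2) = r z.1 - r z.2 := r_sub _ _ (by linarith) (by linarith)
      show (z.1 - z.2, z.2) ∈ Q2 ∩ D'
      simp only [hQ2, hD', mem_inter_iff, mem_setOf_eq] at hz1 ⊢
      rw [e3]
      rcases hz1 with ⟨h3, h4⟩ | ⟨h3, h4⟩
      · refine ⟨Or.inl ⟨by linarith, h4⟩, ?_⟩
        rw [abs_of_nonpos h4, abs_of_nonneg (by linarith)]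
        linarith
      · refine ⟨Or.inr ⟨by linarith, h4⟩, ?_⟩
        rw [abs_of_nonneg h4, abs_of_nonpos (by linarith)]
        linarith
    have e4 := (abs_le.1 e1).1
    linarith
  have c3 : μ.real (Q2 ∩ D') + μ.real (Q2 \ D') = μ.real Q2 := measureReal_inter_add_sdiff mD'
  have c4 : μ.real Q2 ≤ μ.real (Q2 \ Gc) + μ.real Gc := by
    have : Q2 ⊆ (Q2 \ Gc) ∪ Gc := by
      intro z hz
      by_cases h : z ∈ Gc
      · exact Or.inr h
      · exact Or.inl ⟨hz, h⟩
    exact (measureReal_mono this).trans (measureReal_union_le _ _)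
  -- together
  have hcov : {z : TT | z ≠ 0} ⊆ Q1 ∪ Q2 := by
    intro z hz
    by_contra hcon
    rw [mem_union, not_or] at hcon
    obtain ⟨n1, n2⟩ := hcon
    simp only [hQ1, hQ2, mem_setOf_eq, not_or, not_and_or, not_le, not_lt] at n1 n2
    have e1 : r z.1 = 0 ∧ r z.2 = 0 := by
      obtain ⟨a1, a2⟩ := n1
      obtain ⟨a3, a4⟩ := n2
      constructor
      · rcases lt_trichotomy (r z.1) 0 with h | h | h
        · exfalso
          rcases a4 with a4 | a4
          · linarith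
          · rcases a2 with a2 | a2 <;> linarith
        · exact h
        · exfalso
          rcases a3 with a3 | a3
          · linarith
          · rcases a1 with a1 | a1 <;> linarith
      · rcases lt_trichotomy (r z.2) 0 with h | h | h
        · exfalso
          rcases a2 with a2 | a2
          · rcases a3 with a3 | a3 <;> linarith
          · linarith
        · exact h
        · exfalso
          rcases a1 with a1 | a1
          · rcases a4 with a4 | a4 <;> linarith
          · linarith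
    apply hz
    have f1 : z.1 = 0 := by rw [← coe_r z.1, e1.1]; exact AddCircle.coe_zero _
    have f2 : z.2 = 0 := by rw [← coe_r z.2, e1.2]; exact AddCircle.coe_zero _
    exact Prod.ext f1 f2
  have hfin : μ.real {z : TT | z ≠ 0} ≤ μ.real Q1 + μ.real Q2 :=
    (measureReal_mono hcov).trans (measureReal_union_le _ _)
  linarith

end Pool.Agent.H469R2.NL
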