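import Pool.Agent.H469R2.NL.Defs

/-!
# REL: the relations of `Z² ⋊ SL_2(Z)` from the words (helper234 for helper469)
-/

set_option autoImplicit false

namespace Pool.Agent.H469R2.NL

/-- the group part of `S_REL` -/
theorem rel_group {G : Type*} [Group G] (g0 g1 g2 g3 : G)
    (h0 : g0 * g0 = 1) (h1 : g1 * g1 = 1) (h2 : g2 * g2 = 1) (h3 : g3 * g3 = 1)
    (w0 : g2 * (g0 * (g2 * (g1 * (g0 * (g2 * (g0 * (g2 * (g0 * g1)))))))) = 1)
    (w1 : g3 * (g1 * (g0 * (g3 * (g0 * g1)))) = 1)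
    (w2 : g3 * (g2 * (g1 * (g0 * (g2 * (g3 * (g2 * (g1 * (g0 * (g2 * (g0 * g1)))))))))) = 1) :
    let U := g1 * g0
    let V := g2 * U * g2
    let X := g3 * (g2 * g0 * g2)
    let Y := g2 * X * g2
    U * V = V * U ∧ X * U = U * X ∧ X * V = U⁻¹ * V * X ∧ Y * V = V * Y ∧
      Y * U = V⁻¹ * U * Y := by
  intro U V X Y
  have i0 : g0⁻¹ = g0 := inv_eq_of_mul_eq_one_left h0
  have i1 : g1⁻¹ = g1 := inv_eq_of_mul_eq_one_left h1
  have i2 : g2⁻¹ = g2 := inv_eq_of_mul_eq_one_left h2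
  have i3 : g3⁻¹ = g3 := inv_eq_of_mul_eq_one_left h3
  have hUi : U⁻¹ = g0 * g1 := by simp only [U, mul_inv_rev, i0, i1]
  -- `t U t = U`
  have hT : (g2 * g0 * g2) * U * (g2 * g0 * g2) = U := by
    have : (g2 * g0 * g2) * U * (g2 * g0 * g2) * U⁻¹ = 1 := by
      rw [hUi]; simpa only [U, mul_assoc] using w0
    exact mul_inv_eq_one.1 this
  have h3U : g3 * U * g3 = U := by
    have : g3 * U * g3 * U⁻¹ = 1 := by
      rw [hUi]; simpa only [U, mul_assoc] using w1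
    exact mul_inv_eq_one.1 this
  have h3V' : g3 * V * g3 * V = U := by
    have : g3 * V * g3 * V * U⁻¹ = 1 := by
      rw [hUi]; simpa only [U, V, mul_assoc] using w2
    exact mul_inv_eq_one.1 this
  have h3V : g3 * V * g3 = U * V⁻¹ := eq_mul_inv_of_mul_eq h3V'
  have hUV : U * V = V * U := by
    have e1 : g3 * (g3 * V * g3) * g3 = V := by
      rw [← mul_assoc, ← mul_assoc, h3, one_mul, mul_assoc, h3, mul_one]
    have e2 : g3 * (U * V⁻¹) * g3 = U * V * U⁻¹ := by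
      have : g3 * (U * V⁻¹) * g3 = (g3 * U * g3) * (g3 * V * g3)⁻¹ := by
        simp only [mul_inv_rev, i3]
        calc g3 * (U * V⁻¹) * g3 = g3 * U * (1 * (V⁻¹ * g3)) := by group
          _ = g3 * U * ((g3 * g3) * (V⁻¹ * g3)) := by rw [h3]
          _ = g3 * U * g3 * (g3 * (V⁻¹ * g3)) := by group
      rw [this, h3U, h3V]; group
    have e3 : V = U * V * U⁻¹ := by rw [← e2, ← h3V, e1]
    have e4 : V * U = U * V := by
      conv_lhs => rw [e3]
      group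
    exact e4.symm
  have hTV : (g2 * g0 * g2) * V * (g2 * g0 * g2) = V⁻¹ := by
    have : V⁻¹ = g2 * (g0 * g1) * g2 := by
      simp only [V, mul_inv_rev, i2, hUi, mul_assoc]
    rw [this]
    calc (g2 * g0 * g2) * V * (g2 * g0 * g2)
        = g2 * g0 * (g2 * g2) * g1 * g0 * (g2 * g2) * g0 * g2 := by
          simp only [V, U, mul_assoc]
      _ = g2 * g0 * g1 * (g0 * g0) * g2 := by rw [h2]; simp only [mul_assoc, one_mul]
      _ = g2 * (g0 * g1) * g2 := by rw [h0]; simp only [mul_assoc, one_mul]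
  have ht : (g2 * g0 * g2) * (g2 * g0 * g2) = 1 := by
    calc (g2 * g0 * g2) * (g2 * g0 * g2) = g2 * g0 * (g2 * g2) * g0 * g2 := by
          simp only [mul_assoc]
      _ = g2 * (g0 * g0) * g2 := by rw [h2]; simp only [mul_assoc, one_mul]
      _ = 1 := by rw [h0, mul_one, h2]
  have hXi : X⁻¹ = (g2 * g0 * g2) * g3 := by
    simp only [X, mul_inv_rev, i0, i2, i3, mul_assoc]
  have hXU : X * U * X⁻¹ = U := by
    rw [hXi]
    calc X * U * ((g2 * g0 * g2) * g3) = g3 * ((g2 * g0 * g2) * U * (g2 * g0 * g2)) * g3 := by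
          simp only [X, mul_assoc]
      _ = U := by rw [hT, h3U]
  have hXV : X * V * X⁻¹ = U⁻¹ * V := by
    rw [hXi]
    calc X * V * ((g2 * g0 * g2) * g3) = g3 * ((g2 * g0 * g2) * V * (g2 * g0 * g2)) * g3 := by
          simp only [X, mul_assoc]
      _ = g3 * V⁻¹ * g3 := by rw [hTV]
      _ = (g3 * V * g3)⁻¹ := by simp only [mul_inv_rev, i3, mul_assoc]
      _ = V * U⁻¹ := by rw [h3V]; group
      _ = U⁻¹ * (U * V) * U⁻¹ := by group
      _ = U⁻¹ * (V * U) * U⁻¹ := by rw [hUV]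
      _ = U⁻¹ * V := by group
  have hVg : g2 * V * g2 = U := by
    calc g2 * V * g2 = (g2 * g2) * U * (g2 * g2) := by simp only [V, mul_assoc]
      _ = U := by rw [h2, one_mul, mul_one]
  have hYi : Y⁻¹ = g2 * X⁻¹ * g2 := by simp only [Y, mul_inv_rev, i2, mul_assoc]
  have hYV : Y * V * Y⁻¹ = V := by
    rw [hYi]
    calc Y * V * (g2 * X⁻¹ * g2) = g2 * (X * (g2 * V * g2) * X⁻¹) * g2 := by
          simp only [Y, mul_assoc]
      _ = V := by rw [hVg, hXU]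
  have hYU : Y * U * Y⁻¹ = V⁻¹ * U := by
    rw [hYi]
    calc Y * U * (g2 * X⁻¹ * g2) = g2 * (X * (g2 * U * g2) * X⁻¹) * g2 := by
          simp only [Y, mul_assoc]
      _ = g2 * (U⁻¹ * V) * g2 := by
          change g2 * (X * V * X⁻¹) * g2 = _
          rw [hXV]
      _ = (g2 * U * g2)⁻¹ * (g2 * V * g2) := by
          simp only [mul_inv_rev, i2]
          calc g2 * (U⁻¹ * V) * g2 = g2 * U⁻¹ * 1 * V * g2 := by group
            _ = g2 * U⁻¹ * (g2 * g2) * V * g2 := by rw [h2]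
            _ = _ := by simp only [mul_assoc]
      _ = V⁻¹ * U := by rw [hVg]
  exact ⟨hUV, mul_inv_eq_iff_eq_mul.1 hXU, mul_inv_eq_iff_eq_mul.1 hXV,
    mul_inv_eq_iff_eq_mul.1 hYV, mul_inv_eq_iff_eq_mul.1 hYU⟩

theorem REL : S_REL := by
  intro A _ _ _ _ g hg hw
  have hmem : ∀ c, g c ∈ unitary A := fun c =>
    Unitary.mem_iff.2 ⟨by rw [(hg c).1, (hg c).2], by rw [(hg c).1, (hg c).2]⟩
  let G : Fin 7 → unitary A := fun c => ⟨g c, hmem c⟩
  have hGG : ∀ c, G c * G c = 1 := fun c => Subtype.ext (hg c).2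
  have hGi : ∀ c, (G c)⁻¹ = G c := fun c => inv_eq_of_mul_eq_one_left (hGG c)
  have w0 := hw 0
  have w1 := hw 1
  have w2 := hw 2
  have w3 := hw 3
  have w4 := hw 4
  simp only [wd7, ep7, sgb, List.map_cons, List.map_nil, List.prod_cons, List.prod_nil, mul_one,
    Complex.ofReal_one, one_smul, Bool.false_eq_true, if_false, if_true, Complex.ofReal_neg,
    neg_smul] at w0 w1 w2 w3 w4
  obtain ⟨r1, r2, r3, r4, r5⟩ := rel_group (G 0) (G 1) (G 2) (G 3) (hGG 0) (hGG 1) (hGG 2) (hGG 3)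
    (Subtype.ext w0) (Subtype.ext w1) (Subtype.ext w2)
  have hUi : (G 1 * G 0)⁻¹ = G 0 * G 1 := by rw [mul_inv_rev, hGi, hGi]
  have hUs : g 1 * g 0 * (g 0 * g 1) = 1 := by
    rw [mul_assoc, ← mul_assoc (g 0), (hg 0).2, one_mul, (hg 1).2]
  have hUs' : g 0 * g 1 * (g 1 * g 0) = 1 := by
    rw [mul_assoc, ← mul_assoc (g 1), (hg 1).2, one_mul, (hg 0).2]
  refine ⟨_, _, _, _, g 4, g 5 * g 6, (G 1 * G 0).2, (G 2 * (G 1 * G 0) * G 2).2,
    (G 3 * (G 2 * G 0 * G 2)).2, (G 2 * (G 3 * (G 2 * G 0 * G 2)) * G 2).2, hmem 4,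
    mul_mem (hmem 5) (hmem 6), congrArg Subtype.val r1, congrArg Subtype.val r2,
    congrArg Subtype.val r3, congrArg Subtype.val r4, congrArg Subtype.val r5, ?_, ?_⟩
  · change g 4 * (g 1 * g 0) = -(g 1 * g 0 * g 4)
    -- `w3 : g 4 * (g 1 * (g 0 * (g 4 * (g 0 * g 1)))) = -1`
    have e1 : g 4 * (g 1 * g 0) * g 4 * (g 0 * g 1) = -1 := by
      rw [← w3]; simp only [mul_assoc]
    have e2 : g 4 * (g 1 * g 0) * g 4 = -(g 1 * g 0) := by
      calc g 4 * (g 1 * g 0) * g 4 = g 4 * (g 1 * g 0) * g 4 * ((g 0 * g 1) * (g 1 * g 0)) := by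
            rw [hUs', mul_one]
        _ = (g 4 * (g 1 * g 0) * g 4 * (g 0 * g 1)) * (g 1 * g 0) := by simp only [mul_assoc]
        _ = -(g 1 * g 0) := by rw [e1, neg_one_mul]
    calc g 4 * (g 1 * g 0) = g 4 * (g 1 * g 0) * (g 4 * g 4) := by rw [(hg 4).2, mul_one]
      _ = (g 4 * (g 1 * g 0) * g 4) * g 4 := by simp only [mul_assoc]
      _ = -(g 1 * g 0 * g 4) := by rw [e2, neg_mul]
  · change g 5 * g 6 * (g 1 * g 0) = g 1 * g 0 * (g 1 * g 0) * (g 5 * g 6)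
    have e1 : g 5 * g 6 * (g 1 * g 0) * (g 6 * g 5) * (g 0 * g 1) * (g 0 * g 1) = 1 := by
      rw [← w4]; simp only [mul_assoc]
    have e2 : g 5 * g 6 * (g 1 * g 0) * (g 6 * g 5) = g 1 * g 0 * (g 1 * g 0) := by
      calc g 5 * g 6 * (g 1 * g 0) * (g 6 * g 5)
          = g 5 * g 6 * (g 1 * g 0) * (g 6 * g 5) * (g 0 * g 1 * ((g 0 * g 1) * (g 1 * g 0)) *
            (g 1 * g 0)) := by rw [hUs', mul_one, hUs', mul_one]
        _ = (g 5 * g 6 * (g 1 * g 0) * (g 6 * g 5) * (g 0 * g 1) * (g 0 * g 1)) *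
            ((g 1 * g 0) * (g 1 * g 0)) := by simp only [mul_assoc]
        _ = _ := by rw [e1, one_mul]
    have e3 : g 6 * g 5 * (g 5 * g 6) = 1 := by
      rw [mul_assoc, ← mul_assoc (g 5), (hg 5).2, one_mul, (hg 6).2]
    calc g 5 * g 6 * (g 1 * g 0) = g 5 * g 6 * (g 1 * g 0) * ((g 6 * g 5) * (g 5 * g 6)) := by
          rw [e3, mul_one]
      _ = (g 5 * g 6 * (g 1 * g 0) * (g 6 * g 5)) * (g 5 * g 6) := by simp only [mul_assoc]
      _ = _ := by rw [e2]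

end Pool.Agent.H469R2.NL
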