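import Mathlib
import Pool.Agent.H469R2.NL.Defs

set_option autoImplicit false

namespace Pool.Agent.H469R2.NL

theorem sh_some_apply {D : Type} [DecidableEq D] (d e : D) :
    sh (some d) e = if e = d then 1 else 0 := by
  simp [sh, Pi.single_apply]

theorem sh_none_apply {D : Type} [DecidableEq D] (e : D) :
    sh (none : Option D) e = 0 := rfl

/-- weight: which `some d` are in the multiset -/
theorem t_SH : S_SH := by
  intro D _ i j k l hij h
  have hp : ∀ e : D, sh i e + sh j e = sh k e + sh l e := fun e => congrFun h e
  have h2 : (1 : ZMod 2) + 1 = 0 := by decide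
  have h1 : (1 : ZMod 2) ≠ 0 := by decide
  rcases i with _ | i <;> rcases j with _ | j <;> rcases k with _ | k <;> rcases l with _ | l
  all_goals simp only [sh_some_apply, sh_none_apply, zero_add, add_zero] at hp
  · exact absurd rfl hij
  · exact absurd rfl hij
  · exact absurd rfl hij
  · exact absurd rfl hij
  · have := hp j
    simp at this
  · left
    have := hp j
    simp only [if_true] at this
    by_cases hjl : j = l
    · exact ⟨rfl, by rw [hjl]⟩
    · simp [hjl] at this
  · right
    have := hp j
    by_cases hjl : j = k
    · exact ⟨by rw [hjl], rfl⟩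
    · simp [hjl] at this
  · exfalso
    have a1 := hp j
    have a2 := hp k
    have a3 := hp l
    by_cases hkl : k = l
    · subst hkl
      by_cases hjk : j = k
      · subst hjk; simp [h2] at a1
      · simp [hjk] at a1
    · by_cases hjk : j = k
      · subst hjk; simp [hkl, Ne.symm hkl] at a3
      · by_cases hjl : j = l
        · subst hjl; simp [hkl, hjk] at a2
        · simp [hjk, hjl] at a1
  · have := hp i
    simp at this
  · right
    have := hp i
    by_cases hjl : i = l
    · exact ⟨rfl, by rw [hjl]⟩
    · simp [hjl] at this
  · left
    have := hp i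
    by_cases hjl : i = k
    · exact ⟨by rw [hjl], rfl⟩
    · simp [hjl] at this
  · exfalso
    have a1 := hp i
    have a2 := hp k
    have a3 := hp l
    by_cases hkl : k = l
    · subst hkl
      by_cases hjk : i = k
      · subst hjk; simp [h2] at a1
      · simp [hjk] at a1
    · by_cases hjk : i = k
      · subst hjk; simp [hkl, Ne.symm hkl] at a3
      · by_cases hjl : i = l
        · subst hjl; simp [hkl, hjk] at a2
        · simp [hjk, hjl] at a1
  · exfalso
    have hne : i ≠ j := fun e => hij (by rw [e])
    have a1 := hp i
    simp [hne] at a1
  · exfalso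
    have hne : i ≠ j := fun e => hij (by rw [e])
    have a1 := hp i
    have a2 := hp j
    by_cases hil : i = l
    · subst hil; simp [hne, Ne.symm hne] at a2
    · simp [hne, hil] at a1
  · exfalso
    have hne : i ≠ j := fun e => hij (by rw [e])
    have a1 := hp i
    have a2 := hp j
    by_cases hil : i = k
    · subst hil; simp [hne, Ne.symm hne] at a2
    · simp [hne, hil] at a1
  · have hne : i ≠ j := fun e => hij (by rw [e])
    have a1 := hp i
    have a2 := hp j
    by_cases hik : i = k
    · subst hik
      by_cases hjl : j = l
      · subst hjl; left; exact ⟨rfl, rfl⟩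
      · exfalso; simp [Ne.symm hne, hjl] at a2
    · by_cases hil : i = l
      · subst hil
        by_cases hjk : j = k
        · subst hjk; right; exact ⟨rfl, rfl⟩
        · exfalso; simp [Ne.symm hne, hjk] at a2
      · exfalso; simp [hne, hik, hil] at a1

end Pool.Agent.H469R2.NL
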