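import Pool.Agent.H469R2.NL.Defs

set_option autoImplicit false
set_option linter.unusedSectionVars false

open scoped InnerProductSpace Topology ComplexOrder BoundedContinuousFunction
open Filter Pool.Agent.Helper278 Pool.Agent.Helper436.SM

namespace Pool.Agent.H469R2.NL

namespace TSPEC

variable {H : Type} [NormedAddCommGroup H] [InnerProductSpace ℂ H] [CompleteSpace H]
  {N : VonNeumannAlgebra H}

/-- comparison of 2-norms from a vectorwise comparison -/
theorem n2_le_of (T : TracialState N) (x y : Elt N) (c : ℝ) (hc : 0 ≤ c)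
    (h : ∀ ζ : H, ‖(x : H →L[ℂ] H) ζ‖ ≤ c * ‖(y : H →L[ℂ] H) ζ‖) :
    n2 T.τ x ≤ c * n2 T.τ y := by
  obtain ⟨ξ, hξ, hT⟩ := T.normal
  unfold n2
  rw [tau_star_mul T ξ hξ hT, tau_star_mul T ξ hξ hT, Complex.ofReal_re, Complex.ofReal_re]
  rw [← Real.sqrt_sq hc, ← Real.sqrt_mul (sq_nonneg _)]
  refine Real.sqrt_le_sqrt ?_
  rw [← tsum_mul_left]
  refine Summable.tsum_le_tsum ?_ (summable_norm_apply ξ hξ _)
    ((summable_norm_apply ξ hξ _).mul_left _)
  intro k
  rw [← mul_pow]
  exact pow_le_pow_left₀ (norm_nonneg _) (h _) 2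

/-- the norm of a projection is at most one -/
theorem norm_proj_le (e : Elt N) (h1 : star e = e) (h2 : e * e = e) :
    ‖(e : H →L[ℂ] H)‖ ≤ 1 := by
  have h3 : star (e : H →L[ℂ] H) * (e : H →L[ℂ] H) = (e : H →L[ℂ] H) := by
    have h4 : star e * e = e := by rw [h1, h2]
    have := congrArg (fun z : Elt N => (z : H →L[ℂ] H)) h4
    exact this
  have h5 := CStarRing.norm_star_mul_self (x := (e : H →L[ℂ] H))
  rw [h3] at h5
  by_contra hcon
  push Not at hcon
  nlinarith

theorem mul_apply (x y : Elt N) (ζ : H) :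
    ((x * y : Elt N) : H →L[ℂ] H) ζ = (x : H →L[ℂ] H) ((y : H →L[ℂ] H) ζ) := rfl

theorem sub_apply (x y : Elt N) (ζ : H) :
    ((x - y : Elt N) : H →L[ℂ] H) ζ = (x : H →L[ℂ] H) ζ - (y : H →L[ℂ] H) ζ := rfl

theorem one_apply (ζ : H) : ((1 : Elt N) : H →L[ℂ] H) ζ = ζ := rfl

theorem zero_apply (ζ : H) : ((0 : Elt N) : H →L[ℂ] H) ζ = 0 := rfl

theorem smul_apply (c : ℂ) (x : Elt N) (ζ : H) :
    ((c • x : Elt N) : H →L[ℂ] H) ζ = c • (x : H →L[ℂ] H) ζ := rfl

/-- spectral projections are monotone -/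
theorem mono_aux (h e f : Elt N) (c d : ℝ) (hcd : c < d)
    (hef : e * f = f * e)
    (he0 : ∀ ζ : H, (e : H →L[ℂ] H) ζ = 0 → (⟪ζ, (h : H →L[ℂ] H) ζ⟫_ℂ).re ≤ c * ‖ζ‖ ^ 2)
    (hf1 : ∀ ζ : H, (f : H →L[ℂ] H) ζ = ζ → d * ‖ζ‖ ^ 2 ≤ (⟪ζ, (h : H →L[ℂ] H) ζ⟫_ℂ).re)
    (he2 : e * e = e) (hf2 : f * f = f) : e * f = f := by
  have key : (1 - e) * f = 0 := by
    apply Subtype.ext
    ext η
    have h1 : (e : H →L[ℂ] H) ((((1 - e) * f : Elt N) : H →L[ℂ] H) η) = 0 := by
      rw [← mul_apply]
      have : e * ((1 - e) * f) = 0 := by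
        rw [← mul_assoc, mul_sub, he2, mul_one, sub_self, zero_mul]
      rw [this]
      rfl
    have h2 : (f : H →L[ℂ] H) ((((1 - e) * f : Elt N) : H →L[ℂ] H) η) =
        (((1 - e) * f : Elt N) : H →L[ℂ] H) η := by
      rw [← mul_apply]
      have : f * ((1 - e) * f) = (1 - e) * f := by
        have e1 : f * ((1 - e) * f) = f * f - (f * e) * f := by noncomm_ring
        rw [e1, ← hef, mul_assoc, hf2, sub_mul, one_mul]
      rw [this]
    have h3 := he0 _ h1
    have h4 := hf1 _ h2
    have h5 : ‖(((1 - e) * f : Elt N) : H →L[ℂ] H) η‖ ^ 2 ≤ 0 := by nlinarith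
    have h6 : ‖(((1 - e) * f : Elt N) : H →L[ℂ] H) η‖ = 0 := by
      have := sq_nonneg ‖(((1 - e) * f : Elt N) : H →L[ℂ] H) η‖
      have h7 := le_antisymm h5 this
      exact pow_eq_zero_iff (two_ne_zero) |>.1 h7
    exact norm_eq_zero.1 h6
  have h8 : (1 - e) * f = f - e * f := by rw [sub_mul, one_mul]
  rw [h8] at key
  exact (sub_eq_zero.1 key).symm

/-- lower bound for `h - x` from the quadratic form -/
theorem low_aux (h : Elt N) (x g : ℝ) (ζ : H)
    (hq : g * ‖ζ‖ ^ 2 ≤ |(⟪ζ, (h : H →L[ℂ] H) ζ⟫_ℂ).re - x * ‖ζ‖ ^ 2|) :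
    g * ‖ζ‖ ≤ ‖((h - (x : ℂ) • (1 : Elt N) : Elt N) : H →L[ℂ] H) ζ‖ := by
  rcases eq_or_ne ζ 0 with rfl | hζ
  · simp
  have hpos : 0 < ‖ζ‖ := norm_pos_iff.2 hζ
  have h1 : (⟪ζ, ((h - (x : ℂ) • (1 : Elt N) : Elt N) : H →L[ℂ] H) ζ⟫_ℂ).re =
      (⟪ζ, (h : H →L[ℂ] H) ζ⟫_ℂ).re - x * ‖ζ‖ ^ 2 := by
    rw [sub_apply, smul_apply, one_apply, inner_sub_right, inner_smul_right,
      inner_self_eq_norm_sq_to_K, Complex.sub_re]
    congr 1
    rw [Complex.re_ofReal_mul]
    congr 1
    norm_cast
  have h2 : |(⟪ζ, ((h - (x : ℂ) • (1 : Elt N) : Elt N) : H →L[ℂ] H) ζ⟫_ℂ).re| ≤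
      ‖ζ‖ * ‖((h - (x : ℂ) • (1 : Elt N) : Elt N) : H →L[ℂ] H) ζ‖ :=
    (Complex.abs_re_le_norm _).trans (norm_inner_le_norm _ _)
  rw [h1] at h2
  have h3 : ‖ζ‖ * (g * ‖ζ‖) ≤
      ‖ζ‖ * ‖((h - (x : ℂ) • (1 : Elt N) : Elt N) : H →L[ℂ] H) ζ‖ := by
    calc ‖ζ‖ * (g * ‖ζ‖) = g * ‖ζ‖ ^ 2 := by ring
      _ ≤ _ := hq.trans h2
  exact le_of_mul_le_mul_left h3 hpos

theorem wstar_sub (T : TracialState N) (a x y : Elt N) (hx : x ∈ wstar T.τ a)
    (hy : y ∈ wstar T.τ a) : x - y ∈ wstar T.τ a := by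
  intro ε hε
  obtain ⟨x', hx', h1⟩ := hx (ε / 2) (by positivity)
  obtain ⟨y', hy', h2⟩ := hy (ε / 2) (by positivity)
  refine ⟨x' - y', sub_mem hx' hy', ?_⟩
  have h3 : norm2 T.τ (x - y - (x' - y')) ≤ norm2 T.τ (x - x') + norm2 T.τ (y - y') := by
    have e1 : x - y - (x' - y') = (x - x') - (y - y') := by abel
    rw [e1]
    exact (trAlg T).n2_sub_le _ _
  linarith

theorem wstar_of_adjoin (T : TracialState N) (a x : Elt N)
    (hx : x ∈ StarAlgebra.adjoin ℂ ({a} : Set (Elt N))) : x ∈ wstar T.τ a := by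
  intro ε hε
  refine ⟨x, hx, ?_⟩
  have : norm2 T.τ (x - x) = 0 := by
    rw [sub_self]
    exact (trAlg T).n2_zero
  rw [this]
  exact hε

theorem wstar_mono (T : TracialState N) (a b : Elt N)
    (hb : b ∈ StarAlgebra.adjoin ℂ ({a} : Set (Elt N))) : wstar T.τ b ⊆ wstar T.τ a := by
  intro x hx ε hε
  obtain ⟨y, hy, h1⟩ := hx ε hε
  refine ⟨y, ?_, h1⟩
  have : StarAlgebra.adjoin ℂ ({b} : Set (Elt N)) ≤ StarAlgebra.adjoin ℂ ({a} : Set (Elt N)) :=
    StarAlgebra.adjoin_le (Set.singleton_subset_iff.2 hb)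
  exact this hy

theorem n2_sum_le (T : TracialState N) {ι : Type*} (s : Finset ι) (f : ι → Elt N) :
    n2 T.τ (∑ i ∈ s, f i) ≤ ∑ i ∈ s, n2 T.τ (f i) := by
  classical
  induction s using Finset.induction_on with
  | empty => simp [(trAlg T).n2_zero]
  | insert a s ha ih =>
    rw [Finset.sum_insert ha, Finset.sum_insert ha]
    exact ((trAlg T).n2_add_le _ _).trans (by linarith)

theorem n2_smul (T : TracialState N) (c : ℝ) (hc : 0 ≤ c) (x : Elt N) :
    n2 T.τ ((c : ℂ) • x) ≤ c * n2 T.τ x := by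
  apply n2_le_of T _ _ c hc
  intro ζ
  rw [smul_apply, norm_smul, Complex.norm_real, Real.norm_of_nonneg hc]

end TSPEC

open TSPEC in
theorem t_SPEC (hS : S_SPR) : S_SPEC := by
  intro ι _ _
  classical
  set m : ℕ := Fintype.card ι with hm
  have hm0 : 0 < m := Fintype.card_pos
  let q : ι ≃ Fin m := Fintype.equivFin ι
  -- the points
  let X : ℕ → ℝ := fun k => ((k : ℝ) + 1) / (m + 1)
  let t : ℕ → ℝ := fun k => ((k : ℝ) + 1 / 2) / (m + 1)
  have hmp : (0 : ℝ) < (m : ℝ) + 1 := by positivity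
  have hX0 : ∀ k, 0 < X k := fun k => by positivity
  have hX1 : ∀ k, k < m → X k < 1 := by
    intro k hk
    show ((k : ℝ) + 1) / (m + 1) < 1
    rw [div_lt_one hmp]
    have : (k : ℝ) < m := by exact_mod_cast hk
    linarith
  let lamN : ℕ → ℂ := fun k => (X k : ℂ) + (Real.sqrt (1 - X k ^ 2) : ℂ) * Complex.I
  have hre : ∀ k, (lamN k).re = X k := by
    intro k
    simp [lamN]
  have him : ∀ k, (lamN k).im = Real.sqrt (1 - X k ^ 2) := by
    intro k
    simp [lamN]
  have hXinj : ∀ k l, X k = X l → k = l := by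
    intro k l hkl
    have h1 : ((k : ℝ) + 1) / (m + 1) = ((l : ℝ) + 1) / (m + 1) := hkl
    rw [div_left_inj' hmp.ne'] at h1
    have h2 : (k : ℝ) = l := by linarith
    exact_mod_cast h2
  let g : ℝ := 1 / (2 * ((m : ℝ) + 1))
  have hg : 0 < g := by positivity
  refine ⟨fun i => lamN (q i), 2 * m * g⁻¹, ?_, ?_, by positivity, ?_⟩
  · intro i
    have h1 : ‖lamN (q i)‖ ^ 2 = 1 := by
      rw [← Complex.normSq_eq_norm_sq, Complex.normSq_apply, hre, him,
        Real.mul_self_sqrt]
      · ring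
      · have h2 := hX0 (q i)
        have h3 := hX1 (q i) (q i).2
        nlinarith
    have h2 := norm_nonneg (lamN (q i))
    nlinarith
  · intro i j hij
    have h1 : X (q i) = X (q j) := by
      have := congrArg Complex.re hij
      simpa [hre] using this
    have h2 := hXinj _ _ h1
    exact q.injective (Fin.ext h2)
  · intro H _ _ _ N T u hu
    set h : Elt N := (1 / 2 : ℂ) • (u + star u) with hh
    have hsa : star h = h := by
      rw [hh, star_smul, star_add, star_star, add_comm (star u)]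
      congr 1
      simp
    have hadj : h ∈ StarAlgebra.adjoin ℂ ({u} : Set (Elt N)) := by
      have h1 : u ∈ StarAlgebra.adjoin ℂ ({u} : Set (Elt N)) :=
        StarAlgebra.subset_adjoin ℂ _ (Set.mem_singleton u)
      exact SMulMemClass.smul_mem _ (add_mem h1 (star_mem h1))
    have hS' := hS H N T h hsa
    choose e he1 he2 he3 he4 he5 he6 using hS'
    let E : ℕ → Elt N := fun k => if k = 0 then 1 else if k < m then e (t k) else 0
    have hE0 : E 0 = 1 := by simp [E]
    have hEm : ∀ k, m ≤ k → E k = 0 := by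
      intro k hk
      have h1 : k ≠ 0 := by omega
      have h2 : ¬ k < m := by omega
      simp [E, h1, h2]
    have hEe : ∀ k, k ≠ 0 → k < m → E k = e (t k) := by
      intro k h1 h2
      simp [E, h1, h2]
    have hcase : ∀ k, (k = 0 ∧ E k = 1) ∨ (k ≠ 0 ∧ k < m ∧ E k = e (t k)) ∨
        (m ≤ k ∧ E k = 0) := by
      intro k
      rcases eq_or_ne k 0 with rfl | h1
      · exact Or.inl ⟨rfl, hE0⟩
      · rcases lt_or_ge k m with h2 | h2
        · exact Or.inr (Or.inl ⟨h1, h2, hEe k h1 h2⟩)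
        · exact Or.inr (Or.inr ⟨h2, hEm k h2⟩)
    have hEs : ∀ k, star (E k) = E k := by
      intro k
      rcases hcase k with ⟨_, h1⟩ | ⟨_, _, h1⟩ | ⟨_, h1⟩ <;> rw [h1]
      · exact star_one _
      · exact he1 _
      · exact star_zero _
    have hEi : ∀ k, E k * E k = E k := by
      intro k
      rcases hcase k with ⟨_, h1⟩ | ⟨_, _, h1⟩ | ⟨_, h1⟩ <;> rw [h1]
      · exact mul_one _
      · exact he2 _
      · exact mul_zero _
    have hEh : ∀ k, E k * h = h * E k := by
      intro k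
      rcases hcase k with ⟨_, h1⟩ | ⟨_, _, h1⟩ | ⟨_, h1⟩ <;> rw [h1]
      · rw [one_mul, mul_one]
      · exact (he3 _ h rfl).symm
      · rw [zero_mul, mul_zero]
    have hEw : ∀ k, E k ∈ wstar T.τ u := by
      intro k
      rcases hcase k with ⟨_, h1⟩ | ⟨_, _, h1⟩ | ⟨_, h1⟩ <;> rw [h1]
      · exact wstar_of_adjoin T u 1 (one_mem _)
      · exact wstar_mono T u h hadj (he4 _)
      · exact wstar_of_adjoin T u 0 (zero_mem _)
    have ht : ∀ j k, j < k → t j < t k := by
      intro j k hjk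
      show ((j : ℝ) + 1 / 2) / (m + 1) < ((k : ℝ) + 1 / 2) / (m + 1)
      have : (j : ℝ) < k := by exact_mod_cast hjk
      exact div_lt_div_of_pos_right (by linarith) hmp
    have hEm1 : ∀ j k, j ≤ k → E j * E k = E k := by
      intro j k hjk
      rcases eq_or_lt_of_le hjk with rfl | hlt
      · exact hEi _
      rcases hcase j with ⟨_, h1⟩ | ⟨hj0, hj1, h1⟩ | ⟨hj, h1⟩
      · rw [h1, one_mul]
      · rcases hcase k with ⟨hk, h2⟩ | ⟨_, _, h2⟩ | ⟨_, h2⟩
        · omega
        · rw [h1, h2]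
          refine mono_aux h (e (t j)) (e (t k)) (t j) (t k) (ht j k hlt) ?_ (he6 _) (he5 _)
            (he2 _) (he2 _)
          have h3 : e (t j) * h = h * e (t j) := (he3 _ h rfl).symm
          exact he3 (t k) (e (t j)) h3
        · rw [h2, mul_zero]
      · rw [hEm k (by omega), mul_zero]
    have hEm2 : ∀ j k, j ≤ k → E k * E j = E k := by
      intro j k hjk
      have h1 := congrArg star (hEm1 j k hjk)
      rw [star_mul, hEs, hEs] at h1
      exact h1
    let p : Fin m → Elt N := fun i => E i - E (i + 1)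
    have hps : ∀ i, star (p i) = p i := by
      intro i
      show star (E i - E (i + 1)) = _
      rw [star_sub, hEs, hEs]
    have hpi : ∀ i, p i * p i = p i := by
      intro i
      show (E i - E (i + 1)) * (E i - E (i + 1)) = E i - E (i + 1)
      rw [sub_mul, mul_sub, mul_sub, hEi, hEi, hEm1 _ _ (Nat.le_succ _), hEm2 _ _ (Nat.le_succ _)]
      abel
    have hpo' : ∀ i j : Fin m, i < j → p i * p j = 0 := by
      intro i j hij
      have hij' : (i : ℕ) + 1 ≤ j := hij
      show (E i - E (i + 1)) * (E j - E (j + 1)) = 0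
      rw [sub_mul, mul_sub, mul_sub, hEm1 _ _ (by omega), hEm1 _ _ (by omega),
        hEm1 _ _ (by omega), hEm1 _ _ (by omega)]
      abel
    have hpo : ∀ i j : Fin m, i ≠ j → p i * p j = 0 := by
      intro i j hij
      rcases lt_or_gt_of_ne hij with h1 | h1
      · exact hpo' i j h1
      · have h2 := congrArg star (hpo' j i h1)
        rw [star_mul, hps, hps, star_zero] at h2
        exact h2
    have hpsum : ∑ i, p i = 1 := by
      have h1 : ∑ i : Fin m, p i = ∑ i ∈ Finset.range m, (E i - E (i + 1)) :=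
        Fin.sum_univ_eq_sum_range (fun i => E i - E (i + 1)) m
      rw [h1, Finset.sum_range_sub', hE0, hEm m le_rfl, sub_zero]
    have hph : ∀ i, p i * h = h * p i := by
      intro i
      show (E i - E (i + 1)) * h = h * (E i - E (i + 1))
      rw [sub_mul, mul_sub, hEh, hEh]
    refine ⟨fun i => p (q i), ⟨fun i => hps _, fun i => hpi _, ?_, ?_⟩, ?_, ?_⟩
    · intro i j hij
      exact hpo _ _ (fun h1 => hij (q.injective h1))
    · rw [← hpsum]
      exact Equiv.sum_comp q p
    · intro i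
      exact wstar_sub T u _ _ (hEw _) (hEw _)
    · intro r hr
      -- transport r
      let r' : Fin m → Elt N := fun i => r (q.symm i)
      have hrs : ∀ i, star (r' i) = r' i := fun i => hr.sa _
      have hri : ∀ i, r' i * r' i = r' i := fun i => hr.idem _
      have hro : ∀ i j, i ≠ j → r' i * r' j = 0 :=
        fun i j hij => hr.orth _ _ (fun h1 => hij (q.symm.injective h1))
      have hrsum : ∑ i, r' i = 1 := by
        rw [← hr.sum]
        exact Equiv.sum_comp q.symm r
      set u0 : Elt N := ∑ i : ι, lamN (q i) • r i with hu0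
      have hu0' : u0 = ∑ i : Fin m, lamN i • r' i := by
        rw [hu0, ← Equiv.sum_comp q.symm]
        refine Finset.sum_congr rfl fun i _ => ?_
        rw [Equiv.apply_symm_apply]
      set h0 : Elt N := (1 / 2 : ℂ) • (u0 + star u0) with hh0
      have hh0' : h0 = ∑ i : Fin m, (X i : ℂ) • r' i := by
        rw [hh0, hu0', star_sum, ← Finset.sum_add_distrib, Finset.smul_sum]
        refine Finset.sum_congr rfl fun i _ => ?_
        rw [star_smul, hrs, ← add_smul, smul_smul]
        congr 1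
        rw [Complex.star_def, Complex.add_conj, hre]
        push_cast
        ring
      have hh0r : ∀ j, h0 * r' j = (X j : ℂ) • r' j := by
        intro j
        rw [hh0', Finset.sum_mul, Finset.sum_eq_single j]
        · rw [smul_mul_assoc, hri]
        · intro b _ hb
          rw [smul_mul_assoc, hro b j hb, smul_zero]
        · intro hj
          exact absurd (Finset.mem_univ j) hj
      have hn0 : n2 T.τ (h - h0) ≤ n2 T.τ (u - u0) := by
        have e1 : h - h0 = ((1 / 2 : ℝ) : ℂ) • ((u - u0) + star (u - u0)) := by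
          rw [hh, hh0, ← smul_sub, star_sub]
          congr 1
          · push_cast; rfl
          · abel
        rw [e1]
        refine (n2_smul T (1 / 2) (by norm_num) _).trans ?_
        have h1 := (trAlg T).n2_add_le (u - u0) (star (u - u0))
        rw [(trAlg T).n2_star] at h1
        linarith
      have hpr : ∀ i j : Fin m, i ≠ j → n2 T.τ (p i * r' j) ≤ g⁻¹ * n2 T.τ (u - u0) := by
        intro i j hij
        -- vector estimate
        have hvec : ∀ ζ : H, (p i : H →L[ℂ] H) ζ = ζ →
            g * ‖ζ‖ ≤ ‖((h - ((X j : ℝ) : ℂ) • (1 : Elt N) : Elt N) : H →L[ℂ] H) ζ‖ := by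
          intro ζ hζ
          apply low_aux
          rcases lt_or_gt_of_ne hij with h1 | h1
          · -- i < j
            have h1' : (i : ℕ) < j := h1
            have hj := j.2
            have h2 : (e (t (i + 1)) : H →L[ℂ] H) ζ = 0 := by
              rw [← hEe (i + 1) (by omega) (by omega), ← hζ, ← mul_apply]
              have h3 : E (i + 1) * p i = 0 := by
                show E (i + 1) * (E i - E (i + 1)) = 0
                rw [mul_sub, hEm2 _ _ (Nat.le_succ _), hEi, sub_self]
              rw [h3]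
              rfl
            have h4 := he6 _ _ h2
            have h5 : t (i + 1) + g ≤ X j := by
              show (((i : ℕ) + 1 : ℕ) + 1 / 2 : ℝ) / (m + 1) + 1 / (2 * ((m : ℝ) + 1)) ≤
                ((j : ℕ) + 1 : ℝ) / (m + 1)
              rw [div_add_div _ _ hmp.ne' (by positivity), div_le_div_iff₀ (by positivity) hmp]
              have h6 : ((i : ℕ) : ℝ) + 1 ≤ (j : ℕ) := by exact_mod_cast h1'
              push_cast
              have h7 : 0 < ((m : ℝ) + 1) * (((m : ℝ) + 1)) := by positivity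
              nlinarith
            have h8 : g * ‖ζ‖ ^ 2 ≤ X j * ‖ζ‖ ^ 2 - (⟪ζ, (h : H →L[ℂ] H) ζ⟫_ℂ).re := by
              nlinarith [sq_nonneg ‖ζ‖]
            rw [abs_sub_comm]
            exact h8.trans (le_abs_self _)
          · -- j < i
            have h1' : (j : ℕ) < i := h1
            have hi := i.2
            have h2 : (e (t i) : H →L[ℂ] H) ζ = ζ := by
              rw [← hEe i (by omega) (by omega)]
              conv_lhs => rw [← hζ]
              rw [← mul_apply]
              have h3 : E i * p i = p i := by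
                show E i * (E i - E (i + 1)) = E i - E (i + 1)
                rw [mul_sub, hEi, hEm1 _ _ (Nat.le_succ _)]
              rw [h3, hζ]
            have h4 := he5 _ _ h2
            have h5 : X j + g ≤ t i := by
              show ((j : ℕ) + 1 : ℝ) / (m + 1) + 1 / (2 * ((m : ℝ) + 1)) ≤
                (((i : ℕ) : ℝ) + 1 / 2) / (m + 1)
              rw [div_add_div _ _ hmp.ne' (by positivity), div_le_div_iff₀ (by positivity) hmp]
              have h6 : ((j : ℕ) : ℝ) + 1 ≤ (i : ℕ) := by exact_mod_cast h1'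
              have h7 : 0 < ((m : ℝ) + 1) * (((m : ℝ) + 1)) := by positivity
              nlinarith
            have h8 : g * ‖ζ‖ ^ 2 ≤ (⟪ζ, (h : H →L[ℂ] H) ζ⟫_ℂ).re - X j * ‖ζ‖ ^ 2 := by
              nlinarith [sq_nonneg ‖ζ‖]
            exact h8.trans (le_abs_self _)
        have hA : n2 T.τ (p i * r' j) ≤
            g⁻¹ * n2 T.τ ((h - ((X j : ℝ) : ℂ) • (1 : Elt N)) * (p i * r' j)) := by
          apply n2_le_of T _ _ _ (by positivity)
          intro ζ
          rw [mul_apply (h - ((X j : ℝ) : ℂ) • (1 : Elt N))]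
          have h1 := hvec ((((p i * r' j : Elt N)) : H →L[ℂ] H) ζ) (by
            rw [← mul_apply, ← mul_assoc, hpi])
          rw [inv_mul_eq_div, le_div_iff₀ hg, mul_comm]
          exact h1
        have hB : (h - ((X j : ℝ) : ℂ) • (1 : Elt N)) * (p i * r' j) = p i * (h - h0) * r' j := by
          have e1 : (h - ((X j : ℝ) : ℂ) • (1 : Elt N)) * (p i * r' j) =
              h * p i * r' j - ((X j : ℝ) : ℂ) • (p i * r' j) := by
            rw [sub_mul (a := h), smul_mul_assoc (((X j : ℝ) : ℂ)) (1 : Elt N), one_mul,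
              mul_assoc h]
          have e2 : p i * (h - h0) * r' j = p i * h * r' j - p i * (h0 * r' j) := by
            rw [mul_sub (p i), sub_mul (p i * h), mul_assoc (p i) h0]
          rw [e1, e2, hh0r, hph, mul_smul_comm (((X j : ℝ) : ℂ)) (p i) (r' j)]
        have hC : n2 T.τ (p i * (h - h0) * r' j) ≤ n2 T.τ (h - h0) := by
          refine (n2_mul_le' T _ (r' j)).trans ?_
          have h1 := TSPEC.norm_proj_le (r' j) (hrs j) (hri j)
          have h2 := TSPEC.norm_proj_le (p i) (hps i) (hpi i)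
          have h3 := n2_mul_le T (p i) (h - h0)
          have h4 := n2_nonneg T.τ (h - h0)
          have h5 := n2_nonneg T.τ (p i * (h - h0))
          have h6 : n2 T.τ (p i * (h - h0)) ≤ n2 T.τ (h - h0) :=
            h3.trans (mul_le_of_le_one_left h4 h2)
          exact (mul_le_of_le_one_left h5 h1).trans h6
        rw [hB] at hA
        refine hA.trans ?_
        exact mul_le_mul_of_nonneg_left (hC.trans hn0) (by positivity)
      intro i
      have hdiff : p (q i) - r i =
          ∑ j ∈ Finset.univ.erase (q i), (p (q i) * r' j - p j * r' (q i)) := by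
        have h1 : ∑ j, (p (q i) * r' j - p j * r' (q i)) = p (q i) - r i := by
          rw [Finset.sum_sub_distrib, ← Finset.mul_sum, ← Finset.sum_mul, hrsum, hpsum,
            mul_one, one_mul]
          show p (q i) - r (q.symm (q i)) = _
          rw [Equiv.symm_apply_apply]
        rw [← h1, ← Finset.add_sum_erase _ _ (Finset.mem_univ (q i)), sub_self, zero_add]
      rw [hdiff]
      refine (n2_sum_le T _ _).trans ?_
      have hb : ∀ j ∈ Finset.univ.erase (q i), n2 T.τ (p (q i) * r' j - p j * r' (q i)) ≤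
          2 * (g⁻¹ * n2 T.τ (u - u0)) := by
        intro j hj
        have hne : j ≠ q i := (Finset.mem_erase.1 hj).1
        have h1 := hpr (q i) j hne.symm
        have h2 := hpr j (q i) hne
        have h3 := (trAlg T).n2_sub_le (p (q i) * r' j) (p j * r' (q i))
        linarith
      refine (Finset.sum_le_card_nsmul _ _ _ hb).trans ?_
      rw [nsmul_eq_mul]
      have hcard : ((Finset.univ.erase (q i)).card : ℝ) ≤ m := by
        have : (Finset.univ.erase (q i)).card ≤ m := by
          refine (Finset.card_le_univ _).trans ?_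
          rw [Fintype.card_fin]
        exact_mod_cast this
      have h9 : 0 ≤ 2 * (g⁻¹ * n2 T.τ (u - u0)) := by
        have := n2_nonneg T.τ (u - u0)
        positivity
      calc ((Finset.univ.erase (q i)).card : ℝ) * (2 * (g⁻¹ * n2 T.τ (u - u0)))
          ≤ m * (2 * (g⁻¹ * n2 T.τ (u - u0))) := mul_le_mul_of_nonneg_right hcard h9
        _ = 2 * m * g⁻¹ * n2 T.τ (u - u0) := by ring

end Pool.Agent.H469R2.NL
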