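import Pool.Agent.H469R2.NL.Defs
import Pool.Agent.H711R2.Tr4

set_option autoImplicit false

open scoped InnerProductSpace Topology ComplexOrder BoundedContinuousFunction
open Filter Pool.Agent.Helper278 Pool.Agent.Helper436.SM

namespace Pool.Agent.H469R2.NL

open Pool.H711R2

variable {H : Type} [NormedAddCommGroup H] [InnerProductSpace ℂ H] [CompleteSpace H]

lemma kp_smul {c : ℂ} (hc : c ≠ 0) (x : H →L[ℂ] H) : kp (c • x) = kp x := by
  have : (c • x).ker = x.ker := by
    ext v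
    simp [hc]
  unfold kp
  congr 1

/-- an operator commuting with a selfadjoint operator commutes with its kernel projection -/
lemma commute_kp_sa {X y : H →L[ℂ] H} (hX : IsSelfAdjoint X) (h : y * X = X * y) :
    y * kp X = kp X * y := by
  have h1 : y * kp X = kp X * (y * kp X) := by
    ext v
    have : X (y (kp X v)) = 0 := by
      have h2 := congrArg (fun z : H →L[ℂ] H => z (kp X v)) h
      simp only [mul_apply_eq_comp] at h2
      rw [← h2, kp_apply_mem, map_zero]
    simpa using (kp_apply_of_ker X this).symm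
  have hs : star y * X = X * star y := by
    have := congrArg star h
    simp only [star_mul, hX.star_eq] at this
    exact this.symm
  have h3 : star y * kp X = kp X * (star y * kp X) := by
    ext v
    have : X (star y (kp X v)) = 0 := by
      have h2 := congrArg (fun z : H →L[ℂ] H => z (kp X v)) hs
      simp only [mul_apply_eq_comp] at h2
      rw [← h2, kp_apply_mem, map_zero]
    simpa using (kp_apply_of_ker X this).symm
  have h4 := congrArg star h3
  simp only [star_mul, kp_star, star_star] at h4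
  rw [h1, h4]
  simp only [mul_assoc]

/-- norm approximation by the generated algebra -/
lemma approx_elemental (N : VonNeumannAlgebra H) (h : Elt N) (Z : H →L[ℂ] H)
    (hZ : Z ∈ StarAlgebra.elemental ℂ (h : H →L[ℂ] H)) (ε : ℝ) (hε : 0 < ε) :
    ∃ y ∈ StarAlgebra.adjoin ℂ ({h} : Set (Elt N)), ‖Z - (y : H →L[ℂ] H)‖ < ε := by
  have h1 : Z ∈ closure ((StarAlgebra.adjoin ℂ ({(h : H →L[ℂ] H)} : Set (H →L[ℂ] H)) :
      StarSubalgebra ℂ (H →L[ℂ] H)) : Set (H →L[ℂ] H)) := hZ
  obtain ⟨w, hw, hw2⟩ := Metric.mem_closure_iff.mp h1 ε hε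
  have h2 : StarAlgebra.adjoin ℂ ({(h : H →L[ℂ] H)} : Set (H →L[ℂ] H)) =
      (StarAlgebra.adjoin ℂ ({h} : Set (Elt N))).map N.toStarSubalgebra.subtype := by
    rw [StarAlgHom.map_adjoin]
    simp
  rw [h2] at hw
  obtain ⟨y, hy, rfl⟩ := hw
  refine ⟨y, hy, ?_⟩
  rw [← dist_eq_norm]
  exact hw2

theorem t_SPR : S_SPR := by
  intro H _ _ _ N T h hh c
  classical
  set a : H →L[ℂ] H := (h : H →L[ℂ] H) with ha
  have hsa : IsSelfAdjoint a := congrArg (fun z : Elt N => (z : H →L[ℂ] H)) hh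
  set X : H →L[ℂ] H := cfc (fun t : ℝ => max (c - t) 0) a with hX
  set P : H →L[ℂ] H := cfc (fun t : ℝ => max (t - c) 0) a with hP
  have hX0 : 0 ≤ X := cfc_nonneg (fun t _ => le_max_right _ _)
  have hP0 : 0 ≤ P := cfc_nonneg (fun t _ => le_max_right _ _)
  have hXs : IsSelfAdjoint X := IsSelfAdjoint.of_nonneg hX0
  have hPs : IsSelfAdjoint P := IsSelfAdjoint.of_nonneg hP0
  have hPX : P - X = a - (c : ℂ) • (1 : H →L[ℂ] H) := by
    have e1 : a - (c : ℂ) • (1 : H →L[ℂ] H) = cfc (fun t : ℝ => t - c) a := by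
      rw [cfc_sub (fun t : ℝ => t) (fun _ => c) a, cfc_id' ℝ a, cfc_const _ a,
        Algebra.algebraMap_eq_smul_one]
      rfl
    rw [e1, hX, hP, ← cfc_sub (fun t : ℝ => max (t - c) 0) (fun t : ℝ => max (c - t) 0) a]
    refine cfc_congr fun t _ => ?_
    rcases le_total t c with h1 | h1
    · rw [max_eq_right (by linarith), max_eq_left (by linarith)]; ring
    · rw [max_eq_left (by linarith), max_eq_right (by linarith)]; ring
  have hXP : X * P = 0 := by
    rw [hX, hP, ← cfc_mul (fun t : ℝ => max (c - t) 0) (fun t : ℝ => max (t - c) 0) a]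
    have : cfc (fun t : ℝ => max (c - t) 0 * max (t - c) 0) a = cfc (fun _ : ℝ => (0 : ℝ)) a := by
      refine cfc_congr fun t _ => ?_
      rcases le_total t c with h1 | h1
      · rw [max_eq_right (by linarith : t - c ≤ 0)]; ring
      · rw [max_eq_right (by linarith : c - t ≤ 0)]; ring
    rw [this, cfc_const_zero]
  have hinner : ∀ ζ : H, (⟪ζ, a ζ⟫_ℂ).re = c * ‖ζ‖ ^ 2 + (⟪ζ, P ζ⟫_ℂ).re - (⟪ζ, X ζ⟫_ℂ).re := by
    intro ζ
    have h1 := congrArg (fun z : H →L[ℂ] H => ⟪ζ, z ζ⟫_ℂ) hPX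
    simp only [sub_apply, smul_apply, inner_sub_right,
      one_apply_eq_self, inner_smul_right] at h1
    have h2 := congrArg Complex.re h1
    have h3 : ((c : ℂ) * ⟪ζ, ζ⟫_ℂ).re = c * ‖ζ‖ ^ 2 := by
      have h4 : ⟪ζ, ζ⟫_ℂ = ((‖ζ‖ ^ 2 : ℝ) : ℂ) := by
        rw [inner_self_eq_norm_sq_to_K]; push_cast; rfl
      rw [h4, ← Complex.ofReal_mul, Complex.ofReal_re]
    simp only [Complex.sub_re] at h2
    rw [h3] at h2
    linarith
  have hXm : X ∈ N := cfc_mem_vn h.2 _
  let e : Elt N := ⟨kp X, kp_mem hXm⟩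
  have hpos : ∀ Y : H →L[ℂ] H, 0 ≤ Y → ∀ ζ, 0 ≤ (⟪ζ, Y ζ⟫_ℂ).re := by
    intro Y hY ζ
    have := ((ContinuousLinearMap.nonneg_iff_isPositive Y).1 hY).inner_nonneg_right ζ
    exact (Complex.nonneg_iff.1 this).1
  refine ⟨e, Subtype.ext (kp_star X), Subtype.ext (kp_idem X), ?_, ?_, ?_, ?_⟩
  · intro y hy
    apply Subtype.ext
    have h1 : (y : H →L[ℂ] H) * a = a * y := congrArg (fun z : Elt N => (z : H →L[ℂ] H)) hy
    have h2 : Commute a (y : H →L[ℂ] H) := h1.symm
    exact commute_kp_sa hXs (Commute.cfc_real h2 _).symm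
  · -- e in wstar
    intro ε hε
    obtain ⟨ξ, hξ, hT⟩ := T.normal
    have hA := trAlg T
    set s : ℝ := 1 / (1 + ‖X‖) with hs
    have hs0 : 0 < s := by positivity
    set y : H →L[ℂ] H := (s : ℂ) • X with hy
    have hy1 : ‖y‖ ≤ 1 := by
      rw [hy, norm_smul, Complex.norm_real, Real.norm_eq_abs, abs_of_pos hs0, hs, one_div,
        inv_mul_le_iff₀ (by positivity)]
      linarith
    have hkp : kp y = kp X := kp_smul (by exact_mod_cast hs0.ne') X
    have ha0 : 0 ≤ star y * y := star_mul_self_nonneg y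
    have ha1 : ‖star y * y‖ ≤ 1 := by
      rw [CStarRing.norm_star_mul_self]; nlinarith [norm_nonneg y]
    have hfm : ∀ k : ℕ, (1 - star y * y) ^ k ∈ StarAlgebra.elemental ℂ a := by
      intro k
      have h1 : X ∈ StarAlgebra.elemental ℂ a := by
        have : IsClosed ((StarAlgebra.elemental ℂ a : StarSubalgebra ℂ (H →L[ℂ] H)) :
          Set (H →L[ℂ] H)) := StarAlgebra.elemental.isClosed ℂ a
        exact cfc_mem (𝕜 := ℝ) (𝕜' := ℂ) _ (StarAlgebra.elemental.self_mem ℂ a)
      have h2 : y ∈ StarAlgebra.elemental ℂ a := SMulMemClass.smul_mem _ h1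
      exact pow_mem (sub_mem (one_mem _) (mul_mem (star_mem h2) h2)) k
    -- elements of N
    have hfN : ∀ k : ℕ, (1 - star y * y) ^ k ∈ N := by
      intro k
      have h2 : y ∈ N := SMulMemClass.smul_mem (s := N.toStarSubalgebra) _ hXm
      have := pow_mem (sub_mem (one_mem N.toStarSubalgebra)
        (mul_mem (star_mem (S := StarSubalgebra ℂ (H →L[ℂ] H)) h2) h2)) k
      exact this
    let f : ℕ → Elt N := fun k => ⟨(1 - star y * y) ^ k, hfN k⟩
    have hlim : Tendsto (fun k : ℕ => ∑' n, ‖((e - f k : Elt N) : H →L[ℂ] H) (ξ n)‖ ^ 2) atTop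
        (𝓝 (∑' _ : ℕ, (0 : ℝ))) := by
      refine tendsto_tsum_of_dominated_convergence (bound := fun n => 4 * ‖ξ n‖ ^ 2)
        (hξ.mul_left 4) ?_ ?_
      · intro n
        have h1 := tendsto_pow_kp hy1 (ξ n)
        rw [hkp] at h1
        have h2 : Tendsto (fun k : ℕ => kp X (ξ n) - ((1 - star y * y) ^ k) (ξ n)) atTop
            (𝓝 0) := by
          have := (tendsto_const_nhds (x := kp X (ξ n)) (f := atTop (α := ℕ))).sub h1
          rwa [sub_self] at this
        have h3 := (h2.norm).pow 2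
        rw [norm_zero, zero_pow two_ne_zero] at h3
        exact h3
      · refine Filter.Eventually.of_forall fun k n => ?_
        rw [Real.norm_eq_abs, abs_of_nonneg (sq_nonneg _)]
        have h1 : ‖((e - f k : Elt N) : H →L[ℂ] H)‖ ≤ 2 := by
          have : ((e - f k : Elt N) : H →L[ℂ] H) = kp X - (1 - star y * y) ^ k := rfl
          rw [this]
          refine (norm_sub_le _ _).trans ?_
          have h3 := norm_pow_le ha0 ha1 k
          have h4 : ‖kp X‖ ≤ 1 := (kp_isStar X).norm_le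
          linarith
        have h2 : ‖((e - f k : Elt N) : H →L[ℂ] H) (ξ n)‖ ≤ 2 * ‖ξ n‖ :=
          (ContinuousLinearMap.le_opNorm _ _).trans
            (mul_le_mul_of_nonneg_right h1 (norm_nonneg _))
        calc ‖((e - f k : Elt N) : H →L[ℂ] H) (ξ n)‖ ^ 2 ≤ (2 * ‖ξ n‖) ^ 2 :=
              pow_le_pow_left₀ (norm_nonneg _) h2 2
          _ = 4 * ‖ξ n‖ ^ 2 := by ring
    rw [tsum_zero] at hlim
    obtain ⟨k, hk⟩ := ((hlim.eventually (gt_mem_nhds
      (show (0 : ℝ) < (ε / 2) ^ 2 by positivity)))).exists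
    have hn2 : n2 T.τ (e - f k) < ε / 2 := by
      unfold n2
      rw [tau_star_mul T ξ hξ hT, Complex.ofReal_re]
      rw [Real.sqrt_lt' (by positivity)]
      exact hk
    obtain ⟨w, hw, hw2⟩ := approx_elemental N h _ (hfm k) (ε / 2) (by positivity)
    refine ⟨w, hw, ?_⟩
    have h5 : n2 T.τ (f k - w) ≤ ‖((f k - w : Elt N) : H →L[ℂ] H)‖ := by
      have := n2_mul_le T (f k - w) 1
      rwa [mul_one, hA.n2_one, mul_one] at this
    have h6 : ‖((f k - w : Elt N) : H →L[ℂ] H)‖ < ε / 2 := hw2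
    have h7 : n2 T.τ (e - w) ≤ n2 T.τ (e - f k) + n2 T.τ (f k - w) := hA.n2_tri _ _ _
    have h8 : n2 T.τ (e - w) < ε := by linarith
    exact h8
  · intro ζ hζ
    have h1 : X ζ = 0 := by
      have : kp X ζ = ζ := hζ
      rw [← this]
      exact kp_apply_mem X ζ
    rw [hinner ζ, h1, inner_zero_right, Complex.zero_re]
    have := hpos P hP0 ζ
    linarith
  · intro ζ hζ
    have hζ' : kp X ζ = 0 := hζ
    have h2 : X (P (P ζ)) = 0 := by
      have := congrArg (fun z : H →L[ℂ] H => z (P ζ)) hXP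
      simpa using this
    have h3 : kp X (P (P ζ)) = P (P ζ) := kp_apply_of_ker X h2
    have h4 : ⟪ζ, P (P ζ)⟫_ℂ = 0 := by
      rw [← h3, ← ContinuousLinearMap.adjoint_inner_left, ← ContinuousLinearMap.star_eq_adjoint,
        kp_star, hζ', inner_zero_left]
    have h5 : P ζ = 0 := by
      have h6 : ⟪P ζ, P ζ⟫_ℂ = 0 := by
        rw [← h4, ← ContinuousLinearMap.adjoint_inner_right, ← ContinuousLinearMap.star_eq_adjoint,
          hPs.star_eq]
      exact inner_self_eq_zero.1 h6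
    rw [hinner ζ, h5, inner_zero_right, Complex.zero_re]
    have := hpos X hX0 ζ
    linarith

end Pool.Agent.H469R2.NL
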