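import Pool.Agent.H469R2.NL.Defs

/-! TAIL1: far Pauli unitaries asymptotically commute with every element. -/

set_option autoImplicit false

open scoped InnerProductSpace Topology ComplexOrder BoundedContinuousFunction
open Filter Pool.Agent.Helper278 Pool.Agent.Helper436.SM

namespace Pool.Agent.H469R2.NL

namespace TAIL1

section
variable {A : Type*} [Ring A] [StarRing A] [Algebra ℂ A] [StarModule ℂ A] {τ : A →ₗ[ℂ] ℂ}
  {W : VV → A}

theorem W_sq (hW : PauliSys τ W) (v : VV) : W v * W v = sg (bf v v) • (1 : A) := by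
  rw [hW.mul, vv_add_self, hW.zero]

theorem star_mul_W (hW : PauliSys τ W) (v : VV) : star (W v) * W v = 1 := by
  rw [hW.star, smul_mul_assoc, W_sq hW, smul_smul, sg_mul_self, one_smul]

theorem mul_star_W (hW : PauliSys τ W) (v : VV) : W v * star (W v) = 1 := by
  rw [hW.star, mul_smul_comm, W_sq hW, smul_smul, sg_mul_self, one_smul]

theorem ortho (hW : PauliSys τ W) (v w : VV) :
    τ (star (W v) * W w) = if v = w then 1 else 0 := by
  split_ifs with h
  · subst h
    rw [star_mul_W hW, ← hW.zero, hW.trace, if_pos rfl]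
  · rw [hW.star, smul_mul_assoc, hW.mul, map_smul, map_smul, hW.trace, if_neg]
    · simp
    · intro h0
      apply h
      have h1 : v + w + w = w := by rw [h0, zero_add]
      rw [add_assoc, vv_add_self, add_zero] at h1
      exact h1

theorem n2_Wmul (hW : PauliSys τ W) (v : VV) (y : A) : n2 τ (W v * y) = n2 τ y := by
  unfold n2
  have h1 : star (W v * y) * (W v * y) = star y * y := by
    rw [star_mul]
    calc star y * star (W v) * (W v * y) = star y * (star (W v) * W v) * y := by noncomm_ring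
      _ = star y * y := by rw [star_mul_W hW, mul_one]
  rw [h1]

theorem n2_mulW (h : TrAlg τ) (hW : PauliSys τ W) (v : VV) (y : A) :
    n2 τ (y * W v) = n2 τ y := by
  unfold n2
  have h1 : τ (star (y * W v) * (y * W v)) = τ (star y * y) := by
    rw [star_mul, h.comm]
    have h2 : y * W v * (star (W v) * star y) = y * (W v * star (W v)) * star y := by noncomm_ring
    rw [h2, mul_star_W hW, mul_one, h.comm]
  rw [h1]

theorem comm_far (hW : PauliSys τ W) (n : ℕ) (v w : VV) (hv : ∀ i < n, v i = 0)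
    (hw : ∀ i, n ≤ i → w i = 0) : W v * W w = W w * W v := by
  rw [hW.mul, hW.mul, add_comm w v]
  have h1 := sf_eq_zero n v w hv hw
  unfold sf at h1
  have h2 : bf v w = bf w v := by
    have h3 : bf v w + bf w v + bf w v = bf w v := by rw [h1, zero_add]
    rw [add_assoc, CharTwo.add_self_eq_zero, add_zero] at h3
    exact h3
  rw [h2]

/-- the distance to the finite partial sum -/
theorem n2_partial (h : TrAlg τ) (hW : PauliSys τ W) (x : A) (F : Finset VV) :
    n2 τ (x - ∑ v ∈ F, τ (star (W v) * x) • W v) ^ 2 =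
      n2 τ x ^ 2 - ∑ v ∈ F, ‖τ (star (W v) * x)‖ ^ 2 := by
  classical
  set a : VV → ℂ := fun v => τ (star (W v) * x) with ha
  set x0 : A := ∑ v ∈ F, a v • W v with hx0
  have hs0 : star x0 = ∑ v ∈ F, star (a v) • star (W v) := by
    rw [hx0, star_sum]
    exact Finset.sum_congr rfl fun v _ => star_smul _ _
  have h1 : τ (star x0 * x) = ((∑ v ∈ F, ‖a v‖ ^ 2 : ℝ) : ℂ) := by
    rw [hs0, Finset.sum_mul, map_sum, Complex.ofReal_sum]
    refine Finset.sum_congr rfl fun v _ => ?_
    rw [smul_mul_assoc, map_smul, smul_eq_mul]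
    show star (a v) * a v = _
    rw [Complex.star_def, ← Complex.normSq_eq_conj_mul_self, Complex.normSq_eq_norm_sq]
  have h2 : τ (star x * x0) = ((∑ v ∈ F, ‖a v‖ ^ 2 : ℝ) : ℂ) := by
    have h3 := h.conj (star x0 * x)
    rw [star_mul, star_star, h1, Complex.star_def, Complex.conj_ofReal] at h3
    exact h3
  have h4 : τ (star x0 * x0) = ((∑ v ∈ F, ‖a v‖ ^ 2 : ℝ) : ℂ) := by
    have h5 : ∀ v ∈ F, τ (star (W v) * x0) = a v := by
      intro v hv
      rw [hx0, Finset.mul_sum, map_sum, Finset.sum_eq_single v]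
      · rw [mul_smul_comm, map_smul, ortho hW, if_pos rfl, smul_eq_mul, mul_one]
      · intro w _ hwv
        rw [mul_smul_comm, map_smul, ortho hW, if_neg (Ne.symm hwv), smul_zero]
      · intro hv'
        exact absurd hv hv'
    rw [hs0, Finset.sum_mul, map_sum, Complex.ofReal_sum]
    refine Finset.sum_congr rfl fun v hv => ?_
    rw [smul_mul_assoc, map_smul, h5 v hv, smul_eq_mul]
    rw [Complex.star_def, ← Complex.normSq_eq_conj_mul_self, Complex.normSq_eq_norm_sq]
  rw [h.n2_sq, h.n2_sq]
  have h6 : star (x - x0) * (x - x0) = star x * x - star x * x0 - star x0 * x + star x0 * x0 := by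
    rw [star_sub]; noncomm_ring
  rw [h6, map_add, map_sub, map_sub, h1, h2, h4]
  simp only [Complex.add_re, Complex.sub_re, Complex.ofReal_re]
  ring

end

end TAIL1

open TAIL1 in
theorem t_TAIL1 : S_TAIL1 := by
  classical
  intro H _ _ _ N T W hW hP x δ hδ
  have h := trAlg T
  -- a finite set catching almost everything
  have h1 := hP x
  have hpos : (0 : ℝ) < (δ / 2) ^ 2 := by positivity
  have h2 : ∀ᶠ F : Finset VV in atTop,
      n2 T.τ x ^ 2 - (δ / 2) ^ 2 < ∑ v ∈ F, ‖T.τ (star (W v) * x)‖ ^ 2 := by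
    have h3 : n2 T.τ x ^ 2 - (δ / 2) ^ 2 < n2 T.τ x ^ 2 := by linarith
    exact (h1.eventually (lt_mem_nhds h3))
  obtain ⟨F, hF⟩ := h2.exists
  set x0 : Elt N := ∑ v ∈ F, T.τ (star (W v) * x) • W v with hx0
  have h4 : n2 T.τ (x - x0) ^ 2 ≤ (δ / 2) ^ 2 := by
    rw [hx0, n2_partial h hW]
    linarith
  have h5 : n2 T.τ (x - x0) ≤ δ / 2 :=
    (pow_le_pow_iff_left₀ (n2_nonneg _ _) (by positivity) two_ne_zero).1 h4
  refine ⟨F.sup (fun w => w.support.sup id + 1), ?_⟩
  intro v hv
  have h6 : W v * x0 = x0 * W v := by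
    rw [hx0, Finset.mul_sum, Finset.sum_mul]
    refine Finset.sum_congr rfl fun w hw => ?_
    rw [mul_smul_comm, smul_mul_assoc]
    congr 1
    refine comm_far hW _ v w hv ?_
    intro i hi
    by_contra hne
    have h7 : i ≤ w.support.sup id := Finset.le_sup (f := id) (Finsupp.mem_support_iff.2 hne)
    have h8 : w.support.sup id + 1 ≤ F.sup (fun w => w.support.sup id + 1) :=
      Finset.le_sup (f := fun w : VV => w.support.sup id + 1) hw
    omega
  have h7 : W v * x - x * W v = W v * (x - x0) - (x - x0) * W v := by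
    rw [mul_sub, sub_mul, h6]
    abel
  rw [h7]
  refine (h.n2_sub_le _ _).trans ?_
  rw [n2_Wmul hW, n2_mulW h hW]
  linarith

end Pool.Agent.H469R2.NL
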