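import Pool.Agent.H469R2.NL.Defs

/-! TRIP: the partition of three commuting selfadjoint involutions. -/

set_option autoImplicit false

namespace Pool.Agent.H469R2.NL

namespace TRIP

variable {A : Type} [Ring A] [StarRing A] [Algebra ℂ A] [StarModule ℂ A]

/-- the spectral projections of an involution -/
noncomputable def h (x : A) (b : Bool) : A := (2⁻¹ : ℂ) • (if b then 1 - x else 1 + x)

theorem h_true (x : A) : h x true = (2⁻¹ : ℂ) • (1 - x) := rfl
theorem h_false (x : A) : h x false = (2⁻¹ : ℂ) • (1 + x) := rfl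

theorem h_star {x : A} (hx : star x = x) (b : Bool) : star (h x b) = h x b := by
  have h2 : star (2⁻¹ : ℂ) = 2⁻¹ := by simp
  cases b
  · rw [h_false, star_smul, star_add, star_one, hx, h2]
  · rw [h_true, star_smul, star_sub, star_one, hx, h2]

theorem h_idem {x : A} (hx : x * x = 1) (b : Bool) : h x b * h x b = h x b := by
  have h2 : (2⁻¹ : ℂ) * 2⁻¹ + 2⁻¹ * 2⁻¹ = 2⁻¹ := by norm_num
  cases b
  · rw [h_false, smul_mul_smul_comm]
    have e : (1 + x) * (1 + x) = (1 + x) + (1 + x) := by
      rw [mul_add, add_mul, add_mul, hx]; simp; abel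
    rw [e, smul_add, ← add_smul, h2]
  · rw [h_true, smul_mul_smul_comm]
    have e : (1 - x) * (1 - x) = (1 - x) + (1 - x) := by
      rw [mul_sub, sub_mul, sub_mul, hx]; simp; abel
    rw [e, smul_add, ← add_smul, h2]

theorem h_orth {x : A} (hx : x * x = 1) {b c : Bool} (hbc : b ≠ c) : h x b * h x c = 0 := by
  cases b <;> cases c
  · exact absurd rfl hbc
  · rw [h_false, h_true, smul_mul_smul_comm]
    have e : (1 + x) * (1 - x) = 0 := by
      rw [mul_sub, add_mul, add_mul, hx]; simp; abel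
    rw [e, smul_zero]
  · rw [h_false, h_true, smul_mul_smul_comm]
    have e : (1 - x) * (1 + x) = 0 := by
      rw [mul_add, sub_mul, sub_mul, hx]; simp
    rw [e, smul_zero]
  · exact absurd rfl hbc

theorem h_comm {x y : A} (hxy : x * y = y * x) (b c : Bool) : h x b * h y c = h y c * h x b := by
  have e1 : (1 + x) * (1 + y) = (1 + y) * (1 + x) := by
    simp only [mul_add, add_mul, one_mul, mul_one, hxy]; abel
  have e2 : (1 + x) * (1 - y) = (1 - y) * (1 + x) := by
    simp only [mul_add, add_mul, mul_sub, sub_mul, one_mul, mul_one, hxy]; abel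
  have e3 : (1 - x) * (1 + y) = (1 + y) * (1 - x) := by
    simp only [mul_add, add_mul, mul_sub, sub_mul, one_mul, mul_one, hxy]; abel
  have e4 : (1 - x) * (1 - y) = (1 - y) * (1 - x) := by
    simp only [mul_sub, sub_mul, one_mul, mul_one, hxy]; abel
  cases b <;> cases c <;>
    simp only [h_true, h_false, smul_mul_smul_comm, e1, e2, e3, e4]

theorem h_sum (x : A) : h x true + h x false = 1 := by
  rw [h_true, h_false, ← smul_add]
  have e : (1 - x) + (1 + x) = (2 : ℂ) • (1 : A) := by rw [two_smul]; abel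
  rw [e, smul_smul]; norm_num

theorem h_diff (x : A) : h x false - h x true = x := by
  rw [h_true, h_false, ← smul_sub]
  have e : (1 + x) - (1 - x) = (2 : ℂ) • x := by rw [two_smul]; abel
  rw [e, smul_smul]; norm_num

/-- triples of bits -/
def eqv : OO ≃ Bool × Bool × Bool where
  toFun α := (α 0, α 1, α 2)
  invFun t := ![t.1, t.2.1, t.2.2]
  left_inv α := by
    funext i
    fin_cases i <;> rfl
  right_inv t := rfl

theorem sum_OO {M : Type*} [AddCommMonoid M] (f : Bool → Bool → Bool → M) :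
    ∑ α : OO, f (α 0) (α 1) (α 2) = ∑ a : Bool, ∑ b : Bool, ∑ c : Bool, f a b c := by
  have h1 := eqv.sum_comp (fun t : Bool × Bool × Bool => f t.1 t.2.1 t.2.2)
  rw [Fintype.sum_prod_type] at h1
  simp only [Fintype.sum_prod_type] at h1
  exact h1

end TRIP

open TRIP in
theorem t_TRIP : S_TRIP := by
  intro A _ _ _ _ x hs hx hc
  let E : OO → A := fun α => h (x 0) (α 0) * h (x 1) (α 1) * h (x 2) (α 2)
  have hE : ∀ α, E α = h (x 0) (α 0) * h (x 1) (α 1) * h (x 2) (α 2) := fun α => rfl
  have c01 : ∀ b c, h (x 1) b * h (x 0) c = h (x 0) c * h (x 1) b := fun b c =>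
    h_comm (hc 1 0) b c
  have c02 : ∀ b c, h (x 2) b * h (x 0) c = h (x 0) c * h (x 2) b := fun b c =>
    h_comm (hc 2 0) b c
  have c12 : ∀ b c, h (x 2) b * h (x 1) c = h (x 1) c * h (x 2) b := fun b c =>
    h_comm (hc 2 1) b c
  have hmul : ∀ α β, E α * E β = (h (x 0) (α 0) * h (x 0) (β 0)) *
      (h (x 1) (α 1) * h (x 1) (β 1)) * (h (x 2) (α 2) * h (x 2) (β 2)) := by
    intro α β
    rw [hE, hE]
    calc h (x 0) (α 0) * h (x 1) (α 1) * h (x 2) (α 2) *
          (h (x 0) (β 0) * h (x 1) (β 1) * h (x 2) (β 2))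
        = h (x 0) (α 0) * h (x 1) (α 1) * (h (x 2) (α 2) * h (x 0) (β 0)) * h (x 1) (β 1) *
            h (x 2) (β 2) := by simp only [mul_assoc]
      _ = h (x 0) (α 0) * (h (x 1) (α 1) * h (x 0) (β 0)) * (h (x 2) (α 2) * h (x 1) (β 1)) *
            h (x 2) (β 2) := by rw [c02]; simp only [mul_assoc]
      _ = _ := by rw [c01, c12]; simp only [mul_assoc]
  refine ⟨E, ⟨?_, ?_, ?_, ?_⟩, ?_, ?_, ?_⟩
  · intro α
    rw [hE, star_mul, star_mul, h_star (hs 0), h_star (hs 1), h_star (hs 2), ← mul_assoc, c12,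
      mul_assoc, c02, ← mul_assoc, c01]
  · intro α
    rw [hmul, h_idem (hx 0), h_idem (hx 1), h_idem (hx 2)]
  · intro α β hαβ
    rw [hmul]
    by_cases h0 : α 0 = β 0
    · by_cases h1 : α 1 = β 1
      · by_cases h2 : α 2 = β 2
        · exfalso
          apply hαβ
          funext i
          fin_cases i
          · exact h0
          · exact h1
          · exact h2
        · rw [h_orth (hx 2) h2, mul_zero]
      · rw [h_orth (hx 1) h1, mul_zero, zero_mul]
    · rw [h_orth (hx 0) h0, zero_mul, zero_mul]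
  · have h1 := sum_OO (fun a b c => h (x 0) a * h (x 1) b * h (x 2) c)
    refine h1.trans ?_
    simp only [← Finset.mul_sum, ← Finset.sum_mul, Fintype.sum_bool, h_sum, mul_one]
  · have h1 := sum_OO (fun a b c => ((sgb a : ℝ) : ℂ) • (h (x 0) a * h (x 1) b * h (x 2) c))
    refine Eq.trans ?_ (h1.trans ?_)
    · rfl
    · simp only [← Finset.mul_sum, ← Finset.sum_mul, Fintype.sum_bool, h_sum, mul_one,
        ← Finset.smul_sum]
      simp only [sgb, if_true, Bool.false_eq_true, if_false, Complex.ofReal_neg,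
        Complex.ofReal_one, neg_smul, one_smul]
      rw [neg_add_eq_sub, h_diff]
  · have h1 := sum_OO (fun a b c => ((sgb b : ℝ) : ℂ) • (h (x 0) a * h (x 1) b * h (x 2) c))
    refine Eq.trans ?_ (h1.trans ?_)
    · rfl
    · simp only [← Finset.mul_sum, ← Finset.sum_mul, h_sum, mul_one,
        ← Finset.smul_sum, Fintype.sum_bool]
      simp only [sgb, if_true, Bool.false_eq_true, if_false, Complex.ofReal_neg,
        Complex.ofReal_one, neg_smul, one_smul]
      rw [neg_add_eq_sub, neg_add_eq_sub, ← mul_sub, ← mul_sub, ← add_mul, h_sum, h_diff, one_mul]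
  · have h1 := sum_OO (fun a b c => ((sgb c : ℝ) : ℂ) • (h (x 0) a * h (x 1) b * h (x 2) c))
    refine Eq.trans ?_ (h1.trans ?_)
    · rfl
    · simp only [Fintype.sum_bool]
      simp only [sgb, if_true, Bool.false_eq_true, if_false, Complex.ofReal_neg,
        Complex.ofReal_one, neg_smul, one_smul]
      rw [neg_add_eq_sub, neg_add_eq_sub, neg_add_eq_sub, neg_add_eq_sub, ← mul_sub, ← mul_sub,
        ← mul_sub, ← mul_sub, h_diff, ← add_mul, ← add_mul, ← add_mul, ← mul_add, ← mul_add,
        h_sum, mul_one, mul_one, h_sum, one_mul]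

end Pool.Agent.H469R2.NL
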