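import Pool.Agent.H469R2.NL.Defs

set_option autoImplicit false

open Filter Pool.Agent.Helper278 Pool.Agent.Helper436.SM

namespace Pool.Agent.H469R2.NL

namespace CORNaux

/-- the corner `z R z` -/
def Cor {R : Type} [Ring R] (z : R) : Type := {x : R // z * x = x ∧ x * z = x}

@[reducible] def corRing {R : Type} [Ring R] (z : R) (hz : z * z = z) : Ring (Cor z) where
  add x y := ⟨x.1 + y.1, by rw [mul_add, x.2.1, y.2.1], by rw [add_mul, x.2.2, y.2.2]⟩
  zero := ⟨0, by rw [mul_zero], by rw [zero_mul]⟩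
  neg x := ⟨-x.1, by rw [mul_neg, x.2.1], by rw [neg_mul, x.2.2]⟩
  mul x y := ⟨x.1 * y.1, by rw [← mul_assoc, x.2.1], by rw [mul_assoc, y.2.2]⟩
  one := ⟨z, hz, hz⟩
  add_assoc x y w := Subtype.ext (add_assoc x.1 y.1 w.1)
  zero_add x := Subtype.ext (zero_add x.1)
  add_zero x := Subtype.ext (add_zero x.1)
  add_comm x y := Subtype.ext (add_comm x.1 y.1)
  neg_add_cancel x := Subtype.ext (neg_add_cancel x.1)
  mul_assoc x y w := Subtype.ext (mul_assoc x.1 y.1 w.1)
  one_mul x := Subtype.ext x.2.1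
  mul_one x := Subtype.ext x.2.2
  zero_mul x := Subtype.ext (zero_mul x.1)
  mul_zero x := Subtype.ext (mul_zero x.1)
  left_distrib x y w := Subtype.ext (mul_add x.1 y.1 w.1)
  right_distrib x y w := Subtype.ext (add_mul x.1 y.1 w.1)
  nsmul n x := ⟨n • x.1, by rw [mul_smul_comm, x.2.1], by rw [smul_mul_assoc, x.2.2]⟩
  nsmul_zero x := Subtype.ext (zero_smul ℕ x.1)
  nsmul_succ n x := Subtype.ext (succ_nsmul x.1 n)
  zsmul n x := ⟨n • x.1, by rw [mul_smul_comm, x.2.1], by rw [smul_mul_assoc, x.2.2]⟩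
  zsmul_zero' x := Subtype.ext (zero_smul ℤ x.1)
  zsmul_succ' n x := Subtype.ext (SubNegMonoid.zsmul_succ' n x.1)
  zsmul_neg' n x := Subtype.ext (SubNegMonoid.zsmul_neg' n x.1)

@[reducible] def corStar {R : Type} [Ring R] [StarRing R] (z : R) (hz : z * z = z)
    (hs : star z = z) : letI := corRing z hz; StarRing (Cor z) :=
  letI := corRing z hz
  { star := fun x => ⟨star x.1, by
      have := congrArg star x.2.2
      rwa [star_mul, hs] at this, by
      have := congrArg star x.2.1
      rwa [star_mul, hs] at this⟩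
    star_involutive := fun x => Subtype.ext (star_star x.1)
    star_mul := fun x y => Subtype.ext (star_mul x.1 y.1)
    star_add := fun x y => Subtype.ext (star_add x.1 y.1) }

@[reducible] def corMod {R : Type} [Ring R] [Algebra ℂ R] (z : R) (hz : z * z = z) :
    letI := corRing z hz; Module ℂ (Cor z) :=
  letI := corRing z hz
  { smul := fun c x => ⟨c • x.1, by rw [mul_smul_comm, x.2.1], by rw [smul_mul_assoc, x.2.2]⟩
    one_smul := fun x => Subtype.ext (one_smul ℂ x.1)
    mul_smul := fun c d x => Subtype.ext (mul_smul c d x.1)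
    smul_zero := fun c => Subtype.ext (smul_zero c)
    smul_add := fun c x y => Subtype.ext (smul_add c x.1 y.1)
    add_smul := fun c d x => Subtype.ext (add_smul c d x.1)
    zero_smul := fun x => Subtype.ext (zero_smul ℂ x.1) }

@[reducible] def corAlg {R : Type} [Ring R] [Algebra ℂ R] (z : R) (hz : z * z = z) :
    letI := corRing z hz; Algebra ℂ (Cor z) :=
  letI := corRing z hz
  letI := corMod z hz
  Algebra.ofModule (fun c x y => Subtype.ext (smul_mul_assoc c x.1 y.1))
    (fun c x y => Subtype.ext (mul_smul_comm c x.1 y.1))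

end CORNaux

open CORNaux in
theorem t_CORN : S_CORN := by
  intro H _ _ _ N z hs hz hne
  let i1 := corRing z hz
  let i2 := corStar z hz hs
  let i3 := corAlg z hz
  refine ⟨Cor z, i1, i2, i3, ⟨fun c x => Subtype.ext (star_smul c x.1)⟩, fun x => x.1,
    ⟨Subtype.val_injective, fun x y => rfl, fun x y => rfl, fun x => rfl, fun c x => rfl, ?_⟩,
    rfl, ?_⟩
  · exact hne
  · intro x h1 h2
    exact ⟨⟨x, h1, h2⟩, rfl⟩

end Pool.Agent.H469R2.NL
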