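import Pool.Agent.H469R2.NL.Defs

set_option autoImplicit false

open Filter Pool.Agent.Helper278 Pool.Agent.Helper436.SM

namespace Pool.Agent.H469R2.NL

namespace CUBEXaux

theorem coarse {A : Type} [Ring A] [StarRing A] {X O : Type} [Fintype X] [DecidableEq X] [Fintype O]
    {z : A} {p : X → O → A} (h : PVM z (fun a : X × O => p a.1 a.2)) :
    PVM z (fun x => ∑ α, p x α) := by
  classical
  have hpp : ∀ x α y β, (x, α) ≠ (y, β) → p x α * p y β = 0 := by
    intro x α y β hne
    exact h.orth (x, α) (y, β) hne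
  refine ⟨?_, ?_, ?_, ?_⟩
  · intro x
    rw [star_sum]
    exact Finset.sum_congr rfl fun α _ => h.sa (x, α)
  · intro x
    rw [Finset.sum_mul]
    refine Finset.sum_congr rfl fun α _ => ?_
    rw [Finset.mul_sum, Finset.sum_eq_single α]
    · exact h.idem (x, α)
    · intro β _ hb
      refine hpp x α x β ?_
      intro he
      exact hb (Prod.ext_iff.mp he).2.symm
    · intro hn
      exact absurd (Finset.mem_univ α) hn
  · intro x y hxy
    rw [Finset.sum_mul]
    refine Finset.sum_eq_zero fun α _ => ?_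
    rw [Finset.mul_sum]
    refine Finset.sum_eq_zero fun β _ => ?_
    refine hpp x α y β ?_
    intro he
    exact hxy (Prod.ext_iff.mp he).1
  · have := h.sum
    rwa [Fintype.sum_prod_type] at this

end CUBEXaux

open CUBEXaux in
theorem t_CUBEX (h1 : S_C1) (h2 : S_C2) (hCUT : S_CUT) (hCX1 : S_CX1) (hCX2 : S_CX2)
    (hG1 : S_G1) : S_CUBEX := by
  intro H _ _ _ N T k O _ _ Z p q μ hμ hp hq hZd hZs hpq0 hpq hclose
  have hP := coarse hp
  have hQ := coarse hq
  have hPQ : ∀ x y, (∀ j, y ≠ x + sh j) → (∑ α, p x α) * (∑ α, q y α) = 0 := by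
    intro x y hxy
    rw [Finset.sum_mul]
    refine Finset.sum_eq_zero fun α _ => ?_
    rw [Finset.mul_sum]
    exact Finset.sum_eq_zero fun β _ => hpq0 x y α β hxy
  obtain ⟨hV1, hV2, hV3, -, -, -⟩ := h1 (Elt N) (Fin k ⊕ Fin k) (fun x => ∑ α, p x α)
    (fun x => ∑ α, q x α) hP hQ hPQ
  obtain ⟨-, -, hM⟩ := h2 (Elt N) (Option (Fin k ⊕ Fin k))
    (Vs (fun x => ∑ α, p x α) (fun x => ∑ α, q x α)) hV1 hV2 hV3
  obtain ⟨z, K, hcut, hnz⟩ := hCUT H N T (Option (Fin k ⊕ Fin k))
    (fun j => Vs (fun x => ∑ α, p x α) (fun x => ∑ α, q x α) j *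
      star (Vs (fun x => ∑ α, p x α) (fun x => ∑ α, q x α) j)) μ hμ
    (fun j => by simp only [star_mul, star_star]) (fun i j => hM i j)
  have hcard : Fintype.card (Option (Fin k ⊕ Fin k)) = 2 * k + 1 := by
    simp [two_mul]
  have hz : z ≠ 0 := by
    apply hnz
    intro j
    rw [hcard]
    exact hclose j
  obtain ⟨hF, hW⟩ := hCX1 (Elt N) (Fin k ⊕ Fin k) O p q hp hq hpq0
    (fun x j => lP x = lQ (x + sh j))
    (fun x j hj α β hab => hpq x j α β (by rw [hj]; exact hZd _ α β hab))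
    (fun j S hS hS' => hG1 k j S hS hS') z K hcut
  obtain ⟨E, hE1, hE2⟩ := hCX2 (Elt N) k O Z z p q _ hF hZs
    (fun x α β h => by
      have := hpq x none α β (by simpa [sh] using h)
      simpa [sh] using this)
    (fun x j α hj => hW x j α hj)
  exact ⟨z, E, hz, hcut.zsa, hcut.zid, hE1, hE2⟩

end Pool.Agent.H469R2.NL
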