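import Pool.Agent.H469R2.NL.Defs

set_option autoImplicit false

open Filter Pool.Agent.Helper278 Pool.Agent.Helper436.SM

namespace Pool.Agent.H469R2.NL

namespace CX2aux

theorem coarse {A : Type} [Ring A] [StarRing A] {X O : Type} [Fintype X] [DecidableEq X] [Fintype O]
    {z : A} {p : X → O → A} (h : PVM z (fun a : X × O => p a.1 a.2)) (x : X) (α : O) :
    p x α * (∑ β, p x β) = p x α ∧ (∑ β, p x β) * p x α = p x α := by
  classical
  have hpp : ∀ x α y β, (x, α) ≠ (y, β) → p x α * p y β = 0 := by
    intro x α y β hne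
    exact h.orth (x, α) (y, β) hne
  constructor
  · rw [Finset.mul_sum, Finset.sum_eq_single α]
    · exact h.idem (x, α)
    · intro β _ hb
      refine hpp x α x β ?_
      intro he
      exact hb (Prod.ext_iff.mp he).2.symm
    · intro hn
      exact absurd (Finset.mem_univ α) hn
  · rw [Finset.sum_mul, Finset.sum_eq_single α]
    · exact h.idem (x, α)
    · intro β _ hb
      refine hpp x β x α ?_
      intro he
      exact hb (Prod.ext_iff.mp he).2
    · intro hn
      exact absurd (Finset.mem_univ α) hn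

/-- the commutation properties of an extension -/
structure Ex {A : Type} [Ring A] [StarRing A] {D : Type} [Fintype D] [DecidableEq D]
    (z : A) (P : (D → ZMod 2) → A) (T : D → A) (y : A) : Prop where
  l : z * y = y
  r : y * z = y
  T : ∀ d, T d * y = y * T d
  P : ∀ x, P x * y = y * P x

section
variable {A : Type} [Ring A] [StarRing A] {D : Type} [Fintype D] [DecidableEq D]
    {z : A} {P : (D → ZMod 2) → A} {T : D → A}

theorem Ex.mul {y w : A} (hy : Ex z P T y) (hw : Ex z P T w) : Ex z P T (y * w) where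
  l := by rw [← mul_assoc, hy.l]
  r := by rw [mul_assoc, hw.r]
  T d := by rw [← mul_assoc, hy.T, mul_assoc, hw.T, ← mul_assoc]
  P x := by rw [← mul_assoc, hy.P, mul_assoc, hw.P, ← mul_assoc]

theorem Ex.sub {y w : A} (hy : Ex z P T y) (hw : Ex z P T w) : Ex z P T (y - w) where
  l := by rw [mul_sub, hy.l, hw.l]
  r := by rw [sub_mul, hy.r, hw.r]
  T d := by rw [mul_sub, sub_mul, hy.T, hw.T]
  P x := by rw [mul_sub, sub_mul, hy.P, hw.P]

theorem Ex.sum {ι : Type} [Fintype ι] {y : ι → A} (hy : ∀ i, Ex z P T (y i)) :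
    Ex z P T (∑ i, y i) where
  l := by rw [Finset.mul_sum]; exact Finset.sum_congr rfl fun i _ => (hy i).l
  r := by rw [Finset.sum_mul]; exact Finset.sum_congr rfl fun i _ => (hy i).r
  T d := by
    rw [Finset.sum_mul, Finset.mul_sum]
    exact Finset.sum_congr rfl fun i _ => (hy i).T d
  P x := by
    rw [Finset.sum_mul, Finset.mul_sum]
    exact Finset.sum_congr rfl fun i _ => (hy i).P x

theorem Ex.star {y : A} (hC : Cliff z P T) (hy : Ex z P T y) : Ex z P T (star y) where
  l := by
    have := congrArg Star.star hy.r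
    rwa [star_mul, hC.zsa] at this
  r := by
    have := congrArg Star.star hy.l
    rwa [star_mul, hC.zsa] at this
  T d := by
    have := congrArg Star.star (hy.T d)
    rw [star_mul, star_mul, hC.Tst, mul_neg, neg_mul, neg_inj] at this
    exact this.symm
  P x := by
    have := congrArg Star.star (hy.P x)
    rw [star_mul, star_mul, hC.pvm.sa] at this
    exact this.symm

theorem prodP (hC : Cliff z P T) {y : A} (hy : Ex z P T y) (w : A) (x : D → ZMod 2) :
    P x * (y * w) = (P x * y) * (P x * w) := by
  calc P x * (y * w) = (P x * P x) * y * w := by rw [hC.pvm.idem, mul_assoc]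
    _ = P x * (P x * y) * w := by rw [mul_assoc (P x) (P x) y]
    _ = P x * (y * P x) * w := by rw [hy.P]
    _ = (P x * y) * (P x * w) := by simp only [mul_assoc]

theorem exz (hC : Cliff z P T) : Ex z P T z where
  l := hC.zid
  r := hC.zid
  T d := by rw [hC.zT, hC.Tz]
  P x := (hC.zP x).symm

theorem uniq (h7 : S_C7) (hC : Cliff z P T) {y w : A} (hy : Ex z P T y) (hw : Ex z P T w)
    (x0 : D → ZMod 2) (h : P x0 * y = P x0 * w) : y = w := by
  have h1 := hy.sub hw
  have h2 := h7 A D z P T hC x0 (y - w) h1.l h1.T h1.P (by rw [mul_sub, h, sub_self])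
  exact sub_eq_zero.mp h2

end

end CX2aux

open CX2aux in
theorem t_CX2 (hCXC : S_CXC) (h6 : S_C6) (h7 : S_C7) (hCXP : S_CXP) (hG2 : S_G2) : S_CX2 := by
  classical
  intro A _ _ k O _ _ Z z p q W hF hZs hZ hW
  set P : (Fin k ⊕ Fin k → ZMod 2) → A := fun x => ∑ α, p x α with hPdef
  set T : Fin k ⊕ Fin k → A := fun d => W (some d) * star (W none) with hTdef
  have hC : Cliff z P T := hCXC A _ O z p q W hF
  have hpP : ∀ x α, p x α * P x = p x α := fun x α => (coarse hF.pvmp x α).1
  have hPp : ∀ x α, P x * p x α = p x α := fun x α => (coarse hF.pvmp x α).2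
  have hex : ∀ (a : Fin k → ZMod 2) (α : O), ∃ y' : A, Ex z P T y' ∧
      P (Sum.elim a a) * y' = p (Sum.elim a a) α * z := by
    intro a α
    obtain ⟨y', h1, h2, h3, h4, h5⟩ := h6 A _ z P T hC (Sum.elim a a) (p (Sum.elim a a) α * z)
      (by rw [← mul_assoc, hPp])
      (by rw [mul_assoc, hC.zP, ← mul_assoc, hpP])
      (by rw [← mul_assoc, hF.zp, mul_assoc, hF.zid])
      (by rw [mul_assoc, hF.zid])
    exact ⟨y', ⟨h1, h2, h3, h4⟩, h5⟩
  choose E hE hE0 using hex
  -- the values of the extension on the blocks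
  have hval : ∀ (a : Fin k → ZMod 2) (α : O), (∀ x, lP x = a → P x * E a α = p x α * z) ∧
      (∀ x, lQ x = a → P x * E a α = W none * q x α * star (W none)) := by
    intro a α
    have := hG2 k a {v | Sum.elim (fun x => P x * E a α = p x α * z)
        (fun x => P x * E a α = W none * q x α * star (W none)) v} ?_ ?_
    · exact ⟨fun x hx => this.1 x hx, fun x hx => this.2 x hx⟩
    · intro x i hx
      exact hCXP A _ O z p q W hF (E a α) (hE a α).l (hE a α).r (hE a α).T (hE a α).P x i α
        (hW x i α hx)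
    · exact hE0 a α
  have hEsa : ∀ a α, star (E a α) = E a α := by
    intro a α
    refine uniq h7 hC ((hE a α).star hC) (hE a α) (Sum.elim a a) ?_
    rw [((hE a α).star hC).P]
    rw [hE0 a α]
    have h2 : star (p (Sum.elim a a) α) = p (Sum.elim a a) α := hF.pvmp.sa (Sum.elim a a, α)
    have h3 := congrArg star (hE0 a α)
    rw [star_mul, star_mul, hC.pvm.sa, hC.zsa, h2, hF.zp] at h3
    exact h3
  -- products with fine projections
  have hpE : ∀ a α β, p (Sum.elim a a) α * E a β = p (Sum.elim a a) α * p (Sum.elim a a) β * z := by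
    intro a α β
    rw [← hpP (Sum.elim a a) α, mul_assoc, hE0, hpP, ← mul_assoc]
  refine ⟨E, ?_, ?_⟩
  · intro a
    refine ⟨hEsa a, ?_, ?_, ?_⟩
    · intro α
      refine uniq h7 hC ((hE a α).mul (hE a α)) (hE a α) (Sum.elim a a) ?_
      rw [← mul_assoc, hE0, mul_assoc, (hE a α).l, hpE]
      have h2 : p (Sum.elim a a) α * p (Sum.elim a a) α = p (Sum.elim a a) α :=
        hF.pvmp.idem (Sum.elim a a, α)
      rw [h2]
    · intro α β hab
      refine uniq h7 hC ((hE a α).mul (hE a β)) ((hE a α).sub (hE a α)) (Sum.elim a a) ?_ |>.trans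
        (sub_self _)
      rw [sub_self, mul_zero, ← mul_assoc, hE0, mul_assoc, (hE a β).l, hpE]
      have h2 : p (Sum.elim a a) α * p (Sum.elim a a) β = 0 :=
        hF.pvmp.orth (Sum.elim a a, α) (Sum.elim a a, β) (by
          intro he
          exact hab (Prod.ext_iff.mp he).2)
      rw [h2, zero_mul]
    · refine uniq h7 hC (Ex.sum (hE a)) (exz hC) (Sum.elim a a) ?_
      rw [Finset.mul_sum]
      have h1 : ∀ α, P (Sum.elim a a) * E a α = p (Sum.elim a a) α * z := hE0 a
      simp only [h1]
      rw [← Finset.sum_mul]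
  · -- zero relations
    have key : ∀ a α b β, Z a α b β → ∑ d, (Sum.elim a b : Fin k ⊕ Fin k → ZMod 2) d = 0 →
        E a α * E b β = 0 := by
      intro a α b β hab hs
      have hlP : lP (Sum.elim a b : Fin k ⊕ Fin k → ZMod 2) = a := by
        unfold lP
        rw [if_pos hs]
        rfl
      have hlQ : lQ (Sum.elim a b : Fin k ⊕ Fin k → ZMod 2) = b := by
        unfold lQ
        rw [if_pos hs]
        rfl
      refine uniq h7 hC ((hE a α).mul (hE b β)) ((hE a α).sub (hE a α)) (Sum.elim a b) ?_ |>.trans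
        (sub_self _)
      rw [sub_self, mul_zero]
      have h1 := (hval a α).1 _ hlP
      have h2 := (hval b β).2 _ hlQ
      have h3 : P (Sum.elim a b) * (E a α * E b β) =
          (P (Sum.elim a b) * E a α) * (P (Sum.elim a b) * E b β) :=
        prodP hC (hE a α) (E b β) (Sum.elim a b)
      rw [h3, h1, h2, mul_assoc]
      have h4 : z * (W none * q (Sum.elim a b) β * star (W none)) =
          W none * q (Sum.elim a b) β * star (W none) := by
        rw [← mul_assoc, ← mul_assoc, hF.zW]
      rw [h4]
      refine hF.orthW _ _ _ ?_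
      refine hZ _ _ _ ?_
      rw [hlP, hlQ]
      exact hab
    have key2 : ∀ a α b β, Z a α b β → ∑ d, (Sum.elim b a : Fin k ⊕ Fin k → ZMod 2) d ≠ 0 →
        E a α * E b β = 0 := by
      intro a α b β hab hs
      have hlP : lP (Sum.elim b a : Fin k ⊕ Fin k → ZMod 2) = a := by
        unfold lP
        rw [if_neg hs]
        rfl
      have hlQ : lQ (Sum.elim b a : Fin k ⊕ Fin k → ZMod 2) = b := by
        unfold lQ
        rw [if_neg hs]
        rfl
      refine uniq h7 hC ((hE a α).mul (hE b β)) ((hE a α).sub (hE a α)) (Sum.elim b a) ?_ |>.trans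
        (sub_self _)
      rw [sub_self, mul_zero]
      have h1 := (hval a α).1 _ hlP
      have h2 := (hval b β).2 _ hlQ
      have h3 : P (Sum.elim b a) * (E a α * E b β) =
          (P (Sum.elim b a) * E a α) * (P (Sum.elim b a) * E b β) :=
        prodP hC (hE a α) (E b β) (Sum.elim b a)
      rw [h3, h1, h2, mul_assoc]
      have h4 : z * (W none * q (Sum.elim b a) β * star (W none)) =
          W none * q (Sum.elim b a) β * star (W none) := by
        rw [← mul_assoc, ← mul_assoc, hF.zW]
      rw [h4]
      refine hF.orthW _ _ _ ?_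
      refine hZ _ _ _ ?_
      rw [hlP, hlQ]
      exact hab
    intro a α b β hab
    by_cases hs : ∑ d, (Sum.elim a b : Fin k ⊕ Fin k → ZMod 2) d = 0
    · exact key a α b β hab hs
    · have h1 := key2 b β a α (hZs _ _ _ _ hab) hs
      have h2 := congrArg star h1
      rwa [star_mul, hEsa, hEsa, star_zero] at h2

end Pool.Agent.H469R2.NL
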