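import Pool.Agent.H469R2.NL.Defs

set_option autoImplicit false

open Pool.Agent.Helper278 (n2)
open Filter

namespace Pool.Agent.H469R2.NL

namespace CXCaux

theorem coarse {A : Type} [Ring A] [StarRing A] {X O : Type} [Fintype X] [DecidableEq X] [Fintype O]
    {z : A} {p : X → O → A} (h : PVM z (fun a : X × O => p a.1 a.2)) :
    PVM z (fun x => ∑ α, p x α) := by
  classical
  have hpp : ∀ x α y β, (x, α) ≠ (y, β) → p x α * p y β = 0 := by
    intro x α y β hne
    exact h.orth (x, α) (y, β) hne
  refine ⟨?_, ?_, ?_, ?_⟩
  · intro x
    rw [star_sum]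
    exact Finset.sum_congr rfl fun α _ => h.sa (x, α)
  · intro x
    rw [Finset.sum_mul]
    refine Finset.sum_congr rfl fun α _ => ?_
    rw [Finset.mul_sum, Finset.sum_eq_single α]
    · exact h.idem (x, α)
    · intro β _ hb
      refine hpp x α x β ?_
      intro he
      exact hb (Prod.ext_iff.mp he).2.symm
    · intro hn
      exact absurd (Finset.mem_univ α) hn
  · intro x y hxy
    rw [Finset.sum_mul]
    refine Finset.sum_eq_zero fun α _ => ?_
    rw [Finset.mul_sum]
    refine Finset.sum_eq_zero fun β _ => ?_
    refine hpp x α y β ?_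
    intro he
    exact hxy (Prod.ext_iff.mp he).1
  · have := h.sum
    rwa [Fintype.sum_prod_type] at this

end CXCaux

open CXCaux in
theorem t_CXC : S_CXC := by
  intro A _ _ D _ _ O _ z p q W h
  have hP := coarse h.pvmp
  have hQ := coarse h.pvmq
  have hsz : ∀ j, star (W j) * z = star (W j) := by
    intro j
    have := congrArg star (h.zW j)
    rwa [star_mul, h.zsa] at this
  have hTst : ∀ d, star (W (some d) * star (W none)) = -(W (some d) * star (W none)) := by
    intro d
    rw [star_mul, star_star, h.anti none (some d) (by simp)]
  have hprod : ∀ d e, W (some d) * star (W none) * star (W (some e) * star (W none)) =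
      W (some d) * star (W (some e)) := by
    intro d e
    rw [star_mul, star_star]
    calc W (some d) * star (W none) * (W none * star (W (some e)))
        = W (some d) * (star (W none) * W none) * star (W (some e)) := by
          simp only [mul_assoc]
      _ = W (some d) * star (W (some e)) := by rw [h.sW, h.Wz]
  have hprod' : ∀ d e, W (some d) * star (W none) * (W (some e) * star (W none)) =
      -(W (some d) * star (W (some e))) := by
    intro d e
    have h1 := hprod d e
    rw [hTst e, mul_neg] at h1
    rw [← h1, neg_neg]
  refine ⟨h.zsa, h.zid, hP, ?_, hTst, ?_, ?_, ?_, ?_, ?_⟩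
  · intro x
    rw [Finset.mul_sum, Finset.sum_mul]
    exact Finset.sum_congr rfl fun α _ => h.zp x α
  · intro d
    rw [hprod, h.WW]
  · intro d
    rw [← mul_assoc, h.zW]
  · intro d
    rw [mul_assoc, hsz]
  · intro d e hde
    rw [hprod', hprod']
    rw [h.anti (some d) (some e) (by simpa using hde)]
  · intro x d
    have h1 := h.PW x (some d)
    have h2 := h.PW (x + Pi.single d 1) none
    simp only [sh, add_zero] at h1 h2
    have h3 := congrArg star h2
    rw [star_mul, star_mul, hP.sa, hQ.sa] at h3
    rw [← mul_assoc, h1, mul_assoc, ← h3, mul_assoc]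

end Pool.Agent.H469R2.NL
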