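import Pool.Agent.H469R2.NL.Defs

set_option autoImplicit false

open Filter

namespace Pool.Agent.H469R2.NL

open BoundedContinuousFunction MeasureTheory

/-- the characters of the torus -/
noncomputable def UNI_chi (p : ℤ × ℤ) : TT →ᵇ ℂ :=
  BoundedContinuousFunction.mkOfCompact
    ⟨fun z : TT => fourier p.1 z.1 * fourier p.2 z.2, by fun_prop⟩

theorem UNI_chi_apply (p : ℤ × ℤ) (z : TT) :
    UNI_chi p z = fourier p.1 z.1 * fourier p.2 z.2 := rfl

/-- the star algebra of trigonometric polynomials -/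
noncomputable def UNI_alg : StarSubalgebra ℂ (TT →ᵇ ℂ) where
  toSubalgebra := Algebra.adjoin ℂ (Set.range UNI_chi)
  star_mem' := by
    change Algebra.adjoin ℂ (Set.range UNI_chi) ≤ star (Algebra.adjoin ℂ (Set.range UNI_chi))
    refine Algebra.adjoin_le ?_
    rintro - ⟨p, rfl⟩
    refine Algebra.subset_adjoin ⟨-p, ?_⟩
    ext z
    show fourier (-p).1 z.1 * fourier (-p).2 z.2 = star (fourier p.1 z.1 * fourier p.2 z.2)
    rw [star_mul', Prod.fst_neg, Prod.snd_neg, fourier_neg, fourier_neg]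
    rfl

theorem UNI_span : Subalgebra.toSubmodule UNI_alg.toSubalgebra
    = Submodule.span ℂ (Set.range UNI_chi) := by
  apply Algebra.adjoin_eq_span_of_subset
  refine Set.Subset.trans ?_ Submodule.subset_span
  intro x hx
  refine Submonoid.closure_induction (fun _ => id) ⟨0, ?_⟩ ?_ hx
  · ext z
    show fourier 0 z.1 * fourier 0 z.2 = 1
    rw [fourier_zero, fourier_zero, one_mul]
  · rintro - - - - ⟨p, rfl⟩ ⟨q, rfl⟩
    refine ⟨p + q, ?_⟩
    ext z
    show fourier (p + q).1 z.1 * fourier (p + q).2 z.2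
      = fourier p.1 z.1 * fourier p.2 z.2 * (fourier q.1 z.1 * fourier q.2 z.2)
    rw [Prod.fst_add, Prod.snd_add, fourier_add, fourier_add]
    ring

theorem UNI_one {x y : UnitAddCircle} (h : (fourier 1 x : ℂ) = fourier 1 y) : x = y := by
  rw [fourier_one, fourier_one] at h
  exact AddCircle.injective_toCircle one_ne_zero (Subtype.coe_injective h)

theorem UNI_sep : (UNI_alg.map (toContinuousMapStarₐ ℂ)).SeparatesPoints := by
  intro x y hxy
  by_cases h1 : x.1 = y.1
  · have h2 : x.2 ≠ y.2 := fun h => hxy (Prod.ext h1 h)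
    refine ⟨_, ⟨toContinuousMapStarₐ ℂ (UNI_chi (0, 1)),
      ⟨UNI_chi (0, 1), Algebra.subset_adjoin ⟨(0, 1), rfl⟩, rfl⟩, rfl⟩, ?_⟩
    intro h
    apply h2
    apply UNI_one
    have h' : (fourier 0 x.1 : ℂ) * fourier 1 x.2 = fourier 0 y.1 * fourier 1 y.2 := h
    rwa [fourier_zero, fourier_zero, one_mul, one_mul] at h'
  · refine ⟨_, ⟨toContinuousMapStarₐ ℂ (UNI_chi (1, 0)),
      ⟨UNI_chi (1, 0), Algebra.subset_adjoin ⟨(1, 0), rfl⟩, rfl⟩, rfl⟩, ?_⟩
    intro h
    apply h1
    apply UNI_one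
    have h' : (fourier 1 x.1 : ℂ) * fourier 0 x.2 = fourier 1 y.1 * fourier 0 y.2 := h
    rwa [fourier_zero, fourier_zero, mul_one, mul_one] at h'

theorem t_UNI : S_UNI := by
  intro μ ν _ _ h
  refine ext_of_forall_mem_subalgebra_integral_eq_of_pseudoEMetric_complete_countable
    (A := UNI_alg) UNI_sep ?_
  intro g hg
  have hg' : g ∈ Submodule.span ℂ (Set.range UNI_chi) := by
    rw [← UNI_span]; exact hg
  induction hg' using Submodule.span_induction with
  | mem x hx =>
    obtain ⟨p, rfl⟩ := hx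
    exact h p.1 p.2
  | zero => simp
  | add x y hx hy hx' hy' =>
    have hxa : x ∈ UNI_alg := by
      have : x ∈ Subalgebra.toSubmodule UNI_alg.toSubalgebra := by rw [UNI_span]; exact hx
      exact this
    have hya : y ∈ UNI_alg := by
      have : y ∈ Subalgebra.toSubmodule UNI_alg.toSubalgebra := by rw [UNI_span]; exact hy
      exact this
    have e1 : ∀ m : Measure TT, IsFiniteMeasure m → ∫ z, (x + y) z ∂m = ∫ z, x z ∂m + ∫ z, y z ∂m := by
      intro m _
      exact integral_add (x.integrable m) (y.integrable m)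
    rw [e1 μ inferInstance, e1 ν inferInstance, hx' hxa, hy' hya]
  | smul c x hx hx' =>
    have hxa : x ∈ UNI_alg := by
      have : x ∈ Subalgebra.toSubmodule UNI_alg.toSubalgebra := by rw [UNI_span]; exact hx
      exact this
    have e1 : ∀ m : Measure TT, ∫ z, (c • x) z ∂m = c • ∫ z, x z ∂m := by
      intro m
      exact integral_smul c _
    rw [e1 μ, e1 ν, hx' hxa]

end Pool.Agent.H469R2.NL
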