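import Mathlib
import Pool.Agent.H469R2.NL.Defs

/-! Task VAR (helper265): total variation estimate for spectral measures of two near vectors. -/

set_option autoImplicit false

open scoped InnerProductSpace Topology ComplexOrder BoundedContinuousFunction
open Filter

namespace Pool.Agent.H469R2.NL

namespace VAR

open MeasureTheory

/-- characters of the torus -/
noncomputable def ch (p : ℤ × ℤ) : C(TT, ℂ) := ⟨fun z => fourier p.1 z.1 * fourier p.2 z.2, by
  exact ((fourier p.1).continuous.comp continuous_fst).mul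
    ((fourier p.2).continuous.comp continuous_snd)⟩

theorem ch_apply (p : ℤ × ℤ) (z : TT) : ch p z = fourier p.1 z.1 * fourier p.2 z.2 := rfl

theorem ch_add (p q : ℤ × ℤ) (z : TT) : ch (p + q) z = ch p z * ch q z := by
  simp only [ch_apply, Prod.fst_add, Prod.snd_add, fourier_add]
  ring

theorem ch_neg (p : ℤ × ℤ) (z : TT) : ch (-p) z = (starRingEnd ℂ) (ch p z) := by
  simp only [ch_apply, Prod.fst_neg, Prod.snd_neg, fourier_neg, map_mul]

theorem ch_zero (z : TT) : ch 0 z = 1 := by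
  simp [ch_apply]

/-- the star algebra of trigonometric polynomials -/
noncomputable def alg : StarSubalgebra ℂ C(TT, ℂ) where
  toSubalgebra := Algebra.adjoin ℂ (Set.range ch)
  star_mem' := by
    change Algebra.adjoin ℂ (Set.range ch) ≤ star (Algebra.adjoin ℂ (Set.range ch))
    refine Algebra.adjoin_le ?_
    rintro - ⟨n, rfl⟩
    exact Algebra.subset_adjoin ⟨-n, ContinuousMap.ext fun z => ch_neg n z⟩

theorem alg_coe : Subalgebra.toSubmodule alg.toSubalgebra = Submodule.span ℂ (Set.range ch) := by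
  apply Algebra.adjoin_eq_span_of_subset
  refine Set.Subset.trans ?_ Submodule.subset_span
  intro x hx
  refine Submonoid.closure_induction (fun _ => id) ⟨0, ?_⟩ ?_ hx
  · ext1 z; exact ch_zero z
  · rintro - - - - ⟨m, rfl⟩ ⟨n, rfl⟩
    refine ⟨m + n, ?_⟩
    ext1 z
    exact ch_add m n z

theorem alg_sep : alg.SeparatesPoints := by
  intro x y hxy
  by_cases h1 : x.1 = y.1
  · have h2 : x.2 ≠ y.2 := fun h => hxy (Prod.ext h1 h)
    refine ⟨_, ⟨ch (0, 1), Algebra.subset_adjoin ⟨(0, 1), rfl⟩, rfl⟩, ?_⟩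
    intro h
    apply h2
    have h3 : (fourier 1 x.2 : ℂ) = fourier 1 y.2 := by
      have := h
      simp only [ch_apply, fourier_zero, one_mul] at this
      exact this
    rw [fourier_one, fourier_one] at h3
    exact AddCircle.injective_toCircle one_ne_zero (Circle.coe_inj.1 h3)
  · refine ⟨_, ⟨ch (1, 0), Algebra.subset_adjoin ⟨(1, 0), rfl⟩, rfl⟩, ?_⟩
    intro h
    apply h1
    have h3 : (fourier 1 x.1 : ℂ) = fourier 1 y.1 := by
      have := h
      simp only [ch_apply, fourier_zero, mul_one] at this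
      exact this
    rw [fourier_one, fourier_one] at h3
    exact AddCircle.injective_toCircle one_ne_zero (Circle.coe_inj.1 h3)

theorem dense_span : (Submodule.span ℂ (Set.range ch)).topologicalClosure = ⊤ := by
  rw [← alg_coe]
  exact congr_arg (Subalgebra.toSubmodule <| StarSubalgebra.toSubalgebra ·)
    (ContinuousMap.starSubalgebra_topologicalClosure_eq_top_of_separatesPoints alg alg_sep)

section
variable {K : Type} [NormedAddCommGroup K] [InnerProductSpace ℂ K]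

/-- `μ` is the spectral measure of `ζ` -/
def Rep (U V : K ≃ₗᵢ[ℂ] K) (ζ : K) (μ : Measure TT) : Prop :=
  ∀ p : ℤ × ℤ, ∫ z : TT, ch p z ∂μ = ⟪ζ, (U ^ p.1 * V ^ p.2) ζ⟫_ℂ

/-- the operator of a trigonometric polynomial -/
noncomputable def Op (U V : K ≃ₗᵢ[ℂ] K) (c : (ℤ × ℤ) →₀ ℂ) (ζ : K) : K :=
  ∑ p ∈ c.support, c p • (U ^ p.1 * V ^ p.2) ζ

theorem Op_sub (U V : K ≃ₗᵢ[ℂ] K) (c : (ℤ × ℤ) →₀ ℂ) (ζ η : K) :
    Op U V c (ζ - η) = Op U V c ζ - Op U V c η := by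
  unfold Op
  rw [← Finset.sum_sub_distrib]
  refine Finset.sum_congr rfl fun p _ => ?_
  rw [map_sub, smul_sub]

/-- the trigonometric polynomial -/
noncomputable def tp (c : (ℤ × ℤ) →₀ ℂ) : C(TT, ℂ) := ∑ p ∈ c.support, c p • ch p

theorem tp_apply (c : (ℤ × ℤ) →₀ ℂ) (z : TT) : tp c z = ∑ p ∈ c.support, c p * ch p z := by
  unfold tp
  rw [ContinuousMap.sum_apply]
  rfl

theorem integrable_cont (μ : Measure TT) [IsFiniteMeasure μ] (f : C(TT, ℂ)) :
    Integrable (fun z => f z) μ := by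
  refine Integrable.of_bound f.continuous.aestronglyMeasurable ‖f‖ ?_
  exact Filter.Eventually.of_forall fun z => f.norm_coe_le_norm z

theorem rep_tp (U V : K ≃ₗᵢ[ℂ] K) (ζ : K) (μ : Measure TT) [IsFiniteMeasure μ]
    (h : Rep U V ζ μ) (c : (ℤ × ℤ) →₀ ℂ) : ∫ z, tp c z ∂μ = ⟪ζ, Op U V c ζ⟫_ℂ := by
  simp only [tp_apply]
  rw [integral_finsetSum _ (fun p _ => (integrable_cont μ (ch p)).const_mul (c p))]
  unfold Op
  rw [inner_sum]
  refine Finset.sum_congr rfl fun p _ => ?_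
  rw [integral_const_mul, h p, inner_smul_right]

theorem inner_pow (U V : K ≃ₗᵢ[ℂ] K) (hUV : U * V = V * U) (p q : ℤ × ℤ) (ζ : K) :
    ⟪(U ^ p.1 * V ^ p.2) ζ, (U ^ q.1 * V ^ q.2) ζ⟫_ℂ =
      ⟪ζ, (U ^ (q - p).1 * V ^ (q - p).2) ζ⟫_ℂ := by
  have h1 : (U ^ q.1 * V ^ q.2) = (U ^ p.1 * V ^ p.2) * (U ^ (q - p).1 * V ^ (q - p).2) := by
    have hc : Commute U V := hUV
    have h2 : V ^ p.2 * U ^ (q - p).1 = U ^ (q - p).1 * V ^ p.2 :=
      ((hc.zpow_zpow (q - p).1 p.2).eq).symm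
    calc U ^ q.1 * V ^ q.2 = U ^ (p.1 + (q - p).1) * V ^ (p.2 + (q - p).2) := by
          simp
      _ = U ^ p.1 * U ^ (q - p).1 * (V ^ p.2 * V ^ (q - p).2) := by
          rw [zpow_add, zpow_add]
      _ = U ^ p.1 * (U ^ (q - p).1 * V ^ p.2) * V ^ (q - p).2 := by group
      _ = U ^ p.1 * (V ^ p.2 * U ^ (q - p).1) * V ^ (q - p).2 := by rw [h2]
      _ = _ := by group
  rw [h1]
  exact LinearIsometryEquiv.inner_map_map _ _ _

theorem norm_Op_sq (U V : K ≃ₗᵢ[ℂ] K) (hUV : U * V = V * U) (ζ : K) (μ : Measure TT)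
    [IsFiniteMeasure μ] (h : Rep U V ζ μ) (c : (ℤ × ℤ) →₀ ℂ) :
    ⟪Op U V c ζ, Op U V c ζ⟫_ℂ = ∫ z, (starRingEnd ℂ) (tp c z) * tp c z ∂μ := by
  have h1 : ∀ z, (starRingEnd ℂ) (tp c z) * tp c z =
      ∑ p ∈ c.support, ∑ q ∈ c.support, ((starRingEnd ℂ) (c p) * c q) * ch (q - p) z := by
    intro z
    rw [tp_apply, map_sum, Finset.sum_mul_sum]
    refine Finset.sum_congr rfl fun p _ => Finset.sum_congr rfl fun q _ => ?_
    rw [map_mul, sub_eq_add_neg, ch_add, ch_neg]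
    ring
  simp only [h1]
  rw [integral_finsetSum _ (fun p _ => integrable_finsetSum _ fun q _ =>
    (integrable_cont μ (ch (q - p))).const_mul _)]
  unfold Op
  rw [sum_inner]
  refine Finset.sum_congr rfl fun p _ => ?_
  rw [integral_finsetSum _ (fun q _ => (integrable_cont μ (ch (q - p))).const_mul _), inner_sum]
  refine Finset.sum_congr rfl fun q _ => ?_
  rw [integral_const_mul, h (q - p), inner_smul_left, inner_smul_right, inner_pow U V hUV]
  ring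

theorem mass (U V : K ≃ₗᵢ[ℂ] K) (ζ : K) (μ : Measure TT)
    [IsFiniteMeasure μ] (h : Rep U V ζ μ) : μ.real Set.univ = ‖ζ‖ ^ 2 := by
  have h1 := h 0
  simp only [ch_zero, Prod.fst_zero, Prod.snd_zero, zpow_zero, mul_one] at h1
  rw [integral_const] at h1
  have h2 : ⟪ζ, (1 : K ≃ₗᵢ[ℂ] K) ζ⟫_ℂ = ⟪ζ, ζ⟫_ℂ := rfl
  rw [h2, inner_self_eq_norm_sq_to_K] at h1
  have h3 : ((μ.real Set.univ : ℝ) : ℂ) = ((‖ζ‖ ^ 2 : ℝ) : ℂ) := by
    rw [Complex.real_smul, mul_one] at h1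
    rw [h1]
    push_cast
    rfl
  exact_mod_cast h3

theorem norm_Op_le (U V : K ≃ₗᵢ[ℂ] K) (hUV : U * V = V * U) (ζ : K) (μ : Measure TT)
    [IsFiniteMeasure μ] (h : Rep U V ζ μ) (c : (ℤ × ℤ) →₀ ℂ) :
    ‖Op U V c ζ‖ ≤ ‖tp c‖ * ‖ζ‖ := by
  have h1 := norm_Op_sq U V hUV ζ μ h c
  have h2 : ‖∫ z, (starRingEnd ℂ) (tp c z) * tp c z ∂μ‖ ≤ ‖tp c‖ ^ 2 * μ.real Set.univ := by
    refine norm_integral_le_of_norm_le_const (Filter.Eventually.of_forall fun z => ?_)
    rw [norm_mul, RCLike.norm_conj, ← sq]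
    exact pow_le_pow_left₀ (norm_nonneg _) ((tp c).norm_coe_le_norm z) 2
  rw [← h1, mass U V ζ μ h, inner_self_eq_norm_sq_to_K] at h2
  have h3 : ‖Op U V c ζ‖ ^ 2 ≤ (‖tp c‖ * ‖ζ‖) ^ 2 := by
    have h4 : ‖((‖Op U V c ζ‖ : ℝ) : ℂ) ^ 2‖ = ‖Op U V c ζ‖ ^ 2 := by
      rw [norm_pow, Complex.norm_real, norm_norm]
    rw [mul_pow]
    calc _ = _ := h4.symm
      _ ≤ _ := h2
  exact (sq_le_sq₀ (norm_nonneg _) (by positivity)).1 h3

theorem diff_tp (U V : K ≃ₗᵢ[ℂ] K) (hUV : U * V = V * U) (ξ η : K) (μ ν κ : Measure TT)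
    [IsFiniteMeasure μ] [IsFiniteMeasure ν] [IsFiniteMeasure κ] (hμ : Rep U V ξ μ)
    (hν : Rep U V η ν) (hκ : Rep U V (ξ - η) κ) (c : (ℤ × ℤ) →₀ ℂ) :
    ‖∫ z, tp c z ∂μ - ∫ z, tp c z ∂ν‖ ≤ ‖tp c‖ * ((‖ξ‖ + ‖η‖) * ‖ξ - η‖) := by
  rw [rep_tp U V ξ μ hμ, rep_tp U V η ν hν]
  have h1 : ⟪ξ, Op U V c ξ⟫_ℂ - ⟪η, Op U V c η⟫_ℂ =
      ⟪ξ - η, Op U V c ξ⟫_ℂ + ⟪η, Op U V c (ξ - η)⟫_ℂ := by
    rw [Op_sub, inner_sub_left, inner_sub_right]
    ring
  rw [h1]
  refine (norm_add_le _ _).trans ?_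
  have h2 := norm_inner_le_norm (𝕜 := ℂ) (ξ - η) (Op U V c ξ)
  have h3 := norm_inner_le_norm (𝕜 := ℂ) η (Op U V c (ξ - η))
  have h4 := norm_Op_le U V hUV ξ μ hμ c
  have h5 := norm_Op_le U V hUV (ξ - η) κ hκ c
  have h6 := mul_le_mul_of_nonneg_left h4 (norm_nonneg (ξ - η))
  have h7 := mul_le_mul_of_nonneg_left h5 (norm_nonneg η)
  nlinarith [h2, h3, h6, h7]

theorem diff_cont (U V : K ≃ₗᵢ[ℂ] K) (hUV : U * V = V * U) (ξ η : K) (μ ν κ : Measure TT)
    [IsFiniteMeasure μ] [IsFiniteMeasure ν] [IsFiniteMeasure κ] (hμ : Rep U V ξ μ)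
    (hν : Rep U V η ν) (hκ : Rep U V (ξ - η) κ) (f : C(TT, ℂ)) :
    ‖∫ z, f z ∂μ - ∫ z, f z ∂ν‖ ≤ ‖f‖ * ((‖ξ‖ + ‖η‖) * ‖ξ - η‖) := by
  have hcl : IsClosed {f : C(TT, ℂ) | ‖∫ z, f z ∂μ - ∫ z, f z ∂ν‖ ≤
      ‖f‖ * ((‖ξ‖ + ‖η‖) * ‖ξ - η‖)} := by
    have hci : ∀ ρ : Measure TT, [IsFiniteMeasure ρ] →
        Continuous (fun f : C(TT, ℂ) => ∫ z, f z ∂ρ) := by
      intro ρ _
      have h0 : LipschitzWith (Real.toNNReal (ρ.real Set.univ))
          (fun f : C(TT, ℂ) => ∫ z, f z ∂ρ) := by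
        refine LipschitzWith.of_dist_le_mul fun f g => ?_
        rw [Real.coe_toNNReal _ measureReal_nonneg, dist_eq_norm, dist_eq_norm,
          ← integral_sub (integrable_cont ρ f) (integrable_cont ρ g), mul_comm]
        refine norm_integral_le_of_norm_le_const (Filter.Eventually.of_forall fun z => ?_)
        exact (f - g).norm_coe_le_norm z
      exact h0.continuous
    exact isClosed_le (((hci μ).sub (hci ν)).norm) (continuous_norm.mul continuous_const)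
  have hd : Dense (Submodule.span ℂ (Set.range ch) : Set C(TT, ℂ)) := by
    rw [dense_iff_closure_eq, ← Submodule.topologicalClosure_coe, dense_span]
    rfl
  refine hd.induction (P := fun f => ‖∫ z, f z ∂μ - ∫ z, f z ∂ν‖ ≤
      ‖f‖ * ((‖ξ‖ + ‖η‖) * ‖ξ - η‖)) ?_ hcl f
  intro g hg
  rw [SetLike.mem_coe, Finsupp.mem_span_range_iff_exists_finsupp] at hg
  obtain ⟨c, hc⟩ := hg
  have h1 : g = tp c := hc.symm
  rw [h1]
  exact diff_tp U V hUV ξ η μ ν κ hμ hν hκ c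

end

end VAR

open VAR MeasureTheory in
theorem t_VAR (hB : S_BOC) : S_VAR := by
  intro K _ _ U V hUV ξ η μ ν _ _ hμ hν S hS
  obtain ⟨κ, hκ1, hκ2⟩ := hB K U V hUV (ξ - η)
  have hμ' : Rep U V ξ μ := fun p => hμ p.1 p.2
  have hν' : Rep U V η ν := fun p => hν p.1 p.2
  have hκ' : Rep U V (ξ - η) κ := fun p => hκ2 p.1 p.2
  have hmain := diff_cont U V hUV ξ η μ ν κ hμ' hν' hκ'
  refine le_of_forall_pos_le_add fun ε hε => ?_
  -- regularity
  have hreg : ∃ F O : Set TT, IsClosed F ∧ IsOpen O ∧ F ⊆ S ∧ S ⊆ O ∧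
      (μ + ν) (O \ F) < ENNReal.ofReal ε := by
    have hε2 : ENNReal.ofReal (ε / 2) ≠ 0 := by
      simp only [ne_eq, ENNReal.ofReal_eq_zero, not_le]; linarith
    obtain ⟨F, hF1, hF2, hF3⟩ := hS.exists_isClosed_sdiff_lt (μ := μ + ν)
      (measure_ne_top _ _) hε2
    obtain ⟨O, hO1, hO2, hO3, hO4⟩ := hS.exists_isOpen_sdiff_lt (μ := μ + ν)
      (measure_ne_top _ _) hε2
    refine ⟨F, O, hF2, hO2, hF1, hO1, ?_⟩
    have h1 : O \ F ⊆ (O \ S) ∪ (S \ F) := by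
      intro z hz
      by_cases h : z ∈ S
      · exact Or.inr ⟨h, hz.2⟩
      · exact Or.inl ⟨hz.1, h⟩
    calc (μ + ν) (O \ F) ≤ (μ + ν) ((O \ S) ∪ (S \ F)) := measure_mono h1
      _ ≤ (μ + ν) (O \ S) + (μ + ν) (S \ F) := measure_union_le _ _
      _ < ENNReal.ofReal (ε / 2) + ENNReal.ofReal (ε / 2) := ENNReal.add_lt_add hO4 hF3
      _ = ENNReal.ofReal ε := by
          rw [← ENNReal.ofReal_add (by linarith) (by linarith)]; congr 1; ring
  obtain ⟨F, O, hF, hO, hFS, hSO, hFO⟩ := hreg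
  obtain ⟨f, hf0, hf1, hf01⟩ := exists_continuous_zero_one_of_isClosed
    (s := Oᶜ) (t := F) hO.isClosed_compl hF
    (Set.disjoint_left.2 fun z hz1 hz2 => hz1 (hSO (hFS hz2)))
  -- comparison with the indicator
  have hcomp : ∀ ρ : Measure TT, [IsFiniteMeasure ρ] →
      |∫ z, f z ∂ρ - ρ.real S| ≤ ρ.real (O \ F) := by
    intro ρ _
    have hfi : Integrable (fun z => f z) ρ := by
      refine Integrable.of_bound f.continuous.aestronglyMeasurable 1 ?_
      refine Filter.Eventually.of_forall fun z => ?_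
      rw [Real.norm_of_nonneg (hf01 z).1]
      exact (hf01 z).2
    have hOF : MeasurableSet (O \ F) := hO.measurableSet.diff hF.measurableSet
    have hS1 : ρ.real S = ∫ z, S.indicator (fun _ => (1 : ℝ)) z ∂ρ := by
      rw [integral_indicator hS, setIntegral_const, smul_eq_mul, mul_one]
    have hS2 : ρ.real (O \ F) = ∫ z, (O \ F).indicator (fun _ => (1 : ℝ)) z ∂ρ := by
      rw [integral_indicator hOF, setIntegral_const, smul_eq_mul, mul_one]
    have hi1 : Integrable (fun z => S.indicator (fun _ => (1 : ℝ)) z) ρ :=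
      (integrable_const (1 : ℝ)).indicator hS
    have hi2 : Integrable (fun z => (O \ F).indicator (fun _ => (1 : ℝ)) z) ρ :=
      (integrable_const (1 : ℝ)).indicator hOF
    rw [hS1, hS2, ← integral_sub hfi hi1]
    refine (abs_integral_le_integral_abs).trans ?_
    refine integral_mono (hfi.sub hi1).abs hi2 fun z => ?_
    show |f z - S.indicator (fun _ => (1 : ℝ)) z| ≤ (O \ F).indicator (fun _ => (1 : ℝ)) z
    by_cases hzF : z ∈ F
    · have h2 : f z = 1 := hf1 hzF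
      have h3 : z ∈ S := hFS hzF
      rw [Set.indicator_of_mem h3, h2, sub_self, abs_zero]
      exact Set.indicator_nonneg (fun _ _ => zero_le_one) z
    · by_cases hzO : z ∈ O
      · rw [Set.indicator_of_mem (show z ∈ O \ F from ⟨hzO, hzF⟩)]
        have h4 := hf01 z
        by_cases hzS : z ∈ S
        · rw [Set.indicator_of_mem hzS, abs_le]
          constructor <;> linarith [h4.1, h4.2]
        · rw [Set.indicator_of_notMem hzS, abs_le]
          constructor <;> linarith [h4.1, h4.2]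
      · have h2 : f z = 0 := hf0 hzO
        have h3 : z ∉ S := fun h => hzO (hSO h)
        rw [Set.indicator_of_notMem h3, h2, sub_self, abs_zero]
        exact Set.indicator_nonneg (fun _ _ => zero_le_one) z
  have hc1 := hcomp μ
  have hc2 := hcomp ν
  -- the complex function
  let g : C(TT, ℂ) := ⟨fun z => ((f z : ℝ) : ℂ), Complex.continuous_ofReal.comp f.continuous⟩
  have hg : ‖g‖ ≤ 1 := by
    rw [ContinuousMap.norm_le _ zero_le_one]
    intro z
    show ‖((f z : ℝ) : ℂ)‖ ≤ 1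
    rw [Complex.norm_real, Real.norm_of_nonneg (hf01 z).1]
    exact (hf01 z).2
  have hg2 := hmain g
  have hg3 : ∀ ρ : Measure TT, ∫ z, g z ∂ρ = ((∫ z, f z ∂ρ : ℝ) : ℂ) := by
    intro ρ
    exact integral_ofReal
  rw [hg3, hg3, ← Complex.ofReal_sub, Complex.norm_real, Real.norm_eq_abs] at hg2
  have hB0 : 0 ≤ (‖ξ‖ + ‖η‖) * ‖ξ - η‖ := by positivity
  have hg4 : |∫ z, f z ∂μ - ∫ z, f z ∂ν| ≤ (‖ξ‖ + ‖η‖) * ‖ξ - η‖ :=
    hg2.trans ((mul_le_mul_of_nonneg_right hg hB0).trans (by rw [one_mul]))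
  have hsum : μ.real (O \ F) + ν.real (O \ F) ≤ ε := by
    have h5 : (μ + ν).real (O \ F) = μ.real (O \ F) + ν.real (O \ F) := by
      rw [measureReal_add_apply]
    rw [← h5, Measure.real]
    exact ENNReal.toReal_le_of_le_ofReal hε.le hFO.le
  rw [abs_le] at *
  constructor <;> linarith [hc1.1, hc1.2, hc2.1, hc2.2, hg4.1, hg4.2]

end Pool.Agent.H469R2.NL
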