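import Pool.Agent.H469R2.NL.Defs

set_option autoImplicit false

open scoped InnerProductSpace Topology ComplexOrder BoundedContinuousFunction
open Filter Pool.Agent.Helper278 Pool.Agent.Helper436.SM

namespace Pool.Agent.H469R2.NL

theorem WORDS_nonneg {κ : Type} [Fintype κ] [DecidableEq κ] (P Q : Matrix κ κ ℂ)
    (hP : star P = P) (hP2 : P * P = P) (hQ : star Q = Q) (hQ2 : Q * Q = Q) :
    0 ≤ ntr (P * Q) := by
  have h1 : (P * Q).trace = (Matrix.conjTranspose (Q * P) * (Q * P)).trace := by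
    rw [Matrix.conjTranspose_mul]
    have e1 : Matrix.conjTranspose P = P := hP
    have e2 : Matrix.conjTranspose Q = Q := hQ
    rw [e1, e2]
    have e3 : P * Q * (Q * P) = P * Q * P := by
      rw [Matrix.mul_assoc P Q (Q * P), ← Matrix.mul_assoc Q Q P, hQ2, Matrix.mul_assoc]
    rw [e3, Matrix.trace_mul_comm (P * Q) P, ← Matrix.mul_assoc, hP2]
  unfold ntr
  rw [h1]
  apply mul_nonneg
  · rw [inv_nonneg]
    exact Nat.cast_nonneg _
  · exact (Matrix.posSemidef_conjTranspose_mul_self (Q * P)).trace_nonneg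

theorem WORDS_le_one {κ : Type} [Fintype κ] [DecidableEq κ] (P Q : Matrix κ κ ℂ)
    (hP : star P = P) (hP2 : P * P = P) (hQ : star Q = Q) (hQ2 : Q * Q = Q) :
    ntr (P * Q) ≤ 1 := by
  have h1 := WORDS_nonneg P (1 - Q) hP hP2 (by rw [star_sub, star_one, hQ]) (by
    rw [sub_mul, mul_sub, mul_sub, hQ2]; simp)
  have h2 := WORDS_nonneg 1 (1 - P) (star_one _) (by simp) (by rw [star_sub, star_one, hP]) (by
    rw [sub_mul, mul_sub, mul_sub, hP2]; simp)
  have h3 : ntr (P * Q) + ntr (P * (1 - Q)) + ntr (1 * (1 - P)) = ntr (1 : Matrix κ κ ℂ) := by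
    unfold ntr
    rw [← mul_add, ← mul_add, ← Matrix.trace_add, ← Matrix.trace_add]
    congr 2
    rw [mul_sub, mul_one, one_mul]
    abel
  have h4 : ntr (1 : Matrix κ κ ℂ) ≤ 1 := by
    unfold ntr
    rw [Matrix.trace_one]
    by_cases hc : (Fintype.card κ : ℂ) = 0
    · rw [hc]; simp
    · rw [inv_mul_cancel₀ hc]
  calc ntr (P * Q) ≤ ntr (P * Q) + ntr (P * (1 - Q)) := le_add_of_nonneg_right h1
    _ ≤ ntr (P * Q) + ntr (P * (1 - Q)) + ntr (1 * (1 - P)) := le_add_of_nonneg_right h2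
    _ = ntr (1 : Matrix κ κ ℂ) := h3
    _ ≤ 1 := h4

theorem t_WORDS (hTR : S_TRANSFER) (hWM : S_WMOD) (hAM : S_AGMOD) (hAE : S_AGEX)
    (hWE : S_WEX) : S_WORDS := by
  classical
  intro H _ _ _ N T W hPW Γ B _ _ wd ε hwd κ _ _ hκ g hg hlim hno
  haveI hne : ∀ n, Nonempty (κ n) := fun n => by
    obtain ⟨L, hL⟩ := hκ n
    rw [← Fintype.card_pos_iff, hL]
    positivity
  choose E hE1 hE2 using fun n => hWM Γ B wd ε (κ n) (g n) (hg n)
  -- the traces
  let Idx : Type := (IW Γ B wd × OO) × (IW Γ B wd × OO)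
  let y : ℕ → Idx → ℝ := fun n a => (ntr (E n a.1.1 a.1.2 * E n a.2.1 a.2.2)).re
  have hy0 : ∀ n (a : Idx), 0 ≤ ntr (E n a.1.1 a.1.2 * E n a.2.1 a.2.2) := fun n a =>
    WORDS_nonneg _ _ ((hE1 n a.1.1).sa _) ((hE1 n a.1.1).idem _) ((hE1 n a.2.1).sa _)
      ((hE1 n a.2.1).idem _)
  have hy1 : ∀ n (a : Idx), ntr (E n a.1.1 a.1.2 * E n a.2.1 a.2.2) ≤ 1 := fun n a =>
    WORDS_le_one _ _ ((hE1 n a.1.1).sa _) ((hE1 n a.1.1).idem _) ((hE1 n a.2.1).sa _)
      ((hE1 n a.2.1).idem _)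
  have hyr : ∀ n (a : Idx), ((y n a : ℝ) : ℂ) = ntr (E n a.1.1 a.1.2 * E n a.2.1 a.2.2) := by
    intro n a
    have h := (Complex.nonneg_iff.1 (hy0 n a)).2
    apply Complex.ext
    · rfl
    · rw [Complex.ofReal_im]; exact h
  have hyb : ∀ n, y n ∈ Metric.closedBall (0 : Idx → ℝ) 1 := by
    intro n
    rw [mem_closedBall_zero_iff, pi_norm_le_iff_of_nonneg zero_le_one]
    intro a
    have h0 := (Complex.nonneg_iff.1 (hy0 n a)).1
    have h1 := (Complex.le_def.1 (hy1 n a)).1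
    rw [Real.norm_eq_abs, abs_of_nonneg h0]
    exact h1
  obtain ⟨c, -, φ, hφ, hc⟩ := tendsto_subseq_of_bounded Metric.isBounded_closedBall hyb
  have hc' : ∀ a : Idx, Tendsto (fun n => y (φ n) a) atTop (𝓝 (c a)) := fun a =>
    (tendsto_pi_nhds.1 hc) a
  have hcC : ∀ i α k β, Tendsto (fun n => ntr (E (φ n) i α * E (φ n) k β)) atTop
      (𝓝 ((c ((i, α), (k, β)) : ℝ) : ℂ)) := by
    intro i α k β
    have h := (Complex.continuous_ofReal.tendsto _).comp (hc' ((i, α), (k, β)))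
    refine h.congr (fun n => ?_)
    exact hyr (φ n) ((i, α), (k, β))
  haveI : Nonempty (IW Γ B wd) := ⟨ms 0⟩
  refine hTR H N T W hPW (IW Γ B wd) OO (fun n => κ (φ n) × (ZMod 2 × ZMod 2)) ?_
    (fun n => E (φ n)) (fun n i => hE1 (φ n) i) (fun i α k β => c ((i, α), (k, β))) hcC ?_
  · intro n
    obtain ⟨L, hL⟩ := hκ (φ n)
    refine ⟨L + 2, ?_⟩
    rw [Fintype.card_prod, hL, Fintype.card_prod, ZMod.card]
    ring
  · rintro ⟨A, i1, i2, i3, i4, j, hj, E', hE', horth⟩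
    apply hno
    refine ⟨A, i1, i2, i3, i4, j, hj, ?_⟩
    apply hWE Γ B wd ε hwd A E' hE'
    intro i f k f' hag
    apply hAE A OO (E' i) (E' k) (hE' i) (hE' k)
    intro α β hne'
    apply horth
    have hlim0 : Tendsto (fun n => 4 * ∑ b, n2 ntr (((wd b).map (g (φ n))).prod -
        ((sgb (ε b) : ℝ) : ℂ) • (1 : Matrix (κ (φ n)) (κ (φ n)) ℂ))) atTop (𝓝 0) := by
      have h1 : Tendsto (fun n => 4 * ∑ b, n2 ntr (((wd b).map (g n)).prod -
          ((sgb (ε b) : ℝ) : ℂ) • (1 : Matrix (κ n) (κ n) ℂ))) atTop (𝓝 (4 * ∑ _b : B, (0:ℝ))) :=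
        (tendsto_finsetSum _ (fun b _ => hlim b)).const_mul 4
      rw [Finset.sum_const_zero, mul_zero] at h1
      exact h1.comp hφ.tendsto_atTop
    have h2 : Tendsto (fun n => n2 ntr (Ev (E (φ n) i) f - Ev (E (φ n) k) f')) atTop (𝓝 0) :=
      squeeze_zero (fun n => n2_nonneg _ _) (fun n => hE2 (φ n) i f k f' hag) hlim0
    have h3 := hAM OO (fun n => κ (φ n) × (ZMod 2 × ZMod 2)) (fun n => E (φ n) i)
      (fun n => E (φ n) k) (fun n => hE1 (φ n) i) (fun n => hE1 (φ n) k) f f' h2 α β hne'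
    have h4 := tendsto_nhds_unique (hcC i α k β) h3
    exact_mod_cast h4

end Pool.Agent.H469R2.NL
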